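import Pool.Agent.Lib.MP_1a91b9_ntQ.Em
import Pool.Agent.Lib.MP_1a91b9_nuT.S3.Main
import Pool.Agent.Lib.MP_1a91b9_nuT.S3.Grp

/-!
# Phase 6, part A, file Q8: the datum of `Y² = X³ - 4 X² + 2 X`, `𝓞 K = ℤ[√-2]`

`Q8`: `tr = 0`, `nm = 2`, `A = -4320`, `B = -96768` and the multiplication by `zt = √-2 =: lm`.
`pe = 1 / lm` is the point `(0, 0)`; `xx = (X + 48) / 36`, `yy = Y / 432`, `om = 6 Om`,
`sg u v` is the slope of the chord, `ff z = sg z pe = (yy / xx) (z)`, `rt = xx (1/2) - 2`, a square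
root of `2`.
-/

set_option autoImplicit false
set_option linter.unusedSectionVars false

namespace Pool.Agent.Lib.MP_1a91b9_ntW

open NumberField Pool.Agent.Lib.MP_1a91b9_nuT Pool.Agent.Lib.MP_1a91b9_nuT.S3
  Pool.Agent.Lib.MP_1a91b9_nuT.Ell

noncomputable section

/-- the datum of the curve `Y² = X³ - 4 X² + 2 X` -/
class Q8 [CD] : Prop where
  tr : CD.tr = 0
  nm : CD.nm = 2
  A : CD.A = -4320
  B : CD.B = -96768
  mul : ∀ z : ℂ, z ∉ PP.lattice → zt * z ∉ PP.lattice →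
    X z ^ 2 + 48 * X z + 2592 = X (zt * z) * (-2 * (X z + 48))

variable [CD]

/-- the complex number `√-2` -/
def lm : ℂ := zt

/-- the point of order two `1 / √-2` -/
def pe : ℂ := lm⁻¹

/-- the period of the model -/
def om : ℂ := 6 * Om

/-- the abscissa -/
def xx (z : ℂ) : ℂ := (X z + 48) / 36

/-- the ordinate -/
def yy (z : ℂ) : ℂ := Y z / 432

/-- the slope -/
def sg (u v : ℂ) : ℂ := (E1 (u + v) - E1 u - E1 v) / om

/-- the function `yy / xx` -/
def ff (z : ℂ) : ℂ := sg z pe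

/-- the square root of two -/
def rt : ℂ := xx (1 / 2) - 2

theorem om_ne : om ≠ 0 := mul_ne_zero (by norm_num) Om_ne_zero

theorem sg_eq (u v : ℂ) : sg u v = sl u v / 6 := by
  rw [sg, sl, om, div_div, mul_comm]

section
variable [hq : Q8]
include hq

theorem lm_sq : lm ^ 2 = -2 := by
  rw [lm, S3.zt_quad, hq.tr, hq.nm]
  simp

theorem lm_mul_lm : lm * lm = -2 := by rw [← pow_two, lm_sq]

theorem lm_ne : lm ≠ 0 := by
  intro h
  have := lm_sq
  rw [h] at this
  norm_num at this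

omit hq in
theorem em_ta : Pool.Agent.Lib.MP_1a91b9_ntQ.em (ta : 𝓞 K) = lm := rfl

theorem lm_four : lm ^ 4 = 4 := by
  have : lm ^ 4 = (lm ^ 2) ^ 2 := by ring
  rw [this, lm_sq]
  norm_num

theorem lm_mul_pe : lm * pe = 1 := mul_inv_cancel₀ lm_ne

theorem pe_eq : pe = -(lm / 2) := by
  have h : lm * (-(lm / 2)) = 1 := by linear_combination (-1 / 2) * lm_sq
  exact mul_left_cancel₀ lm_ne (lm_mul_pe.trans h.symm)

/-! ### The lattice -/

omit hq in
theorem lm_mem : lm ∈ PP.lattice := zt_mem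

omit hq in
theorem lm_mem_mul {x : ℂ} (h : x ∈ PP.lattice) : lm * x ∈ PP.lattice := zt_mul_mem h

omit hq in
theorem notMem_of_lm {z : ℂ} (h : lm * z ∉ PP.lattice) : z ∉ PP.lattice := fun h1 =>
  h (lm_mem_mul h1)

theorem two_mem_of_lm {z : ℂ} (h : lm * z ∈ PP.lattice) : 2 * z ∈ PP.lattice := by
  have h1 := neg_mem (lm_mem_mul h)
  have e : -(lm * (lm * z)) = 2 * z := by linear_combination (-z) * lm_sq
  rwa [e] at h1

theorem lm_notMem {z : ℂ} (h : 2 * z ∉ PP.lattice) : lm * z ∉ PP.lattice := fun h1 =>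
  h (two_mem_of_lm h1)

omit hq in
theorem em_mem (x : 𝓞 K) : Pool.Agent.Lib.MP_1a91b9_ntQ.em x ∈ PP.lattice := S3.embK_mem x

omit hq in
theorem mul_mem' {x y : ℂ} (hx : x ∈ PP.lattice) (hy : y ∈ PP.lattice) : x * y ∈ PP.lattice :=
  S3.mul_mem hx hy

theorem two_pe : 2 * pe = -lm := by rw [pe_eq]; ring

theorem two_pe_mem : 2 * pe ∈ PP.lattice := by
  rw [two_pe]
  exact neg_mem lm_mem

/-- `m + n √-2 = 0` only for `m = n = 0` -/
theorem coord_zero {m n : ℤ} (h : (m : ℂ) + (n : ℂ) * lm = 0) : m = 0 ∧ n = 0 := by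
  have h2 : ((m ^ 2 + 2 * n ^ 2 : ℤ) : ℂ) = ((0 : ℤ) : ℂ) := by
    push_cast
    linear_combination ((m : ℂ) - n * lm) * h + (n : ℂ) ^ 2 * lm_sq
  have h3 : m ^ 2 + 2 * n ^ 2 = 0 := Int.cast_injective h2
  have h4 : m ^ 2 = 0 := by nlinarith [sq_nonneg m, sq_nonneg n]
  have h5 : n ^ 2 = 0 := by nlinarith [sq_nonneg m, sq_nonneg n]
  exact ⟨pow_eq_zero_iff two_ne_zero |>.1 h4, pow_eq_zero_iff two_ne_zero |>.1 h5⟩

theorem pe_notMem : pe ∉ PP.lattice := by
  intro h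
  obtain ⟨m, n, e⟩ := mem_PP.1 h
  have h1 : ((2 * m : ℤ) : ℂ) + ((2 * n + 1 : ℤ) : ℂ) * lm = 0 := by
    have := two_pe
    rw [← e] at this
    push_cast
    have h0 : zt = lm := rfl
    rw [h0] at this
    linear_combination this
  have := (coord_zero h1).2
  omega

theorem half_notMem' : (1 / 2 : ℂ) ∉ PP.lattice := by
  intro h
  obtain ⟨m, n, e⟩ := mem_PP.1 h
  have h0 : zt = lm := rfl
  rw [h0] at e
  have h1 : ((2 * m - 1 : ℤ) : ℂ) + ((2 * n : ℤ) : ℂ) * lm = 0 := by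
    push_cast
    linear_combination 2 * e
  have := (coord_zero h1).1
  omega

omit hq in
theorem two_half_mem : 2 * (1 / 2 : ℂ) ∈ PP.lattice := by
  have e : 2 * (1 / 2 : ℂ) = 1 := by norm_num
  rw [e]
  exact one_mem

theorem pe_shift (z : ℂ) : z + pe - (z - pe) ∈ PP.lattice := by
  have e : z + pe - (z - pe) = 2 * pe := by ring
  rw [e]
  exact two_pe_mem

/-! ### Periods -/

omit hq in
theorem xx_add {l : ℂ} (hl : l ∈ PP.lattice) (z : ℂ) : xx (z + l) = xx z := by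
  rw [xx, xx, Ell.X_add hl]

omit hq in
theorem yy_add {l : ℂ} (hl : l ∈ PP.lattice) (z : ℂ) : yy (z + l) = yy z := by
  rw [yy, yy, Ell.Y_add hl]

omit hq in
theorem xx_neg (z : ℂ) : xx (-z) = xx z := by rw [xx, xx, Ell.X_neg]

omit hq in
theorem yy_neg (z : ℂ) : yy (-z) = -yy z := by rw [yy, yy, Ell.Y_neg, neg_div]

omit hq in
theorem xx_congr {x y : ℂ} (h : x - y ∈ PP.lattice) : xx x = xx y := by
  have e : x = y + (x - y) := by ring
  rw [e, xx_add h]

omit hq in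
theorem yy_congr {x y : ℂ} (h : x - y ∈ PP.lattice) : yy x = yy y := by
  have e : x = y + (x - y) := by ring
  rw [e, yy_add h]

omit hq in
theorem E1_congr' {x y : ℂ} (h : x - y ∈ PP.lattice) : E1 x = E1 y := by
  have e : x = y + (x - y) := by ring
  rw [e, S3.E1_add h]

omit hq in
/-- the value of `E1` at a point of order two -/
theorem E1_two {t : ℂ} (ht : 2 * t ∈ PP.lattice) : E1 t = 0 := by
  have h3 := S3.E1_neg t
  have h4 := S3.E1_add ht (-t)
  have e : -t + 2 * t = t := by ring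
  rw [e] at h4
  linear_combination (1 / 2) * (h3 + h4)

omit hq in
/-- adding a point of order two -/
theorem E1_add_two {t : ℂ} (ht : 2 * t ∈ PP.lattice) (z : ℂ) : E1 (z + t) = E1 z + om * sg z t := by
  rw [sg, E1_two ht, mul_div_cancel₀ _ om_ne]
  ring

omit hq in
theorem E1_add_sg (u v : ℂ) : E1 (u + v) = E1 u + E1 v + om * sg u v := by
  rw [sg, mul_div_cancel₀ _ om_ne]
  ring

theorem E1_pe : E1 pe = 0 := E1_two two_pe_mem

theorem ff_eq (z : ℂ) : ff z = (E1 (z + pe) - E1 z) / om := by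
  rw [ff, sg, E1_pe, sub_zero]

theorem E1_add_pe (z : ℂ) : E1 (z + pe) = E1 z + om * ff z := by
  rw [ff_eq, mul_div_cancel₀ _ om_ne]
  ring

theorem ff_add {l : ℂ} (hl : l ∈ PP.lattice) (z : ℂ) : ff (z + l) = ff z := by
  rw [ff_eq, ff_eq, S3.E1_add hl]
  have e : z + l + pe = z + pe + l := by ring
  rw [e, S3.E1_add hl]

theorem ff_congr {x y : ℂ} (h : x - y ∈ PP.lattice) : ff x = ff y := by
  have e : x = y + (x - y) := by ring
  rw [e, ff_add h]

theorem ff_add_pe (z : ℂ) : ff (z + pe) = -ff z := by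
  have e : z + pe + pe = z + 2 * pe := by ring
  rw [ff_eq, ff_eq, e, S3.E1_add two_pe_mem]
  ring

theorem ff_neg (z : ℂ) : ff (-z) = -ff z := by
  rw [ff_eq, ff_eq]
  have e : -z + pe = -(z - pe) := by ring
  have h : E1 (z - pe) = E1 (z + pe) := (E1_congr' (pe_shift z)).symm
  rw [e, S3.E1_neg, S3.E1_neg, h]
  ring

/-! ### The curve -/

/-- the curve -/
theorem yy_sq {z : ℂ} (hz : z ∉ PP.lattice) :
    yy z ^ 2 = xx z ^ 3 - 4 * xx z ^ 2 + 2 * xx z := by
  have h := Y_sq hz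
  have hA : cA ℂ = -4320 := by
    change ((CD.A : ℤ) : ℂ) = -4320
    rw [hq.A]
    norm_num
  have hB : cB ℂ = -96768 := by
    change ((CD.B : ℤ) : ℂ) = -96768
    rw [hq.B]
    norm_num
  rw [hA, hB] at h
  rw [yy, xx]
  linear_combination h / 432 ^ 2

theorem sg_sq {u v : ℂ} (hu : u ∉ PP.lattice) (hv : v ∉ PP.lattice) (huv : u + v ∉ PP.lattice) :
    sg u v ^ 2 = xx u + xx v + xx (u + v) - 4 := by
  have h := Ell.sl_sq hu hv huv
  rw [sg_eq, xx, xx, xx]
  linear_combination -h / 36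

omit hq in
theorem sg_chord {z w : ℂ} (hz : 2 * z ∉ PP.lattice) (hw : 2 * w ∉ PP.lattice)
    (h1 : z - w ∉ PP.lattice) (h2 : z + w ∉ PP.lattice) :
    yy z - yy w = sg z w * (xx z - xx w) := by
  have h := Ell.chord hz hw h1 h2
  rw [sg_eq, xx, xx, yy, yy]
  linear_combination h / 432

/-- the addition of a point of order two -/
theorem sg_two {t z : ℂ} (ht : 2 * t ∈ PP.lattice) (ht0 : t ∉ PP.lattice)
    (hz : 2 * z ∉ PP.lattice) : sg z t * (xx z - xx t) = yy z := by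
  have h1 : t - z ∉ PP.lattice := by
    intro h
    apply hz
    have := sub_mem ht (add_mem h h)
    have e : 2 * t - (t - z + (t - z)) = 2 * z := by ring
    rwa [e] at this
  have h2 : t + z ∉ PP.lattice := by
    intro h
    apply hz
    have := sub_mem (add_mem h h) ht
    have e : t + z + (t + z) - 2 * t = 2 * z := by ring
    rwa [e] at this
  have h := sig hz ht0 h1 h2
  have hE : E1 t = 0 := E1_two ht
  have h5 : E1 (t - z) = -E1 (z + t) := by
    rw [← S3.E1_neg]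
    have h6 := S3.E1_add ht (-(z + t))
    have e : -(z + t) + 2 * t = t - z := by ring
    rw [e] at h6
    exact h6
  rw [h5, add_comm t z] at h
  have hO := Om_ne_zero
  rw [sg, hE, xx, xx, yy, X, X, Y, om]
  field_simp
  linear_combination 216 * h

/-- the multiplication by `√-2` -/
theorem xx_lm0 {z : ℂ} (hz : z ∉ PP.lattice) (hz' : lm * z ∉ PP.lattice) :
    -2 * xx z * xx (lm * z) = xx z ^ 2 - 4 * xx z + 2 := by
  have h := hq.mul z hz hz'
  have h0 : zt = lm := rfl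
  rw [h0] at h
  rw [xx, xx]
  linear_combination -h / 36 ^ 2

theorem yy_two {t : ℂ} (ht : 2 * t ∈ PP.lattice) : yy t = 0 := by
  rw [yy, Y, Q_half ht, zero_div, zero_div]

theorem lm_half : lm * (1 / 2) ∉ PP.lattice := by
  have e : lm * (1 / 2) = -pe := by rw [pe_eq]; ring
  rw [e]
  exact fun h => pe_notMem (by simpa using neg_mem h)

theorem xx_half_eq : xx (1 / 2) ^ 2 - 4 * xx (1 / 2) + 2 = 0 := by
  have h1 := yy_sq half_notMem'
  rw [yy_two two_half_mem] at h1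
  have h2 : xx (1 / 2) * (xx (1 / 2) ^ 2 - 4 * xx (1 / 2) + 2) = 0 := by
    linear_combination -h1
  rcases mul_eq_zero.1 h2 with h3 | h3
  · exfalso
    have h4 := xx_lm0 half_notMem' lm_half
    rw [h3] at h4
    norm_num at h4
  · exact h3

theorem rt_sq : rt ^ 2 = 2 := by
  rw [rt]
  linear_combination xx_half_eq

theorem xx_half : xx (1 / 2) = 2 + rt := by
  rw [rt]
  ring

theorem rt_ne : rt ≠ 0 := by
  intro h
  have := rt_sq
  rw [h] at this
  norm_num at this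

theorem two_add_rt_ne : 2 + rt ≠ 0 := by
  intro h
  have h1 := rt_sq
  have h2 : rt = -2 := by linear_combination h
  rw [h2] at h1
  norm_num at h1

theorem xx_pe : xx pe = 0 := by
  have h := xx_lm0 half_notMem' lm_half
  rw [xx_half_eq] at h
  have e : lm * (1 / 2) = -pe := by rw [pe_eq]; ring
  rw [e, xx_neg, xx_half] at h
  have h1 : (2 + rt) * xx pe = 0 := by linear_combination -h / 2
  exact (mul_eq_zero.1 h1).resolve_left two_add_rt_ne

theorem ff_mul {z : ℂ} (hz : 2 * z ∉ PP.lattice) : ff z * xx z = yy z := by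
  have h := sg_two two_pe_mem pe_notMem hz
  rw [xx_pe, sub_zero] at h
  exact h

theorem yy_ne {z : ℂ} (hz : 2 * z ∉ PP.lattice) : yy z ≠ 0 := by
  intro h
  apply Per.Q_ne hz
  have hO := Om_ne_zero
  rw [yy, Y, div_div, div_eq_zero_iff] at h
  exact h.resolve_right (mul_ne_zero (pow_ne_zero 3 hO) (by norm_num))

theorem xx_ne {z : ℂ} (hz : 2 * z ∉ PP.lattice) : xx z ≠ 0 := by
  intro h
  have h1 := ff_mul hz
  rw [h, mul_zero] at h1
  exact yy_ne hz h1.symm

theorem ff_ne {z : ℂ} (hz : 2 * z ∉ PP.lattice) : ff z ≠ 0 := by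
  intro h
  have h1 := ff_mul hz
  rw [h, zero_mul] at h1
  exact yy_ne hz h1.symm

theorem ff_sq_mul {z : ℂ} (hz : 2 * z ∉ PP.lattice) :
    ff z ^ 2 * xx z = xx z ^ 2 - 4 * xx z + 2 := by
  have h1 := ff_mul hz
  have h2 := yy_sq (notMem_of_two_mul hz)
  apply mul_left_cancel₀ (xx_ne hz)
  rw [← h1] at h2
  linear_combination h2

theorem xx_lm {z : ℂ} (hz : 2 * z ∉ PP.lattice) :
    -2 * xx z * xx (lm * z) = xx z ^ 2 - 4 * xx z + 2 :=
  xx_lm0 (notMem_of_two_mul hz) (lm_notMem hz)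

theorem ff_sq {z : ℂ} (hz : 2 * z ∉ PP.lattice) : ff z ^ 2 = -2 * xx (lm * z) := by
  apply mul_right_cancel₀ (xx_ne hz)
  rw [ff_sq_mul hz, ← xx_lm hz]
  ring

theorem two_add_two {t z : ℂ} (ht : 2 * t ∈ PP.lattice) (hz : 2 * z ∉ PP.lattice) :
    2 * (z + t) ∉ PP.lattice := by
  intro h
  apply hz
  have e : 2 * z = 2 * (z + t) - 2 * t := by ring
  rw [e]
  exact sub_mem h ht

theorem xx_add_pe {z : ℂ} (hz : 2 * z ∉ PP.lattice) : xx (z + pe) * xx z = 2 := by
  have h1 := sg_sq (notMem_of_two_mul hz) pe_notMem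
    (notMem_of_two_mul (two_add_two two_pe_mem hz))
  rw [xx_pe] at h1
  have h2 := ff_sq_mul hz
  rw [ff] at h2
  linear_combination -xx z * h1 + h2

theorem yy_add_pe {z : ℂ} (hz : 2 * z ∉ PP.lattice) : yy (z + pe) * xx z ^ 2 = -2 * yy z := by
  have h1 := ff_mul (two_add_two two_pe_mem hz)
  rw [ff_add_pe] at h1
  rw [← h1, ← ff_mul hz]
  linear_combination (-ff z * xx z) * xx_add_pe hz

end

end

end Pool.Agent.Lib.MP_1a91b9_ntW
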