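import Pool.Agent.Lib.MP_1a91b9_ntW.Base
import Pool.Agent.Lib.MP_1a91b9_ntW.A.Q8

/-!
# Phase 6, part A: the instance of `Q8` for the field `ℚ(√-2)`
-/

set_option autoImplicit false

namespace Pool.Agent.Lib.MP_1a91b9_ntW

open NumberField Pool.Agent.Lib.MP_1a91b9_nuT
open Pool.Agent.Lib.MP_1a91b9_ntQ (em em_add em_mul em_pow em_sub em_zero em_one em_ne em_intCast)

instance q8 : Q8 where
  tr := rfl
  nm := rfl
  A := rfl
  B := rfl
  mul := by
    intro z h1 h2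
    have h := mulP8 z h1 h2
    have hO : Om8 ≠ 0 := Om8_ne
    change (PP8.weierstrassP z / Om8 ^ 2) ^ 2 + 48 * (PP8.weierstrassP z / Om8 ^ 2) + 2592 =
      PP8.weierstrassP (emb8 (lam8 : K8) * z) / Om8 ^ 2 *
        (-2 * (PP8.weierstrassP z / Om8 ^ 2 + 48))
    field_simp
    linear_combination h

theorem em_lam : em (lam8 : 𝓞 K8) = lm := rfl

theorem em_coords (m n : ℤ) : em ((m : 𝓞 K8) + (n : 𝓞 K8) * lam8) = (m : ℂ) + (n : ℂ) * lm := by
  rw [em_add, em_mul, em_intCast, em_intCast, em_lam]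

end Pool.Agent.Lib.MP_1a91b9_ntW
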