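import Pool.Agent.Lib.MP_1a91b9_ntW.Base

/-!
# Phase 6, part A, file Sum8: sums over the classes modulo an element of `𝓞 K8` (port of `ntQ/A/HSum4`)
-/

set_option autoImplicit false

namespace Pool.Agent.Lib.MP_1a91b9_ntW

open NumberField IsDedekindDomain Pool.Agent.Lib.MP_1a91b9_nuT

noncomputable section

/-- the sum over the classes modulo `M` of a function of period `M` -/
def SM {R : Type*} [AddCommMonoid R] (M : 𝓞 K8) (F : 𝓞 K8 → R) : R :=
  ∑ᶠ x : 𝓞 K8 ⧸ Ideal.span {M}, F x.out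

/-- a function of period `M` -/
def Pd {R : Type*} (M : 𝓞 K8) (F : 𝓞 K8 → R) : Prop := ∀ x y, M ∣ x - y → F x = F y

/-- a complete system of classes modulo `M` -/
structure CRS (M : 𝓞 K8) {ι : Type} (a : ι → 𝓞 K8) : Prop where
  ex : ∀ x, ∃ i, M ∣ x - a i
  inj : ∀ i j, M ∣ a i - a j → i = j

section
variable {M : 𝓞 K8}

theorem SM_finite (hM : M ≠ 0) : Finite (𝓞 K8 ⧸ Ideal.span {M}) :=
  Ideal.finiteQuotientOfFreeOfNeBot _ (by rwa [Ne, Ideal.span_singleton_eq_bot])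

theorem SM_mk (a b : 𝓞 K8) : Ideal.Quotient.mk (Ideal.span {M}) a = Ideal.Quotient.mk _ b ↔
    M ∣ a - b := by
  rw [Ideal.Quotient.eq, Ideal.mem_span_singleton]

theorem SM_out (x : 𝓞 K8 ⧸ Ideal.span {M}) : Ideal.Quotient.mk (Ideal.span {M}) x.out = x :=
  Quotient.out_eq x

theorem CRS.exists_crs (hM : M ≠ 0) : ∃ (ι : Type) (_ : Fintype ι) (a : ι → 𝓞 K8), CRS M a := by
  have := SM_finite hM
  refine ⟨𝓞 K8 ⧸ Ideal.span {M}, Fintype.ofFinite _, fun x => x.out, fun x => ?_, fun i j h => ?_⟩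
  · refine ⟨Ideal.Quotient.mk _ x, ?_⟩
    rw [← SM_mk, SM_out]
  · rw [← SM_mk, SM_out, SM_out] at h
    exact h

section
variable {R : Type*} [AddCommMonoid R]

/-- the sum over any system containing the classes where the function is not zero -/
theorem SM_sup (hM : M ≠ 0) {ι : Type} [Fintype ι] {a : ι → 𝓞 K8} {F : 𝓞 K8 → R}
    (hF : Pd M F) (hex : ∀ x, F x ≠ 0 → ∃ i, M ∣ x - a i) (hinj : ∀ i j, M ∣ a i - a j → i = j) :
    SM M F = ∑ i, F (a i) := by
  classical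
  have := SM_finite hM
  let _ : Fintype (𝓞 K8 ⧸ Ideal.span {M}) := Fintype.ofFinite _
  rw [SM, finsum_eq_sum_of_fintype]
  symm
  refine Fintype.sum_of_injective (fun i => Ideal.Quotient.mk (Ideal.span {M}) (a i)) ?_ _ _ ?_ ?_
  · intro i j h
    exact hinj i j ((SM_mk _ _).1 h)
  · intro x hx
    by_contra h
    obtain ⟨i, hi⟩ := hex _ h
    apply hx
    refine ⟨i, ?_⟩
    rw [← SM_mk, SM_out] at hi
    exact hi.symm
  · intro i
    refine hF _ _ ?_
    rw [← SM_mk, SM_out]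

theorem SM_eq (hM : M ≠ 0) {ι : Type} [Fintype ι] {a : ι → 𝓞 K8} (ha : CRS M a) {F : 𝓞 K8 → R}
    (hF : Pd M F) : SM M F = ∑ i, F (a i) :=
  SM_sup hM hF (fun x _ => ha.ex x) ha.inj

/-- the system of the definition, for functions which are not periodic -/
theorem SM_def (hM : M ≠ 0) : ∃ (ι : Type) (_ : Fintype ι) (a : ι → 𝓞 K8), CRS M a ∧
    ∀ F : 𝓞 K8 → R, SM M F = ∑ i, F (a i) := by
  have := SM_finite hM
  refine ⟨𝓞 K8 ⧸ Ideal.span {M}, Fintype.ofFinite _, fun x => x.out, ⟨fun x => ?_, fun i j h => ?_⟩,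
    fun F => ?_⟩
  · refine ⟨Ideal.Quotient.mk _ x, ?_⟩
    rw [← SM_mk, SM_out]
  · rw [← SM_mk, SM_out, SM_out] at h
    exact h
  · rw [SM]
    exact @finsum_eq_sum_of_fintype _ _ _ (Fintype.ofFinite _) _

theorem SM_congr {F G : 𝓞 K8 → R} (h : ∀ x, F x = G x) : SM M F = SM M G := by
  rw [show F = G from funext h]

theorem SM_add (hM : M ≠ 0) (F G : 𝓞 K8 → R) : SM M (fun x => F x + G x) = SM M F + SM M G := by
  obtain ⟨ι, _, a, -, h⟩ := SM_def (R := R) hM
  rw [h, h, h, Finset.sum_add_distrib]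

/-- the substitution by an element prime to the modulus -/
theorem SM_mul (hM : M ≠ 0) {F : 𝓞 K8 → R} (hF : Pd M F) {c : 𝓞 K8} (hc : IsCoprime c M) :
    SM M (fun x => F (c * x)) = SM M F := by
  obtain ⟨ι, _, a, ha⟩ := CRS.exists_crs hM
  obtain ⟨p, q, hpq⟩ := hc
  have h1 : CRS M fun i => c * a i := by
    refine ⟨fun x => ?_, fun i j h => ha.inj i j ?_⟩
    · obtain ⟨i, hi⟩ := ha.ex (p * x)
      refine ⟨i, ?_⟩
      have e : x - c * a i = c * (p * x - a i) + M * (q * x) := by linear_combination (-x) * hpq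
      rw [e]
      exact dvd_add (hi.mul_left _) (dvd_mul_right _ _)
    · have e : a i - a j = p * (c * a i - c * a j) + M * (q * (a i - a j)) := by
        linear_combination (-(a i - a j)) * hpq
      rw [e]
      exact dvd_add (h.mul_left _) (dvd_mul_right _ _)
  rw [SM_eq hM h1 hF]
  refine SM_eq hM ha fun x y h => hF _ _ ?_
  rw [← mul_sub]
  exact h.mul_left _

/-- the sum modulo a product -/
theorem SM_fib {q : 𝓞 K8} (hM : M ≠ 0) (hq : q ≠ 0) {F : 𝓞 K8 → R} (hF : Pd (q * M) F) :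
    SM (q * M) F = SM M fun b => SM q fun u => F (b + M * u) := by
  obtain ⟨ι, _, b, hb, h⟩ := SM_def (R := R) hM
  obtain ⟨κ, _, u, hu⟩ := CRS.exists_crs hq
  have h1 : CRS (q * M) fun x : ι × κ => b x.1 + M * u x.2 := by
    refine ⟨fun x => ?_, fun i j h2 => ?_⟩
    · obtain ⟨i, y, hy⟩ := hb.ex x
      obtain ⟨k, z, hz⟩ := hu.ex y
      exact ⟨(i, k), z, by linear_combination hy + M * hz⟩
    · obtain ⟨i, k⟩ := i
      obtain ⟨i', k'⟩ := j
      obtain ⟨z, hz⟩ := h2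
      have h3 : i = i' := hb.inj _ _ ⟨q * z - (u k - u k'), by linear_combination hz⟩
      subst h3
      have h4 : k = k' := by
        refine hu.inj _ _ ⟨z, ?_⟩
        apply mul_left_cancel₀ hM
        linear_combination hz
      rw [h4]
  rw [SM_eq (mul_ne_zero hq hM) h1 hF, h, Fintype.sum_prod_type]
  refine Finset.sum_congr rfl fun i _ => ?_
  refine (SM_eq (F := fun u => F (b i + M * u)) hq hu fun x y h2 => hF _ _ ?_).symm
  obtain ⟨z, hz⟩ := h2
  exact ⟨z, by linear_combination M * hz⟩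

/-- the sum of a function which is zero outside the multiples of `q` -/
theorem SM_dvd {q : 𝓞 K8} (hM : M ≠ 0) (hq : q ≠ 0) {F : 𝓞 K8 → R} (hF : Pd (q * M) F)
    (h0 : ∀ x, ¬ q ∣ x → F x = 0) : SM (q * M) F = SM M fun b => F (q * b) := by
  classical
  obtain ⟨ι, _, b, hb⟩ := CRS.exists_crs hM
  have h1 : SM (q * M) F = ∑ i, F (q * b i) := by
    refine SM_sup (a := fun i => q * b i) (mul_ne_zero hq hM) hF ?_ ?_
    · intro x hx
      have h2 : q ∣ x := by
        by_contra h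
        exact hx (h0 x h)
      obtain ⟨y, rfl⟩ := h2
      obtain ⟨i, z, hz⟩ := hb.ex y
      exact ⟨i, z, by linear_combination q * hz⟩
    · intro i j h
      obtain ⟨z, hz⟩ := h
      refine hb.inj i j ⟨z, ?_⟩
      apply mul_left_cancel₀ hq
      linear_combination hz
  rw [h1]
  refine (SM_eq (F := fun b => F (q * b)) hM hb fun x y h => hF _ _ ?_).symm
  obtain ⟨z, hz⟩ := h
  exact ⟨z, by linear_combination q * hz⟩

end

section
variable {R : Type*} [AddCommGroup R]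

theorem SM_sub (hM : M ≠ 0) (F G : 𝓞 K8 → R) : SM M (fun x => F x - G x) = SM M F - SM M G := by
  obtain ⟨ι, _, a, -, h⟩ := SM_def (R := R) hM
  rw [h, h, h, Finset.sum_sub_distrib]

end

section
variable {S R : Type*} [Semiring S] [AddCommMonoid R] [Module S R]

theorem SM_smul (hM : M ≠ 0) (c : S) (F : 𝓞 K8 → R) : SM M (fun x => c • F x) = c • SM M F := by
  obtain ⟨ι, _, a, -, h⟩ := SM_def (R := R) hM
  rw [h, h, Finset.smul_sum]

theorem SM_smul' (hM : M ≠ 0) (F : 𝓞 K8 → S) (r : R) : SM M (fun x => F x • r) = SM M F • r := by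
  have hfin := SM_finite hM
  let _ : Fintype (𝓞 K8 ⧸ Ideal.span {M}) := Fintype.ofFinite _
  rw [SM, SM, finsum_eq_sum_of_fintype, finsum_eq_sum_of_fintype, Finset.sum_smul]

end

theorem Pd.of_dvd {R : Type*} {M N : 𝓞 K8} {F : 𝓞 K8 → R} (h : Pd M F) (hd : M ∣ N) : Pd N F :=
  fun x y hxy => h x y (hd.trans hxy)

end

/-- the shift of the variable -/
theorem SM_shift {R : Type*} [AddCommMonoid R] {M : 𝓞 K8} (hM : M ≠ 0) {F : 𝓞 K8 → R} (hF : Pd M F)
    (b : 𝓞 K8) : SM M (fun x => F (b + x)) = SM M F := by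
  obtain ⟨ι, _, a, ha⟩ := CRS.exists_crs hM
  have h1 : CRS M fun i => b + a i := by
    refine ⟨fun x => ?_, fun i j h => ha.inj i j ?_⟩
    · obtain ⟨i, hi⟩ := ha.ex (x - b)
      refine ⟨i, ?_⟩
      have e : x - (b + a i) = x - b - a i := by ring
      rwa [e]
    · have e : a i - a j = b + a i - (b + a j) := by ring
      rwa [e]
  rw [SM_eq hM h1 hF]
  refine SM_eq (F := fun x => F (b + x)) hM ha fun x y h => hF _ _ ?_
  have e : b + x - (b + y) = x - y := by ring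
  rwa [e]

theorem SM_fsum {R κ : Type*} [AddCommMonoid R] {M : 𝓞 K8} (hM : M ≠ 0) (s : Finset κ)
    (F : κ → 𝓞 K8 → R) : SM M (fun x => ∑ k ∈ s, F k x) = ∑ k ∈ s, SM M (F k) := by
  obtain ⟨ι, _, a, -, h⟩ := SM_def (R := R) hM
  rw [h, Finset.sum_comm]
  exact Finset.sum_congr rfl fun k _ => (h (F k)).symm

theorem SM_cmul {M : 𝓞 K8} (hM : M ≠ 0) (c : ℂ) (F : 𝓞 K8 → ℂ) :
    SM M (fun x => c * F x) = c * SM M F := SM_smul hM c F

theorem v_SM_lt {B : ValuationSubring ℂ} {M : 𝓞 K8} (hM : M ≠ 0) {F : 𝓞 K8 → ℂ}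
    {b : B.ValueGroup} (hb : 0 < b) (h : ∀ x, B.valuation (F x) < b) : B.valuation (SM M F) < b := by
  obtain ⟨ι, _, a, -, h1⟩ := SM_def (R := ℂ) hM
  rw [h1]
  exact Valuation.map_sum_lt' _ hb fun i _ => h _

theorem v_SM_le {B : ValuationSubring ℂ} {M : 𝓞 K8} (hM : M ≠ 0) {F : 𝓞 K8 → ℂ}
    {b : B.ValueGroup} (h : ∀ x, B.valuation (F x) ≤ b) : B.valuation (SM M F) ≤ b := by
  obtain ⟨ι, _, a, -, h1⟩ := SM_def (R := ℂ) hM
  rw [h1]
  exact Valuation.map_sum_le _ fun i _ => h _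

/-- the product of two functions with coprime periods -/
theorem SM_prod {q M : 𝓞 K8} (hM : M ≠ 0) (hq : q ≠ 0) (hc : IsCoprime M q) {F G : 𝓞 K8 → ℂ}
    (hF : Pd q F) (hG : Pd M G) : SM (q * M) (fun x => F x * G x) = SM q F * SM M G := by
  have hP : Pd (q * M) fun x => F x * G x := by
    intro x y h
    change F x * G x = F y * G y
    rw [hF x y ((dvd_mul_right q M).trans h), hG x y ((dvd_mul_left M q).trans h)]
  rw [SM_fib hM hq hP, mul_comm, ← smul_eq_mul, ← SM_smul' hM]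
  refine SM_congr fun b => ?_
  have h1 : ∀ u, F (b + M * u) * G (b + M * u) = G b * F (b + M * u) := by
    intro u
    have h2 : G (b + M * u) = G b := hG _ _ ⟨u, by ring⟩
    rw [h2, mul_comm]
  rw [SM_congr h1, SM_cmul hq, smul_eq_mul]
  congr 1
  have h3 : Pd q fun x => F (b + x) := fun x y h => hF _ _ (by
    have e : b + x - (b + y) = x - y := by ring
    rwa [e])
  have h4 := SM_mul hq h3 hc
  rw [h4]
  exact SM_shift hq hF b

end

end Pool.Agent.Lib.MP_1a91b9_ntW
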