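import Pool.Agent.Lib.MP_1a91b9_ntW.A.Uv1

/-!
# Phase 6, part A, file Uj0: the functions `U_k` for `j = 0` and `j = 1`

`Uz j ep Q` is the function `U_k(Q)` of the page (1.2), `ep = (-1) ^ k`: four terms for `j = 0`,
eight terms for `j = 1`. `Uz 1 ep Q = - om uu ep Q`. For `j = 0`: sections (2.6) and 3 of the page:
`Uz 0 ep Q / (om lm ^ 2)` and `(Uz 0 ep Q + Uz 0 ep (-Q)) / (om lm ^ 3)` are integral,
`(Uz 0 ep 0 / om) ^ 4 = lm ^ 10`.
-/

set_option autoImplicit false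
set_option linter.unusedSectionVars false

namespace Pool.Agent.Lib.MP_1a91b9_ntW

open NumberField Pool.Agent.Lib.MP_1a91b9_nuT Pool.Agent.Lib.MP_1a91b9_nuT.S3
  Pool.Agent.Lib.MP_1a91b9_nuT.Ell
open Pool.Agent.Lib.MP_1a91b9_ntQ (em em_add em_mul em_pow em_sub em_zero em_one em_ne Rt two_lt)

noncomputable section

variable [CD]

/-- the function `U_k` for `j = 0` -/
def U0 (ep Q : ℂ) : ℂ :=
  E1 (1 / 4 + Q) + E1 ((-1 + 2 * lm) / 4 + Q) -
    ep * (E1 (-(1 + lm) / 4 + Q) + E1 (-(-1 + lm) / 4 + Q))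

/-- the function `U_k` for `j = 1` -/
def U1 (ep Q : ℂ) : ℂ :=
  (E1 (1 / (4 * lm) + Q) - E1 ((1 + 4) / (4 * lm) + Q)) +
    (E1 ((-1 + 2 * lm) / (4 * lm) + Q) - E1 ((-1 + 2 * lm + 4) / (4 * lm) + Q)) -
    ep * (-(E1 (-(1 + lm) / (4 * lm) + Q) - E1 (-(1 + lm + 4) / (4 * lm) + Q)) +
      (E1 (-(-1 + lm) / (4 * lm) + Q) - E1 (-(-1 + lm + 4) / (4 * lm) + Q)))

/-- a nonzero point of odd order -/
def Oo (z : ℂ) : Prop :=
  z ∉ PP.lattice ∧ ∃ N c : 𝓞 K, N = 1 + ta * c ∧ N ≠ 0 ∧ em N * z ∈ PP.lattice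

variable [hq : Q8]

theorem odd_cancel {z : ℂ} {N c : 𝓞 K} (hN : N = 1 + ta * c) (h : em N * z ∈ PP.lattice) :
    ∀ n : ℕ, lm ^ n * z ∈ PP.lattice → z ∈ PP.lattice := by
  intro n
  induction n with
  | zero =>
    intro h1
    rwa [pow_zero, one_mul] at h1
  | succ n ih =>
    intro h1
    apply ih
    have h2 := lm_pow_mem h n
    have h3 := mul_mem' (em_mem c) h1
    have e : lm ^ n * z = lm ^ n * (em N * z) - em c * (lm ^ (n + 1) * z) := by
      rw [hN, em_add, em_one, em_mul, em_ta]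
      ring
    rw [e]
    exact sub_mem h2 h3

theorem Oo.od {z : ℂ} (h : Oo z) : Od z := by
  obtain ⟨h1, N, c, h2, h3, h4⟩ := h
  exact ⟨⟨N, h3, h4⟩, fun n h5 => h1 (odd_cancel h2 h4 n h5)⟩

theorem Oo.mul_lm {z : ℂ} (h : Oo z) : Oo (lm * z) := by
  have h0 := h.od.mul_lm.notMem
  obtain ⟨h1, N, c, h2, h3, h4⟩ := h
  refine ⟨h0, N, c, h2, h3, ?_⟩
  have e : em N * (lm * z) = lm * (em N * z) := by ring
  rw [e]
  exact lm_mem_mul h4

theorem Oo.neg {z : ℂ} (h : Oo z) : Oo (-z) := by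
  have h0 := h.od.neg.notMem
  obtain ⟨h1, N, c, h2, h3, h4⟩ := h
  refine ⟨h0, N, c, h2, h3, ?_⟩
  rw [mul_neg]
  exact neg_mem h4

theorem Oo.pow {z : ℂ} (h : Oo z) (n : ℕ) : Oo (lm ^ n * z) := by
  induction n with
  | zero => rwa [pow_zero, one_mul]
  | succ n ih =>
    have e : lm ^ (n + 1) * z = lm * (lm ^ n * z) := by ring
    rw [e]
    exact ih.mul_lm

theorem Oo.per {z : ℂ} (h : Oo z) : ∃ p : ℕ, 0 < p ∧ lm ^ p * z - z ∈ PP.lattice := by
  obtain ⟨j, p, hp, h1⟩ := h.od.periodic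
  obtain ⟨-, N, c, h2, h3, h4⟩ := h
  refine ⟨p, hp, odd_cancel h2 ?_ j ?_⟩
  · have e : em N * (lm ^ p * z - z) = lm ^ p * (em N * z) - em N * z := by ring
    rw [e]
    exact sub_mem (lm_pow_mem h4 p) h4
  · have e : lm ^ j * (lm ^ p * z - z) = lm ^ (j + p) * z - lm ^ j * z := by
      rw [pow_add]
      ring
    rw [e]
    exact h1 j le_rfl

variable {B : ValuationSubring ℂ}

theorem v_ff (hB : (2 : ℂ)⁻¹ ∉ B) {z : ℂ} (hz : Od z) : B.valuation (ff z / lm) < 1 := by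
  have h := (Rt_ff_sq hB hz).unit one_ne_zero
  have h1 : B.valuation (ff z / lm) ^ 2 < 1 := by
    have hl := lm_ne
    have e : (ff z / lm) ^ 2 = lm * (ff z ^ 2 / lm ^ 3) := by
      field_simp
    rw [← map_pow, e, map_mul, h, mul_one]
    exact v_lm_lt hB
  exact (pow_lt_one_iff_of_nonneg zero_le two_ne_zero).1 h1

/-- **`E1` is integral at the points of odd order.** -/
theorem v_E1 (hB : (2 : ℂ)⁻¹ ∉ B) {z : ℂ} (hz : Oo z) : B.valuation (E1 z / om) ≤ 1 := by
  have hl := lm_ne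
  have ho := om_ne
  have step : ∀ w : ℂ, Oo w → E1 (lm * w) / om = -(lm * (E1 w / om)) + ff w / lm := by
    intro w _
    have h := E1_lm w
    have e : E1 (lm * w) = (2 * E1 w + om * ff w) / lm := by
      rw [eq_div_iff hl]
      linear_combination -h
    rw [e]
    field_simp
    linear_combination E1 w * lm_sq
  have s1 : ∀ w : ℂ, Oo w → B.valuation (E1 w / om) ≤ 1 → B.valuation (E1 (lm * w) / om) ≤ 1 := by
    intro w hw h
    rw [step w hw]
    refine (Valuation.map_add _ _ _).trans (max_le ?_ (v_ff hB hw.od).le)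
    rw [Valuation.map_neg, map_mul]
    exact mul_le_one' (v_lm_le hB) h
  by_contra hc
  push Not at hc
  have s2 : ∀ n : ℕ, B.valuation (E1 (lm ^ (n + 1) * z) / om) < B.valuation (E1 z / om) := by
    intro n
    induction n with
    | zero =>
      rw [zero_add, pow_one, step z hz]
      refine Valuation.map_add_lt _ ?_ ((v_ff hB hz.od).trans hc)
      rw [Valuation.map_neg, map_mul]
      exact mul_lt_of_lt_one_left (zero_lt_one.trans hc) (v_lm_lt hB)
    | succ n ih =>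
      have e : lm ^ (n + 1 + 1) * z = lm * (lm ^ (n + 1) * z) := by ring
      rw [e, step _ (hz.pow (n + 1))]
      refine Valuation.map_add_lt _ ?_ ((v_ff hB (hz.pow (n + 1)).od).trans hc)
      rw [Valuation.map_neg, map_mul]
      exact lt_of_le_of_lt (mul_le_of_le_one_left zero_le (v_lm_le hB)) ih
  obtain ⟨p, hp, h1⟩ := hz.per
  obtain ⟨n, rfl⟩ : ∃ n, p = n + 1 := ⟨p - 1, by omega⟩
  have h2 := s2 n
  rw [E1_congr' h1] at h2
  exact lt_irrefl _ h2

/-! ### `j = 1` -/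

theorem E1_sub_pe (w : ℂ) : E1 w - E1 (w + pe) = -(om * ff w) := by
  rw [E1_add_pe]
  ring

theorem div4 (x : ℂ) : (x + 4) / (4 * lm) = x / (4 * lm) + pe := by
  have hl := lm_ne
  rw [pe]
  field_simp

theorem pe4 (x : ℂ) : x / (4 * lm) = x * z0 := by
  have hl := lm_ne
  rw [z0, pe]
  field_simp

theorem U1_eq {ep Q : ℂ} (hQ : Od Q) : U1 ep Q = -om * uu ep Q := by
  have hl := lm_ne
  have h2 := lm_sq (hq := hq)
  have hz := lm_z0
  -- the four pairs
  have p1 : E1 (1 / (4 * lm) + Q) - E1 ((1 + 4) / (4 * lm) + Q) = -(om * ff (z0 + Q)) := by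
    rw [div4, pe4, one_mul]
    have e : z0 + pe + Q = z0 + Q + pe := by ring
    rw [e, E1_sub_pe]
  have o0 : Od (z0 - Q) := by
    have h := hQ.neg.add z0_mem
    have e : -Q + z0 = z0 - Q := by ring
    rwa [e] at h
  have o1 : Od (z1 + Q) := by
    have h := hQ.add z1_mem
    rwa [add_comm] at h
  have p2 : E1 ((-1 + 2 * lm) / (4 * lm) + Q) - E1 ((-1 + 2 * lm + 4) / (4 * lm) + Q) =
      -(om * (2 * rt / ff (z0 - Q))) := by
    rw [div4, pe4]
    have e : (-1 + 2 * lm) * z0 + pe + Q = (-1 + 2 * lm) * z0 + Q + pe := by ring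
    rw [e, E1_sub_pe]
    have e1 : ff ((-1 + 2 * lm) * z0 + Q) = -ff (z0 - Q + 1 / 2) := by
      rw [← ff_neg]
      refine ff_congr ?_
      have e2 : (-1 + 2 * lm) * z0 + Q - -(z0 - Q + 1 / 2) = 1 := by
        linear_combination 2 * hz
      rw [e2]
      exact one_mem
    rw [e1, ff_half_eq o0.two]
    ring
  have p3 : E1 (-(1 + lm) / (4 * lm) + Q) - E1 (-(1 + lm + 4) / (4 * lm) + Q) =
      om * ff (z1 - Q) := by
    have e0 : -(1 + lm + 4) / (4 * lm) = -(1 + lm) / (4 * lm) - pe := by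
      rw [pe]
      field_simp
      ring
    rw [e0, pe4]
    have e1 : E1 (-(1 + lm) * z0 - pe + Q) = E1 (-(1 + lm) * z0 + Q + pe) := by
      refine E1_congr' ?_
      have e2 : -(1 + lm) * z0 - pe + Q - (-(1 + lm) * z0 + Q + pe) = -(2 * pe) := by ring
      rw [e2]
      exact neg_mem two_pe_mem
    rw [e1, E1_sub_pe]
    have e2 : ff (-(1 + lm) * z0 + Q) = -ff (z1 - Q) := by
      rw [← ff_neg]
      congr 1
      rw [z1]
      linear_combination -hz
    rw [e2]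
    ring
  have p4 : E1 (-(-1 + lm) / (4 * lm) + Q) - E1 (-(-1 + lm + 4) / (4 * lm) + Q) =
      om * (2 * rt / ff (z1 + Q)) := by
    have e0 : -(-1 + lm + 4) / (4 * lm) = -(-1 + lm) / (4 * lm) - pe := by
      rw [pe]
      field_simp
      ring
    rw [e0, pe4]
    have e1 : E1 (-(-1 + lm) * z0 - pe + Q) = E1 (-(-1 + lm) * z0 + Q + pe) := by
      refine E1_congr' ?_
      have e2 : -(-1 + lm) * z0 - pe + Q - (-(-1 + lm) * z0 + Q + pe) = -(2 * pe) := by ring
      rw [e2]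
      exact neg_mem two_pe_mem
    rw [e1, E1_sub_pe]
    have e2 : ff (-(-1 + lm) * z0 + Q) = ff (z1 + Q + 1 / 2) := by
      refine ff_congr ?_
      have e3 : -(-1 + lm) * z0 + Q - (z1 + Q + 1 / 2) = -1 := by
        rw [z1]
        linear_combination -hz
      rw [e3]
      exact neg_mem one_mem
    rw [e2, ff_half_eq o1.two]
    ring
  rw [U1, p1, p2, p3, p4, uu]
  ring

/-- the value at zero -/
theorem U1_zero (ep : ℂ) : U1 ep 0 = -om * ((1 - ep) * c0) := by
  have hl := lm_ne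
  have h2 := lm_sq (hq := hq)
  have hz := lm_z0
  have p1 : E1 (1 / (4 * lm) + 0) - E1 ((1 + 4) / (4 * lm) + 0) = -(om * ff z0) := by
    rw [div4, pe4, one_mul, add_zero, add_zero, E1_sub_pe]
  have p2 : E1 ((-1 + 2 * lm) / (4 * lm) + 0) - E1 ((-1 + 2 * lm + 4) / (4 * lm) + 0) =
      -(om * (2 * rt / ff z0)) := by
    rw [div4, pe4, add_zero, add_zero, E1_sub_pe]
    have e1 : ff ((-1 + 2 * lm) * z0) = -ff (z0 + 1 / 2) := by
      rw [← ff_neg]
      refine ff_congr ?_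
      have e2 : (-1 + 2 * lm) * z0 - -(z0 + 1 / 2) = 1 := by
        linear_combination 2 * hz
      rw [e2]
      exact one_mem
    rw [e1, ff_half_eq z0_two]
    ring
  have p3 : E1 (-(1 + lm) / (4 * lm) + 0) - E1 (-(1 + lm + 4) / (4 * lm) + 0) =
      om * ff z1 := by
    have e0 : -(1 + lm + 4) / (4 * lm) = -(1 + lm) / (4 * lm) - pe := by
      rw [pe]
      field_simp
      ring
    rw [e0, pe4, add_zero, add_zero]
    have e1 : E1 (-(1 + lm) * z0 - pe) = E1 (-(1 + lm) * z0 + pe) := by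
      refine E1_congr' ?_
      have e2 : -(1 + lm) * z0 - pe - (-(1 + lm) * z0 + pe) = -(2 * pe) := by ring
      rw [e2]
      exact neg_mem two_pe_mem
    rw [e1, E1_sub_pe]
    have e2 : ff (-(1 + lm) * z0) = -ff z1 := by
      rw [← ff_neg]
      congr 1
      rw [z1]
      linear_combination -hz
    rw [e2]
    ring
  have p4 : E1 (-(-1 + lm) / (4 * lm) + 0) - E1 (-(-1 + lm + 4) / (4 * lm) + 0) =
      om * (2 * rt / ff z1) := by
    have e0 : -(-1 + lm + 4) / (4 * lm) = -(-1 + lm) / (4 * lm) - pe := by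
      rw [pe]
      field_simp
      ring
    rw [e0, pe4, add_zero, add_zero]
    have e1 : E1 (-(-1 + lm) * z0 - pe) = E1 (-(-1 + lm) * z0 + pe) := by
      refine E1_congr' ?_
      have e2 : -(-1 + lm) * z0 - pe - (-(-1 + lm) * z0 + pe) = -(2 * pe) := by ring
      rw [e2]
      exact neg_mem two_pe_mem
    rw [e1, E1_sub_pe]
    have e2 : ff (-(-1 + lm) * z0) = ff (z1 + 1 / 2) := by
      refine ff_congr ?_
      have e3 : -(-1 + lm) * z0 - (z1 + 1 / 2) = -1 := by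
        rw [z1]
        linear_combination -hz
      rw [e3]
      exact neg_mem one_mem
    rw [e2, ff_half_eq z1_two]
    ring
  have h3 := uu_zero ep
  rw [uu, add_zero, sub_zero, sub_zero, add_zero] at h3
  rw [U1, p1, p2, p3, p4, ← h3]
  ring

end

end Pool.Agent.Lib.MP_1a91b9_ntW
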