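import Pool.Agent.Lib.MP_1a91b9_ntW.A.Gen8
import Pool.Agent.Lib.MP_1a91b9_ntW.A.Uj0
import Pool.Agent.Lib.MP_1a91b9_ntW.A.Inst8
import Pool.Agent.Lib.MP_1a91b9_ntW.A.Sum8
import Pool.Agent.Lib.MP_1a91b9_ntW.R.Sy8
import Pool.Agent.Lib.MP_1a91b9_ntW.R.Inst

/-!
# Phase 6, part A, file Avg8: the characters and the averaging identity

Sections (1.1)-(1.3) of the page. `th8 k j` is the character `θ` of modulus `fj j = 4 lam ^ j`,
`X8 k j T = θ χ_T`, `La8 k j T = fj DD_T L(ψbar X8, 1)`, `LT8 k j T S` is `La8 k j T` without the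
Euler factors at the primes of `S`. `t8 T S` is the symbol modulo `DD T` restricted to the elements
prime to `DD S`, `wq8 S` the product of the weights, `U8 j ep` the function `U_k` of the page.
Main results: `LT8_eq`, `avg8`, `avg8_par`.
-/

set_option autoImplicit false

namespace Pool.Agent.Lib.MP_1a91b9_ntW

open NumberField Finset Pool.Agent.Lib.MP_1a91b9_nuT Pool.Agent.Lib.MP_1a91b9_nuT.S3
open Pool.Agent.Lib.MP_1a91b9_ntQ (em em_add em_mul em_pow em_sub em_neg em_zero em_one em_ne em_prod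
  em_ofNat em_intCast ChrP)

noncomputable section

/-! ### Signs -/

/-- the sign of an element of `ZMod 2` -/
def sn (x : ZMod 2) : ℂ := (-1) ^ x.val

theorem sn_zero : sn 0 = 1 := by
  rw [sn, ZMod.val_zero, pow_zero]

theorem sn_one : sn 1 = -1 := by
  have h : (1 : ZMod 2).val = 1 := rfl
  rw [sn, h, pow_one]

theorem sn_cases (x : ZMod 2) : x = 0 ∨ x = 1 := by
  revert x
  decide

theorem sn_add (x y : ZMod 2) : sn (x + y) = sn x * sn y := by
  rcases sn_cases x with rfl | rfl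
  · rw [zero_add, sn_zero, one_mul]
  · rcases sn_cases y with rfl | rfl
    · rw [add_zero, sn_zero, mul_one]
    · have h : (1 + 1 : ZMod 2) = 0 := rfl
      rw [h, sn_zero, sn_one]
      norm_num

theorem sn_mul_self (x : ZMod 2) : sn x * sn x = 1 := by
  rcases sn_cases x with rfl | rfl
  · rw [sn_zero, one_mul]
  · rw [sn_one]
    norm_num

theorem sn_ne (x : ZMod 2) : sn x ≠ 0 := by
  intro h
  have h1 := sn_mul_self x
  rw [h, zero_mul] at h1
  exact zero_ne_one h1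

theorem norm_sn (x : ZMod 2) : ‖sn x‖ = 1 := by
  rw [sn, norm_pow, norm_neg, norm_one, one_pow]

theorem sn_sum {ι : Type*} (s : Finset ι) (f : ι → ZMod 2) :
    sn (∑ i ∈ s, f i) = ∏ i ∈ s, sn (f i) := by
  classical
  induction s using Finset.induction_on with
  | empty => rw [sum_empty, prod_empty, sn_zero]
  | insert a s ha ih => rw [sum_insert ha, prod_insert ha, sn_add, ih]

/-! ### The normalised elements -/

theorem cop_lam_iff {a : 𝓞 K8} : IsCoprime a lam ↔ ¬ lam ∣ a := by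
  rw [isCoprime_comm]
  exact lam_prime.irreducible.coprime_iff_not_dvd

theorem cop_four {a : 𝓞 K8} (h : ¬ lam ∣ a) : IsCoprime a 4 := by
  rw [← lam_pow4]
  exact (cop_lam_iff.2 h).pow_right

/-- the modulus of `θ` -/
def fj (j : ZMod 2) : 𝓞 K8 := 4 * lam ^ j.val

theorem fj_zero : fj 0 = 4 := by
  rw [fj, ZMod.val_zero, pow_zero, mul_one]

theorem fj_one : fj 1 = 4 * lam := by
  have h : (1 : ZMod 2).val = 1 := rfl
  rw [fj, h, pow_one]

theorem four_ne : (4 : 𝓞 K8) ≠ 0 := by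
  rw [← lam_pow4]
  exact pow_ne_zero 4 lam_ne_zero

theorem fj_ne (j : ZMod 2) : fj j ≠ 0 := mul_ne_zero four_ne (pow_ne_zero _ lam_ne_zero)

theorem four_dvd_fj (j : ZMod 2) : (4 : 𝓞 K8) ∣ fj j := dvd_mul_right _ _

theorem cop_fj {a : 𝓞 K8} (h : ¬ lam ∣ a) (j : ZMod 2) : IsCoprime a (fj j) :=
  IsCoprime.mul_right (cop_four h) (cop_lam_iff.2 h).pow_right

instance isNor8 : IsNor Pr 4 where
  ne := four_ne
  one := Pr.one
  mul _ _ ha hb := ha.mul hb
  cop _ ha := cop_four ha.odd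
  congr _ _ h hb := (Pr_congr h).2 hb
  inj u a ha hua := by
    rcases isUnit_iff.1 u.isUnit with h | h
    · exact Units.ext h
    · exfalso
      have hua' : Pr ((u : 𝓞 K8) * a) := hua
      rw [h, neg_one_mul] at hua'
      exact not_Pr_neg ha hua'
  surj a ha := by
    have h1 : ¬ lam ∣ a := by
      intro h
      have h3 : (lam : 𝓞 K8) ∣ 4 := by
        rw [← lam_pow4]
        exact dvd_pow_self _ (by norm_num)
      have h2 : IsCoprime a lam := IsCoprime.of_isCoprime_of_dvd_right ha h3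
      exact cop_lam_iff.1 h2 h
    rcases Pr_or_neg h1 with h | h
    · exact ⟨1, by rw [Units.val_one, one_mul]; exact h⟩
    · exact ⟨-1, by rw [Units.val_neg, Units.val_one, neg_one_mul]; exact h⟩

/-! ### The characters -/

/-- the character `θ` -/
def th8 (k j : ZMod 2) (c : 𝓞 K8) : ℂ := sn (k * aa c + j * ll c)

theorem th8_one (k j : ZMod 2) : th8 k j 1 = 1 := by
  rw [th8, aa_one, ll_one, mul_zero, mul_zero, add_zero, sn_zero]

theorem th8_mul (k j : ZMod 2) {a b : 𝓞 K8} (ha : Pr a) (hb : Pr b) :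
    th8 k j (a * b) = th8 k j a * th8 k j b := by
  rw [th8, th8, th8, ← sn_add, aa_mul ha hb, ll_mul ha hb]
  congr 1
  ring

theorem norm_th8 (k j : ZMod 2) (a : 𝓞 K8) : ‖th8 k j a‖ = 1 := norm_sn _

theorem th8_ne (k j : ZMod 2) (a : 𝓞 K8) : th8 k j a ≠ 0 := sn_ne _

theorem th8_congr (k j : ZMod 2) {a b : 𝓞 K8} (h : fj j ∣ a - b) : th8 k j a = th8 k j b := by
  have h1 := aa_congr ((four_dvd_fj j).trans h)
  rw [th8, th8, h1]
  rcases sn_cases j with rfl | rfl
  · rw [zero_mul, zero_mul]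
  · rw [fj_one] at h
    rw [ll_congr h]

theorem th8_chr (k j : ZMod 2) : Chr Pr 4 (fj j) (th8 k j) where
  ne := fj_ne j
  dvd := four_dvd_fj j
  one := th8_one k j
  mul _ _ ha hb := th8_mul k j ha hb
  le a _ := (norm_th8 k j a).le
  zero _ ha hc := absurd (cop_fj (Pr.odd ha) j) hc
  per _ _ _ h := th8_congr k j h

theorem th8_add (k k' j : ZMod 2) (a : 𝓞 K8) :
    th8 (k + k') j a = th8 k j a * sn (k' * aa a) := by
  rw [th8, th8, ← sn_add]
  congr 1
  ring


/-! ### The symbols -/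

/-- the quadratic symbol as a complex number -/
def cq (q : Pg) (x : 𝓞 K8) : ℂ := ((qc q x : ℤ) : ℂ)

theorem cq_mul (q : Pg) (x y : 𝓞 K8) : cq q (x * y) = cq q x * cq q y := by
  rw [cq, cq, cq, qc_mul, Int.cast_mul]

theorem cq_pow (q : Pg) (x : 𝓞 K8) (n : ℕ) : cq q (x ^ n) = cq q x ^ n := by
  rw [cq, cq, qc_pow, Int.cast_pow]

theorem cq_one (q : Pg) : cq q 1 = 1 := by rw [cq, qc_one, Int.cast_one]

theorem cq_congr (q : Pg) {x y : 𝓞 K8} (h : q.1 ∣ x - y) : cq q x = cq q y := by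
  rw [cq, cq, qc_congr q h]

theorem cq_of_dvd {q : Pg} {x : 𝓞 K8} (h : q.1 ∣ x) : cq q x = 0 := by
  rw [cq, qc_of_dvd h, Int.cast_zero]

theorem cq_or {q : Pg} {x : 𝓞 K8} (h : ¬ q.1 ∣ x) : cq q x = 1 ∨ cq q x = -1 := by
  rcases qc_or h with h1 | h1
  · left
    rw [cq, h1, Int.cast_one]
  · right
    rw [cq, h1]
    push_cast
    rfl

theorem cq_sq {q : Pg} {x : 𝓞 K8} (h : ¬ q.1 ∣ x) : cq q x ^ 2 = 1 := by
  rcases cq_or h with h1 | h1 <;> rw [h1] <;> norm_num

theorem cq_neg_one (q : Pg) : cq q (-1) = sn (aa q.1) := by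
  rw [cq, qc_neg_one, sn]
  push_cast
  rfl

theorem cq_neg (q : Pg) (x : 𝓞 K8) : cq q (-x) = sn (aa q.1) * cq q x := by
  rw [← cq_neg_one, ← cq_mul, neg_one_mul]

/-- the two forms of the symbol -/
theorem cq_cc {q : Pg} {x : 𝓞 K8} (h : ¬ q.1 ∣ x) : cq q x = sn (cc q x) := by
  classical
  rw [cq, qc_of_not h, cc_def]
  by_cases h1 : ∃ y, q.1 ∣ y ^ 2 - x
  · rw [if_pos h1, sn_zero, (Pool.Agent.Lib.MP_1a91b9_ntH.R.qs_eq_one_iff _ _).2 h1, Int.cast_one]
  · rw [if_neg h1, sn_one]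
    rcases Pool.Agent.Lib.MP_1a91b9_ntH.R.qs_or x q.1 with h2 | h2
    · exact absurd ((Pool.Agent.Lib.MP_1a91b9_ntH.R.qs_eq_one_iff _ _).1 h2) h1
    · rw [h2]
      push_cast
      rfl

theorem cq_lam (q : Pg) : cq q lam = sn (ll q.1) := by
  rw [cq_cc (not_dvd_lam q), cc_lam]

theorem cq_fj (q : Pg) (j : ZMod 2) : cq q (fj j) = sn (j * ll q.1) := by
  have h4 : cq q 4 = 1 := by
    have h5 := cq_sq (not_dvd_lam q)
    rw [← lam_pow4, cq_pow]
    have e : cq q lam ^ 4 = (cq q lam ^ 2) ^ 2 := by ring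
    rw [e, h5, one_pow]
  rw [fj, cq_mul, h4, one_mul]
  rcases sn_cases j with rfl | rfl
  · rw [ZMod.val_zero, pow_zero, cq_one, zero_mul, sn_zero]
  · have h : (1 : ZMod 2).val = 1 := rfl
    rw [h, pow_one, cq_lam, one_mul]

theorem cq_chrP (q : Pg) : ChrP q.1 (cq q) where
  one := cq_one q
  mul a b := cq_mul q a b
  le a := by
    by_cases ha : q.1 ∣ a
    · rw [cq_of_dvd ha, norm_zero]
      exact zero_le_one
    · rcases cq_or ha with h1 | h1
      · rw [h1, norm_one]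
      · rw [h1, norm_neg, norm_one]
  zero _ ha := cq_of_dvd ha
  per _ _ hab := cq_congr q hab

/-! ### The values -/

/-- the character `θ χ_T` -/
def X8 (k j : ZMod 2) (T : Finset Pg) (x : 𝓞 K8) : ℂ := th8 (k + AS T) j x * ∏ q ∈ T, cq q x

/-- the normalised value at `1` -/
def La8 (k j : ZMod 2) (T : Finset Pg) : ℂ := em (fj j * DD T) * LG Pr (X8 k j T) 1

/-- the value without the Euler factors at the primes of `S` -/
def LT8 (k j : ZMod 2) (T S : Finset Pg) : ℂ := La8 k j T * ∏ q ∈ S \ T, (em q.1 - X8 k j T q.1)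

theorem X8_chr (k j : ZMod 2) (T : Finset Pg) : Chr Pr 4 (fj j * DD T) (X8 k j T) :=
  (th8_chr (k + AS T) j).XT (P := Pr) (f := 4) (fun q => cq_chrP q) T

theorem LT8_self (k j : ZMod 2) (T : Finset Pg) : LT8 k j T T = La8 k j T := by
  rw [LT8, Finset.sdiff_self, prod_empty, mul_one]

theorem em_DD (S : Finset Pg) : em (DD S) = ∏ q ∈ S, em q.1 := em_prod _ _

/-- the value as a sum over representatives -/
theorem LT8_eq (k j : ZMod 2) {T S : Finset Pg} (hT : T ⊆ S) {ι : Type} [Fintype ι]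
    {c : ι → 𝓞 K8} (hc : RepsG Pr 4 (fj j * DD S) c) :
    LT8 k j T S = ∑ i, X8 k j T (c i) * E1 (em (c i) / em (fj j * DD S)) := by
  let _ : DecidableEq (Pf Pr) := inferInstanceAs (DecidableEq Pg)
  have h1 := Gen_id (P := Pr) (f := 4) (th8_chr (k + AS T) j) (fun q : Pf Pr => cq_chrP q)
    (T := T) (S := S) hT hc
  have hf : em (fj j) ≠ 0 := em_ne (fj_ne j)
  have hD : em (DD S) ≠ 0 := em_ne (DD_ne S)
  have hfD : em (fj j * DD S) ≠ 0 := em_ne (mul_ne_zero (fj_ne j) (DD_ne S))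
  have h2 := congrArg (fun z : ℂ => em (fj j * DD S) * z) h1
  change em (fj j * DD S) * _ = em (fj j * DD S) * ((em (fj j * DD S))⁻¹ * _) at h2
  rw [mul_inv_cancel_left₀ hfD] at h2
  refine Eq.trans ?_ h2
  rw [LT8, La8, em_mul, em_mul, em_DD, em_DD]
  have e2 : ∏ q ∈ S \ T, (em q.1 - X8 k j T q.1) =
      (∏ q ∈ S \ T, em q.1) * ∏ q ∈ S \ T, (1 - X8 k j T q.1 / em q.1) := by
    rw [← prod_mul_distrib]
    refine prod_congr rfl fun q _ => ?_
    have hq : em q.1 ≠ 0 := em_ne q.2.1.ne_zero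
    field_simp
  have e3 : ∏ q ∈ S, em q.1 = (∏ q ∈ T, em q.1) * ∏ q ∈ S \ T, em q.1 := by
    rw [mul_comm, prod_sdiff hT]
  rw [e2, e3]
  change _ = em (fj j) * _ * (LG Pr (X8 k j T) 1 * ∏ q ∈ S \ T, (1 - X8 k j T q.1 / em q.1))
  ring

/-! ### The representatives -/

/-- representatives of the normalised elements modulo `f` -/
structure RP (f : 𝓞 K8) {κ : Type} (x : κ → 𝓞 K8) : Prop where
  fx : ∀ i, Pr (x i)
  ex : ∀ a, Pr a → ∃ i, f ∣ a - x i
  inj : ∀ i j, f ∣ x i - x j → i = j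

/-- representatives of the classes prime to `M` -/
structure RC (M : 𝓞 K8) {ι : Type} (b : ι → 𝓞 K8) : Prop where
  cop : ∀ i, IsCoprime (b i) M
  ex : ∀ a, IsCoprime a M → ∃ i, M ∣ a - b i
  inj : ∀ i j, M ∣ b i - b j → i = j

theorem RC.exists_rc {M : 𝓞 K8} (hM : M ≠ 0) :
    ∃ (ι : Type) (_ : Fintype ι) (b : ι → 𝓞 K8), RC M b := by
  classical
  obtain ⟨ι, _, a, ha⟩ := CRS.exists_crs hM
  refine ⟨{i // IsCoprime (a i) M}, inferInstance, fun i => a i.1, fun i => i.2, ?_, ?_⟩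
  · intro x hx
    obtain ⟨i, hi⟩ := ha.ex x
    have h1 : IsCoprime (a i) M := by
      obtain ⟨u, v, huv⟩ := hx
      obtain ⟨t, ht⟩ := hi
      exact ⟨u, v + u * t, by linear_combination huv - u * ht⟩
    exact ⟨⟨i, h1⟩, hi⟩
  · intro i j h
    exact Subtype.ext (ha.inj _ _ h)

/-- the representatives `DD x + f b` -/
theorem reps8 (j : ZMod 2) {S : Finset Pg} {κ ι : Type} {x : κ → 𝓞 K8} {b : ι → 𝓞 K8}
    (hx : RP (fj j) x) (hb : RC (DD S) b) :
    RepsG Pr 4 (fj j * DD S) (fun p : κ × ι => DD S * x p.1 + fj j * b p.2) := by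
  have hin : ∀ p : κ × ι, Pr (DD S * x p.1 + fj j * b p.2) := by
    rintro ⟨s, i⟩
    refine (Pr_congr ?_).2 ((Pr_DD S).mul (hx.fx s))
    change (4 : 𝓞 K8) ∣ DD S * x s + fj j * b i - DD S * x s
    rw [add_sub_cancel_left]
    exact (four_dvd_fj j).mul_right _
  have hc : IsCoprime (DD S) (fj j) := cop_fj (Pr_DD S).odd j
  refine ⟨mul_ne_zero (fj_ne j) (DD_ne S), (four_dvd_fj j).mul_right _, hin, ?_, ?_, ?_⟩
  · rintro ⟨s, i⟩
    refine IsCoprime.mul_right (cop_fj (hin (s, i)).odd j) ?_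
    change IsCoprime (DD S * x s + fj j * b i) (DD S)
    obtain ⟨p, q, hpq⟩ := IsCoprime.mul_left hc.symm (hb.cop i)
    exact ⟨p, q - p * x s, by linear_combination hpq⟩
  · intro a ha h1
    obtain ⟨u, v, huv⟩ := hc
    have h2 : (4 : 𝓞 K8) ∣ a - DD S * (u * a) := by
      refine (four_dvd_fj j).trans ⟨v * a, ?_⟩
      linear_combination (-a) * huv
    have h3 : Pr (u * a) := by
      have h4 : ¬ lam ∣ u * a := by
        intro h5
        have h6 : lam ∣ (4 : 𝓞 K8) := by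
          rw [← lam_pow4]
          exact dvd_pow_self lam (by norm_num)
        have h7 := dvd_add (h6.trans h2) (h5.mul_left (DD S))
        rw [sub_add_cancel] at h7
        exact h1.odd h7
      rcases Pr_or_neg h4 with h5 | h5
      · exact h5
      · exfalso
        have h6 := (Pr_DD S).mul h5
        have e : -a - DD S * -(u * a) = -(a - DD S * (u * a)) := by ring
        have h7 : (4 : 𝓞 K8) ∣ -a - DD S * -(u * a) := by
          rw [e, dvd_neg]
          exact h2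
        exact not_Pr_neg h1 ((Pr_congr h7).2 h6)
    obtain ⟨s, t, ht⟩ := hx.ex _ h3
    have h8 : IsCoprime (v * a) (DD S) := by
      have h9 : IsCoprime a (DD S) := ha.of_isCoprime_of_dvd_right (dvd_mul_left _ _)
      have h10 : IsCoprime v (DD S) := ⟨fj j, u, by linear_combination huv⟩
      exact IsCoprime.mul_left h10 h9
    obtain ⟨i, t', ht'⟩ := hb.ex _ h8
    refine ⟨(s, i), ?_⟩
    change fj j * DD S ∣ a - (DD S * x s + fj j * b i)
    refine ⟨t + t', ?_⟩
    linear_combination (-a) * huv + DD S * ht + fj j * ht'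
  · rintro ⟨s, i⟩ ⟨s', i'⟩ ⟨t, ht⟩
    change DD S * x s + fj j * b i - (DD S * x s' + fj j * b i') = _ at ht
    have h1 : fj j ∣ x s - x s' := by
      refine IsCoprime.dvd_of_dvd_mul_left hc.symm ⟨DD S * t - (b i - b i'), ?_⟩
      linear_combination ht
    have h2 : DD S ∣ b i - b i' := by
      refine IsCoprime.dvd_of_dvd_mul_left hc ⟨fj j * t - (x s - x s'), ?_⟩
      linear_combination ht
    rw [hx.inj _ _ h1, hb.inj _ _ h2]

/-! ### The weights -/

/-- the symbol modulo `DD T` restricted to the elements prime to `DD S` -/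
def t8 (T S : Finset Pg) (b : 𝓞 K8) : ℂ := (∏ q ∈ T, cq q b) * ∏ q ∈ S \ T, cq q b ^ 2

/-- the weights of the alternating sum -/
def wq8 (S : Finset Pg) (b : 𝓞 K8) : ℂ := ∏ q ∈ S, (cq q b ^ 2 - cq q b)

theorem not_dvd_of_cop {S : Finset Pg} {b : 𝓞 K8} (h : IsCoprime b (DD S)) {q : Pg} (hq : q ∈ S) :
    ¬ q.1 ∣ b := by
  intro hd
  have h1 : q.1 ∣ DD S := dvd_prod_of_mem (fun q : Pg => q.1) hq
  exact q.2.1.not_isUnit (h.isUnit_of_dvd' hd h1)

theorem exists_dvd_of_not_cop {S : Finset Pg} {b : 𝓞 K8} (h : ¬ IsCoprime b (DD S)) :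
    ∃ q ∈ S, q.1 ∣ b := by
  by_contra hcon
  push Not at hcon
  apply h
  rw [DD]
  refine IsCoprime.prod_right fun q hq => ?_
  rw [isCoprime_comm]
  exact q.2.1.irreducible.coprime_iff_not_dvd.2 (hcon q hq)

theorem t8_of_cop {T S : Finset Pg} {b : 𝓞 K8} (h : IsCoprime b (DD S)) :
    t8 T S b = ∏ q ∈ T, cq q b := by
  rw [t8, prod_eq_one (s := S \ T), mul_one]
  intro q hq
  exact cq_sq (not_dvd_of_cop h (mem_sdiff.1 hq).1)

theorem t8_of_not {T S : Finset Pg} {b : 𝓞 K8} (h : ¬ IsCoprime b (DD S)) :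
    t8 T S b = 0 := by
  obtain ⟨q, hq, hd⟩ := exists_dvd_of_not_cop h
  rw [t8]
  by_cases hT : q ∈ T
  · rw [prod_eq_zero hT (cq_of_dvd hd), zero_mul]
  · rw [prod_eq_zero (s := S \ T) (mem_sdiff.2 ⟨hq, hT⟩), mul_zero]
    rw [cq_of_dvd hd, zero_pow two_ne_zero]

theorem t8_per {T S : Finset Pg} (hT : T ⊆ S) {a b : 𝓞 K8} (h : DD S ∣ a - b) :
    t8 T S a = t8 T S b := by
  have h1 : ∀ q ∈ S, cq q a = cq q b := fun q hq =>
    cq_congr q ((dvd_prod_of_mem (fun q : Pg => q.1) hq).trans h)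
  rw [t8, t8, prod_congr rfl fun q hq => h1 q (hT hq)]
  congr 1
  refine prod_congr rfl fun q hq => ?_
  rw [h1 q (mem_sdiff.1 hq).1]

theorem t8_neg (T S : Finset Pg) (b : 𝓞 K8) : t8 T S (-b) = sn (AS T) * t8 T S b := by
  rw [t8, t8, AS, sn_sum, ← mul_assoc, ← prod_mul_distrib]
  congr 1
  · exact prod_congr rfl fun q _ => cq_neg q b
  · refine prod_congr rfl fun q _ => ?_
    rw [cq_neg, mul_pow, pow_two (sn _), sn_mul_self, one_mul]

theorem wq8_eq (S : Finset Pg) (b : 𝓞 K8) :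
    wq8 S b = ∑ T ∈ S.powerset, (-1) ^ T.card * t8 T S b := by
  rw [wq8]
  have e : ∀ q ∈ S, cq q b ^ 2 - cq q b = -cq q b + cq q b ^ 2 := fun q _ => by ring
  rw [prod_congr rfl e, prod_add]
  refine sum_congr rfl fun T _ => ?_
  rw [t8, prod_neg, mul_assoc]

theorem wq8_per {S : Finset Pg} {a b : 𝓞 K8} (h : DD S ∣ a - b) : wq8 S a = wq8 S b := by
  rw [wq8, wq8]
  refine prod_congr rfl fun q hq => ?_
  rw [cq_congr q ((dvd_prod_of_mem (fun q : Pg => q.1) hq).trans h)]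

open Classical in
/-- the weight is `2 ^ #S` at the elements with all symbols `-1`, and zero elsewhere -/
theorem wq8_ite (S : Finset Pg) (b : 𝓞 K8) :
    wq8 S b = if ∀ q ∈ S, qc q b = -1 then 2 ^ S.card else 0 := by
  split_ifs with h
  · rw [wq8, prod_congr rfl fun q hq => (show cq q b ^ 2 - cq q b = 2 by
      rw [cq, h q hq]; push_cast; norm_num), prod_const]
  · push Not at h
    obtain ⟨q, hq, h1⟩ := h
    rw [wq8]
    refine prod_eq_zero hq ?_
    by_cases h2 : q.1 ∣ b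
    · rw [cq_of_dvd h2]
      norm_num
    · rw [cq, (qc_or h2).resolve_right h1]
      push_cast
      norm_num

theorem wq8_of_cop {S : Finset Pg} {b : 𝓞 K8} (h : IsCoprime b (DD S)) :
    wq8 S b = ∏ q ∈ S, (1 - cq q b) := by
  rw [wq8]
  exact prod_congr rfl fun q hq => by rw [cq_sq (not_dvd_of_cop h hq)]

theorem wq8_of_not {S : Finset Pg} {b : 𝓞 K8} (h : ¬ IsCoprime b (DD S)) : wq8 S b = 0 := by
  obtain ⟨q, hq, hd⟩ := exists_dvd_of_not_cop h
  rw [wq8]
  refine prod_eq_zero hq ?_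
  rw [cq_of_dvd hd]
  norm_num

theorem wq8_empty (b : 𝓞 K8) : wq8 ∅ b = 1 := by
  rw [wq8, prod_empty]

/-! ### The functions -/

/-- the term of the class `x` -/
def V8 (f x : 𝓞 K8) (Q : ℂ) : ℂ :=
  if aa x = 0 then E1 (em x / em f + Q) else -E1 (-(em x / em f) + Q)

theorem V8_zero {f x : 𝓞 K8} (h : aa x = 0) (Q : ℂ) : V8 f x Q = E1 (em x / em f + Q) := by
  rw [V8, if_pos h]

theorem V8_one {f x : 𝓞 K8} (h : aa x = 1) (Q : ℂ) : V8 f x Q = -E1 (-(em x / em f) + Q) := by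
  rw [V8, if_neg]
  rw [h]
  exact one_ne_zero

theorem E1_per {M : 𝓞 K8} (hM : M ≠ 0) (z : ℂ) : Pd M fun b : 𝓞 K8 => E1 (z + em b / em M) := by
  rintro a b ⟨t, ht⟩
  change E1 (z + em a / em M) = E1 (z + em b / em M)
  have h1 : em M ≠ 0 := em_ne hM
  refine E1_congr' ?_
  have e : z + em a / em M - (z + em b / em M) = em t := by
    have h2 : em a - em b = em M * em t := by rw [← em_sub, ht, em_mul]
    field_simp
    linear_combination h2
  rw [e]
  exact em_mem t

theorem V8_per {M : 𝓞 K8} (hM : M ≠ 0) (f x : 𝓞 K8) : Pd M fun b : 𝓞 K8 => V8 f x (em b / em M) := by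
  intro a b h
  change V8 f x (em a / em M) = V8 f x (em b / em M)
  have h1 := E1_per hM (em x / em f) a b h
  have h2 := E1_per hM (-(em x / em f)) a b h
  simp only at h1 h2
  rw [V8, V8, h1, h2]

/-- the sum of one class -/
theorem sum_V8 {T S : Finset Pg} (hT : T ⊆ S) (f x : 𝓞 K8) :
    sn (AS T * aa x) * SM (DD S) (fun b => t8 T S b * E1 (em x / em f + em b / em (DD S))) =
      SM (DD S) (fun b => t8 T S b * V8 f x (em b / em (DD S))) := by
  rcases sn_cases (aa x) with h | h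
  · rw [h, mul_zero, sn_zero, one_mul]
    refine SM_congr fun b => ?_
    rw [V8_zero h]
  · have hp : Pd (DD S) fun b => t8 T S b * E1 (em x / em f + em b / em (DD S)) := by
      intro a b hab
      change t8 T S a * _ = t8 T S b * _
      have h1 := E1_per (DD_ne S) (em x / em f) a b hab
      simp only at h1
      rw [t8_per hT hab, h1]
    rw [h, mul_one, ← SM_mul (DD_ne S) hp (isCoprime_one_left.neg_left), ← SM_cmul (DD_ne S)]
    refine SM_congr fun b => ?_
    have e : em x / em f + Pool.Agent.Lib.MP_1a91b9_ntQ.em (-1 * b) / em (DD S) =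
        -(-(em x / em f) + em b / em (DD S)) := by
      rw [neg_one_mul, em_neg]
      ring
    rw [V8_one h, e, S3.E1_neg, neg_one_mul, t8_neg]
    linear_combination (-(t8 T S b * E1 (-(em x / em f) + em b / em (DD S)))) * sn_mul_self (AS T)

/-- the function of a system of representatives -/
def UG (k j : ZMod 2) {κ : Type} [Fintype κ] (x : κ → 𝓞 K8) (Q : ℂ) : ℂ :=
  ∑ s, th8 k j (x s) * V8 (fj j) (x s) Q

/-- the sign of a subset -/
def sg8 (j : ZMod 2) (T S : Finset Pg) : ℂ := sn (AS T * AS S + j * lS T)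

theorem sg8_mul_self (j : ZMod 2) (T S : Finset Pg) : sg8 j T S * sg8 j T S = 1 := sn_mul_self _

/-- the character at a representative -/
theorem X8_rep (k j : ZMod 2) {T S : Finset Pg} (hT : T ⊆ S) {x b : 𝓞 K8} (hx : Pr x) :
    X8 k j T (DD S * x + fj j * b) =
      sg8 j T S * th8 k j (DD S) * (th8 k j x * sn (AS T * aa x)) * ∏ q ∈ T, cq q b := by
  have h1 : th8 (k + AS T) j (DD S * x + fj j * b) = th8 (k + AS T) j (DD S * x) := by
    refine th8_congr _ j ?_
    rw [add_sub_cancel_left]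
    exact dvd_mul_right _ _
  have h2 : ∏ q ∈ T, cq q (DD S * x + fj j * b) = sn (j * lS T) * ∏ q ∈ T, cq q b := by
    have h3 : ∀ q ∈ T, cq q (DD S * x + fj j * b) = sn (j * ll q.1) * cq q b := by
      intro q hq
      rw [← cq_fj, ← cq_mul]
      refine cq_congr q ?_
      rw [add_sub_cancel_right]
      exact (dvd_prod_of_mem (fun q : Pg => q.1) (hT hq)).mul_right x
    rw [prod_congr rfl h3, prod_mul_distrib, ← sn_sum, lS, mul_sum]
  rw [X8, h1, h2, th8_mul _ _ (Pr_DD S) hx, th8_add, th8_add, aa_DD, sg8, sn_add]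
  ring

/-- **The sum over the classes modulo `DD S`.** -/
theorem LT8_UG (k j : ZMod 2) {T S : Finset Pg} (hT : T ⊆ S) {κ : Type} [Fintype κ]
    {x : κ → 𝓞 K8} (hx : RP (fj j) x) :
    LT8 k j T S = sg8 j T S * th8 k j (DD S) *
      SM (DD S) (fun b => t8 T S b * UG k j x (em b / em (DD S))) := by
  obtain ⟨ι, _, b, hb⟩ := RC.exists_rc (DD_ne S)
  have hD : em (DD S) ≠ 0 := em_ne (DD_ne S)
  have hf : em (fj j) ≠ 0 := em_ne (fj_ne j)
  rw [LT8_eq k j hT (reps8 j hx hb), Fintype.sum_prod_type]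
  have h1 : SM (DD S) (fun b => t8 T S b * UG k j x (em b / em (DD S))) =
      ∑ s, th8 k j (x s) * SM (DD S) (fun b => t8 T S b * V8 (fj j) (x s) (em b / em (DD S))) := by
    have h2 : ∀ b : 𝓞 K8, t8 T S b * UG k j x (em b / em (DD S)) =
        ∑ s, th8 k j (x s) * (t8 T S b * V8 (fj j) (x s) (em b / em (DD S))) := by
      intro b
      rw [UG, mul_sum]
      exact sum_congr rfl fun s _ => by ring
    rw [SM_congr h2, SM_fsum (DD_ne S)]
    exact sum_congr rfl fun s _ => SM_cmul (DD_ne S) _ _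
  rw [h1, mul_sum]
  refine sum_congr rfl fun s _ => ?_
  rw [← sum_V8 hT]
  have h3 : SM (DD S) (fun b => t8 T S b * E1 (em (x s) / em (fj j) + em b / em (DD S))) =
      ∑ i, t8 T S (b i) * E1 (em (x s) / em (fj j) + em (b i) / em (DD S)) := by
    refine SM_sup (DD_ne S) ?_ ?_ hb.inj
    · intro a b hab
      change t8 T S a * _ = t8 T S b * _
      have h1 := E1_per (DD_ne S) (em (x s) / em (fj j)) a b hab
      simp only at h1
      rw [t8_per hT hab, h1]
    · intro y hy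
      refine hb.ex y ?_
      by_contra h4
      apply hy
      rw [t8_of_not h4, zero_mul]
  rw [h3, mul_sum, mul_sum, mul_sum]
  refine sum_congr rfl fun i _ => ?_
  change X8 k j T (DD S * x s + fj j * b i) *
    E1 (em (DD S * x s + fj j * b i) / em (fj j * DD S)) = _
  have e : em (DD S * x s + fj j * b i) / em (fj j * DD S) =
      em (x s) / em (fj j) + em (b i) / em (DD S) := by
    rw [em_add, em_mul, em_mul, em_mul]
    field_simp
  rw [X8_rep k j hT (hx.fx s), e, t8_of_cop (hb.cop i)]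
  ring

/-! ### The representatives modulo `4` and modulo `4 lam` -/

/-- the normalised representatives modulo `4` -/
def xr (s : Fin 4) : 𝓞 K8 :=
  match s with
  | 0 => 1
  | 1 => -1 + 2 * lam
  | 2 => 1 + lam
  | 3 => -1 + lam

theorem cp_xr (s : Fin 4) : cp (xr s) =
    match s with
    | 0 => (1, 0)
    | 1 => (-1, 2)
    | 2 => (1, 1)
    | 3 => (-1, 1) := by
  fin_cases s
  · exact cp_one
  · have h := cp_coords (-1) 2
    push_cast at h
    exact h
  · have h := cp_coords 1 1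
    push_cast at h
    rw [one_mul] at h
    exact h
  · have h := cp_coords (-1) 1
    push_cast at h
    rw [one_mul] at h
    exact h

/-- the normalised representatives modulo `4 lam` -/
def xr' (p : Fin 4 × Fin 2) : 𝓞 K8 := xr p.1 + 4 * ((p.2.val : ℕ) : 𝓞 K8)

theorem cp_xr' (p : Fin 4 × Fin 2) : cp (xr' p) = ((cp (xr p.1)).1 + 4 * (p.2.val : ℤ),
    (cp (xr p.1)).2) := by
  have h : (4 * ((p.2.val : ℕ) : 𝓞 K8)) = ((4 * (p.2.val : ℤ) : ℤ) : 𝓞 K8) := by
    push_cast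
    rfl
  rw [xr', cp_add, h, cp_intCast]
  refine Prod.ext rfl ?_
  change (cp (xr p.1)).2 + 0 = _
  rw [add_zero]

theorem rp_zero : RP (fj 0) xr where
  fx s := by
    rw [Pr_iff, cp_xr]
    fin_cases s <;> decide
  ex a ha := by
    rw [fj_zero]
    rw [Pr_iff] at ha
    have h : ∃ s, (4 : ℤ) ∣ (cp a).1 - (cp (xr s)).1 ∧ (4 : ℤ) ∣ (cp a).2 - (cp (xr s)).2 := by
      have h1 : ((cp a).1 % 4 = 1 ∧ (cp a).2 % 4 = 0) ∨ ((cp a).1 % 4 = 3 ∧ (cp a).2 % 4 = 2) ∨
          ((cp a).1 % 4 = 1 ∧ (cp a).2 % 4 = 1) ∨ ((cp a).1 % 4 = 3 ∧ (cp a).2 % 4 = 1) := by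
        omega
      rcases h1 with h1 | h1 | h1 | h1
      · refine ⟨0, ?_⟩
        rw [cp_xr]
        dsimp only
        omega
      · refine ⟨1, ?_⟩
        rw [cp_xr]
        dsimp only
        omega
      · refine ⟨2, ?_⟩
        rw [cp_xr]
        dsimp only
        omega
      · refine ⟨3, ?_⟩
        rw [cp_xr]
        dsimp only
        omega
    obtain ⟨s, h1, h2⟩ := h
    refine ⟨s, ?_⟩
    rw [four_dvd_iff, cp_sub]
    exact ⟨h1, h2⟩
  inj s t h := by
    rw [fj_zero, four_dvd_iff, cp_sub, cp_xr, cp_xr] at h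
    revert h
    fin_cases s <;> fin_cases t <;> simp

theorem rp_one : RP (fj 1) xr' where
  fx p := by
    refine (Pr_congr ?_).2 (rp_zero.fx p.1)
    rw [xr', add_sub_cancel_left]
    exact dvd_mul_right _ _
  ex a ha := by
    rw [fj_one]
    obtain ⟨s, h⟩ := rp_zero.ex a ha
    rw [fj_zero, four_dvd_iff, cp_sub] at h
    simp only [Prod.fst_sub, Prod.snd_sub] at h
    have h1 : ((cp a).1 - (cp (xr s)).1) % 8 = 0 ∨ ((cp a).1 - (cp (xr s)).1) % 8 = 4 := by omega
    rcases h1 with h1 | h1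
    · refine ⟨(s, 0), ?_⟩
      rw [lam5_dvd_iff, cp_sub, cp_xr']
      simp only [Prod.fst_sub, Prod.snd_sub, Fin.val_zero]
      push_cast
      omega
    · refine ⟨(s, 1), ?_⟩
      rw [lam5_dvd_iff, cp_sub, cp_xr']
      simp only [Prod.fst_sub, Prod.snd_sub, Fin.val_one]
      push_cast
      omega
  inj p p' h := by
    rw [fj_one, lam5_dvd_iff, cp_sub, cp_xr', cp_xr'] at h
    simp only [Prod.fst_sub, Prod.snd_sub] at h
    have h1 : p.1 = p'.1 := by
      refine rp_zero.inj _ _ ?_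
      rw [fj_zero, four_dvd_iff, cp_sub]
      simp only [Prod.fst_sub, Prod.snd_sub]
      omega
    rw [h1] at h
    have h2 := p.2.isLt
    have h3 := p'.2.isLt
    exact Prod.ext h1 (Fin.ext (by omega))

theorem cz_of_cp {x : 𝓞 K8} {m n : ℤ} (h : cp x = (m, n)) : cz x = ((m : ZMod 8), (n : ZMod 8)) := by
  rw [cz, h]

theorem aa_xr (s : Fin 4) : aa (xr s) = if s.val < 2 then 0 else 1 := by
  rw [aa_cp, cp_xr]
  fin_cases s <;> decide

theorem aa_xr' (p : Fin 4 × Fin 2) : aa (xr' p) = aa (xr p.1) := by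
  refine aa_congr ?_
  rw [xr', add_sub_cancel_left]
  exact dvd_mul_right _ _

theorem ll_xr' (p : Fin 4 × Fin 2) : ll (xr' p) =
    if p.1 = 2 then ((p.2.val + 1 : ℕ) : ZMod 2) else ((p.2.val : ℕ) : ZMod 2) := by
  have h := cz_of_cp (cp_xr' p)
  rw [ll, h, cp_xr]
  rcases p with ⟨s, t⟩
  fin_cases s <;> fin_cases t <;> decide

/-- the function `U_k` of the page -/
def U8 (j : ZMod 2) (ep Q : ℂ) : ℂ := if j = 0 then U0 ep Q else U1 ep Q

theorem U8_zero (ep Q : ℂ) : U8 0 ep Q = U0 ep Q := by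
  rw [U8, if_pos rfl]

theorem U8_one (ep Q : ℂ) : U8 1 ep Q = U1 ep Q := by
  rw [U8, if_neg one_ne_zero]

theorem em_fj_zero : em (fj 0) = 4 := by
  rw [fj_zero]
  exact em_ofNat 4

theorem em_fj_one : em (fj 1) = 4 * lm := by
  rw [fj_one, em_mul]
  exact congrArg₂ (· * ·) (em_ofNat 4) rfl

theorem em_xr0 : em (xr 0) = 1 := em_one

theorem em_xr1 : em (xr 1) = -1 + 2 * lm := by
  have h : em (xr 1) = em (-1 : 𝓞 K8) + Pool.Agent.Lib.MP_1a91b9_ntQ.em (2 * lam) := em_add _ _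
  rw [h, em_neg, em_one, em_mul]
  exact congrArg (fun z => -1 + z) (congrArg₂ (· * ·) (em_ofNat 2) rfl)

theorem em_xr2 : em (xr 2) = 1 + lm := by
  have h : em (xr 2) = em (1 : 𝓞 K8) + em lam := em_add _ _
  rw [h, em_one]
  rfl

theorem em_xr3 : em (xr 3) = -1 + lm := by
  have h : em (xr 3) = em (-1 : 𝓞 K8) + em lam := em_add _ _
  rw [h, em_neg, em_one]
  rfl

theorem em_xr' (p : Fin 4 × Fin 2) : em (xr' p) = em (xr p.1) + 4 * ((p.2.val : ℕ) : ℂ) := by
  rw [xr', em_add, em_mul]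
  exact congrArg (fun z => em (xr p.1) + z)
    (congrArg₂ (· * ·) (em_ofNat 4) (Pool.Agent.Lib.MP_1a91b9_ntQ.em_natCast _))

theorem UG_zero (k : ZMod 2) (Q : ℂ) : UG k 0 xr Q = U0 (sn k) Q := by
  have t0 : th8 k 0 (xr 0) = 1 := th8_one k 0
  have t1 : th8 k 0 (xr 1) = 1 := by
    rw [th8, aa_xr, zero_mul, add_zero, if_pos (by decide), mul_zero, sn_zero]
  have t2 : th8 k 0 (xr 2) = sn k := by
    rw [th8, aa_xr, zero_mul, add_zero, if_neg (by decide), mul_one]
  have t3 : th8 k 0 (xr 3) = sn k := by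
    rw [th8, aa_xr, zero_mul, add_zero, if_neg (by decide), mul_one]
  have a0 : aa (xr 0) = 0 := by rw [aa_xr, if_pos (by decide)]
  have a1 : aa (xr 1) = 0 := by rw [aa_xr, if_pos (by decide)]
  have a2 : aa (xr 2) = 1 := by rw [aa_xr, if_neg (by decide)]
  have a3 : aa (xr 3) = 1 := by rw [aa_xr, if_neg (by decide)]
  rw [UG, Fin.sum_univ_four, t0, t1, t2, t3, V8_zero a0, V8_zero a1, V8_one a2, V8_one a3,
    em_fj_zero, em_xr0, em_xr1, em_xr2, em_xr3, U0, neg_div, neg_div]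
  ring

theorem UG_one (k : ZMod 2) (Q : ℂ) : UG k 1 xr' Q = U1 (sn k) Q := by
  have hl : ∀ s : Fin 4, ∀ t : Fin 2, th8 k 1 (xr' (s, t)) = sn (k * aa (xr s) +
      (if s = 2 then ((t.val + 1 : ℕ) : ZMod 2) else ((t.val : ℕ) : ZMod 2))) := by
    intro s t
    rw [th8, aa_xr', one_mul, ll_xr']
  have a0 : aa (xr 0) = 0 := by rw [aa_xr, if_pos (by decide)]
  have a1 : aa (xr 1) = 0 := by rw [aa_xr, if_pos (by decide)]
  have a2 : aa (xr 2) = 1 := by rw [aa_xr, if_neg (by decide)]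
  have a3 : aa (xr 3) = 1 := by rw [aa_xr, if_neg (by decide)]
  have b : ∀ s t, aa (xr' (s, t)) = aa (xr s) := fun s t => aa_xr' _
  have t00 : th8 k 1 (xr' (0, 0)) = 1 := by
    rw [hl, a0, mul_zero, if_neg (by decide), zero_add]
    exact sn_zero
  have t01 : th8 k 1 (xr' (0, 1)) = -1 := by
    rw [hl, a0, mul_zero, if_neg (by decide), zero_add]
    exact sn_one
  have t10 : th8 k 1 (xr' (1, 0)) = 1 := by
    rw [hl, a1, mul_zero, if_neg (by decide), zero_add]
    exact sn_zero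
  have t11 : th8 k 1 (xr' (1, 1)) = -1 := by
    rw [hl, a1, mul_zero, if_neg (by decide), zero_add]
    exact sn_one
  have t20 : th8 k 1 (xr' (2, 0)) = -sn k := by
    rw [hl, a2, mul_one, if_pos rfl, sn_add]
    have : sn ((((0 : Fin 2).val + 1 : ℕ) : ZMod 2)) = -1 := sn_one
    rw [this]
    ring
  have t21 : th8 k 1 (xr' (2, 1)) = sn k := by
    rw [hl, a2, mul_one, if_pos rfl, sn_add]
    have : sn ((((1 : Fin 2).val + 1 : ℕ) : ZMod 2)) = 1 := sn_zero
    rw [this]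
    ring
  have t30 : th8 k 1 (xr' (3, 0)) = sn k := by
    rw [hl, a3, mul_one, if_neg (by decide), sn_add]
    have : sn ((((0 : Fin 2).val : ℕ) : ZMod 2)) = 1 := sn_zero
    rw [this]
    ring
  have t31 : th8 k 1 (xr' (3, 1)) = -sn k := by
    rw [hl, a3, mul_one, if_neg (by decide), sn_add]
    have : sn ((((1 : Fin 2).val : ℕ) : ZMod 2)) = -1 := sn_one
    rw [this]
    ring
  have e0 : ∀ s, em (xr' (s, 0)) = em (xr s) := by
    intro s
    rw [em_xr']
    change em (xr s) + 4 * ((0 : ℕ) : ℂ) = _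
    rw [Nat.cast_zero, mul_zero, add_zero]
  have e1 : ∀ s, em (xr' (s, 1)) = em (xr s) + 4 := by
    intro s
    rw [em_xr']
    change em (xr s) + 4 * ((1 : ℕ) : ℂ) = _
    rw [Nat.cast_one, mul_one]
  have v0 : ∀ s t, aa (xr s) = 0 → V8 (fj 1) (xr' (s, t)) Q =
      E1 (em (xr' (s, t)) / em (fj 1) + Q) := fun s t h => V8_zero ((b s t).trans h) Q
  have v1 : ∀ s t, aa (xr s) = 1 → V8 (fj 1) (xr' (s, t)) Q =
      -E1 (-(em (xr' (s, t)) / em (fj 1)) + Q) := fun s t h => V8_one ((b s t).trans h) Q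
  rw [UG, Fintype.sum_prod_type, Fin.sum_univ_four, Fin.sum_univ_two, Fin.sum_univ_two,
    Fin.sum_univ_two, Fin.sum_univ_two, t00, t01, t10, t11, t20, t21, t30, t31,
    v0 0 0 a0, v0 0 1 a0, v0 1 0 a1, v0 1 1 a1, v1 2 0 a2, v1 2 1 a2, v1 3 0 a3, v1 3 1 a3,
    e0, e0, e0, e0, e1, e1, e1, e1, em_fj_one, em_xr0, em_xr1, em_xr2, em_xr3, U1, neg_div,
    neg_div, neg_div, neg_div]
  ring

/-- **The value as a sum over the classes modulo `DD S`.** -/
theorem LT8_SM (k j : ZMod 2) {T S : Finset Pg} (hT : T ⊆ S) :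
    LT8 k j T S = sg8 j T S * th8 k j (DD S) *
      SM (DD S) (fun b => t8 T S b * U8 j (sn k) (em b / em (DD S))) := by
  rcases sn_cases j with rfl | rfl
  · rw [LT8_UG k 0 hT rp_zero]
    congr 1
    exact SM_congr fun b => by rw [UG_zero, U8_zero]
  · rw [LT8_UG k 1 hT rp_one]
    congr 1
    exact SM_congr fun b => by rw [UG_one, U8_one]

theorem U8_per {M : 𝓞 K8} (hM : M ≠ 0) (k j : ZMod 2) :
    Pd M fun b : 𝓞 K8 => U8 j (sn k) (em b / em M) := by
  intro a b h
  change U8 j (sn k) (em a / em M) = U8 j (sn k) (em b / em M)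
  rcases sn_cases j with rfl | rfl
  · rw [U8_zero, U8_zero, ← UG_zero, ← UG_zero, UG, UG]
    refine sum_congr rfl fun s _ => ?_
    have h1 := V8_per hM (fj 0) (xr s) a b h
    simp only at h1
    rw [h1]
  · rw [U8_one, U8_one, ← UG_one, ← UG_one, UG, UG]
    refine sum_congr rfl fun s _ => ?_
    have h1 := V8_per hM (fj 1) (xr' s) a b h
    simp only at h1
    rw [h1]

/-- the value for the empty set -/
theorem La8_empty (k j : ZMod 2) : La8 k j ∅ = U8 j (sn k) 0 := by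
  have h := LT8_SM k j (Finset.Subset.refl (∅ : Finset Pg))
  have h1 : SM (DD ∅) (fun b => t8 ∅ ∅ b * U8 j (sn k) (em b / em (DD ∅))) = U8 j (sn k) 0 := by
    have h2 : Pd (DD ∅) fun b => t8 ∅ ∅ b * U8 j (sn k) (em b / em (DD ∅)) := by
      intro a b hab
      change t8 ∅ ∅ a * _ = t8 ∅ ∅ b * _
      have h3 := U8_per (DD_ne ∅) k j a b hab
      simp only at h3
      rw [t8_per (Finset.Subset.refl _) hab, h3]
    rw [SM_sup (DD_ne ∅) (ι := Unit) (a := fun _ => 0) h2
      (fun x _ => ⟨(), by rw [DD_empty]; exact one_dvd _⟩) (fun _ _ _ => rfl), Fintype.sum_unique]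
    rw [t8, prod_empty, Finset.sdiff_self, prod_empty, one_mul, one_mul, em_zero, zero_div]
  rw [LT8_self, h1, DD_empty, th8_one, sg8, AS, lS, sum_empty, sum_empty, zero_mul, mul_zero,
    add_zero, sn_zero, one_mul, one_mul] at h
  exact h

/-- **The averaging identity.** -/
theorem avg8 (k j : ZMod 2) (S : Finset Pg) :
    ∑ T ∈ S.powerset, (-1) ^ T.card * (sg8 j T S * LT8 k j T S) =
      th8 k j (DD S) * SM (DD S) (fun b => wq8 S b * U8 j (sn k) (em b / em (DD S))) := by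
  have h1 : ∀ T ∈ S.powerset, (-1) ^ T.card * (sg8 j T S * LT8 k j T S) =
      th8 k j (DD S) * SM (DD S) (fun b => (-1) ^ T.card * t8 T S b *
        U8 j (sn k) (em b / em (DD S))) := by
    intro T hT
    have h2 : SM (DD S) (fun b => (-1) ^ T.card * t8 T S b * U8 j (sn k) (em b / em (DD S))) =
        (-1) ^ T.card * SM (DD S) (fun b => t8 T S b * U8 j (sn k) (em b / em (DD S))) := by
      rw [← SM_cmul (DD_ne S)]
      exact SM_congr fun b => by ring
    rw [LT8_SM k j (mem_powerset.1 hT), h2]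
    linear_combination ((-1) ^ T.card * th8 k j (DD S) *
      SM (DD S) (fun b => t8 T S b * U8 j (sn k) (em b / em (DD S)))) * sg8_mul_self j T S
  rw [sum_congr rfl h1, ← mul_sum, ← SM_fsum (DD_ne S)]
  congr 1
  refine SM_congr fun b => ?_
  rw [wq8_eq, sum_mul]

/-- the sum of a subset with the even or the odd part of the function -/
theorem LT8_par (k j e : ZMod 2) {T S : Finset Pg} (hT : T ⊆ S) :
    (if AS T = e then 2 * (sg8 j T S * LT8 k j T S) else 0) = th8 k j (DD S) *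
      SM (DD S) (fun b => t8 T S b * (U8 j (sn k) (em b / em (DD S)) +
        sn e * U8 j (sn k) (-(em b / em (DD S))))) := by
  obtain ⟨F, hF⟩ : ∃ F : 𝓞 K8 → ℂ, F = fun b => t8 T S b * U8 j (sn k) (em b / em (DD S)) :=
    ⟨_, rfl⟩
  have hp : Pd (DD S) F := by
    intro a b hab
    rw [hF]
    change t8 T S a * _ = t8 T S b * _
    have h3 := U8_per (DD_ne S) k j a b hab
    simp only at h3
    rw [t8_per hT hab, h3]
  have h1 : SM (DD S) (fun b => t8 T S b * (U8 j (sn k) (em b / em (DD S)) +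
      sn e * U8 j (sn k) (-(em b / em (DD S))))) = (1 + sn e * sn (AS T)) * SM (DD S) F := by
    have h2 : ∀ b, t8 T S b * (U8 j (sn k) (em b / em (DD S)) +
        sn e * U8 j (sn k) (-(em b / em (DD S)))) = F b + (sn e * sn (AS T)) * F (-1 * b) := by
      intro b
      rw [hF]
      simp only
      have e1 : Pool.Agent.Lib.MP_1a91b9_ntQ.em (-1 * b) / em (DD S) = -(em b / em (DD S)) := by
        rw [neg_one_mul, em_neg, neg_div]
      rw [e1, neg_one_mul, t8_neg]
      linear_combination (-(t8 T S b * sn e * U8 j (sn k) (-(em b / em (DD S))))) *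
        sn_mul_self (AS T)
    rw [SM_congr h2, SM_add (DD_ne S), SM_cmul (DD_ne S), SM_mul (DD_ne S) hp
      (isCoprime_one_left.neg_left)]
    ring
  have h2 : LT8 k j T S = sg8 j T S * th8 k j (DD S) * SM (DD S) F := by
    rw [hF]
    exact LT8_SM k j hT
  rw [h1]
  split_ifs with h
  · rw [h2, h, sn_mul_self]
    linear_combination (2 * th8 k j (DD S) * SM (DD S) F) * sg8_mul_self j T S
  · have h3 : sn e * sn (AS T) = -1 := by
      rw [← sn_add]
      have h4 : ∀ x y : ZMod 2, y ≠ x → x + y = 1 := by decide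
      rw [h4 _ _ h, sn_one]
    rw [h3]
    ring

/-- **The averaging identity for the even and for the odd subsets.** -/
theorem avg8_par (k j e : ZMod 2) (S : Finset Pg) :
    2 * ∑ T ∈ S.powerset, (if AS T = e then (-1) ^ T.card * (sg8 j T S * LT8 k j T S) else 0) =
      th8 k j (DD S) * SM (DD S) (fun b => wq8 S b * (U8 j (sn k) (em b / em (DD S)) +
        sn e * U8 j (sn k) (-(em b / em (DD S))))) := by
  rw [mul_sum]
  have h1 : ∀ T ∈ S.powerset,
      2 * (if AS T = e then (-1) ^ T.card * (sg8 j T S * LT8 k j T S) else 0) =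
      th8 k j (DD S) * SM (DD S) (fun b => (-1) ^ T.card * t8 T S b *
        (U8 j (sn k) (em b / em (DD S)) + sn e * U8 j (sn k) (-(em b / em (DD S))))) := by
    intro T hT
    have h2 : SM (DD S) (fun b => (-1) ^ T.card * t8 T S b *
        (U8 j (sn k) (em b / em (DD S)) + sn e * U8 j (sn k) (-(em b / em (DD S))))) =
        (-1) ^ T.card * SM (DD S) (fun b => t8 T S b *
        (U8 j (sn k) (em b / em (DD S)) + sn e * U8 j (sn k) (-(em b / em (DD S))))) := by
      rw [← SM_cmul (DD_ne S)]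
      exact SM_congr fun b => by ring
    have h3 := LT8_par k j e (mem_powerset.1 hT)
    rw [h2]
    split_ifs at h3 ⊢ with h
    · linear_combination (-1) ^ T.card * h3
    · linear_combination (-1) ^ T.card * h3
  rw [sum_congr rfl h1, ← mul_sum, ← SM_fsum (DD_ne S)]
  congr 1
  refine SM_congr fun b => ?_
  rw [wq8_eq, sum_mul]

/-! ### The Euler factors -/

/-- the character at a prime outside `T` -/
theorem X8_prime (k j : ZMod 2) {T : Finset Pg} {q : Pg} (h : q ∉ T) :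
    X8 k j T q.1 = sn (k * aa q.1 + j * ll q.1 + ∑ t ∈ T, sy q t) := by
  have h1 : ∏ t ∈ T, cq t q.1 = sn (∑ t ∈ T, sy t q) := by
    have h3 : ((∏ t ∈ T, qc t q.1 : ℤ) : ℂ) = (((-1) ^ (∑ t ∈ T, sy t q).val : ℤ) : ℂ) := by
      rw [prod_qc h]
    rw [Int.cast_prod] at h3
    refine Eq.trans h3 ?_
    rw [sn]
    push_cast
    rfl
  have h4 : ∑ t ∈ T, sy t q = ∑ t ∈ T, sy q t + AS T * aa q.1 := by
    rw [AS, sum_mul, ← sum_add_distrib]
    refine sum_congr rfl fun t ht => ?_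
    have h5 : t ≠ q := fun h5 => h (h5 ▸ ht)
    exact sy_recip t q h5
  rw [X8, th8, h1, h4, ← sn_add]
  congr 1
  have h6 : ∀ a b c d e f : ZMod 2, (a + f) * b + c * d + (e + f * b) = a * b + c * d + e := by
    decide
  exact h6 _ _ _ _ _ _

/-- the factors -/
theorem LT8_prime (k j : ZMod 2) (T S : Finset Pg) : LT8 k j T S = La8 k j T *
    ∏ q ∈ S \ T, (em q.1 - sn (k * aa q.1 + j * ll q.1 + ∑ t ∈ T, sy q t)) := by
  rw [LT8]
  congr 1
  exact prod_congr rfl fun q hq => by rw [X8_prime k j (mem_sdiff.1 hq).2]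

end

end Pool.Agent.Lib.MP_1a91b9_ntW
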