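import Pool.Agent.Lib.MP_1a91b9_ntQ.A.Gen

/-!
# Phase 6, part A, general file: the L-series of `ψbar X` for a character `X` of finite order of an
arbitrary modulus, and the values at `s = 1`, for a general datum `CD` and general normalised elements

`P` is the predicate of the normalised elements: a union of prime residue classes modulo `f`, closed
under products, which contains exactly one unit multiple of every element prime to `f` (`IsNor P f`).
`X : 𝓞 K → ℂ` is only used on the normalised elements.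
-/

set_option autoImplicit false
set_option linter.unusedSectionVars false

namespace Pool.Agent.Lib.MP_1a91b9_ntW

open NumberField IsDedekindDomain Pool.Agent.Lib.MP_1a91b9_nuT
open Pool.Agent.Lib.MP_1a91b9_nuT.S4 (Lf)
open Pool.Agent.Lib.MP_1a91b9_nuT.DG (ZS exists_Z summable_Z)
open Pool.Agent.Lib.MP_1a91b9_ntQ (em em_zero em_one em_mul em_ne SumT SumT_pos SumT_neg SumT_summable
  SumT_tsum Sum_absNorm Sum_norm Sum_gen Eul_cop Eul_diff rst rst_pos rst_neg ChrP)

noncomputable section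

variable [CD]

/-! ### The normalised elements -/

/-- `P` is a union of prime residue classes modulo `f`, closed under products, and every element prime
to `f` has exactly one unit multiple in `P`. -/
class IsNor (P : 𝓞 K → Prop) (f : outParam (𝓞 K)) : Prop where
  ne : f ≠ 0
  one : P 1
  mul : ∀ a b : 𝓞 K, P a → P b → P (a * b)
  cop : ∀ a : 𝓞 K, P a → IsCoprime a f
  congr : ∀ a b : 𝓞 K, f ∣ a - b → P b → P a
  inj : ∀ (u : (𝓞 K)ˣ) (a : 𝓞 K), P a → P (u * a) → u = 1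
  surj : ∀ a : 𝓞 K, IsCoprime a f → ∃ u : (𝓞 K)ˣ, P (u * a)

section
variable (P : 𝓞 K → Prop)

open Classical in
/-- `ψ` on ideals of `𝓞 K`: the normalised generator if there is one, `0` otherwise. -/
def psK (I : Ideal (𝓞 K)) : 𝓞 K :=
  if h : ∃ a : 𝓞 K, P a ∧ Ideal.span {a} = I then h.choose else 0

theorem IsNor.unit_one {f : 𝓞 K} [hf : IsNor P f] {u : (𝓞 K)ˣ} (h : f ∣ (u : 𝓞 K) - 1) :
    u = 1 := by
  refine hf.inj u 1 hf.one ?_
  rw [mul_one]
  exact hf.congr _ _ h hf.one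

theorem IsNor.not_isUnit {f : 𝓞 K} [hf : IsNor P f] : ¬ IsUnit f := by
  intro h
  have h1 : (-1 : (𝓞 K)ˣ) = 1 := IsNor.unit_one P (f := f) (h.dvd)
  have h2 := congrArg (fun u : (𝓞 K)ˣ => (u : 𝓞 K)) h1
  simp only [Units.val_neg, Units.val_one] at h2
  have h3 : (2 : 𝓞 K) = 0 := by linear_combination -h2
  exact two_ne_zero h3

theorem IsNor.ne_zero {f : 𝓞 K} [hf : IsNor P f] {a : 𝓞 K} (ha : P a) : a ≠ 0 := by
  rintro rfl
  have h1 := hf.cop 0 ha
  rw [isCoprime_zero_left] at h1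
  exact IsNor.not_isUnit P (f := f) h1

theorem IsNor.prod {f : 𝓞 K} [hf : IsNor P f] {ι : Type*} (S : Finset ι) (g : ι → 𝓞 K)
    (h : ∀ q ∈ S, P (g q)) : P (∏ q ∈ S, g q) := by
  classical
  induction S using Finset.induction_on with
  | empty =>
    rw [Finset.prod_empty]
    exact hf.one
  | insert a S ha ih =>
    rw [Finset.prod_insert ha]
    exact hf.mul _ _ (h a (Finset.mem_insert_self a S)) (ih fun q hq => h q (Finset.mem_insert_of_mem hq))

variable {P} {f : 𝓞 K} [hf : IsNor P f]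
include hf

theorem psK_unique (a b : 𝓞 K) (ha : P a) (hb : P b)
    (h : Ideal.span {a} = Ideal.span {b}) : a = b := by
  rw [Ideal.span_singleton_eq_span_singleton] at h
  obtain ⟨u, hu⟩ := h
  rw [← hu, mul_comm] at hb
  rw [hf.inj u a ha hb, Units.val_one, mul_one] at hu
  exact hu

theorem psK_span (a : 𝓞 K) (ha : P a) : psK P (Ideal.span {a}) = a := by
  have h : ∃ b : 𝓞 K, P b ∧ Ideal.span {b} = Ideal.span {a} := ⟨a, ha, rfl⟩
  rw [psK, dif_pos h]
  exact psK_unique (f := f) _ _ h.choose_spec.1 ha h.choose_spec.2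

/-- the existence of the generator -/
theorem psK_exists_gen (I : Ideal (𝓞 K)) (hI : IsCoprime I (Ideal.span {f})) :
    ∃ a : 𝓞 K, P a ∧ Ideal.span {a} = I := by
  obtain ⟨g, hg⟩ := (IsPrincipalIdealRing.principal I).principal
  have hg' : I = Ideal.span {g} := hg
  subst hg'
  rw [Ideal.isCoprime_span_singleton_iff] at hI
  obtain ⟨u, hu⟩ := hf.surj g hI
  refine ⟨u * g, hu, ?_⟩
  rw [Ideal.span_singleton_eq_span_singleton]
  refine ⟨u⁻¹, ?_⟩
  rw [mul_comm, ← mul_assoc, Units.inv_mul, one_mul]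

theorem psK_of_coprime (I : Ideal (𝓞 K)) (hI : IsCoprime I (Ideal.span {f})) :
    P (psK P I) ∧ Ideal.span {psK P I} = I := by
  have h := psK_exists_gen (P := P) I hI
  rw [psK, dif_pos h]
  exact h.choose_spec

theorem psK_of_not_coprime (I : Ideal (𝓞 K)) (hI : ¬ IsCoprime I (Ideal.span {f})) :
    psK P I = 0 := by
  rw [psK, dif_neg]
  rintro ⟨a, ha, rfl⟩
  apply hI
  rw [Ideal.isCoprime_span_singleton_iff]
  exact hf.cop a ha

theorem psK_one : psK P 1 = 1 := by
  have h := psK_span (f := f) (P := P) 1 hf.one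
  rwa [Ideal.span_singleton_one, ← Ideal.one_eq_top] at h

theorem psK_mul (I J : Ideal (𝓞 K)) : psK P (I * J) = psK P I * psK P J := by
  by_cases hI : IsCoprime I (Ideal.span {f})
  · by_cases hJ : IsCoprime J (Ideal.span {f})
    · obtain ⟨h1, h2⟩ := psK_of_coprime (P := P) I hI
      obtain ⟨h3, h4⟩ := psK_of_coprime (P := P) J hJ
      have h6 := psK_span (f := f) _ (hf.mul _ _ h1 h3)
      rw [← Ideal.span_singleton_mul_span_singleton, h2, h4] at h6
      exact h6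
    · rw [psK_of_not_coprime J hJ, mul_zero, psK_of_not_coprime (f := f)]
      intro h
      exact hJ (IsCoprime.of_mul_left_right h)
  · rw [psK_of_not_coprime I hI, zero_mul, psK_of_not_coprime (f := f)]
    intro h
    exact hI (IsCoprime.of_mul_left_left h)

end

/-! ### Representatives -/

/-- representatives modulo `ν` of the elements prime to `ν` and normalised -/
structure RepsG (P : 𝓞 K → Prop) (f ν : 𝓞 K) {ι : Type} (c : ι → 𝓞 K) : Prop where
  ne : ν ≠ 0
  dvd : f ∣ ν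
  fx : ∀ i, P (c i)
  cop : ∀ i, IsCoprime (c i) ν
  ex : ∀ a : 𝓞 K, IsCoprime a ν → P a → ∃ i, ν ∣ a - c i
  inj : ∀ i j, ν ∣ c i - c j → i = j

theorem RepsG.exists_reps {P : 𝓞 K → Prop} {f ν : 𝓞 K} (h0 : ν ≠ 0) (hf : f ∣ ν) :
    ∃ (ι : Type) (_ : Fintype ι) (c : ι → 𝓞 K), RepsG P f ν c := by
  classical
  have hne : Ideal.span {ν} ≠ ⊥ := by rwa [Ne, Ideal.span_singleton_eq_bot]
  have : Finite (𝓞 K ⧸ Ideal.span {ν}) := Ideal.finiteQuotientOfFreeOfNeBot _ hne
  let Q : (𝓞 K ⧸ Ideal.span {ν}) → Prop := fun x => ∃ a : 𝓞 K,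
    Ideal.Quotient.mk (Ideal.span {ν}) a = x ∧ P a ∧ IsCoprime a ν
  have : Finite {x // Q x} := inferInstance
  have : Fintype {x // Q x} := Fintype.ofFinite _
  have hmk : ∀ a b : 𝓞 K, Ideal.Quotient.mk (Ideal.span {ν}) a = Ideal.Quotient.mk _ b ↔
      ν ∣ a - b := by
    intro a b
    rw [Ideal.Quotient.eq, Ideal.mem_span_singleton]
  refine ⟨{x // Q x}, inferInstance, fun x => x.2.choose, h0, hf,
    fun i => i.2.choose_spec.2.1, fun i => i.2.choose_spec.2.2, ?_, ?_⟩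
  · intro a ha h1
    have hP : Q (Ideal.Quotient.mk (Ideal.span {ν}) a) := ⟨a, rfl, h1, ha⟩
    refine ⟨⟨_, hP⟩, ?_⟩
    rw [← hmk]
    exact hP.choose_spec.1.symm
  · intro i j hij
    apply Subtype.ext
    rw [← i.2.choose_spec.1, ← j.2.choose_spec.1]
    exact (hmk _ _).2 hij

section
variable {P : 𝓞 K → Prop} {f ν : 𝓞 K} [hf : IsNor P f] {ι : Type} {c : ι → 𝓞 K}

include hf in
theorem RepsG.of_dvd (h : RepsG P f ν c) {i : ι} {a : 𝓞 K} (ha : ν ∣ a - c i) :
    P a ∧ IsCoprime a ν :=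
  ⟨hf.congr _ _ (h.dvd.trans ha) (h.fx i), Eul_cop ha (h.cop i)⟩

include hf in
theorem RepsG.units (h : RepsG P f ν c) (u : (𝓞 K)ˣ) (hu : ν ∣ (u : 𝓞 K) - 1) : u = 1 :=
  IsNor.unit_one P (h.dvd.trans hu)

include hf in
theorem RepsG.not_dvd (h : RepsG P f ν c) (i : ι) : ¬ ν ∣ c i := by
  rintro ⟨e, he⟩
  obtain ⟨p, q, hpq⟩ := h.cop i
  have h1 : ¬ IsUnit ν := fun hu => IsNor.not_isUnit P (isUnit_of_dvd_unit h.dvd hu)
  exact h1 (IsUnit.of_mul_eq_one (p * e + q) (by linear_combination hpq - p * he))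

include hf in
theorem Gen_iff {a : 𝓞 K} (ha : a ≠ 0) : psK P (Ideal.span {a}) = a ↔ P a := by
  constructor
  · intro h
    by_cases hc : IsCoprime (Ideal.span {a}) (Ideal.span {f})
    · have h1 := (psK_of_coprime (P := P) _ hc).1
      rwa [h] at h1
    · rw [psK_of_not_coprime _ hc] at h
      exact absurd h.symm ha
  · exact psK_span a

include hf in
theorem Gen_ne_zero {a : 𝓞 K} (ha : P a) : a ≠ 0 := IsNor.ne_zero P ha

/-! ### The coefficients -/

variable (P) in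
/-- the coefficients of the L-series of `ψbar X` -/
def pG (X : 𝓞 K → ℂ) (I : Ideal (𝓞 K)) : ℂ := (starRingEnd ℂ) (em (psK P I)) * X (psK P I)

theorem pG_neg {X : 𝓞 K → ℂ} {I : Ideal (𝓞 K)} (h : ¬ IsCoprime I (Ideal.span {f})) :
    pG P X I = 0 := by
  rw [pG, psK_of_not_coprime _ h]
  simp [em_zero]

/-- **The L-series over `K` as a finite sum of the residual series.** -/
theorem Gen_Lf [Fintype ι] (h : RepsG P f ν c) (X : 𝓞 K → ℂ)
    (hX : ∀ a, P a → ¬ IsCoprime a ν → X a = 0)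
    (hx : ∀ a b, P a → ν ∣ a - b → X a = X b) {s : ℂ} (hs : 2 < s.re) :
    Lf (pG P X) s = ∑ i, X (c i) * ZS ν (c i) s := by
  classical
  have hR : ∑ i, X (c i) * ZS ν (c i) s = ∑' a : 𝓞 K, ∑ i, X (c i) * SumT ν (c i) s a := by
    have h1 : ∀ i ∈ (Finset.univ : Finset ι), Summable fun a : 𝓞 K => X (c i) * SumT ν (c i) s a :=
      fun i _ => (SumT_summable ν (c i) hs).mul_left _
    rw [Summable.tsum_finsetSum h1]
    refine Finset.sum_congr rfl (fun i _ => ?_)
    rw [tsum_mul_left, SumT_tsum]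
  have hkey : ∀ a : 𝓞 K, P a → IsCoprime a ν →
      X a * ((starRingEnd ℂ) (em a) * ((‖em a‖ : ℝ) : ℂ) ^ (-2 * s)) =
        ∑ i, X (c i) * SumT ν (c i) s a := by
    intro a ha hc
    obtain ⟨i0, hi0⟩ := h.ex a hc ha
    rw [Finset.sum_eq_single i0]
    · rw [hx a (c i0) ha hi0, SumT_pos s hi0]
    · intro i _ hi
      rw [SumT_neg s, mul_zero]
      intro hd
      apply hi
      apply h.inj
      have e : c i - c i0 = (a - c i0) - (a - c i) := by ring
      rw [e]
      exact dvd_sub hi0 hd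
    · intro hh
      exact absurd (Finset.mem_univ _) hh
  rw [hR]
  have hsup : ∀ a : 𝓞 K, (∑ i, X (c i) * SumT ν (c i) s a) ≠ 0 → P a ∧ IsCoprime a ν := by
    intro a ha
    obtain ⟨i, _, hi⟩ := Finset.exists_ne_zero_of_sum_ne_zero ha
    have hd : ν ∣ a - c i := by
      by_contra hd
      apply hi
      rw [SumT_neg s hd, mul_zero]
    exact h.of_dvd hd
  unfold S4.Lf
  refine Sum_gen (psK P) ?_ ?_ ?_
  · intro I hI
    by_cases hc : IsCoprime I (Ideal.span {f})
    · exact (psK_of_coprime (P := P) _ hc).2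
    · exfalso
      apply hI
      rw [pG_neg hc, zero_mul]
  · intro a ha
    exact psK_span a (hsup a ha).1
  · intro a ha
    by_cases ha0 : a = 0
    · subst ha0
      rw [pG, ha]
      have h1 : ∑ i, X (c i) * SumT ν (c i) s 0 = 0 := by
        by_contra h2
        exact Gen_ne_zero (hsup 0 h2).1 rfl
      rw [h1]
      simp [em_zero]
    · have h1 := (Gen_iff ha0).1 ha
      rw [pG, ha, Sum_norm]
      by_cases hc : IsCoprime a ν
      · rw [← hkey a h1 hc]
        ring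
      · rw [hX a h1 hc]
        have h2 : ∑ i, X (c i) * SumT ν (c i) s a = 0 := by
          by_contra h3
          exact hc (hsup a h3).2
        rw [h2]
        ring

/-- The entire continuation and the value at `1`. -/
theorem Gen_sum [Fintype ι] (h : RepsG P f ν c) (X : 𝓞 K → ℂ)
    (hX : ∀ a, P a → ¬ IsCoprime a ν → X a = 0)
    (hx : ∀ a b, P a → ν ∣ a - b → X a = X b) :
    ∃ A : ℂ → ℂ, Differentiable ℂ A ∧ (∀ s : ℂ, 2 < s.re → A s = Lf (pG P X) s) ∧
      A 1 = (em ν)⁻¹ * ∑ i, X (c i) * E1 (em (c i) / em ν) := by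
  choose A hA hA1 hA2 using fun i => exists_Z h.ne (h.not_dvd i) h.units
  refine ⟨fun s => ∑ i, X (c i) * A i s, ?_, fun s hs => ?_, ?_⟩
  · exact Differentiable.fun_sum fun i _ => (differentiable_const _).mul (hA i)
  · rw [Gen_Lf h X hX hx hs]
    exact Finset.sum_congr rfl fun i _ => by rw [hA1 i s hs]
  · change ∑ i, X (c i) * A i 1 = _
    rw [Finset.mul_sum]
    refine Finset.sum_congr rfl fun i _ => ?_
    rw [hA2 i]
    simp only [MP_1a91b9_ntQ.em]
    ring

end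

/-! ### Characters -/

/-- A character of modulus `ν` on the elements normalised. -/
structure Chr (P : 𝓞 K → Prop) (f ν : 𝓞 K) (X : 𝓞 K → ℂ) : Prop where
  ne : ν ≠ 0
  dvd : f ∣ ν
  one : X 1 = 1
  mul : ∀ a b, P a → P b → X (a * b) = X a * X b
  le : ∀ a, P a → ‖X a‖ ≤ 1
  zero : ∀ a, P a → ¬ IsCoprime a ν → X a = 0
  per : ∀ a b, P a → ν ∣ a - b → X a = X b

section
variable {P : 𝓞 K → Prop} {f ν : 𝓞 K} [hf : IsNor P f] {X : 𝓞 K → ℂ}

theorem Chr.pG_one (h : Chr P f ν X) : pG P X 1 = 1 := by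
  rw [pG, psK_one, h.one, mul_one, em_one, map_one]

theorem Chr.pG_mul (h : Chr P f ν X) (I J : Ideal (𝓞 K)) :
    pG P X (I * J) = pG P X I * pG P X J := by
  by_cases hI : IsCoprime I (Ideal.span {f})
  · by_cases hJ : IsCoprime J (Ideal.span {f})
    · have h1 := (psK_of_coprime (P := P) _ hI).1
      have h2 := (psK_of_coprime (P := P) _ hJ).1
      rw [pG, psK_mul, h.mul _ _ h1 h2, pG, pG, em_mul, map_mul]
      ring
    · rw [pG_neg hJ, mul_zero]
      exact pG_neg fun h => hJ (IsCoprime.of_mul_left_right h)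
  · rw [pG_neg hI, zero_mul]
    exact pG_neg fun h => hI (IsCoprime.of_mul_left_left h)

theorem Chr.pG_le (h : Chr P f ν X) (I : Ideal (𝓞 K)) :
    ‖pG P X I‖ ≤ (Ideal.absNorm I : ℝ) ^ (1 / 2 : ℝ) := by
  by_cases hI : IsCoprime I (Ideal.span {f})
  · have h1 : ‖(starRingEnd ℂ) (em (psK P I))‖ ≤ (Ideal.absNorm I : ℝ) ^ (1 / 2 : ℝ) := by
      have h3 := Sum_absNorm (psK P I)
      rw [(psK_of_coprime (P := P) _ hI).2] at h3
      rw [h3, RCLike.norm_conj, ← Real.sqrt_eq_rpow, Real.sqrt_sq (norm_nonneg _)]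
    have h2 := h.le _ (psK_of_coprime (P := P) _ hI).1
    rw [pG, norm_mul]
    calc ‖(starRingEnd ℂ) (em (psK P I))‖ * ‖X (psK P I)‖ ≤ (Ideal.absNorm I : ℝ) ^ (1 / 2 : ℝ) * 1 :=
          mul_le_mul h1 h2 (norm_nonneg _) (by positivity)
      _ = _ := mul_one _
  · rw [pG_neg hI, norm_zero]
    positivity

theorem Chr.exists_L (h : Chr P f ν X) : ∃ L : ℂ → ℂ, Differentiable ℂ L ∧
    ∀ s : ℂ, 2 < s.re → L s = Lf (pG P X) s := by
  obtain ⟨ι, _, c, hc⟩ := RepsG.exists_reps h.ne h.dvd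
  obtain ⟨A, h1, h2, -⟩ := Gen_sum hc X h.zero h.per
  exact ⟨A, h1, h2⟩

open Classical in
variable (P) in
/-- the entire continuation of the L-series of `ψbar X` -/
def LG (X : 𝓞 K → ℂ) : ℂ → ℂ :=
  if h : ∃ L : ℂ → ℂ, Differentiable ℂ L ∧ ∀ s : ℂ, 2 < s.re → L s = Lf (pG P X) s then h.choose
  else fun _ => 0

theorem Chr.LG_diff (h : Chr P f ν X) : Differentiable ℂ (LG P X) := by
  unfold LG
  rw [dif_pos h.exists_L]
  exact h.exists_L.choose_spec.1

theorem Chr.LG_eq (h : Chr P f ν X) (s : ℂ) (hs : 2 < s.re) : LG P X s = Lf (pG P X) s := by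
  unfold LG
  rw [dif_pos h.exists_L]
  exact h.exists_L.choose_spec.2 s hs

/-- the value at `1` over representatives modulo the modulus of the character -/
theorem Chr.LG_one (h : Chr P f ν X) {ι : Type} [Fintype ι] {c : ι → 𝓞 K} (hc : RepsG P f ν c) :
    LG P X 1 = (em ν)⁻¹ * ∑ i, X (c i) * E1 (em (c i) / em ν) := by
  obtain ⟨A, h1, h2, h3⟩ := Gen_sum hc X h.zero h.per
  have e : LG P X = A := S4.entire_eq h.LG_diff h1 fun s hs => by rw [h.LG_eq s hs, h2 s hs]
  rw [e, h3]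

omit hf in
theorem Chr.rst (h : Chr P f ν X) {μ : 𝓞 K} (h0 : μ ≠ 0) (hd : ν ∣ μ) :
    Chr P f μ (Pool.Agent.Lib.MP_1a91b9_ntQ.rst μ X) where
  ne := h0
  dvd := h.dvd.trans hd
  one := by rw [rst_pos isCoprime_one_left, h.one]
  mul := by
    intro a b ha hb
    by_cases h1 : IsCoprime a μ
    · by_cases h2 : IsCoprime b μ
      · rw [rst_pos (IsCoprime.mul_left h1 h2), rst_pos h1, rst_pos h2, h.mul a b ha hb]
      · rw [rst_neg h2, mul_zero, rst_neg]
        exact fun h3 => h2 (IsCoprime.of_mul_left_right h3)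
    · rw [rst_neg h1, zero_mul, rst_neg]
      exact fun h3 => h1 (IsCoprime.of_mul_left_left h3)
  le := by
    intro a ha
    by_cases h1 : IsCoprime a μ
    · rw [rst_pos h1]
      exact h.le a ha
    · rw [rst_neg h1, norm_zero]
      exact zero_le_one
  zero := fun a _ h1 => rst_neg h1
  per := by
    intro a b ha hab
    by_cases h1 : IsCoprime a μ
    · have h2 : IsCoprime b μ := by
        refine Eul_cop ?_ h1
        rw [← neg_sub, dvd_neg]
        exact hab
      rw [rst_pos h1, rst_pos h2]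
      exact h.per a b ha (hd.trans hab)
    · have h2 : ¬ IsCoprime b μ := fun h2 => h1 (Eul_cop hab h2)
      rw [rst_neg h1, rst_neg h2]

/-! ### The primes normalised -/

/-- The prime elements normalised. -/
def Pf (P : 𝓞 K → Prop) : Type := {α : 𝓞 K // Prime α ∧ P α}

omit hf in
/-- The place of a prime. -/
def plf (q : Pf P) : HeightOneSpectrum (𝓞 K) where
  asIdeal := Ideal.span {q.1}
  isPrime := (Ideal.span_singleton_prime q.2.1.ne_zero).2 q.2.1
  ne_bot := by
    rw [Ne, Ideal.span_singleton_eq_bot]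
    exact q.2.1.ne_zero

include hf in
theorem psK_plf (q : Pf P) : psK P (plf q).asIdeal = q.1 := psK_span _ q.2.2

include hf in
theorem plf_inj {p q : Pf P} (h : plf p = plf q) : p = q := by
  apply Subtype.ext
  rw [← psK_plf, h, psK_plf]

variable (P) in
/-- the places of the primes -/
def plE : Pf P ↪ HeightOneSpectrum (𝓞 K) := ⟨plf, fun _ _ h => plf_inj h⟩

include hf in
theorem pG_plf (X : 𝓞 K → ℂ) (q : Pf P) :
    pG P X (plf q).asIdeal = (starRingEnd ℂ) (em q.1) * X q.1 := by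
  rw [pG, psK_plf]

theorem Gen_place (v : HeightOneSpectrum (𝓞 K)) :
    (¬ IsCoprime v.asIdeal (Ideal.span {f})) ∨ ∃ q : Pf P, plf q = v := by
  by_cases h : IsCoprime v.asIdeal (Ideal.span {f})
  · right
    obtain ⟨h1, h2⟩ := psK_of_coprime (P := P) _ h
    have hp : Prime (psK P v.asIdeal) := by
      rw [← Ideal.span_singleton_prime, h2]
      · exact v.isPrime
      · intro h0
        apply v.ne_bot
        rw [← h2, h0, Ideal.span_singleton_eq_bot]
    exact ⟨⟨psK P v.asIdeal, hp, h1⟩, HeightOneSpectrum.ext h2⟩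
  · exact Or.inl h

omit hf in
theorem Gen_absNorm (q : Pf P) : (Ideal.absNorm (plf q).asIdeal : ℂ) =
    em q.1 * (starRingEnd ℂ) (em q.1) := by
  have h1 := Sum_absNorm q.1
  have h2 : (Ideal.absNorm (plf q).asIdeal : ℝ) = ‖em q.1‖ ^ 2 := h1
  rw [Complex.mul_conj, Complex.normSq_eq_norm_sq, ← h2]
  norm_cast

/-- **The Euler factors at finitely many primes.** -/
theorem Chr.euler (h : Chr P f ν X) {D : Finset (Pf P)} {μ : 𝓞 K} (hμ : μ = ν * ∏ q ∈ D, q.1) :
    LG P X 1 * ∏ q ∈ D, (1 - X q.1 / em q.1) = LG P (Pool.Agent.Lib.MP_1a91b9_ntQ.rst μ X) 1 := by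
  have hp0 : ∏ q ∈ D, q.1 ≠ 0 := Finset.prod_ne_zero_iff.2 fun q _ => q.2.1.ne_zero
  have h0 : μ ≠ 0 := by
    rw [hμ]
    exact mul_ne_zero h.ne hp0
  have hr := h.rst h0 ⟨_, hμ⟩
  have hfac : ∀ q : Pf P, ¬ IsCoprime q.1 μ → X q.1 = 0 ∨ q ∈ D := by
    intro q hc
    by_cases h1 : IsCoprime q.1 ν
    · right
      have h2 : ¬ IsCoprime q.1 (∏ q ∈ D, q.1) := by
        intro h2
        apply hc
        rw [hμ]
        exact IsCoprime.mul_right h1 h2
      rw [IsCoprime.prod_right_iff] at h2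
      push Not at h2
      obtain ⟨p, hp, h3⟩ := h2
      have h4 : Ideal.span {q.1} ⊔ Ideal.span {p.1} ≠ ⊤ := by
        rw [Ne, ← Ideal.isCoprime_iff_sup_eq, Ideal.isCoprime_span_singleton_iff]
        exact h3
      have h5 := (plf q).isMaximal.eq_of_le h4 le_sup_left
      have h6 := (plf p).isMaximal.eq_of_le h4 le_sup_right
      have h7 : plf q = plf p := HeightOneSpectrum.ext (h5.trans h6.symm)
      rw [plf_inj h7]
      exact hp
    · exact Or.inl (h.zero q.1 q.2.2 h1)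
  have hmem : ∀ q ∈ D, ¬ IsCoprime q.1 μ := by
    intro q hq hc
    have h1 : q.1 ∣ μ := by
      rw [hμ]
      exact (Finset.dvd_prod_of_mem (fun q : Pf P => q.1) hq).mul_left _
    exact q.2.1.not_isUnit (isCoprime_self.1 (hc.of_isCoprime_of_dvd_right h1))
  have heq : ∀ v ∉ D.map (plE P), pG P X v.asIdeal = pG P (Pool.Agent.Lib.MP_1a91b9_ntQ.rst μ X) v.asIdeal := by
    intro v hv
    rcases Gen_place (P := P) v with h1 | ⟨q, rfl⟩
    · rw [pG_neg h1, pG_neg h1]
    · rw [pG_plf, pG_plf]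
      by_cases hc : IsCoprime q.1 μ
      · rw [rst_pos hc]
      · rw [rst_neg hc]
        rcases hfac q hc with h2 | h2
        · rw [h2]
        · exact absurd (Finset.mem_map_of_mem (plE P) h2) hv
  have hz : ∀ v ∈ D.map (plE P), pG P (Pool.Agent.Lib.MP_1a91b9_ntQ.rst μ X) v.asIdeal = 0 := by
    intro v hv
    obtain ⟨q, hq, rfl⟩ := Finset.mem_map.1 hv
    change pG P (Pool.Agent.Lib.MP_1a91b9_ntQ.rst μ X) (plf q).asIdeal = 0
    rw [pG_plf, rst_neg (hmem q hq), mul_zero]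
  have e : LG P (Pool.Agent.Lib.MP_1a91b9_ntQ.rst μ X) = fun s => LG P X s * ∏ v ∈ D.map (plE P),
      (1 - pG P X v.asIdeal * (Ideal.absNorm v.asIdeal : ℂ) ^ (-s)) := by
    refine S4.entire_eq hr.LG_diff (h.LG_diff.mul (Eul_diff _ _)) fun s hs => ?_
    have h4 := S4.compare_Lf (pG P X) (pG P (Pool.Agent.Lib.MP_1a91b9_ntQ.rst μ X)) h.pG_one h.pG_mul h.pG_le
      hr.pG_one hr.pG_mul hr.pG_le (D.map (plE P)) heq s hs
    rw [hr.LG_eq s hs, h.LG_eq s hs, h4]
    have h5 : ∏ v ∈ D.map (plE P), (1 - pG P (Pool.Agent.Lib.MP_1a91b9_ntQ.rst μ X) v.asIdeal *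
        (Ideal.absNorm v.asIdeal : ℂ) ^ (-s)) = 1 := by
      refine Finset.prod_eq_one fun v hv => ?_
      rw [hz v hv, zero_mul, sub_zero]
    rw [h5, mul_one]
  rw [e]
  change _ = LG P X 1 * ∏ v ∈ D.map (plE P), (1 - pG P X v.asIdeal *
      (Ideal.absNorm v.asIdeal : ℂ) ^ (-(1 : ℂ)))
  rw [Finset.prod_map]
  congr 1
  refine Finset.prod_congr rfl fun q _ => ?_
  change _ = 1 - pG P X (plf q).asIdeal * (Ideal.absNorm (plf q).asIdeal : ℂ) ^ (-(1 : ℂ))
  rw [pG_plf, Gen_absNorm, Complex.cpow_neg_one]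
  have h6 : em q.1 ≠ 0 := em_ne q.2.1.ne_zero
  have h7 : (starRingEnd ℂ) (em q.1) ≠ 0 := (_root_.map_ne_zero _).2 h6
  field_simp

/-- **The value at `1` with the Euler factors of finitely many primes removed.** -/
theorem Chr.euler_id (h : Chr P f ν X) {D : Finset (Pf P)} {μ : 𝓞 K} (hμ : μ = ν * ∏ q ∈ D, q.1)
    {ι : Type} [Fintype ι] {c : ι → 𝓞 K} (hc : RepsG P f μ c) :
    LG P X 1 * ∏ q ∈ D, (1 - X q.1 / em q.1) =
      (em μ)⁻¹ * ∑ i, X (c i) * E1 (em (c i) / em μ) := by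
  rw [h.euler hμ, (h.rst hc.ne ⟨_, hμ⟩).LG_one hc]
  congr 1
  refine Finset.sum_congr rfl fun i _ => ?_
  rw [rst_pos (hc.cop i)]

end

/-! ### Families of characters of prime modulus -/

section
variable {P : 𝓞 K → Prop} {f ν : 𝓞 K} [hf : IsNor P f] {ep : 𝓞 K → ℂ} {x : Pf P → 𝓞 K → ℂ}

/-- the character of a finite set of primes -/
def XT (ep : 𝓞 K → ℂ) (x : Pf P → 𝓞 K → ℂ) (T : Finset (Pf P)) (a : 𝓞 K) : ℂ :=
  ep a * ∏ q ∈ T, x q a

omit hf in
theorem Chr.XT (h : Chr P f ν ep) (hx : ∀ q : Pf P, ChrP q.1 (x q)) (T : Finset (Pf P)) :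
    Chr P f (ν * ∏ q ∈ T, q.1) (MP_1a91b9_ntW.XT ep x T) where
  ne := mul_ne_zero h.ne (Finset.prod_ne_zero_iff.2 fun q _ => q.2.1.ne_zero)
  dvd := h.dvd.mul_right _
  one := by
    unfold MP_1a91b9_ntW.XT
    rw [h.one, one_mul]
    exact Finset.prod_eq_one fun q _ => (hx q).one
  mul := by
    intro a b ha hb
    unfold MP_1a91b9_ntW.XT
    rw [h.mul a b ha hb, Finset.prod_congr rfl fun q _ => (hx q).mul a b, Finset.prod_mul_distrib]
    ring
  le := by
    intro a ha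
    unfold MP_1a91b9_ntW.XT
    rw [norm_mul, norm_prod]
    have h1 : ∏ q ∈ T, ‖x q a‖ ≤ 1 :=
      Finset.prod_le_one (fun q _ => norm_nonneg _) fun q _ => (hx q).le a
    calc ‖ep a‖ * ∏ q ∈ T, ‖x q a‖ ≤ 1 * 1 :=
          mul_le_mul (h.le a ha) h1 (Finset.prod_nonneg fun q _ => norm_nonneg _) zero_le_one
      _ = 1 := mul_one 1
  zero := by
    intro a ha hc
    unfold MP_1a91b9_ntW.XT
    by_cases h1 : IsCoprime a ν
    · have h2 : ¬ IsCoprime a (∏ q ∈ T, q.1) := fun h2 => hc (IsCoprime.mul_right h1 h2)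
      rw [IsCoprime.prod_right_iff] at h2
      push Not at h2
      obtain ⟨p, hp, h3⟩ := h2
      have h4 : p.1 ∣ a := by
        by_contra hd
        have h5 : (plf p).asIdeal ⊔ Ideal.span {a} = ⊤ := by
          by_contra h6
          have h7 := (plf p).isMaximal.eq_of_le h6 le_sup_left
          apply hd
          have h8 : a ∈ (plf p).asIdeal := by
            rw [h7]
            exact Ideal.mem_sup_right (Ideal.mem_span_singleton_self a)
          exact Ideal.mem_span_singleton.1 h8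
        rw [← Ideal.isCoprime_iff_sup_eq] at h5
        exact h3 ((Ideal.isCoprime_span_singleton_iff _ _).1 h5).symm
      rw [Finset.prod_eq_zero hp ((hx p).zero a h4), mul_zero]
    · rw [h.zero a ha h1, zero_mul]
  per := by
    intro a b ha hab
    unfold MP_1a91b9_ntW.XT
    rw [h.per a b ha ((dvd_mul_right _ _).trans hab)]
    congr 1
    refine Finset.prod_congr rfl fun q hq => (hx q).per a b ?_
    exact ((Finset.dvd_prod_of_mem (fun q : Pf P => q.1) hq).mul_left _).trans hab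

variable [DecidableEq (Pf P)]

/-- **The identity for one subset.** -/
theorem Gen_id (h : Chr P f ν ep) (hx : ∀ q : Pf P, ChrP q.1 (x q)) {T S : Finset (Pf P)}
    (hT : T ⊆ S) {ι : Type} [Fintype ι] {c : ι → 𝓞 K} (hc : RepsG P f (ν * ∏ q ∈ S, q.1) c) :
    LG P (XT ep x T) 1 * ∏ q ∈ S \ T, (1 - XT ep x T q.1 / em q.1) =
      (em (ν * ∏ q ∈ S, q.1))⁻¹ * ∑ i, XT ep x T (c i) *
        E1 (em (c i) / em (ν * ∏ q ∈ S, q.1)) := by
  refine (h.XT hx T).euler_id ?_ hc
  rw [mul_assoc, mul_comm (∏ q ∈ T, q.1), Finset.prod_sdiff hT]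

/-- **The averaging identity** with arbitrary weights `m` of the subsets. -/
theorem Gen_avg (h : Chr P f ν ep) (hx : ∀ q : Pf P, ChrP q.1 (x q)) (S : Finset (Pf P))
    (m : Pf P → ℂ) {ι : Type} [Fintype ι] {c : ι → 𝓞 K} (hc : RepsG P f (ν * ∏ q ∈ S, q.1) c) :
    ∑ T ∈ S.powerset, (∏ q ∈ T, m q) *
        (LG P (XT ep x T) 1 * ∏ q ∈ S \ T, (1 - XT ep x T q.1 / em q.1)) =
      (em (ν * ∏ q ∈ S, q.1))⁻¹ * ∑ i, ep (c i) * (∏ q ∈ S, (1 + m q * x q (c i))) *
        E1 (em (c i) / em (ν * ∏ q ∈ S, q.1)) := by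
  have h1 : ∀ T ∈ S.powerset, (∏ q ∈ T, m q) *
      (LG P (XT ep x T) 1 * ∏ q ∈ S \ T, (1 - XT ep x T q.1 / em q.1)) =
      (em (ν * ∏ q ∈ S, q.1))⁻¹ * ∑ i, (∏ q ∈ T, m q) * XT ep x T (c i) *
        E1 (em (c i) / em (ν * ∏ q ∈ S, q.1)) := by
    intro T hT
    rw [Gen_id h hx (Finset.mem_powerset.1 hT) hc, Finset.mul_sum, Finset.mul_sum, Finset.mul_sum]
    refine Finset.sum_congr rfl fun i _ => ?_
    ring
  rw [Finset.sum_congr rfl h1, ← Finset.mul_sum, Finset.sum_comm]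
  congr 1
  refine Finset.sum_congr rfl fun i _ => ?_
  rw [← Finset.sum_mul]
  congr 1
  rw [Finset.prod_one_add, Finset.mul_sum]
  refine Finset.sum_congr rfl fun T _ => ?_
  rw [XT, Finset.prod_mul_distrib]
  ring

end

end

end Pool.Agent.Lib.MP_1a91b9_ntW
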