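import Pool.Agent.Lib.MP_1a91b9_ntE.A.MatE
import Pool.Agent.Lib.MP_1a91b9_ntQ.A.AlgE

/-!
# MP_1a91b9_nt, `K = ℚ(√-2)`, part A, file Alg: the recursion of the first orders

Pure algebra over `ZMod 2` (page, section 5). `a q`, `r q`, `l q`: the bits of `q`; `s q p`: the bit of
the symbol of `p` modulo `q`, symmetric when `a q = 0` or `a p = 0`. `GA a r l s k j S`: the
determinant of the page, section 0. Main results: `GA_zero` (`j = 0`) and `GA_one` (`j = 1`).
-/

set_option autoImplicit false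

namespace Pool.Agent.Lib.MP_1a91b9_ntW

open Finset
open Pool.Agent.Lib.MP_1a91b9_ntE (MM BB L1_gen Psi Psi_eq P1 P1_eq Psi_add BB_corner sum_BB Fs sum_Fs)
open Pool.Agent.Lib.MP_1a91b9_ntQ (N4 N4_eq N4_mulVec_one N4_mulVec_row C4 C4_mul forest4_zero Ham
  ham_id4 ham_self adj_row NM_mulVec_one)

noncomputable section

variable {ι : Type} [DecidableEq ι]

private theorem Alg_self : ∀ x : ZMod 2, x + x = 0 := by decide

private theorem Alg_sq : ∀ x : ZMod 2, x * x = x := by decide

private theorem Alg_of_add : ∀ x y : ZMod 2, x + y = 0 → x = y := by decide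

/-! ### Congruences -/

theorem MM_congr {s s' : ι → ι → ZMod 2} {x x' : ι → ZMod 2} {T : Finset ι}
    (hs : ∀ q ∈ T, ∀ p ∈ T, s q p = s' q p) (hx : ∀ q ∈ T, x q = x' q) : MM s x T = MM s' x' T := by
  refine Matrix.ext fun i j => ?_
  unfold MM
  by_cases h : i = j
  · rw [if_pos h, if_pos h, hx i i.2, sum_congr rfl fun k hk => hs i i.2 k (mem_of_mem_erase hk)]
  · rw [if_neg h, if_neg h, hs i i.2 j j.2]

theorem BB_congr {s s' : ι → ι → ZMod 2} {x x' a a' be be' : ι → ZMod 2} (z : ZMod 2) {T : Finset ι}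
    (hs : ∀ q ∈ T, ∀ p ∈ T, s q p = s' q p) (hx : ∀ q ∈ T, x q = x' q) (ha : ∀ q ∈ T, a q = a' q)
    (hb : ∀ q ∈ T, be q = be' q) : BB s x a be z T = BB s' x' a' be' z T := by
  have h := MM_congr hs hx
  refine Matrix.ext fun i j => ?_
  rcases i with _ | i
  · rcases j with _ | j
    · rfl
    · exact hb j j.2
  · rcases j with _ | j
    · exact ha i i.2
    · exact congrFun (congrFun h i) j

theorem Psi_congr {s s' : ι → ι → ZMod 2} {be be' x x' : ι → ZMod 2} {D : Finset ι}
    (hs : ∀ q ∈ D, ∀ p ∈ D, s q p = s' q p) (hb : ∀ q ∈ D, be q = be' q)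
    (hx : ∀ q ∈ D, x q = x' q) : Psi s be x 0 D = Psi s' be' x' 0 D := by
  unfold Psi Fs
  refine sum_congr rfl fun T hT => ?_
  have hTD := mem_powerset.1 hT
  rw [MM_congr (s' := s') (x' := x') (fun q hq p hp => hs q (hTD hq) p (hTD hp))
    (fun q hq => hx q (hTD hq)), sum_congr rfl fun p hp => hb p (hTD hp)]
  congr 2
  refine prod_congr rfl fun q hq => ?_
  have hq' := (mem_sdiff.1 hq).1
  rw [hx q hq', sum_congr rfl fun p hp => hs q hq' p (hTD hp)]

theorem MM_N4 (s : ι → ι → ZMod 2) (x : ι → ZMod 2) (T : Finset ι) : MM s x T = N4 s x T := by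
  refine Matrix.ext fun i j => ?_
  unfold MM N4
  rw [add_comm]

/-- the weighted sum is the sum over the Hamiltonian paths -/
theorem Psi_ham (s : ι → ι → ZMod 2) (be x : ι → ZMod 2) (S : Finset ι) :
    Psi s be x 0 S = ∑ i ∈ S, be i * Ham s x S i := by
  rw [← ham_id4 s x be x S]
  unfold Psi Fs
  refine sum_congr rfl fun T _ => ?_
  have h2 : ∑ i : T, ∑ j : T, be i * (N4 s x T).adjugate i j * x j =
      (∑ q ∈ T, be q) * (N4 s x T).det := by
    rw [← sum_coe_sort T be, sum_mul]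
    refine sum_congr rfl fun i _ => ?_
    have h3 := congrFun (congrArg (N4 s x T).adjugate.mulVec (N4_mulVec_row s x T)) i
    rw [Matrix.mulVec_mulVec, Matrix.adjugate_mul, Matrix.smul_mulVec, Matrix.one_mulVec] at h3
    simp only [Matrix.mulVec, dotProduct, Pi.smul_apply, smul_eq_mul, mul_one] at h3
    rw [h3, mul_sum]
    exact sum_congr rfl fun j _ => by ring
  rw [h2, MM_N4, mul_assoc]
  simp only [Pi.zero_apply, add_zero]

/-- the symmetric extension of the symbols -/
def sE (s : ι → ι → ZMod 2) (S : Finset ι) (q p : ι) : ZMod 2 := if q ∈ S ∧ p ∈ S then s q p else 0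

theorem sE_symm {s : ι → ι → ZMod 2} {S : Finset ι} (hs : ∀ q ∈ S, ∀ p ∈ S, s q p = s p q)
    (p q : ι) (_ : p ≠ q) : sE s S p q = sE s S q p := by
  unfold sE
  by_cases h : p ∈ S ∧ q ∈ S
  · rw [if_pos h, if_pos h.symm, hs p h.1 q h.2]
  · rw [if_neg h, if_neg fun h' => h h'.symm]

theorem sE_eq (s : ι → ι → ZMod 2) {S : Finset ι} {q p : ι} (hq : q ∈ S) (hp : p ∈ S) :
    sE s S q p = s q p := if_pos ⟨hq, hp⟩

/-- the closed paths -/
theorem Psi_self {s : ι → ι → ZMod 2} {S : Finset ι} (hs : ∀ q ∈ S, ∀ p ∈ S, s q p = s p q)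
    (be : ι → ZMod 2) : Psi s be be 0 S = if S.card = 1 then ∑ q ∈ S, be q else 0 := by
  rcases S.eq_empty_or_nonempty with rfl | hS
  · rw [card_empty, if_neg (by omega)]
    simp [Psi]
  · rw [← ham_self (sE s S) (sE_symm hs) be hS, ← Psi_ham]
    exact Psi_congr (fun q hq p hp => (sE_eq s hq hp).symm) (fun _ _ => rfl) fun _ _ => rfl

theorem Psi_zero (s : ι → ι → ZMod 2) (be : ι → ZMod 2) (S : Finset ι) : Psi s be 0 0 S = 0 := by
  have h := Psi_add s 0 0 0 S.card S be rfl
  simp only [Pi.zero_apply, add_zero] at h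
  have e : (fun _ : ι => (0 : ZMod 2)) = 0 := rfl
  rw [e, Alg_self] at h
  exact h

theorem Psi_add' (s : ι → ι → ZMod 2) (be x x' : ι → ZMod 2) (D : Finset ι) :
    Psi s be (fun q => x q + x' q) 0 D = Psi s be x 0 D + Psi s be x' 0 D :=
  Psi_add s x x' 0 D.card D be rfl

theorem Psi_sum (s : ι → ι → ZMod 2) (be : ι → ZMod 2) (D V : Finset ι) (f : ι → ι → ZMod 2) :
    Psi s be (fun q => ∑ p ∈ V, f q p) 0 D = ∑ p ∈ V, Psi s be (fun q => f q p) 0 D := by
  induction V using Finset.induction_on with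
  | empty =>
    simp only [sum_empty]
    exact Psi_zero s be D
  | insert b V hb ih =>
    simp only [sum_insert hb]
    rw [Psi_add', ih]

/-- with the same diagonal the sum of the determinants is `1` for the empty set only -/
theorem L1_one (s : ι → ι → ZMod 2) (x : ι → ZMod 2) (S : Finset ι) :
    ∑ T ∈ S.powerset, (MM s x T).det * ∏ q ∈ S \ T, (x q + ∑ p ∈ T, s q p) =
      if S = ∅ then 1 else 0 := by
  rw [L1_gen s x x S]
  by_cases h : S = ∅
  · rw [if_pos h, h, prod_empty]
  · rw [if_neg h]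
    obtain ⟨q, hq⟩ := nonempty_iff_ne_empty.2 h
    exact prod_eq_zero hq (Alg_self _)

/-! ### The right sides -/

/-- `l_T kap(T)` is a bordered determinant -/
theorem C4_border (s : ι → ι → ZMod 2) (l r : ι → ZMod 2) (T : Finset ι) :
    ∑ i : T, ∑ j : T, l i * (N4 s 0 T).adjugate i j * r j = (∑ i ∈ T, l i) * C4 s r T := by
  rw [C4, Pool.Agent.Lib.MP_1a91b9_ntK.CZ, ← sum_coe_sort T l, sum_mul_sum]
  refine sum_congr rfl fun i _ => sum_congr rfl fun j _ => ?_
  rw [N4_eq, adj_row (NM_mulVec_one s T) i j j]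
  ring

/-- **(5.2)** The classes `kap`, their sum with the weights `l`. -/
theorem kap_sum {s : ι → ι → ZMod 2} {S : Finset ι} (hs : ∀ q ∈ S, ∀ p ∈ S, s q p = s p q)
    (l r : ι → ZMod 2) {kap : Finset ι → ZMod 2}
    (hk : ∀ T, T ⊆ S → T.Nonempty → ∑ U ∈ T.powerset.erase ∅, kap U * ∏ q ∈ T \ U, ∑ t ∈ U, s t q =
      if T.card = 1 then ∑ q ∈ T, r q else 0) :
    ∑ T ∈ S.powerset, (∑ t ∈ T, l t) * (kap T * ∏ q ∈ S \ T, ∑ t ∈ T, s t q) = Psi s l r 0 S := by
  obtain ⟨s', hs'⟩ : ∃ s', s' = sE s S := ⟨_, rfl⟩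
  have he : ∀ q ∈ S, ∀ p ∈ S, s' q p = s q p := fun q hq p hp => by
    rw [hs', sE_eq s hq hp]
  have hp : ∀ T U : Finset ι, T ⊆ S → U ⊆ S → ∏ q ∈ T \ U, ∑ t ∈ U, s t q =
      ∏ q ∈ T \ U, ∑ t ∈ U, s' q t := fun T U hT hU => by
    refine prod_congr rfl fun q hq => sum_congr rfl fun t ht => ?_
    have hq' := hT (mem_sdiff.1 hq).1
    rw [hs t (hU ht) q hq', he q hq' t (hU ht)]
  have key : ∀ T : Finset ι, T ⊆ S → T.Nonempty → kap T = C4 s' r T := by
    intro T
    induction T using Finset.strongInduction with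
    | H T ih =>
      intro hT hT0
      have h1 := hk T hT hT0
      have h2 := forest4_zero s' r hT0
      have hm : T ∈ T.powerset.erase ∅ := mem_erase.2 ⟨hT0.ne_empty, mem_powerset_self T⟩
      rw [← add_sum_erase _ _ hm, Finset.sdiff_self, prod_empty, mul_one] at h1 h2
      have h3 : ∑ U ∈ (T.powerset.erase ∅).erase T, kap U * ∏ q ∈ T \ U, ∑ t ∈ U, s t q =
          ∑ U ∈ (T.powerset.erase ∅).erase T, C4 s' r U * ∏ q ∈ T \ U, ∑ t ∈ U, s' q t := by
        refine sum_congr rfl fun U hU => ?_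
        obtain ⟨h4, h5⟩ := mem_erase.1 hU
        obtain ⟨h6, h7⟩ := mem_erase.1 h5
        have h8 := mem_powerset.1 h7
        rw [ih U (ssubset_of_subset_of_ne h8 h4) (h8.trans hT) (nonempty_iff_ne_empty.2 h6),
          hp T U hT (h8.trans hT)]
      rw [h3] at h1
      exact add_right_cancel (h1.trans h2.symm)
  have h1 : ∑ T ∈ S.powerset, (∑ t ∈ T, l t) * (kap T * ∏ q ∈ S \ T, ∑ t ∈ T, s t q) =
      ∑ T ∈ S.powerset, (∑ i : T, ∑ j : T, l i * (N4 s' 0 T).adjugate i j * r j) *
        ∏ q ∈ S \ T, ((0 : ι → ZMod 2) q + ∑ p ∈ T, s' q p) := by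
    refine sum_congr rfl fun T hT => ?_
    have hTS := mem_powerset.1 hT
    rcases T.eq_empty_or_nonempty with rfl | hT0
    · simp
    · rw [C4_border, key T hTS hT0, hp S T (Finset.Subset.refl _) hTS, mul_assoc]
      simp only [Pi.zero_apply, zero_add]
  rw [h1, ham_id4, ← Psi_ham]
  exact Psi_congr he (fun _ _ => rfl) fun _ _ => rfl

/-- **(5.3)** The classes `mu`, their sum with the weights `l`. -/
theorem mu_sum {s : ι → ι → ZMod 2} {S : Finset ι} {q p : ι} (hpq : q ≠ p) (hq : q ∉ S)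
    (hp : p ∉ S) (hs : ∀ t ∈ S, ∀ u ∈ S, s t u = s u t) (hsq : ∀ t ∈ S, s t q = s q t)
    (hsp : ∀ t ∈ S, s t p = s p t) (l : ι → ZMod 2) {mu : Finset ι → ZMod 2}
    (hm : ∀ T, T ⊆ S → ∑ U ∈ T.powerset, mu (insert q (insert p U)) *
      ∏ t ∈ T \ U, ∑ u ∈ insert q (insert p U), s u t = if T = ∅ then 1 else 0) :
    ∑ U ∈ S.powerset, (∑ t ∈ insert q (insert p U), l t) * (mu (insert q (insert p U)) *
      ∏ t ∈ S \ U, ∑ u ∈ insert q (insert p U), s u t) =
      (if S = ∅ then l q + l p else 0) + Psi s l (fun t => s t q + s t p) 0 S := by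
  have hp' : ∀ T U : Finset ι, T ⊆ S → U ⊆ S →
      ∏ t ∈ T \ U, ∑ u ∈ insert q (insert p U), s u t =
      ∏ t ∈ T \ U, (s t q + s t p + ∑ u ∈ U, s t u) := fun T U hT hU => by
    refine prod_congr rfl fun t ht => ?_
    have ht' := hT (mem_sdiff.1 ht).1
    have h1 : q ∉ insert p U := by
      rw [mem_insert, not_or]
      exact ⟨hpq, fun h => hq (hU h)⟩
    rw [sum_insert h1, sum_insert fun h => hp (hU h), hsq t ht', hsp t ht', ← add_assoc]
    congr 1
    exact sum_congr rfl fun u hu => hs u (hU hu) t ht'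
  have key : ∀ T : Finset ι, T ⊆ S →
      mu (insert q (insert p T)) = (MM s (fun t => s t q + s t p) T).det := by
    intro T
    induction T using Finset.strongInduction with
    | H T ih =>
      intro hT
      have h1 := hm T hT
      have h2 := L1_one s (fun t => s t q + s t p) T
      rw [← add_sum_erase _ _ (mem_powerset_self T), Finset.sdiff_self, prod_empty, mul_one]
        at h1 h2
      have h3 : ∑ U ∈ T.powerset.erase T, mu (insert q (insert p U)) *
          ∏ t ∈ T \ U, ∑ u ∈ insert q (insert p U), s u t =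
          ∑ U ∈ T.powerset.erase T, (MM s (fun t => s t q + s t p) U).det *
            ∏ t ∈ T \ U, (s t q + s t p + ∑ u ∈ U, s t u) := by
        refine sum_congr rfl fun U hU => ?_
        obtain ⟨h4, h5⟩ := mem_erase.1 hU
        have h8 := mem_powerset.1 h5
        rw [ih U (ssubset_of_subset_of_ne h8 h4) (h8.trans hT), hp' T U hT (h8.trans hT)]
      rw [h3] at h1
      exact add_right_cancel (h1.trans h2.symm)
  have h1 : ∀ U ∈ S.powerset, (∑ t ∈ insert q (insert p U), l t) * (mu (insert q (insert p U)) *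
      ∏ t ∈ S \ U, ∑ u ∈ insert q (insert p U), s u t) =
      (l q + l p) * ((MM s (fun t => s t q + s t p) U).det *
        ∏ t ∈ S \ U, (s t q + s t p + ∑ u ∈ U, s t u)) +
      (∑ t ∈ U, l t) * Fs s (fun t => s t q + s t p) 0 S U := by
    intro U hU
    have hUS := mem_powerset.1 hU
    have h1 : q ∉ insert p U := by
      rw [mem_insert, not_or]
      exact ⟨hpq, fun h => hq (hUS h)⟩
    rw [sum_insert h1, sum_insert fun h => hp (hUS h), key U hUS,
      hp' S U (Finset.Subset.refl _) hUS]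
    unfold Fs
    simp only [Pi.zero_apply, add_zero]
    ring
  rw [sum_congr rfl h1, sum_add_distrib, ← mul_sum, L1_one, mul_ite, mul_one, mul_zero]
  rfl

/-! ### The two parts of a set -/

/-- the elements with `a = 0` -/
def A0 (a : ι → ZMod 2) (S : Finset ι) : Finset ι := S.filter fun q => a q = 0

/-- the elements with `a = 1` -/
def A1 (a : ι → ZMod 2) (S : Finset ι) : Finset ι := S.filter fun q => a q = 1

private theorem Alg_cases : ∀ x : ZMod 2, x = 0 ∨ x = 1 := by decide

omit [DecidableEq ι] in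
theorem mem_A0 {a : ι → ZMod 2} {S : Finset ι} {q : ι} : q ∈ A0 a S ↔ q ∈ S ∧ a q = 0 := mem_filter

omit [DecidableEq ι] in
theorem mem_A1 {a : ι → ZMod 2} {S : Finset ι} {q : ι} : q ∈ A1 a S ↔ q ∈ S ∧ a q = 1 := mem_filter

omit [DecidableEq ι] in
theorem A_disj (a : ι → ZMod 2) (S : Finset ι) : Disjoint (A0 a S) (A1 a S) := by
  rw [disjoint_left]
  intro q h0 h1
  have h2 := (mem_A0.1 h0).2
  rw [(mem_A1.1 h1).2] at h2
  exact one_ne_zero h2

theorem A_union (a : ι → ZMod 2) (S : Finset ι) : A0 a S ∪ A1 a S = S := by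
  ext q
  rw [mem_union, mem_A0, mem_A1]
  constructor
  · rintro (h | h)
    · exact h.1
    · exact h.1
  · intro h
    rcases Alg_cases (a q) with h1 | h1
    · exact Or.inl ⟨h, h1⟩
    · exact Or.inr ⟨h, h1⟩

/-- the sum over the subsets of a disjoint union -/
theorem sum_powerset_union (f : Finset ι → ZMod 2) (A B : Finset ι) (h : Disjoint A B) :
    ∑ T ∈ (A ∪ B).powerset, f T = ∑ V ∈ B.powerset, ∑ U ∈ A.powerset, f (U ∪ V) := by
  induction B using Finset.induction_on generalizing f with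
  | empty =>
    rw [union_empty, powerset_empty, sum_singleton]
    exact sum_congr rfl fun U _ => by rw [union_empty]
  | insert b B hb ih =>
    rw [disjoint_insert_right] at h
    have hb' : b ∉ A ∪ B := by
      rw [mem_union, not_or]
      exact ⟨h.1, hb⟩
    rw [union_insert, sum_powerset_insert hb', sum_powerset_insert hb, ih f h.2,
      ih (fun T => f (insert b T)) h.2]
    congr 1
    refine sum_congr rfl fun V _ => sum_congr rfl fun U _ => ?_
    rw [union_insert]

theorem sum_split (a : ι → ZMod 2) (f : Finset ι → ZMod 2) (S : Finset ι) :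
    ∑ T ∈ S.powerset, f T = ∑ V ∈ (A1 a S).powerset, ∑ U ∈ (A0 a S).powerset, f (U ∪ V) := by
  rw [← sum_powerset_union f _ _ (A_disj a S), A_union]

theorem A0_union {a : ι → ZMod 2} {S U V : Finset ι} (hU : U ⊆ A0 a S) (hV : V ⊆ A1 a S) :
    A0 a (U ∪ V) = U := by
  ext q
  rw [mem_A0, mem_union]
  constructor
  · rintro ⟨h | h, h1⟩
    · exact h
    · have h2 := (mem_A1.1 (hV h)).2
      rw [h1] at h2
      exact absurd h2 zero_ne_one
  · intro h
    exact ⟨Or.inl h, (mem_A0.1 (hU h)).2⟩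

theorem A1_union {a : ι → ZMod 2} {S U V : Finset ι} (hU : U ⊆ A0 a S) (hV : V ⊆ A1 a S) :
    A1 a (U ∪ V) = V := by
  ext q
  rw [mem_A1, mem_union]
  constructor
  · rintro ⟨h | h, h1⟩
    · have h2 := (mem_A0.1 (hU h)).2
      rw [h1] at h2
      exact absurd h2 one_ne_zero
    · exact h
  · intro h
    exact ⟨Or.inr h, (mem_A1.1 (hV h)).2⟩

theorem sdiff_union' {a : ι → ZMod 2} {S U V : Finset ι} (hV : V ⊆ A1 a S) :
    A0 a S \ (U ∪ V) = A0 a S \ U := by
  ext q
  rw [mem_sdiff, mem_sdiff, mem_union, not_or]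
  constructor
  · rintro ⟨h1, h2, -⟩
    exact ⟨h1, h2⟩
  · rintro ⟨h1, h2⟩
    exact ⟨h1, h2, fun h => disjoint_left.1 (A_disj a S) h1 (hV h)⟩

theorem sum_union' {a : ι → ZMod 2} {S U V : Finset ι} (hU : U ⊆ A0 a S) (hV : V ⊆ A1 a S)
    (g : ι → ZMod 2) : ∑ q ∈ U ∪ V, g q = ∑ q ∈ V, g q + ∑ q ∈ U, g q := by
  rw [sum_union (disjoint_of_subset_left hU (disjoint_of_subset_right hV (A_disj a S))), add_comm]

omit [DecidableEq ι] in
theorem suma_A0 {a : ι → ZMod 2} {S U : Finset ι} (hU : U ⊆ A0 a S) : ∑ q ∈ U, a q = 0 :=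
  sum_eq_zero fun _ hq => (mem_A0.1 (hU hq)).2

/-- a family of functions of sets is determined by a triangular system -/
theorem uniq_tri (c : Finset ι → Finset ι → ZMod 2) (hc : ∀ S, c S S = 1)
    {f g : Finset ι → ZMod 2}
    (h : ∀ S, ∑ T ∈ S.powerset, f T * c S T = ∑ T ∈ S.powerset, g T * c S T) (S : Finset ι) :
    f S = g S := by
  induction S using Finset.strongInduction with
  | H S ih =>
    have h1 := h S
    rw [← add_sum_erase _ _ (mem_powerset_self S),
      ← add_sum_erase S.powerset (fun T => g T * c S T) (mem_powerset_self S), hc, mul_one,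
      mul_one] at h1
    have h2 : ∑ T ∈ S.powerset.erase S, f T * c S T = ∑ T ∈ S.powerset.erase S, g T * c S T := by
      refine sum_congr rfl fun T hT => ?_
      obtain ⟨h3, h4⟩ := mem_erase.1 hT
      rw [ih T (ssubset_of_subset_of_ne (mem_powerset.1 h4) h3)]
    rw [h2] at h1
    exact add_right_cancel h1

theorem sum_one (D : Finset ι) : ∑ _T ∈ D.powerset, (1 : ZMod 2) = if D = ∅ then 1 else 0 := by
  by_cases h : D = ∅
  · rw [if_pos h, h, powerset_empty, sum_singleton]
  · rw [if_neg h]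
    obtain ⟨q, hq⟩ := nonempty_iff_ne_empty.2 h
    rw [← insert_erase hq, sum_powerset_insert (notMem_erase _ _)]
    exact Alg_self _

/-! ### The determinants -/

/-- the symbols, `0` in the rows of the elements with `a = 1` -/
def sA (a : ι → ZMod 2) (s : ι → ι → ZMod 2) (q p : ι) : ZMod 2 := if a q = 0 then s q p else 0

/-- the diagonal bits, `1` in the rows of the elements with `a = 1` -/
def xA (a r l : ι → ZMod 2) (j : ZMod 2) (q : ι) : ZMod 2 := if a q = 0 then r q + j * l q else 1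

/-- the border -/
def lA (a l : ι → ZMod 2) (q : ι) : ZMod 2 := if a q = 0 then l q else 0

/-- the determinant which decides -/
def GA (a r l : ι → ZMod 2) (s : ι → ι → ZMod 2) (k j : ZMod 2) (S : Finset ι) : ZMod 2 :=
  if j = 0 ∨ ∑ q ∈ S, a q = 1 then (MM (sA a s) (xA a r l j) S).det
  else (BB (sA a s) (xA a r l 1) (lA a l) (lA a l) (k + ∑ q ∈ S, l q) S).det

theorem prod_A (a r l : ι → ZMod 2) (s : ι → ι → ZMod 2) (j : ZMod 2) (S T : Finset ι) :
    ∏ q ∈ S \ T, (xA a r l j q + ∑ p ∈ T, sA a s q p) =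
      ∏ q ∈ A0 a S \ T, (r q + j * l q + ∑ p ∈ T, s q p) := by
  have h : A0 a S \ T = (S \ T).filter fun q => a q = 0 := by
    ext q
    rw [mem_sdiff, mem_A0, mem_filter, mem_sdiff]
    tauto
  rw [h, prod_filter]
  refine prod_congr rfl fun q _ => ?_
  by_cases h0 : a q = 0
  · rw [if_pos h0]
    simp only [xA, sA, if_pos h0]
  · rw [if_neg h0]
    simp only [xA, sA, if_neg h0, sum_const_zero, add_zero]

/-- the diagonal of the block of the elements with `a = 0` -/
def xV (r l : ι → ZMod 2) (s : ι → ι → ZMod 2) (j : ZMod 2) (V : Finset ι) (q : ι) : ZMod 2 :=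
  r q + j * l q + ∑ p ∈ V, s q p

/-- the sum of a function of the two parts with the products -/
theorem sum_parts (a r l : ι → ZMod 2) (s : ι → ι → ZMod 2) (j : ZMod 2)
    (F : Finset ι → Finset ι → ZMod 2) (S : Finset ι) :
    ∑ T ∈ S.powerset, F (A0 a T) (A1 a T) * ∏ q ∈ S \ T, (xA a r l j q + ∑ p ∈ T, sA a s q p) =
      ∑ V ∈ (A1 a S).powerset, ∑ U ∈ (A0 a S).powerset,
        F U V * ∏ q ∈ A0 a S \ U, (xV r l s j V q + ∑ p ∈ U, s q p) := by
  rw [sum_split a]
  refine sum_congr rfl fun V hV => sum_congr rfl fun U hU => ?_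
  have hV' := mem_powerset.1 hV
  have hU' := mem_powerset.1 hU
  rw [prod_A, A0_union hU' hV', A1_union hU' hV', sdiff_union' hV']
  congr 1
  refine prod_congr rfl fun q _ => ?_
  rw [sum_union' hU' hV', xV, add_assoc (r q + j * l q)]

/-- the determinant is the determinant of the block -/
theorem det_MM_split (a r l : ι → ZMod 2) (s : ι → ι → ZMod 2) (j : ZMod 2) (S : Finset ι) :
    (MM (sA a s) (xA a r l j) S).det = (MM s (xV r l s j (A1 a S)) (A0 a S)).det := by
  refine uniq_tri (fun S T => ∏ q ∈ S \ T, (xA a r l j q + ∑ p ∈ T, sA a s q p)) ?_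
    (f := fun S => (MM (sA a s) (xA a r l j) S).det)
    (g := fun S => (MM s (xV r l s j (A1 a S)) (A0 a S)).det) ?_ S
  · intro S
    rw [Finset.sdiff_self, prod_empty]
  · intro S
    rw [L1_one, sum_parts a r l s j (fun U V => (MM s (xV r l s j V) U).det) S]
    simp only [L1_one]
    by_cases h : A0 a S = ∅
    · simp only [if_pos h]
      rw [sum_one]
      by_cases h1 : A1 a S = ∅
      · have h2 : S = ∅ := by rw [← A_union a S, h, h1, union_empty]
        rw [if_pos h1, if_pos h2]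
      · have h2 : S ≠ ∅ := by
          rintro rfl
          exact h1 rfl
        rw [if_neg h1, if_neg h2]
    · have h2 : S ≠ ∅ := by
        rintro rfl
        exact h rfl
      simp only [if_neg h, if_neg h2, sum_const_zero]

omit [DecidableEq ι] in
theorem sA_row {a : ι → ZMod 2} {o : ι} (ho : a o = 1) (s : ι → ι → ZMod 2) : sA a s o = 0 := by
  funext p
  have h : a o ≠ 0 := by
    rw [ho]
    exact one_ne_zero
  exact if_neg h

theorem Psi_be_zero (s : ι → ι → ZMod 2) (x : ι → ZMod 2) (S : Finset ι) : Psi s 0 x 0 S = 0 := by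
  unfold Psi
  refine sum_eq_zero fun T _ => ?_
  simp

/-- a path through an element with `a = 1` ends there, with the weight `0` -/
theorem Psi_lA (a l : ι → ZMod 2) (s : ι → ι → ZMod 2) (S : Finset ι) :
    ∀ (be : ι → ZMod 2), (A1 a S).Nonempty → Psi (sA a s) be (lA a l) 0 S = 0 := by
  induction S using Finset.strongInduction with
  | H S ih =>
    intro be h1
    rw [Psi_eq]
    refine sum_eq_zero fun o ho => ?_
    rw [P1_eq (sA a s) (lA a l) 0 ho]
    rcases Alg_cases (a o) with h2 | h2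
    · obtain ⟨c, hc⟩ := h1
      have hc' := mem_A1.1 hc
      have hco : c ≠ o := by
        rintro rfl
        rw [h2] at hc'
        exact zero_ne_one hc'.2
      have h3 : c ∈ S.erase o := mem_erase.2 ⟨hco, hc'.1⟩
      rw [prod_eq_zero h3 rfl, mul_zero, zero_add,
        ih (S.erase o) (erase_ssubset ho) (sA a s o) ⟨c, mem_A1.2 ⟨h3, hc'.2⟩⟩, mul_zero]
    · have h3 : lA a l o = 0 := by
        have h : a o ≠ 0 := by
          rw [h2]
          exact one_ne_zero
        exact if_neg h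
      rw [h3, sA_row h2, Psi_be_zero, zero_mul, zero_add, mul_zero]

/-- the bordered determinant is the one of the block -/
theorem det_BB_split (a r l : ι → ZMod 2) (s : ι → ι → ZMod 2) (j : ZMod 2) (S : Finset ι) :
    (BB (sA a s) (xA a r l j) (lA a l) (lA a l) 0 S).det =
      (BB s (xV r l s j (A1 a S)) l l 0 (A0 a S)).det := by
  refine uniq_tri (fun S T => ∏ q ∈ S \ T, (xA a r l j q + ∑ p ∈ T, sA a s q p)) ?_
    (f := fun S => (BB (sA a s) (xA a r l j) (lA a l) (lA a l) 0 S).det)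
    (g := fun S => (BB s (xV r l s j (A1 a S)) l l 0 (A0 a S)).det) ?_ S
  · intro S
    rw [Finset.sdiff_self, prod_empty]
  · intro S
    have h1 := sum_BB (sA a s) (xA a r l j) (lA a l) (lA a l) 0 S
    simp only [Pi.zero_apply, add_zero] at h1
    rw [h1, sum_parts a r l s j (fun U V => (BB s (xV r l s j V) l l 0 U).det) S]
    have h2 : ∀ V, ∑ U ∈ (A0 a S).powerset, (BB s (xV r l s j V) l l 0 U).det *
        ∏ q ∈ A0 a S \ U, (xV r l s j V q + ∑ p ∈ U, s q p) = Psi s l l 0 (A0 a S) := by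
      intro V
      have h3 := sum_BB s (xV r l s j V) l l 0 (A0 a S)
      simp only [Pi.zero_apply, add_zero] at h3
      exact h3
    simp only [h2]
    have h4 : ∑ _V ∈ (A1 a S).powerset, Psi s l l 0 (A0 a S) =
        Psi s l l 0 (A0 a S) * ∑ _V ∈ (A1 a S).powerset, 1 := by
      rw [mul_sum]
      exact sum_congr rfl fun _ _ => (mul_one _).symm
    rw [h4, sum_one]
    rcases (A1 a S).eq_empty_or_nonempty with h | h
    · rw [if_pos h, mul_one]
      have hS : A0 a S = S := by
        have h5 := A_union a S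
        rwa [h, union_empty] at h5
      rw [hS]
      have h0 : ∀ q ∈ S, a q = 0 := fun q hq => by
        rw [← hS] at hq
        exact (mem_A0.1 hq).2
      exact Psi_congr (fun q hq p _ => if_pos (h0 q hq)) (fun q hq => if_pos (h0 q hq))
        fun q hq => if_pos (h0 q hq)
    · rw [if_neg h.ne_empty, mul_zero]
      exact Psi_lA a l s S (lA a l) h

/-! ### The identities of the determinants -/

/-- **(5.4), the odd sets.** -/
theorem GA_od (a r l : ι → ZMod 2) (s : ι → ι → ZMod 2) (S : Finset ι) :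
    ∑ T ∈ S.powerset, (∑ q ∈ T, a q) * ((MM (sA a s) (xA a r l 1) T).det *
      ∏ q ∈ S \ T, (xA a r l 1 q + ∑ p ∈ T, sA a s q p)) =
      if S.card = 1 then ∑ q ∈ S, a q else 0 := by
  have h1 : ∑ T ∈ S.powerset, (∑ q ∈ T, a q) * ((MM (sA a s) (xA a r l 1) T).det *
      ∏ q ∈ S \ T, (xA a r l 1 q + ∑ p ∈ T, sA a s q p)) =
      Psi (sA a s) a (xA a r l 1) 0 S := by
    unfold Psi Fs
    simp only [Pi.zero_apply, add_zero]
  rw [h1, Psi_eq]
  have h2 : ∀ o ∈ S, a o * P1 (sA a s) (xA a r l 1) 0 S o =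
      if S.card = 1 then a o else 0 := by
    intro o ho
    rcases Alg_cases (a o) with h | h
    · rw [h, zero_mul, ite_self]
    · have h3 : xA a r l 1 o = 1 := by
        have h : a o ≠ 0 := by
          rw [h]
          exact one_ne_zero
        exact if_neg h
      rw [P1_eq _ _ _ ho, sA_row h, Psi_be_zero, add_zero, h3, h, one_mul, one_mul]
      rcases (S.erase o).eq_empty_or_nonempty with h4 | h4
      · have h5 : S.card = 1 := by
          rw [← insert_erase ho, h4]
          exact card_singleton o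
        rw [h4, prod_empty, if_pos h5]
      · have h5 : S.card ≠ 1 := by
          have h6 := card_erase_add_one ho
          have h7 := h4.card_pos
          omega
        obtain ⟨c, hc⟩ := h4
        rw [if_neg h5, prod_eq_zero hc rfl]
  rw [sum_congr rfl h2]
  split_ifs with h
  · rfl
  · exact sum_const_zero

/-- the constant term -/
def eK (r l : ι → ZMod 2) (s : ι → ι → ZMod 2) (k : ZMod 2) (D : Finset ι) : ZMod 2 :=
  (if D = ∅ then k else 0) + Psi s l r 0 D

/-- the linear term -/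
def eB (l : ι → ZMod 2) (s : ι → ι → ZMod 2) (D : Finset ι) (p : ι) : ZMod 2 :=
  (if D = ∅ then l p else 0) + Psi s l (fun q => s q p) 0 D

/-- the sum over the sets with a given part with `a = 1` -/
theorem GA_part (r l : ι → ZMod 2) (s : ι → ι → ZMod 2) (k : ZMod 2) (D V : Finset ι) :
    ∑ U ∈ D.powerset, ((k + (∑ q ∈ V, l q + ∑ q ∈ U, l q)) * (MM s (xV r l s 1 V) U).det +
      (BB s (xV r l s 1 V) l l 0 U).det) * ∏ q ∈ D \ U, (xV r l s 1 V q + ∑ p ∈ U, s q p) =
      eK r l s k D + ∑ p ∈ V, eB l s D p := by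
  have h1 : ∀ U ∈ D.powerset, ((k + (∑ q ∈ V, l q + ∑ q ∈ U, l q)) *
      (MM s (xV r l s 1 V) U).det + (BB s (xV r l s 1 V) l l 0 U).det) *
      ∏ q ∈ D \ U, (xV r l s 1 V q + ∑ p ∈ U, s q p) =
      (k + ∑ q ∈ V, l q) * ((MM s (xV r l s 1 V) U).det *
        ∏ q ∈ D \ U, (xV r l s 1 V q + ∑ p ∈ U, s q p)) +
      (∑ q ∈ U, l q) * Fs s (xV r l s 1 V) 0 D U +
      (BB s (xV r l s 1 V) l l 0 U).det *
        ∏ q ∈ D \ U, (xV r l s 1 V q + (0 : ι → ZMod 2) q + ∑ p ∈ U, s q p) := by
    intro U _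
    unfold Fs
    simp only [Pi.zero_apply, add_zero]
    ring
  have h2 : ∑ U ∈ D.powerset, (∑ q ∈ U, l q) * Fs s (xV r l s 1 V) 0 D U =
      Psi s l (xV r l s 1 V) 0 D := rfl
  have h3 : Psi s l (xV r l s 1 V) 0 D = Psi s l r 0 D + Psi s l l 0 D +
      ∑ p ∈ V, Psi s l (fun q => s q p) 0 D := by
    have e : xV r l s 1 V = fun q => (fun q => r q + l q) q + (fun q => ∑ p ∈ V, s q p) q := by
      funext q
      simp only [xV, one_mul]
    rw [e, Psi_add', Psi_add' s l r l, Psi_sum]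
  rw [sum_congr rfl h1, sum_add_distrib, sum_add_distrib, ← mul_sum, L1_one, sum_BB, h2, h3]
  unfold eK eB
  rw [sum_add_distrib]
  have h4 : ∑ p ∈ V, (if D = ∅ then l p else 0) = if D = ∅ then ∑ p ∈ V, l p else 0 := by
    split_ifs
    · rfl
    · exact sum_const_zero
  rw [h4]
  have h5 := Alg_self (Psi s l l 0 D)
  split_ifs
  · linear_combination h5
  · linear_combination h5

/-- **(5.4), the even sets**, split. -/
theorem GA_ev (a r l : ι → ZMod 2) (s : ι → ι → ZMod 2) (k : ZMod 2) (S : Finset ι) :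
    ∑ T ∈ S.powerset, (1 + ∑ q ∈ T, a q) *
      ((BB (sA a s) (xA a r l 1) (lA a l) (lA a l) (k + ∑ q ∈ T, l q) T).det *
      ∏ q ∈ S \ T, (xA a r l 1 q + ∑ p ∈ T, sA a s q p)) =
      ∑ V ∈ (A1 a S).powerset, (1 + ∑ q ∈ V, a q) *
        (eK r l s k (A0 a S) + ∑ p ∈ V, eB l s (A0 a S) p) := by
  have h0 : ∀ T : Finset ι, ∀ g : ι → ZMod 2, ∑ q ∈ T, g q =
      ∑ q ∈ A1 a T, g q + ∑ q ∈ A0 a T, g q := by
    intro T g
    have h := sum_union' (Finset.Subset.refl (A0 a T)) (Finset.Subset.refl (A1 a T)) g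
    rwa [A_union] at h
  have h1 : ∀ T ∈ S.powerset, (1 + ∑ q ∈ T, a q) *
      ((BB (sA a s) (xA a r l 1) (lA a l) (lA a l) (k + ∑ q ∈ T, l q) T).det *
      ∏ q ∈ S \ T, (xA a r l 1 q + ∑ p ∈ T, sA a s q p)) =
      (fun U V => (1 + ∑ q ∈ V, a q) *
        ((k + (∑ q ∈ V, l q + ∑ q ∈ U, l q)) * (MM s (xV r l s 1 V) U).det +
        (BB s (xV r l s 1 V) l l 0 U).det)) (A0 a T) (A1 a T) *
        ∏ q ∈ S \ T, (xA a r l 1 q + ∑ p ∈ T, sA a s q p) := by
    intro T _
    rw [BB_corner, det_MM_split, det_BB_split, h0 T a, suma_A0 (Finset.Subset.refl _), add_zero,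
      h0 T l]
    ring
  rw [sum_congr rfl h1, sum_parts a r l s 1 (fun U V => (1 + ∑ q ∈ V, a q) *
    ((k + (∑ q ∈ V, l q + ∑ q ∈ U, l q)) * (MM s (xV r l s 1 V) U).det +
    (BB s (xV r l s 1 V) l l 0 U).det)) S]
  refine sum_congr rfl fun V _ => ?_
  rw [← GA_part, mul_sum]
  exact sum_congr rfl fun U _ => by ring

/-! ### The sums over the parts with `a = 1` -/

/-- more than two elements: the sums of the quadratic functions vanish -/
theorem sum_quad {D : Finset ι} (hD : 3 ≤ D.card) (c : ZMod 2) (f g h : ι → ZMod 2) :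
    ∑ V ∈ D.powerset, (c + ∑ q ∈ V, f q + (∑ q ∈ V, g q) * ∑ q ∈ V, h q) = 0 := by
  have lin0 : ∀ E : Finset ι, E.Nonempty → ∀ c : ZMod 2, ∑ _V ∈ E.powerset, c = 0 := by
    intro E hE c
    obtain ⟨q, hq⟩ := hE
    rw [← insert_erase hq, sum_powerset_insert (notMem_erase _ _)]
    exact Alg_self _
  have lin : ∀ E : Finset ι, 2 ≤ E.card → ∀ (c : ZMod 2) (f : ι → ZMod 2),
      ∑ V ∈ E.powerset, (c + ∑ q ∈ V, f q) = 0 := by
    intro E hE c f
    obtain ⟨q, hq⟩ : E.Nonempty := card_pos.1 (by omega)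
    rw [← insert_erase hq, sum_powerset_insert (notMem_erase _ _), ← sum_add_distrib]
    have h1 : ∀ V ∈ (E.erase q).powerset, c + ∑ q ∈ V, f q + (c + ∑ p ∈ insert q V, f p) = f q := by
      intro V hV
      rw [sum_insert fun h => notMem_erase q E (mem_powerset.1 hV h)]
      linear_combination Alg_self c + Alg_self (∑ q ∈ V, f q)
    rw [sum_congr rfl h1]
    refine lin0 _ ?_ _
    rw [← card_pos]
    have := card_erase_add_one hq
    omega
  obtain ⟨q, hq⟩ : D.Nonempty := card_pos.1 (by omega)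
  rw [← insert_erase hq, sum_powerset_insert (notMem_erase _ _), ← sum_add_distrib]
  have h1 : ∀ V ∈ (D.erase q).powerset, c + ∑ q ∈ V, f q + (∑ q ∈ V, g q) * ∑ q ∈ V, h q +
      (c + ∑ p ∈ insert q V, f p + (∑ p ∈ insert q V, g p) * ∑ p ∈ insert q V, h p) =
      (f q + g q * h q) + ∑ p ∈ V, (g q * h p + h q * g p) := by
    intro V hV
    have hV' : q ∉ V := fun h => notMem_erase q D (mem_powerset.1 hV h)
    rw [sum_insert hV', sum_insert hV', sum_insert hV', sum_add_distrib, ← mul_sum, ← mul_sum]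
    linear_combination Alg_self c + Alg_self (∑ q ∈ V, f q) +
      Alg_self ((∑ q ∈ V, g q) * ∑ q ∈ V, h q)
  rw [sum_congr rfl h1]
  refine lin _ ?_ _ _
  have := card_erase_add_one hq
  omega

theorem sum_two {q p : ι} (hpq : q ≠ p) (F : Finset ι → ZMod 2) :
    ∑ V ∈ ({q, p} : Finset ι).powerset, F V = F ∅ + F {p} + (F {q} + F {q, p}) := by
  have h1 : q ∉ ({p} : Finset ι) := by
    rw [mem_singleton]
    exact hpq
  have e : ∀ F : Finset ι → ZMod 2, ∑ V ∈ ({p} : Finset ι).powerset, F V = F ∅ + F {p} := by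
    intro F
    have h2 : p ∉ (∅ : Finset ι) := notMem_empty p
    have h3 := sum_powerset_insert h2 F
    rw [powerset_empty, sum_singleton, sum_singleton] at h3
    exact h3
  rw [sum_powerset_insert h1, e, e]
  rfl

/-- no element with `a = 1` -/
theorem GA_ev0 (a r l : ι → ZMod 2) (s : ι → ι → ZMod 2) (k : ZMod 2) {S : Finset ι}
    (ha : ∀ q ∈ S, a q = 0) :
    ∑ T ∈ S.powerset, (1 + ∑ q ∈ T, a q) *
      ((BB (sA a s) (xA a r l 1) (lA a l) (lA a l) (k + ∑ q ∈ T, l q) T).det *
      ∏ q ∈ S \ T, (xA a r l 1 q + ∑ p ∈ T, sA a s q p)) =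
      (if S = ∅ then k else 0) + Psi s l r 0 S := by
  have h1 : A1 a S = ∅ := by
    rw [eq_empty_iff_forall_notMem]
    intro q hq
    have h2 := mem_A1.1 hq
    rw [ha q h2.1] at h2
    exact zero_ne_one h2.2
  have h0 : A0 a S = S := by
    have h5 := A_union a S
    rwa [h1, union_empty] at h5
  rw [GA_ev, h1, h0, powerset_empty, sum_singleton, sum_empty, sum_empty, add_zero, add_zero,
    one_mul, eK]

/-- two elements with `a = 1` -/
theorem GA_ev2 (a r l : ι → ZMod 2) (s : ι → ι → ZMod 2) (k : ZMod 2) {S : Finset ι} {q p : ι}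
    (hpq : q ≠ p) (haq : a q = 1) (hap : a p = 1) (ha : ∀ q ∈ S, a q = 0) :
    ∑ T ∈ (insert q (insert p S)).powerset, (1 + ∑ q ∈ T, a q) *
      ((BB (sA a s) (xA a r l 1) (lA a l) (lA a l) (k + ∑ q ∈ T, l q) T).det *
      ∏ t ∈ insert q (insert p S) \ T, (xA a r l 1 t + ∑ p ∈ T, sA a s t p)) =
      (if S = ∅ then l q + l p else 0) + Psi s l (fun t => s t q + s t p) 0 S := by
  have h1 : A1 a (insert q (insert p S)) = {q, p} := by
    ext t
    rw [mem_A1, mem_insert, mem_insert, mem_insert, mem_singleton]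
    constructor
    · rintro ⟨h | h | h, h2⟩
      · exact Or.inl h
      · exact Or.inr h
      · rw [ha t h] at h2
        exact absurd h2 zero_ne_one
    · rintro (h | h)
      · rw [h]
        exact ⟨Or.inl rfl, haq⟩
      · rw [h]
        exact ⟨Or.inr (Or.inl rfl), hap⟩
  have h0 : A0 a (insert q (insert p S)) = S := by
    ext t
    rw [mem_A0, mem_insert, mem_insert]
    constructor
    · rintro ⟨h | h | h, h2⟩
      · rw [h, haq] at h2
        exact absurd h2 one_ne_zero
      · rw [h, hap] at h2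
        exact absurd h2 one_ne_zero
      · exact h
    · intro h
      exact ⟨Or.inr (Or.inr h), ha t h⟩
  rw [GA_ev, h1, h0, sum_two hpq, sum_pair hpq, sum_pair hpq, sum_singleton, sum_singleton,
    sum_singleton, sum_singleton, sum_empty, sum_empty, haq, hap, Alg_self, Psi_add' s l]
  unfold eB
  split_ifs
  · linear_combination Alg_self (eK r l s k S)
  · linear_combination Alg_self (eK r l s k S)

/-- more than two elements with `a = 1` -/
theorem GA_ev3 (a r l : ι → ZMod 2) (s : ι → ι → ZMod 2) (k : ZMod 2) {S : Finset ι}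
    (hS : 3 ≤ (A1 a S).card) :
    ∑ T ∈ S.powerset, (1 + ∑ q ∈ T, a q) *
      ((BB (sA a s) (xA a r l 1) (lA a l) (lA a l) (k + ∑ q ∈ T, l q) T).det *
      ∏ q ∈ S \ T, (xA a r l 1 q + ∑ p ∈ T, sA a s q p)) = 0 := by
  rw [GA_ev, ← sum_quad hS (eK r l s k (A0 a S))
    (fun q => eB l s (A0 a S) q + eK r l s k (A0 a S) * a q) a (eB l s (A0 a S))]
  refine sum_congr rfl fun V _ => ?_
  rw [sum_add_distrib, ← mul_sum]
  ring

/-! ### The theorems -/

/-- **The first orders, `j = 0`.** -/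
theorem GA_zero (a r l : ι → ZMod 2) (s : ι → ι → ZMod 2) (k : ZMod 2) {nu : Finset ι → ZMod 2}
    (hrec : ∀ S, ∑ T ∈ S.powerset, nu T * ∏ q ∈ A0 a S \ T, (r q + ∑ p ∈ T, s q p) =
      if S = ∅ then 1 else 0) (S : Finset ι) : nu S = GA a r l s k 0 S := by
  rw [GA, if_pos (Or.inl rfl)]
  refine uniq_tri (fun S T => ∏ q ∈ S \ T, (xA a r l 0 q + ∑ p ∈ T, sA a s q p)) ?_
    (g := fun S => (MM (sA a s) (xA a r l 0) S).det) ?_ S
  · intro S
    rw [Finset.sdiff_self, prod_empty]
  · intro S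
    rw [L1_one, ← hrec S]
    refine sum_congr rfl fun T _ => ?_
    rw [prod_A]
    simp only [zero_mul, add_zero]

/-- the sum over the sets of the same parity, for the determinants -/
theorem GA_rec (a r l : ι → ZMod 2) (s : ι → ι → ZMod 2) (k : ZMod 2) (S : Finset ι) :
    ∑ T ∈ S.powerset, (if ∑ q ∈ T, a q = ∑ q ∈ S, a q then GA a r l s k 1 T *
      ∏ q ∈ A0 a S \ T, (r q + l q + ∑ p ∈ T, s q p) else 0) =
      if ∑ q ∈ S, a q = 1 then
        ∑ T ∈ S.powerset, (∑ q ∈ T, a q) * ((MM (sA a s) (xA a r l 1) T).det *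
          ∏ q ∈ S \ T, (xA a r l 1 q + ∑ p ∈ T, sA a s q p))
      else ∑ T ∈ S.powerset, (1 + ∑ q ∈ T, a q) *
        ((BB (sA a s) (xA a r l 1) (lA a l) (lA a l) (k + ∑ q ∈ T, l q) T).det *
        ∏ q ∈ S \ T, (xA a r l 1 q + ∑ p ∈ T, sA a s q p)) := by
  split_ifs with h
  · refine sum_congr rfl fun T _ => ?_
    rw [h, prod_A]
    simp only [one_mul]
    rcases Alg_cases (∑ q ∈ T, a q) with h1 | h1
    · rw [h1, if_neg zero_ne_one, zero_mul]
    · rw [h1, if_pos rfl, one_mul, GA, if_pos (Or.inr h1)]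
  · have h0 : ∑ q ∈ S, a q = 0 := (Alg_cases _).resolve_right h
    refine sum_congr rfl fun T _ => ?_
    rw [h0, prod_A]
    simp only [one_mul]
    rcases Alg_cases (∑ q ∈ T, a q) with h1 | h1
    · have h2 : ¬ ((1 : ZMod 2) = 0 ∨ ∑ q ∈ T, a q = 1) := by
        rw [h1]
        decide
      rw [h1, if_pos rfl, add_zero, one_mul, GA, if_neg h2]
    · rw [h1, if_neg one_ne_zero, Alg_self, zero_mul]

/-- **The first orders, `j = 1`.** -/
theorem GA_one {a : ι → ZMod 2} {s : ι → ι → ZMod 2}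
    (hs : ∀ q p, q ≠ p → a q = 0 → s q p = s p q) (r l : ι → ZMod 2) (k : ZMod 2)
    {kap mu rho nu : Finset ι → ZMod 2}
    (hkap : ∀ S, S.Nonempty → (∀ q ∈ S, a q = 0) →
      ∑ T ∈ S.powerset.erase ∅, kap T * ∏ q ∈ S \ T, ∑ t ∈ T, s t q =
        if S.card = 1 then ∑ q ∈ S, r q else 0)
    (hmu : ∀ S q p, q ≠ p → q ∉ S → p ∉ S → a q = 1 → a p = 1 → (∀ t ∈ S, a t = 0) →
      ∑ U ∈ S.powerset, mu (insert q (insert p U)) *
        ∏ t ∈ S \ U, ∑ u ∈ insert q (insert p U), s u t = if S = ∅ then 1 else 0)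
    (hr0 : ∀ S, S.Nonempty → (∀ q ∈ S, a q = 0) →
      rho S = ∑ T ∈ S.powerset, (∑ t ∈ T, l t) * (kap T * ∏ q ∈ S \ T, ∑ t ∈ T, s t q))
    (hr1 : ∀ S q, q ∉ S → a q = 1 → (∀ p ∈ S, a p = 0) →
      rho (insert q S) = if S = ∅ then 1 else 0)
    (hr2 : ∀ S q p, q ≠ p → q ∉ S → p ∉ S → a q = 1 → a p = 1 → (∀ t ∈ S, a t = 0) →
      rho (insert q (insert p S)) = ∑ U ∈ S.powerset, (∑ t ∈ insert q (insert p U), l t) *
        (mu (insert q (insert p U)) * ∏ t ∈ S \ U, ∑ u ∈ insert q (insert p U), s u t))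
    (hr3 : ∀ S, 3 ≤ (A1 a S).card → rho S = 0)
    (h0 : nu ∅ = k)
    (hrec : ∀ S, S.Nonempty → ∑ T ∈ S.powerset, (if ∑ q ∈ T, a q = ∑ q ∈ S, a q then nu T *
      ∏ q ∈ A0 a S \ T, (r q + l q + ∑ p ∈ T, s q p) else 0) = rho S) (S : Finset ι) :
    nu S = GA a r l s k 1 S := by
  have hs' : ∀ q p, a q = 0 → s q p = s p q := by
    intro q p hq
    by_cases h : q = p
    · rw [h]
    · exact hs q p h hq
  refine uniq_tri (fun S T => if ∑ q ∈ T, a q = ∑ q ∈ S, a q then
    ∏ q ∈ A0 a S \ T, (r q + l q + ∑ p ∈ T, s q p) else 0) ?_ (f := nu)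
    (g := GA a r l s k 1) ?_ S
  · intro S
    have h : A0 a S \ S = ∅ := sdiff_eq_empty_iff_subset.2 (filter_subset _ _)
    rw [if_pos rfl, h, prod_empty]
  · intro S
    have e : ∀ f : Finset ι → ZMod 2, ∑ T ∈ S.powerset, f T * (if ∑ q ∈ T, a q = ∑ q ∈ S, a q then
        ∏ q ∈ A0 a S \ T, (r q + l q + ∑ p ∈ T, s q p) else 0) =
        ∑ T ∈ S.powerset, (if ∑ q ∈ T, a q = ∑ q ∈ S, a q then f T *
          ∏ q ∈ A0 a S \ T, (r q + l q + ∑ p ∈ T, s q p) else 0) := by
      intro f
      refine sum_congr rfl fun T _ => ?_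
      rw [mul_ite, mul_zero]
    rw [e, e, GA_rec]
    rcases S.eq_empty_or_nonempty with rfl | hS
    · have h1 := GA_ev0 a r l s k (S := ∅) (by simp)
      rw [if_neg (by rw [sum_empty]; exact zero_ne_one), h1, if_pos rfl, powerset_empty,
        sum_singleton, if_pos rfl, h0]
      have h2 : A0 a ∅ \ ∅ = ∅ := rfl
      rw [h2, prod_empty, mul_one]
      simp [Psi]
    rw [hrec S hS]
    have hsum : ∑ q ∈ S, a q = ((A1 a S).card : ZMod 2) := by
      rw [← A_union a S, sum_union (A_disj a S), suma_A0 (Finset.Subset.refl _), zero_add,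
        A_union, card_eq_sum_ones, Nat.cast_sum]
      refine sum_congr rfl fun q hq => ?_
      rw [(mem_A1.1 hq).2, Nat.cast_one]
    rcases Nat.lt_or_ge (A1 a S).card 3 with h3 | h3
    · have hc : (A1 a S).card = 0 ∨ (A1 a S).card = 1 ∨ (A1 a S).card = 2 := by omega
      rcases hc with hc | hc | hc
      · have hA : A1 a S = ∅ := card_eq_zero.1 hc
        have h0' : A0 a S = S := by
          have h5 := A_union a S
          rwa [hA, union_empty] at h5
        have ha : ∀ q ∈ S, a q = 0 := fun q hq => by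
          rw [← h0'] at hq
          exact (mem_A0.1 hq).2
        have h1 : ¬ ∑ q ∈ S, a q = 1 := by
          rw [hsum, hc]
          decide
        rw [if_neg h1, GA_ev0 a r l s k ha, if_neg hS.ne_empty, zero_add, hr0 S hS ha]
        refine kap_sum (fun q hq p _ => hs' q p (ha q hq)) l r fun T hT hT0 => ?_
        exact hkap T hT0 fun q hq => ha q (hT hq)
      · obtain ⟨q, hq⟩ := card_eq_one.1 hc
        have hq1 : q ∈ A1 a S := by
          rw [hq]
          exact mem_singleton_self q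
        have hq0 : q ∉ A0 a S := fun h => disjoint_left.1 (A_disj a S) h hq1
        have hSe : S = insert q (A0 a S) := by
          have h5 := A_union a S
          rw [hq, union_comm] at h5
          exact h5.symm
        have h1 : ∑ q ∈ S, a q = 1 := by
          rw [hsum, hc, Nat.cast_one]
        have h2 := hr1 (A0 a S) q hq0 (mem_A1.1 hq1).2 fun p hp => (mem_A0.1 hp).2
        rw [← hSe] at h2
        rw [if_pos h1, GA_od, h1, h2]
        by_cases h4 : A0 a S = ∅
        · have h5 : S.card = 1 := by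
            rw [hSe, h4]
            exact card_singleton q
          rw [if_pos h4, if_pos h5]
        · have h5 : S.card ≠ 1 := by
            rw [hSe, card_insert_of_notMem hq0]
            have := card_pos.2 (nonempty_iff_ne_empty.2 h4)
            omega
          rw [if_neg h4, if_neg h5]
      · obtain ⟨q, p, hpq, hqp⟩ := card_eq_two.1 hc
        have hq1 : q ∈ A1 a S := by
          rw [hqp]
          exact mem_insert_self q _
        have hp1 : p ∈ A1 a S := by
          rw [hqp]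
          exact mem_insert_of_mem (mem_singleton_self p)
        have hq0 : q ∉ A0 a S := fun h => disjoint_left.1 (A_disj a S) h hq1
        have hp0 : p ∉ A0 a S := fun h => disjoint_left.1 (A_disj a S) h hp1
        have hSe : S = insert q (insert p (A0 a S)) := by
          have h5 := A_union a S
          rw [hqp, union_comm, insert_union, singleton_union] at h5
          exact h5.symm
        have haq := (mem_A1.1 hq1).2
        have hap := (mem_A1.1 hp1).2
        have ha : ∀ t ∈ A0 a S, a t = 0 := fun t ht => (mem_A0.1 ht).2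
        have h1 : ¬ ∑ q ∈ S, a q = 1 := by
          rw [hsum, hc]
          decide
        have h2 := hr2 (A0 a S) q p hpq hq0 hp0 haq hap ha
        have h4 := GA_ev2 a r l s k hpq haq hap ha
        rw [← hSe] at h2 h4
        rw [if_neg h1, h4, h2]
        refine mu_sum hpq hq0 hp0 (fun t ht u _ => hs' t u (ha t ht))
          (fun t ht => hs' t q (ha t ht)) (fun t ht => hs' t p (ha t ht)) l fun T hT => ?_
        exact hmu T q p hpq (fun h => hq0 (hT h)) (fun h => hp0 (hT h)) haq hap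
          fun t ht => ha t (hT ht)
    · have h4 : S.card ≠ 1 := by
        have h5 : (A1 a S).card ≤ S.card := card_le_card (filter_subset _ _)
        omega
      rw [hr3 S h3, GA_ev3 a r l s k h3, GA_od, if_neg h4, ite_self]

end

end Pool.Agent.Lib.MP_1a91b9_ntW
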