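import Pool.Agent.Lib.MP_1a91b9_ntW.A.Ell8

/-!
# Phase 6, part A, file ClJ1: the functions `hh`, the closed forms for `j = 1`

`hh c z = ff z + 2 c / ff z`, `c = ± rt`; `z0 = 1 / (4 √-2)`, `z1 = z0 + 1/4`; `uu k Q` the function
`u_k` of the page, (1.2). Sections (2.3)-(2.5).
-/

set_option autoImplicit false
set_option linter.unusedSectionVars false

namespace Pool.Agent.Lib.MP_1a91b9_ntW

open NumberField Pool.Agent.Lib.MP_1a91b9_nuT Pool.Agent.Lib.MP_1a91b9_nuT.S3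
  Pool.Agent.Lib.MP_1a91b9_nuT.Ell

noncomputable section

variable [CD] [hq : Q8]

/-- The abscissa determines the point up to the sign. -/
theorem xx_inj {P Q : ℂ} (hP : 2 * P ∉ PP.lattice) (hQ : Q ∉ PP.lattice) (h : xx P = xx Q) :
    Q - P ∈ PP.lattice ∨ Q + P ∈ PP.lattice := by
  have hO := Om_ne_zero
  have h1 : X P = X Q := by
    rw [xx, xx] at h
    linear_combination 36 * h
  rw [X, X, div_left_inj' (pow_ne_zero 2 hO)] at h1
  exact Per.P_inj hP hQ h1.symm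

section pair

variable {P Q : ℂ}

/-- The conditions on a pair of points. -/
structure Gp (P Q : ℂ) : Prop where
  P2 : 2 * P ∉ PP.lattice
  Q2 : 2 * Q ∉ PP.lattice
  sub : 2 * (lm * (P - Q)) ∉ PP.lattice
  add : 2 * (lm * (P + Q)) ∉ PP.lattice

theorem Gp.neg (h : Gp P Q) : Gp P (-Q) where
  P2 := h.P2
  Q2 := by
    rw [mul_neg]
    exact fun h1 => h.Q2 (by simpa using neg_mem h1)
  sub := by
    rw [sub_neg_eq_add]
    exact h.add
  add := by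
    rw [← sub_eq_add_neg]
    exact h.sub

theorem Gp.sub1 (h : Gp P Q) : lm * (P - Q) ∉ PP.lattice := notMem_of_two_mul h.sub
theorem Gp.add1 (h : Gp P Q) : lm * (P + Q) ∉ PP.lattice := notMem_of_two_mul h.add

theorem Gp.add2 (h : Gp P Q) : 2 * (P + Q) ∉ PP.lattice := fun h1 => h.add (by
  have e : 2 * (lm * (P + Q)) = lm * (2 * (P + Q)) := by ring
  rw [e]
  exact lm_mem_mul h1)

theorem Gp.sub2 (h : Gp P Q) : 2 * (P - Q) ∉ PP.lattice := fun h1 => h.sub (by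
  have e : 2 * (lm * (P - Q)) = lm * (2 * (P - Q)) := by ring
  rw [e]
  exact lm_mem_mul h1)

theorem Gp.ne (h : Gp P Q) : xx P ≠ xx Q := by
  intro h0
  rcases xx_inj h.P2 (notMem_of_two_mul h.Q2) h0 with h1 | h1
  · apply notMem_of_lm h.sub1
    have := neg_mem h1
    have e : -(Q - P) = P - Q := by ring
    rwa [e] at this
  · apply notMem_of_lm h.add1
    rwa [add_comm] at h1

theorem Gp.ne' (h : Gp P Q) : 2 - xx P * xx Q ≠ 0 := by
  intro h0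
  have hx := xx_add_pe h.P2
  have h1 : xx (P + pe) = xx Q := by
    apply mul_right_cancel₀ (xx_ne h.P2)
    linear_combination hx + h0
  have h2 := two_add_two two_pe_mem h.P2
  have key : ∀ w : ℂ, w + pe ∈ PP.lattice → lm * w ∈ PP.lattice := by
    intro w hw
    have h3 := sub_mem (lm_mem_mul hw) one_mem
    have e : lm * (w + pe) - 1 = lm * w := by linear_combination lm_mul_pe
    rwa [e] at h3
  rcases xx_inj h2 (notMem_of_two_mul h.Q2) h1 with h3 | h3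
  · apply h.sub1
    have h4 := neg_mem h3
    have e : -(Q - (P + pe)) = P - Q + pe := by ring
    rw [e] at h4
    exact key _ h4
  · apply h.add1
    have e : Q + (P + pe) = P + Q + pe := by ring
    rw [e] at h3
    exact key _ h3

/-- `(2 - p x)(p - x) = 2 p x (X (lm P) - X (lm Q))` -/
theorem Gp.den (h : Gp P Q) : (2 - xx P * xx Q) * (xx P - xx Q) =
    2 * xx P * xx Q * (xx (lm * P) - xx (lm * Q)) := by
  have h1 := xx_lm h.P2
  have h2 := xx_lm h.Q2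
  linear_combination xx Q * h1 - xx P * h2

theorem Gp.lm_ne (h : Gp P Q) : xx (lm * P) - xx (lm * Q) ≠ 0 := by
  intro h0
  have h1 := h.den
  rw [h0, mul_zero] at h1
  exact mul_ne_zero h.ne' (sub_ne_zero.2 h.ne) h1

/-- the sum -/
theorem Gp.sum (h : Gp P Q) : (ff (P + Q) + ff (P - Q)) * (xx Q * (xx (lm * P) - xx (lm * Q))) =
    (xx Q ^ 2 - 2) * ff P := by
  have h1 := ff_addition h.P2 h.Q2 h.sub1 h.add1
  have h2 := ff_addition h.P2 h.neg.Q2 h.neg.sub1 h.neg.add1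
  rw [← sub_eq_add_neg, xx_neg, yy_neg] at h2
  rw [h.den] at h1 h2
  have h3 := ff_mul h.P2
  have h4 := xx_ne h.P2
  apply mul_left_cancel₀ (mul_ne_zero two_ne_zero h4)
  rw [← h3] at h1 h2
  linear_combination h1 + h2

/-- the difference -/
theorem Gp.dif (h : Gp P Q) : (ff (P + Q) - ff (P - Q)) *
    (xx P * xx Q * (xx (lm * P) - xx (lm * Q))) = -(xx P ^ 2 - 2) * yy Q := by
  have h1 := ff_addition h.P2 h.Q2 h.sub1 h.add1
  have h2 := ff_addition h.P2 h.neg.Q2 h.neg.sub1 h.neg.add1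
  rw [← sub_eq_add_neg, xx_neg, yy_neg] at h2
  rw [h.den] at h1 h2
  apply mul_left_cancel₀ (two_ne_zero (α := ℂ))
  linear_combination h1 - h2

/-- `(x ^ 2 - 2) ^ 2 = 4 x ^ 2 (X' ^ 2 - 4 X' + 2)` -/
theorem sq_form {z : ℂ} (hz : 2 * z ∉ PP.lattice) : (xx z ^ 2 - 2) ^ 2 =
    4 * xx z ^ 2 * (xx (lm * z) ^ 2 - 4 * xx (lm * z) + 2) := by
  have h := xx_lm hz
  linear_combination (2 * xx z * xx (lm * z) - xx z ^ 2 + 4 * xx z - 2 - 8 * xx z) * h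

theorem yy_sq_lm {z : ℂ} (hz : 2 * z ∉ PP.lattice) : yy z ^ 2 = -2 * xx z ^ 2 * xx (lm * z) := by
  rw [yy_sq (notMem_of_two_mul hz)]
  linear_combination (-xx z) * xx_lm hz

/-- the product -/
theorem Gp.prod (h : Gp P Q) : ff (P + Q) * ff (P - Q) * (xx (lm * P) - xx (lm * Q)) =
    2 * (xx (lm * P) * xx (lm * Q) - 2) := by
  have h1 := ff_addition h.P2 h.Q2 h.sub1 h.add1
  have h2 := ff_addition h.P2 h.neg.Q2 h.neg.sub1 h.neg.add1
  rw [← sub_eq_add_neg, xx_neg, yy_neg] at h2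
  rw [h.den] at h1 h2
  have a1 := sq_form h.P2
  have a2 := sq_form h.Q2
  have b1 := yy_sq_lm h.P2
  have b2 := yy_sq_lm h.Q2
  have c1 := xx_ne h.P2
  have c2 := xx_ne h.Q2
  have c3 := h.lm_ne
  obtain ⟨p, hp⟩ : ∃ p, p = xx P := ⟨_, rfl⟩
  obtain ⟨x, hx⟩ : ∃ x, x = xx Q := ⟨_, rfl⟩
  obtain ⟨a, ha⟩ : ∃ a, a = xx (lm * P) := ⟨_, rfl⟩
  obtain ⟨b, hb⟩ : ∃ b, b = xx (lm * Q) := ⟨_, rfl⟩
  rw [← hp, ← ha] at a1 b1
  rw [← hx, ← hb] at a2 b2
  rw [← hp, ← hx, ← ha, ← hb] at h1 h2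
  rw [← hp] at c1
  rw [← hx] at c2
  rw [← ha, ← hb] at c3 ⊢
  have key : ff (P + Q) * ff (P - Q) * (2 * p * x * (a - b)) ^ 2 =
      (x ^ 2 - 2) ^ 2 * yy P ^ 2 - (p ^ 2 - 2) ^ 2 * yy Q ^ 2 := by
    linear_combination (2 * p * x * (a - b)) * ff (P - Q) * h1 +
      ((x ^ 2 - 2) * yy P - (p ^ 2 - 2) * yy Q) * h2
  rw [b1, b2, a1, a2] at key
  apply mul_left_cancel₀ (mul_ne_zero (pow_ne_zero 2 (mul_ne_zero (mul_ne_zero two_ne_zero c1) c2)) c3)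
  linear_combination key

end pair

/-! ### The functions `hh` -/

/-- `hh c z = ff z + 2 c / ff z` -/
def hh (c z : ℂ) : ℂ := ff z + 2 * c / ff z

theorem hh_mul (c : ℂ) {z : ℂ} (hz : 2 * z ∉ PP.lattice) :
    hh c z * ff z = -2 * (xx (lm * z) - c) := by
  have h := ff_ne hz
  rw [hh, add_mul, div_mul_cancel₀ _ h]
  linear_combination ff_sq hz

theorem hh_sq (c : ℂ) {z : ℂ} (hz : 2 * z ∉ PP.lattice) :
    hh c z ^ 2 * xx (lm * z) = -2 * (xx (lm * z) - c) ^ 2 := by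
  have h := hh_mul c hz
  have h1 := ff_sq hz
  have h2 : (hh c z * ff z) ^ 2 = 4 * (xx (lm * z) - c) ^ 2 := by
    rw [h]
    ring
  linear_combination (-1 / 2) * h2 + (1 / 2) * hh c z ^ 2 * h1

/-- the translation by `1/2` -/
theorem ff_half_eq {z : ℂ} (hz : 2 * z ∉ PP.lattice) : ff (z + 1 / 2) = -(2 * rt / ff z) := by
  have h := ff_half hz
  have h1 := ff_ne hz
  have h2 : ff (z + 1 / 2) = -2 * rt / ff z := by rw [eq_div_iff h1, h]
  rw [h2]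
  ring

/-- the data of the base point: `c ^ 2 = 2` and the equation of `X (lm P)` -/
structure Bp (c P : ℂ) : Prop where
  c2 : c ^ 2 = 2
  eq : xx (lm * P) ^ 2 - (4 + 2 * c) * xx (lm * P) + 2 = 0

section closed

variable {c P Q : ℂ}

theorem Gp.q_ne (h : Gp P Q) : ff (P + Q) * ff (P - Q) ≠ 0 :=
  mul_ne_zero (ff_ne h.add2) (ff_ne h.sub2)

theorem Gp.prod_ne (h : Gp P Q) : xx (lm * P) * xx (lm * Q) - 2 ≠ 0 := by
  intro h0
  have h1 := h.prod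
  rw [h0, mul_zero] at h1
  exact mul_ne_zero h.q_ne h.lm_ne h1

theorem Bp.rel (hb : Bp c P) (h2 : 2 * (lm * Q) ∉ PP.lattice) :
    (xx (lm * P) - xx (lm * Q)) * (xx (lm * P) * xx (lm * Q) - 2) =
      2 * xx (lm * P) * xx (lm * Q) * (xx (lm * (lm * Q)) + c) := by
  have h := hb.eq
  have h1 := xx_lm h2
  linear_combination xx (lm * Q) * h + xx (lm * P) * h1

theorem Gp.plus (h : Gp P Q) (hb : Bp c P) :
    (ff (P + Q) * ff (P - Q) + 2 * c) * (xx (lm * P) - xx (lm * Q)) =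
      2 * (xx (lm * P) - c) * (xx (lm * Q) + c) := by
  linear_combination h.prod + 2 * hb.c2

/-- **The sum of `hh c` over `P ± Q`.** -/
theorem Gp.hh_add (h : Gp P Q) (hb : Bp c P) (hP : xx (lm * P) ≠ 0)
    (h2 : 2 * (lm * Q) ∉ PP.lattice) (h3 : xx (lm * (lm * Q)) + c ≠ 0) :
    hh c (P + Q) + hh c (P - Q) = hh c P * (xx Q ^ 2 - 2) * (xx (lm * Q) + c) /
      (2 * (xx Q * xx (lm * Q) * (xx (lm * (lm * Q)) + c))) := by
  have f1 := ff_ne h.add2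
  have f2 := ff_ne h.sub2
  have f3 := ff_ne h.P2
  have x1 := xx_ne h.Q2
  have x2 := xx_ne h2
  have e1 : hh c (P + Q) + hh c (P - Q) = (ff (P + Q) + ff (P - Q)) *
      (ff (P + Q) * ff (P - Q) + 2 * c) / (ff (P + Q) * ff (P - Q)) := by
    rw [hh, hh]
    field_simp
    ring
  have k1 := h.sum
  have k2 := h.plus hb
  have k3 := h.prod
  have k4 := hb.rel h2
  have k5 := h.lm_ne
  have k6 := h.prod_ne
  have k7 := hh_mul c h.P2
  have k8 := ff_sq h.P2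
  rw [e1, div_eq_div_iff h.q_ne (mul_ne_zero two_ne_zero (mul_ne_zero (mul_ne_zero x1 x2) h3))]
  obtain ⟨u, hu⟩ : ∃ u, u = ff (P + Q) := ⟨_, rfl⟩
  obtain ⟨v, hv⟩ : ∃ v, v = ff (P - Q) := ⟨_, rfl⟩
  obtain ⟨a, ha⟩ : ∃ a, a = xx (lm * P) := ⟨_, rfl⟩
  obtain ⟨b, hb'⟩ : ∃ b, b = xx (lm * Q) := ⟨_, rfl⟩
  obtain ⟨d, hd⟩ : ∃ d, d = xx (lm * (lm * Q)) := ⟨_, rfl⟩
  obtain ⟨x, hx⟩ : ∃ x, x = xx Q := ⟨_, rfl⟩
  rw [← hu, ← hv, ← ha, ← hb', ← hx] at k1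
  rw [← hu, ← hv, ← ha, ← hb'] at k2 k3
  rw [← ha, ← hb', ← hd] at k4
  rw [← ha, ← hb'] at k5 k6
  rw [← ha] at k7 k8 hP
  rw [← hb'] at x2
  rw [← hx] at x1
  rw [← hd] at h3
  rw [← hu, ← hv, ← hb', ← hd, ← hx]
  -- `hh c P * a = F (a - c)`
  have k9 : hh c P * a = ff P * (a - c) := by
    apply mul_left_cancel₀ f3
    linear_combination a * k7 + (-(a - c)) * k8
  -- cancel `a (a - b) ^ 2`
  apply mul_left_cancel₀ (mul_ne_zero hP (pow_ne_zero 2 k5))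
  have m1 : a * (a - b) ^ 2 * ((u + v) * (u * v + 2 * c) * (2 * (x * b * (d + c)))) =
      (a * b * 2 * (d + c)) * ((u + v) * (x * (a - b))) * ((u * v + 2 * c) * (a - b)) := by ring
  have m2 : a * (a - b) ^ 2 * (hh c P * (x ^ 2 - 2) * (b + c) * (u * v)) =
      (hh c P * a) * (x ^ 2 - 2) * (b + c) * (u * v * (a - b)) * (a - b) := by ring
  have k4' : a * b * 2 * (d + c) = (a - b) * (a * b - 2) := by linear_combination -k4
  rw [m1, m2, k1, k2, k3, k9, k4']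
  ring

/-- **The difference of `hh (-c)` over `P ± Q`**, `g = (p ^ 2 - 2) / Y (P)`. -/
theorem Gp.hh_sub (h : Gp P Q) (hb : Bp c P) (hP : xx (lm * P) ≠ 0)
    (h2 : 2 * (lm * Q) ∉ PP.lattice) (h3 : xx (lm * (lm * Q)) + c ≠ 0) :
    hh (-c) (P + Q) - hh (-c) (P - Q) = (xx P ^ 2 - 2) / yy P * hh c P *
      (xx Q / yy Q) * ((xx (lm * Q) + c) / (xx (lm * (lm * Q)) + c)) := by
  have f1 := ff_ne h.add2
  have f2 := ff_ne h.sub2
  have f3 := ff_ne h.P2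
  have x0 := xx_ne h.P2
  have x1 := xx_ne h.Q2
  have x2 := xx_ne h2
  have y0 := yy_ne h.P2
  have y1 := yy_ne h.Q2
  have e1 : hh (-c) (P + Q) - hh (-c) (P - Q) = (ff (P + Q) - ff (P - Q)) *
      (ff (P + Q) * ff (P - Q) + 2 * c) / (ff (P + Q) * ff (P - Q)) := by
    rw [hh, hh]
    field_simp
    ring
  have e2 : (xx P ^ 2 - 2) / yy P * hh c P *
      (xx Q / yy Q) * ((xx (lm * Q) + c) / (xx (lm * (lm * Q)) + c)) =
      ((xx P ^ 2 - 2) * hh c P * xx Q * (xx (lm * Q) + c)) /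
        (yy P * yy Q * (xx (lm * (lm * Q)) + c)) := by
    field_simp
  have k1 := h.dif
  have k2 := h.plus hb
  have k3 := h.prod
  have k4 := hb.rel h2
  have k5 := h.lm_ne
  have k7 := hh_mul c h.P2
  have k8 := ff_sq h.P2
  have k10 := yy_sq_lm h.Q2
  have k11 := ff_mul h.P2
  rw [e1, e2, div_eq_div_iff h.q_ne (mul_ne_zero (mul_ne_zero y0 y1) h3)]
  obtain ⟨u, hu⟩ : ∃ u, u = ff (P + Q) := ⟨_, rfl⟩
  obtain ⟨v, hv⟩ : ∃ v, v = ff (P - Q) := ⟨_, rfl⟩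
  obtain ⟨a, ha⟩ : ∃ a, a = xx (lm * P) := ⟨_, rfl⟩
  obtain ⟨b, hb'⟩ : ∃ b, b = xx (lm * Q) := ⟨_, rfl⟩
  obtain ⟨d, hd⟩ : ∃ d, d = xx (lm * (lm * Q)) := ⟨_, rfl⟩
  obtain ⟨x, hx⟩ : ∃ x, x = xx Q := ⟨_, rfl⟩
  obtain ⟨p, hp⟩ : ∃ p, p = xx P := ⟨_, rfl⟩
  obtain ⟨y, hy⟩ : ∃ y, y = yy Q := ⟨_, rfl⟩
  rw [← hu, ← hv, ← ha, ← hb', ← hx, ← hp, ← hy] at k1
  rw [← hu, ← hv, ← ha, ← hb'] at k2 k3
  rw [← ha, ← hb', ← hd] at k4
  rw [← ha, ← hb'] at k5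
  rw [← ha] at k7 k8 hP
  rw [← hx, ← hb', ← hy] at k10
  rw [← hp] at k11 x0
  rw [← hb'] at x2
  rw [← hx] at x1
  rw [← hu, ← hv, ← hb', ← hd, ← hx, ← hp, ← hy, ← k11]
  have k9 : hh c P * a = ff P * (a - c) := by
    apply mul_left_cancel₀ f3
    linear_combination a * k7 + (-(a - c)) * k8
  apply mul_left_cancel₀ (mul_ne_zero (mul_ne_zero hP (pow_ne_zero 2 k5)) x1)
  have m1 : a * (a - b) ^ 2 * x * ((u - v) * (u * v + 2 * c) * (ff P * p * y * (d + c))) =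
      (a * (d + c) * ff P * y) * ((u - v) * (p * x * (a - b))) * ((u * v + 2 * c) * (a - b)) := by ring
  have m2 : a * (a - b) ^ 2 * x * ((p ^ 2 - 2) * hh c P * x * (b + c) * (u * v)) =
      (hh c P * a) * (p ^ 2 - 2) * (b + c) * (u * v * (a - b)) * (a - b) * x ^ 2 := by ring
  rw [m1, m2, k1, k2, k3, k9]
  have k4' : a * b * 2 * (d + c) = (a - b) * (a * b - 2) := by linear_combination -k4
  linear_combination (-2 * a * (d + c) * ff P * (p ^ 2 - 2) * (a - c) * (b + c)) * k10 +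
    (2 * x ^ 2 * ff P * (p ^ 2 - 2) * (a - c) * (b + c)) * k4'

end closed

end

end Pool.Agent.Lib.MP_1a91b9_ntW
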