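import Pool.Agent.Lib.MP_1a91b9_ntW.A.Od8
import Pool.Agent.Lib.MP_1a91b9_ntW.A.Inst8
import Pool.Agent.Lib.MP_1a91b9_ntW.A.Sum8
import Pool.Agent.Lib.MP_1a91b9_ntW.R.Sy8

/-!
# Phase 6, part A, file Dis8: the distribution relations of `xx` and `xi`, page (4.1)
-/

set_option autoImplicit false
set_option linter.unusedSectionVars false

namespace Pool.Agent.Lib.MP_1a91b9_ntW

open NumberField Pool.Agent.Lib.MP_1a91b9_nuT Pool.Agent.Lib.MP_1a91b9_nuT.S3
  Pool.Agent.Lib.MP_1a91b9_nuT.Ell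
open Pool.Agent.Lib.MP_1a91b9_ntQ (em em_add em_mul em_pow em_sub em_zero em_one em_ne Rt two_lt
  em_neg em_intCast em_natCast em_inj em_prod)
open Complex Filter Topology

noncomputable section

section
variable [CD]

variable {ι : Type*} [Fintype ι] {α : ℂ} {τ : ι → ℂ}

/-- **the distribution relation of the function `℘`** -/
theorem sum_P8 (hα : α ∈ PP.lattice) (hα0 : α ≠ 0) (h1 : ∀ i, α * τ i ∈ PP.lattice)
    (h2 : ∀ x, α * x ∈ PP.lattice → ∃! i, x - τ i ∈ PP.lattice) {z : ℂ}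
    (hz : α * z ∉ PP.lattice) :
    ∑ i, PP.weierstrassP (z + τ i) = α ^ 2 * PP.weierstrassP (α * z) -
      e2E * (Fintype.card ι - α ^ 2) := by
  set S : Set ℂ := {w : ℂ | α * w ∈ PP.lattice} with hSdef
  have hS : ∀ z : ℂ, ∀ᶠ w in 𝓝[≠] z, w ∉ S := fun z => eventually_mul_notMem hα0 z
  have hdiff : ∀ z ∉ S, DifferentiableAt ℂ (dh α τ) z := by
    intro z hz
    have a1 : DifferentiableAt ℂ (fun z => ∑ i, PP.weierstrassP (z + τ i)) z := by
      refine DifferentiableAt.fun_sum fun i _ => ?_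
      exact ((hasDerivAt_P (notMem_shift hα h1 hz i)).comp_add_const z (τ i)).differentiableAt
    have a2 : DifferentiableAt ℂ (fun z => PP.weierstrassP (α * z)) z := by
      have b2 : DifferentiableAt ℂ PP.weierstrassP (α * z) := (hasDerivAt_P hz).differentiableAt
      exact b2.comp z (by fun_prop)
    exact a1.neg.add (a2.const_mul _)
  have hlim : ∀ s ∈ S, Tendsto (fun z => (z - s) * dh α τ z) (𝓝[≠] s) (𝓝 0) := by
    intro s hs
    obtain ⟨a, ha⟩ := tendsto_dh hα0 h2 hs
    exact tendsto_mul_zero ha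
  obtain ⟨b, hb⟩ := liouville hS hdiff hlim (fun l hl z => dh_add hα hl z)
  have hcount : S.Countable :=
    countable_lat.preimage_of_injOn (f := fun w : ℂ => α * w)
      (fun x _ y _ h => mul_left_cancel₀ hα0 h)
  have hSo : IsOpen Sᶜ := isOpen_of_iso hS
  have hd : ∀ w ∈ Sᶜ, HasDerivAt (fun z => dg α τ z - b * z) 0 w := by
    intro w hw
    have c1 := hasDerivAt_dg hα h1 hw
    rw [hb w hw] at c1
    have c2 := c1.sub ((hasDerivAt_id w).const_mul b)
    refine c2.congr_deriv ?_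
    ring
  have hconst : ∀ x ∈ Sᶜ, ∀ y ∈ Sᶜ, dg α τ x - b * x = dg α τ y - b * y := by
    intro x hx y hy
    exact hSo.is_const_of_deriv_eq_zero (f := fun z => dg α τ z - b * z)
      (isPreconnected_compl_of_countable hcount)
      (fun w hw => (hd w hw).differentiableAt.differentiableWithinAt)
      (fun w hw => (hd w hw).deriv) hx hy
  set c : ℂ := etaE * (Fintype.card ι - α * (starRingEnd ℂ) α) with hc
  set b' : ℂ := b - e2E * (Fintype.card ι - α ^ 2) with hb'
  have hper : ∀ l ∈ PP.lattice, b' * l = c * (starRingEnd ℂ) l := by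
    intro l hl
    have hzl : z + l ∈ Sᶜ := by
      intro h
      apply hz
      have h' : α * (z + l) ∈ PP.lattice := h
      have := sub_mem h' (mul_mem hα hl)
      have e : α * (z + l) - α * l = α * z := by ring
      rwa [e] at this
    have c1 := hconst (z + l) hzl z hz
    rw [dg_add hα hl, ← hc] at c1
    rw [hb']
    linear_combination -c1
  have hb1 := hper 1 one_mem
  have hb2 := hper zt zt_mem
  rw [map_one] at hb1
  have hc0 : c = 0 := by
    have e1 : c * (zt - (starRingEnd ℂ) zt) = 0 := by linear_combination hb2 - zt * hb1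
    refine (mul_eq_zero.1 e1).resolve_right ?_
    exact sub_ne_zero.2 (fun h => zt_ne (Complex.conj_eq_iff_im.1 h.symm))
  have hb0 : b' = 0 := by linear_combination hb1 + hc0
  have h3 := hb z hz
  rw [dh] at h3
  rw [hb'] at hb0
  linear_combination -h3 - hb0

/-- **the distribution relation of `X`** -/
theorem sum_X8 (hα : α ∈ PP.lattice) (hα0 : α ≠ 0) (h1 : ∀ i, α * τ i ∈ PP.lattice)
    (h2 : ∀ x, α * x ∈ PP.lattice → ∃! i, x - τ i ∈ PP.lattice) {z : ℂ}
    (hz : α * z ∉ PP.lattice) : ∑ i, X (z + τ i) = α ^ 2 * X (α * z) -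
      e2E / Om ^ 2 * (Fintype.card ι - α ^ 2) := by
  have h := sum_P8 hα hα0 h1 h2 hz
  simp only [X]
  rw [← Finset.sum_div, h]
  ring


section
variable [hq : Q8]

private theorem lm_crs (x : ℂ) (hx : lm * x ∈ PP.lattice) :
    ∃! i : Fin 2, x - (if i = 0 then 0 else pe) ∈ PP.lattice := by
  obtain ⟨m, n, e⟩ := mem_PP.1 hx
  have h0 : zt = lm := rfl
  rw [h0] at e
  have hx' : x = n + m * pe := by
    have h1 := lm_mul_pe (hq := hq)
    have h2 : lm * x = lm * (n + m * pe) := by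
      rw [← e]
      linear_combination (-(m : ℂ)) * h1
    exact mul_left_cancel₀ lm_ne h2
  have hpe := two_pe_mem (hq := hq)
  have hint : ∀ k : ℤ, (k : ℂ) ∈ PP.lattice := fun k => by
    have h1 := em_mem (k : 𝓞 K)
    rwa [em_intCast] at h1
  have h01 : ¬ (0 : Fin 2) = 1 := by decide
  rcases Int.even_or_odd' m with ⟨k, hk | hk⟩
  · refine ⟨0, ?_, ?_⟩
    · change x - (if (0 : Fin 2) = 0 then 0 else pe) ∈ PP.lattice
      rw [if_pos rfl, sub_zero, hx', hk]
      have e1 : (n : ℂ) + ((2 * k : ℤ) : ℂ) * pe = n + (k : ℂ) * (2 * pe) := by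
        push_cast
        ring
      rw [e1]
      exact add_mem (hint n) (mul_mem' (hint k) hpe)
    · intro i hi
      change x - (if i = 0 then 0 else pe) ∈ PP.lattice at hi
      by_contra h
      rw [if_neg h] at hi
      apply pe_notMem (hq := hq)
      have e1 : pe = (n : ℂ) + (k : ℂ) * (2 * pe) - (x - pe) := by
        rw [hx', hk]
        push_cast
        ring
      rw [e1]
      exact sub_mem (add_mem (hint n) (mul_mem' (hint k) hpe)) hi
  · refine ⟨1, ?_, ?_⟩
    · change x - (if (1 : Fin 2) = 0 then 0 else pe) ∈ PP.lattice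
      rw [if_neg (by decide), hx', hk]
      have e1 : (n : ℂ) + ((2 * k + 1 : ℤ) : ℂ) * pe - pe = n + (k : ℂ) * (2 * pe) := by
        push_cast
        ring
      rw [e1]
      exact add_mem (hint n) (mul_mem' (hint k) hpe)
    · intro i hi
      change x - (if i = 0 then 0 else pe) ∈ PP.lattice at hi
      by_contra h
      have hi0 : i = 0 := by
        have key : ∀ i : Fin 2, i ≠ 1 → i = 0 := by decide
        exact key i h
      rw [if_pos hi0, sub_zero] at hi
      apply pe_notMem (hq := hq)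
      have e1 : pe = x - ((n : ℂ) + (k : ℂ) * (2 * pe)) := by
        rw [hx', hk]
        push_cast
        ring
      rw [e1]
      exact sub_mem hi (add_mem (hint n) (mul_mem' (hint k) hpe))

/-- `xx z + xx (z + pe) + 2 xx (lm z) = 4` -/
theorem xx_dist_lm {z : ℂ} (hz : 2 * z ∉ PP.lattice) : xx (z + pe) = 4 - xx z - 2 * xx (lm * z) := by
  have h1 := xx_add_pe hz
  have h2 := xx_lm hz
  apply mul_right_cancel₀ (xx_ne hz)
  linear_combination h1 - h2

private theorem quarter : 2 * (1 / 4 : ℂ) ∉ PP.lattice := by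
  have e : 2 * (1 / 4 : ℂ) = 1 / 2 := by norm_num
  rw [e]
  exact half_notMem'

/-- the constant of the distribution relation -/
theorem e2E_eq : e2E / Om ^ 2 = 12 := by
  have hz := quarter (hq := hq)
  have h := sum_X8 (ι := Fin 2) (α := lm) (τ := fun i => if i = 0 then 0 else pe) lm_mem lm_ne
    (fun i => by
      split_ifs
      · rw [mul_zero]
        exact zero_mem _
      · rw [lm_mul_pe]
        exact one_mem) lm_crs (z := 1 / 4) (lm_notMem hz)
  rw [Fin.sum_univ_two, if_pos rfl, if_neg (by decide), add_zero, Fintype.card_fin, lm_sq] at h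
  have h1 := xx_dist_lm hz
  simp only [xx] at h1
  push_cast at h
  linear_combination (1 / 4 : ℂ) * h - 9 * h1

/-- **the distribution relation of `xx`** -/
theorem sum_xx (hα : α ∈ PP.lattice) (hα0 : α ≠ 0) (h1 : ∀ i, α * τ i ∈ PP.lattice)
    (h2 : ∀ x, α * x ∈ PP.lattice → ∃! i, x - τ i ∈ PP.lattice) {z : ℂ}
    (hz : α * z ∉ PP.lattice) :
    ∑ i, xx (z + τ i) = α ^ 2 * (xx (α * z) - 1) + Fintype.card ι := by
  have h := sum_X8 hα hα0 h1 h2 hz
  rw [e2E_eq] at h
  simp only [xx]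
  rw [← Finset.sum_div, Finset.sum_add_distrib, h, Finset.sum_const, Finset.card_univ,
    nsmul_eq_mul]
  ring

end

end

/-! ### The division points -/

theorem mem_iff_em8 {x : ℂ} : x ∈ PP.lattice ↔ ∃ a : 𝓞 K8, em a = x := S3.mem_PP_iff

theorem div_mem_iff {q a : 𝓞 K8} (hq : q ≠ 0) : em a / em q ∈ PP.lattice ↔ q ∣ a := by
  have hq0 := em_ne hq
  constructor
  · intro h
    obtain ⟨b, hb⟩ := mem_iff_em8.1 h
    refine ⟨b, em_inj ?_⟩
    rw [em_mul, hb]
    field_simp
  · rintro ⟨b, rfl⟩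
    rw [em_mul, mul_div_cancel_left₀ _ hq0]
    exact em_mem b

theorem CRS.card {M : 𝓞 K8} (hM : M ≠ 0) {ι : Type} [Fintype ι] {a : ι → 𝓞 K8} (ha : CRS M a) :
    Fintype.card ι = Nz M := by
  rw [← card_quot8 hM, ← Nat.card_eq_fintype_card]
  refine Nat.card_congr (Equiv.ofBijective (fun i => Ideal.Quotient.mk (Ideal.span {M}) (a i))
    ⟨fun i j h => ha.inj i j ((SM_mk _ _).1 h), fun x => ?_⟩)
  obtain ⟨i, hi⟩ := ha.ex x.out
  refine ⟨i, ?_⟩
  rw [← SM_mk, SM_out] at hi
  exact hi.symm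

theorem SM_one {M : 𝓞 K8} (hM : M ≠ 0) : SM M (fun _ => (1 : ℂ)) = (Nz M : ℂ) := by
  obtain ⟨ι, _, a, ha, h⟩ := SM_def (R := ℂ) hM
  rw [h, Finset.sum_const, Finset.card_univ, ha.card hM, nsmul_eq_mul, mul_one]

/-- the sum over the division points -/
theorem SM_xx {q : 𝓞 K8} (hq : q ≠ 0) {z : ℂ} (hz : em q * z ∉ PP.lattice) :
    SM q (fun u => xx (z + em u / em q)) = em q ^ 2 * (xx (em q * z) - 1) + (Nz q : ℂ) := by
  have hq0 := em_ne hq
  obtain ⟨ι, _, a, ha⟩ := CRS.exists_crs hq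
  have hP : Pd q fun u => xx (z + em u / em q) := by
    intro x y h
    refine xx_congr ?_
    have e : z + em x / em q - (z + em y / em q) = em (x - y) / em q := by
      rw [em_sub]
      ring
    rw [e]
    exact (div_mem_iff hq).2 h
  rw [SM_eq hq ha hP, sum_xx (τ := fun i => em (a i) / em q) (em_mem q) hq0 ?_ ?_ hz, ha.card hq]
  · intro i
    rw [mul_div_cancel₀ _ hq0]
    exact em_mem _
  · intro x hx
    obtain ⟨b, hb⟩ := mem_iff_em8.1 hx
    have hx' : x = em b / em q := by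
      rw [hb]
      field_simp
    obtain ⟨i, hi⟩ := ha.ex b
    refine ⟨i, ?_, fun j hj => ?_⟩
    · change x - em (a i) / em q ∈ PP.lattice
      rw [hx', ← sub_div, ← em_sub]
      exact (div_mem_iff hq).2 hi
    · change x - em (a j) / em q ∈ PP.lattice at hj
      rw [hx', ← sub_div, ← em_sub] at hj
      have h3 := (div_mem_iff hq).1 hj
      refine ha.inj j i ?_
      have e : a j - a i = (b - a i) - (b - a j) := by ring
      rw [e]
      exact dvd_sub hi h3

/-- the constant of the distribution relation of `xi` -/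
theorem Nz_sub_sq (q : 𝓞 K8) :
    (Nz q : ℂ) - em q ^ 2 = lm ^ 3 * (((cp q).2 : ℂ) * em q) := by
  have h1 : (Nz q : ℂ) = ((cp q).1 : ℂ) ^ 2 + 2 * ((cp q).2 : ℂ) ^ 2 := by
    have h2 := congrArg (Int.cast (R := ℂ)) (Nz_cp q)
    push_cast at h2
    exact h2
  have h3 : em q = ((cp q).1 : ℂ) + ((cp q).2 : ℂ) * lm := by
    conv_lhs => rw [eq_cp q]
    exact em_coords _ _
  rw [h1, h3]
  have e := lm_sq (hq := q8)
  linear_combination (-((cp q).2 : ℂ) ^ 2 - ((cp q).2 : ℂ) * (lm * (cp q).1 + (lm ^ 2 - 2) *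
    (cp q).2)) * e

theorem lm_r0 : lm * r0 = 1 - r0 := by
  have h5 := r0_eq
  have e := lm_sq (hq := q8)
  linear_combination ((1 + lm) / 3) * h5 + (-(1 : ℂ) / 3) * e

/-- **the distribution relation of `xi`** -/
theorem SM_xi {q : 𝓞 K8} (hq : q ≠ 0) {z : ℂ} (hz : em q * z ∉ PP.lattice) :
    SM q (fun u => xi (z + em u / em q)) = em q ^ 2 * xi (em q * z) +
      em q * ((cp q).2 : ℂ) * r0 := by
  have hl := pow_ne_zero 3 (lm_ne (hq := q8))
  have h1 := SM_xx hq hz
  have h2 := SM_sub (R := ℂ) hq (fun u => (1 / lm ^ 3) * xx (z + em u / em q))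
    fun _ => (lm * r0 / lm ^ 3) * 1
  have h3 : ∀ u : 𝓞 K8, xi (z + em u / em q) = (1 / lm ^ 3) * xx (z + em u / em q) -
      (lm * r0 / lm ^ 3) * 1 := by
    intro u
    rw [xi]
    ring
  rw [SM_congr h3, h2, SM_cmul hq, SM_cmul hq, SM_one hq, h1]
  have h4 := Nz_sub_sq q
  have h6 := lm_r0
  have hl1 := lm_ne (hq := q8)
  rw [xx_xi (em q * z)]
  field_simp
  linear_combination (1 - lm * r0) * h4 - (lm ^ 3 * ((cp q).2 : ℂ) * em q) * h6

end

end Pool.Agent.Lib.MP_1a91b9_ntW
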