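import Pool.Agent.Lib.MP_1a91b9_ntQ.A.Res4

/-!
# MP_1a91b9_nt, `K = ℚ(√-2)`, part A, file RhoA: the sums of the good coordinate over the nonresidues

The first orders of the right sides, page (4.3)-(4.5), from the Euler factors of the sums `HH T S`.
-/

set_option autoImplicit false

namespace Pool.Agent.Lib.MP_1a91b9_ntW

open Finset
open Pool.Agent.Lib.MP_1a91b9_ntQ (Rt)

noncomputable section

/-- the residue class -/
def rs (B : ValuationSubring ℂ) (z : ℂ) : ZMod 2 :=
  haveI := Classical.dec (Rt B z 1)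
  if Rt B z 1 then 1 else 0

theorem rs_spec {B : ValuationSubring ℂ} {z : ℂ} (h : ∃ y, Rt B z y) : Rt B z (rs B z) := by
  obtain ⟨y, hy⟩ := h
  unfold rs
  split_ifs with h1
  · exact h1
  · have key : ∀ y : ZMod 2, y ≠ 1 → y = 0 := by decide
    have h0 : y = 0 := key y fun h => h1 (h ▸ hy)
    rwa [h0] at hy

/-- The data of the sums `HH T S = ∑ (b / DD_T) xi (b / DD_S)` over the units modulo `DD_S`, and of the
sums `X i S` of `xi (lam ^ i b / DD_S)` over the `b` which are nonresidues modulo all `q` in `S`. -/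
structure RhD (ι : Type*) [DecidableEq ι] (B : ValuationSubring ℂ) where
  a : ι → ZMod 2
  r : ι → ZMod 2
  l : ι → ZMod 2
  s : ι → ι → ZMod 2
  HH : Finset ι → Finset ι → ℂ
  EU : Finset ι → ι → ℂ
  e0 : ι → ℂ
  b0 : ι → ℂ
  Nm : ι → ℂ
  X : ℕ → Finset ι → ℂ
  odd : ∀ T S, T ⊆ S → ∑ q ∈ T, a q = 1 → HH T S = 0
  step : ∀ T S q, T.Nonempty → T ⊆ S → q ∉ S → HH T (insert q S) = EU T q * HH T S
  eu : ∀ T q, T.Nonempty → q ∉ T → Rt B (EU T q / 2) (a q + ∑ t ∈ T, s t q)
  step0 : ∀ S q, S.Nonempty → q ∉ S →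
    HH ∅ (insert q S) = e0 q * HH ∅ S + b0 q * ∏ p ∈ S, (Nm p - 1)
  e0r : ∀ q, Rt B (e0 q / 2) (a q)
  b0r : ∀ q, a q = 1 → Rt B (b0 q) 1
  b0h : ∀ q, a q = 0 → B.valuation (b0 q / 2) ≤ 1
  Nmr : ∀ q, Rt B ((Nm q - 1) / 2) (a q)
  single : ∀ q, a q = 0 → Rt B (HH ∅ {q} / 2) (r q)
  sum : ∀ i S, X i S = (∑ T ∈ S.powerset, (-1) ^ T.card * (-1) ^ (i * (∑ q ∈ T, l q).val) * HH T S) /
    2 ^ S.card
  int : ∀ i S, B.valuation (X i S) ≤ 1
  half : ∀ S, S.Nonempty → (∀ q ∈ S, a q = 0) → B.valuation (X 0 S / 2) ≤ 1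

namespace RhD

variable {ι : Type*} [DecidableEq ι] {B : ValuationSubring ℂ} (D : RhD ι B)

/-- the symbol of `q` at `T` -/
def sT (T : Finset ι) (q : ι) : ZMod 2 := ∑ t ∈ T, D.s t q

/-- the class of `lam` at `T` -/
def lT (T : Finset ι) : ZMod 2 := ∑ t ∈ T, D.l t

/-- the normalised sum -/
def HS (T S : Finset ι) : ℂ := D.HH T S / 2 ^ S.card

theorem HS_insert {T S : Finset ι} {q : ι} (hT : T.Nonempty) (hTS : T ⊆ S) (hq : q ∉ S) :
    D.HS T (insert q S) = D.EU T q / 2 * D.HS T S := by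
  rw [HS, HS, D.step T S q hT hTS hq, card_insert_of_notMem hq, pow_succ]
  field_simp

/-- the Euler factors -/
theorem HS_prod {T S : Finset ι} (hT : T.Nonempty) (hTS : T ⊆ S) :
    D.HS T S = (∏ q ∈ S \ T, D.EU T q / 2) * D.HS T T := by
  have key : ∀ U : Finset ι, Disjoint T U →
      D.HS T (T ∪ U) = (∏ q ∈ U, D.EU T q / 2) * D.HS T T := by
    intro U
    induction U using Finset.induction_on with
    | empty =>
      intro _
      rw [union_empty, prod_empty, one_mul]
    | insert q U hq ih =>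
      intro hd
      rw [disjoint_insert_right] at hd
      have hqn : q ∉ T ∪ U := by
        rw [mem_union, not_or]
        exact ⟨hd.1, hq⟩
      rw [union_insert, D.HS_insert hT subset_union_left hqn, ih hd.2, prod_insert hq, mul_assoc]
  have h := key (S \ T) disjoint_sdiff
  rwa [union_sdiff_of_subset hTS] at h

theorem rt_eul (hB : (2 : ℂ)⁻¹ ∉ B) {T S : Finset ι} (hT : T.Nonempty) :
    Rt B (∏ q ∈ S \ T, D.EU T q / 2) (∏ q ∈ S \ T, (D.a q + D.sT T q)) :=
  Rt.prod hB _ fun q hq => D.eu T q hT (mem_sdiff.1 hq).2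

theorem rt_two_mul (hB : (2 : ℂ)⁻¹ ∉ B) {z : ℂ} (h : B.valuation z ≤ 1) : Rt B (2 * z) 0 := by
  refine Rt.of_lt ?_
  rw [map_mul]
  exact mul_lt_one_of_lt_of_le (Pool.Agent.Lib.MP_1a91b9_ntQ.two_lt hB) h

/-- the first values, all `a q = 0` -/
theorem rt_Z0 (hB : (2 : ℂ)⁻¹ ∉ B) {S : Finset ι} (hS : S.Nonempty) (ha : ∀ q ∈ S, D.a q = 0) :
    Rt B (D.HS ∅ S) (if S.card = 1 then ∑ q ∈ S, D.r q else 0) := by
  induction S using Finset.induction_on with
  | empty => exact absurd hS not_nonempty_empty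
  | insert q S hq ih =>
    have haq := ha q (mem_insert_self q S)
    have ha' : ∀ p ∈ S, D.a p = 0 := fun p hp => ha p (mem_insert_of_mem hp)
    rcases S.eq_empty_or_nonempty with rfl | hS'
    · have e : (insert q (∅ : Finset ι)) = {q} := rfl
      rw [e, card_singleton, if_pos rfl, sum_singleton, HS, card_singleton, pow_one]
      exact D.single q haq
    · have h1 := ih hS' ha'
      rw [card_insert_of_notMem hq, if_neg (by have := hS'.card_pos; omega)]
      have e : D.HS ∅ (insert q S) = D.e0 q / 2 * D.HS ∅ S +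
          D.b0 q / 2 * ∏ p ∈ S, (D.Nm p - 1) / 2 := by
        rw [HS, HS, D.step0 S q hS' hq, card_insert_of_notMem hq, pow_succ, prod_div_distrib,
          prod_const]
        field_simp
      rw [e]
      have h2 := (D.e0r q).mul hB h1
      rw [haq, zero_mul] at h2
      have h3 := Rt.prod hB S fun p _ => D.Nmr p
      obtain ⟨p, hp⟩ := hS'
      rw [prod_eq_zero hp (ha' p hp)] at h3
      have h4 : Rt B (D.b0 q / 2 * ∏ p ∈ S, (D.Nm p - 1) / 2) 0 := by
        refine Rt.of_lt ?_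
        rw [map_mul]
        exact (mul_le_of_le_one_left' (D.b0h q haq)).trans_lt h3.lt
      have h5 := h2.add hB h4
      rwa [add_zero] at h5

/-- one prime with `a = 1` -/
theorem rt_Z1 (hB : (2 : ℂ)⁻¹ ∉ B) {S : Finset ι} {q : ι} (hq : q ∉ S) (haq : D.a q = 1)
    (ha : ∀ p ∈ S, D.a p = 0) : Rt B (2 * D.HS ∅ (insert q S)) 0 := by
  rcases S.eq_empty_or_nonempty with rfl | hS
  · have h1 := D.sum 0 {q}
    have h2 : D.HH {q} {q} = 0 := D.odd {q} {q} (Finset.Subset.refl _) (by rw [sum_singleton, haq])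
    have e : ({q} : Finset ι).powerset = {∅, {q}} := by
      rw [← insert_empty_eq, powerset_insert, powerset_empty, image_singleton]
      rfl
    have hne : (∅ : Finset ι) ≠ {q} := (singleton_ne_empty q).symm
    rw [e, sum_pair hne, h2] at h1
    have e1 : 2 * D.HS ∅ (insert q ∅) = 2 * D.X 0 {q} := by
      have e2 : (insert q (∅ : Finset ι)) = {q} := rfl
      rw [h1, e2, HS]
      simp
    rw [e1]
    exact rt_two_mul hB (D.int 0 {q})
  · have h1 := D.rt_Z0 hB hS ha
    have e : 2 * D.HS ∅ (insert q S) = D.e0 q / 2 * (2 * D.HS ∅ S) +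
        D.b0 q * ∏ p ∈ S, (D.Nm p - 1) / 2 := by
      rw [HS, HS, D.step0 S q hS hq, card_insert_of_notMem hq, pow_succ, prod_div_distrib,
        prod_const]
      field_simp
    rw [e]
    have h2 := (D.e0r q).mul hB (rt_two_mul hB h1.le)
    rw [mul_zero] at h2
    have h3 := Rt.prod hB S fun p _ => D.Nmr p
    obtain ⟨p, hp⟩ := hS
    rw [prod_eq_zero hp (ha p hp)] at h3
    have h4 := (D.b0r q haq).mul hB h3
    rw [mul_zero] at h4
    have h5 := h2.add hB h4
    rwa [add_zero] at h5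

/-- two primes with `a = 1` -/
theorem rt_Z2 (hB : (2 : ℂ)⁻¹ ∉ B) {S : Finset ι} {q p : ι} (hpq : q ≠ p) (hq : q ∉ S) (hp : p ∉ S)
    (haq : D.a q = 1) (hap : D.a p = 1) (ha : ∀ p ∈ S, D.a p = 0) :
    Rt B (2 * D.HS ∅ (insert q (insert p S))) (if S = ∅ then 1 else 0) := by
  have hS : (insert p S).Nonempty := insert_nonempty p S
  have hqS : q ∉ insert p S := by
    rw [mem_insert, not_or]
    exact ⟨hpq, hq⟩
  have h1 := D.rt_Z1 hB hp hap ha
  have e : 2 * D.HS ∅ (insert q (insert p S)) = D.e0 q / 2 * (2 * D.HS ∅ (insert p S)) +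
      D.b0 q * ∏ p ∈ insert p S, (D.Nm p - 1) / 2 := by
    rw [HS, HS, D.step0 _ q hS hqS, card_insert_of_notMem hqS, pow_succ, prod_div_distrib,
      prod_const]
    field_simp
  rw [e]
  have h2 := (D.e0r q).mul hB h1
  rw [mul_zero] at h2
  have h3 := Rt.prod hB (insert p S) fun p _ => D.Nmr p
  have h4 : ∏ p ∈ insert p S, D.a p = if S = ∅ then 1 else 0 := by
    rw [prod_insert hp, hap, one_mul]
    split_ifs with h0
    · rw [h0, prod_empty]
    · obtain ⟨t, ht⟩ := nonempty_iff_ne_empty.2 h0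
      exact prod_eq_zero ht (ha t ht)
  rw [h4] at h3
  have h5 := (D.b0r q haq).mul hB h3
  rw [one_mul] at h5
  have h6 := h2.add hB h5
  rwa [zero_add] at h6

/-- the sums over the nonresidues -/
theorem X_zero (S : Finset ι) : D.X 0 S = ∑ T ∈ S.powerset, (-1) ^ T.card * D.HS T S := by
  rw [D.sum 0 S, sum_div]
  refine sum_congr rfl fun T _ => ?_
  rw [zero_mul, pow_zero, mul_one, HS, mul_div_assoc]

theorem X_one_two (S : Finset ι) : (D.X 1 S + D.X 2 S) / 2 =
    ∑ T ∈ S.powerset, (-1) ^ T.card * ((1 - (D.lT T).val) * D.HS T S) := by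
  rw [D.sum 1 S, D.sum 2 S, ← add_div, div_div, ← sum_add_distrib, sum_div]
  refine sum_congr rfl fun T _ => ?_
  have e : (∑ q ∈ T, D.l q).val = (D.lT T).val := rfl
  rw [e, HS]
  have h : (D.lT T).val = 0 ∨ (D.lT T).val = 1 := by
    have := ZMod.val_lt (D.lT T)
    omega
  rcases h with h | h
  · rw [h]
    push_cast
    ring
  · rw [h]
    push_cast
    ring

theorem rt_neg_pow (hB : (2 : ℂ)⁻¹ ∉ B) (n : ℕ) : Rt B ((-1 : ℂ) ^ n) 1 := by
  have h1 : Rt B (-1 : ℂ) 1 := Rt.one.neg hB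
  have h2 := h1.pow hB n
  rwa [one_pow] at h2

theorem rt_one_sub (hB : (2 : ℂ)⁻¹ ∉ B) (y : ZMod 2) : Rt B (1 - (y.val : ℂ)) (1 + y) := by
  have h := Rt.one.sub hB (Rt.natCast hB y.val)
  rw [ZMod.natCast_zmod_val] at h
  have e : (1 : ZMod 2) + y = 1 - y := by
    rw [sub_eq_add_neg, ZMod.neg_eq_self_mod_two]
  rw [e]
  exact h

/-! ### No prime with `a = 1` -/

/-- the classes `kap` -/
def kap (T : Finset ι) : ZMod 2 := rs B (D.HS T T)

/-- the class of `HS T S` -/
def v0 (T S : Finset ι) : ZMod 2 :=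
  if T = ∅ then (if S.card = 1 then ∑ q ∈ S, D.r q else 0) else D.kap T * ∏ q ∈ S \ T, D.sT T q

theorem prod_a0 {T S : Finset ι} (ha : ∀ q ∈ S, D.a q = 0) :
    ∏ q ∈ S \ T, (D.a q + D.sT T q) = ∏ q ∈ S \ T, D.sT T q :=
  prod_congr rfl fun q hq => by rw [ha q (mem_sdiff.1 hq).1, zero_add]

theorem rt_kap (hB : (2 : ℂ)⁻¹ ∉ B) {S : Finset ι} (hS : S.Nonempty) (ha : ∀ q ∈ S, D.a q = 0) :
    Rt B (D.HS S S) (D.kap S) := by
  induction S using Finset.strongInduction with
  | H S ih =>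
    refine rs_spec ?_
    have hX : Rt B (D.X 0 S) 0 := by
      have h1 := rt_two_mul hB (D.half S hS ha)
      have e : 2 * (D.X 0 S / 2) = D.X 0 S := by ring
      rwa [e] at h1
    rw [X_zero, ← insert_erase (mem_powerset_self S), sum_insert (notMem_erase _ _)] at hX
    have h2 : Rt B (∑ T ∈ S.powerset.erase S, (-1) ^ T.card * D.HS T S)
        (∑ T ∈ S.powerset.erase S, 1 * D.v0 T S) := by
      refine Rt.sum hB _ fun T hT => (rt_neg_pow hB _).mul hB ?_
      obtain ⟨h3, h4⟩ := mem_erase.1 hT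
      have hTS := mem_powerset.1 h4
      unfold v0
      split_ifs with h5 h6
      · rw [h5]
        have h7 := D.rt_Z0 hB hS ha
        rwa [if_pos h6] at h7
      · rw [h5]
        have h7 := D.rt_Z0 hB hS ha
        rwa [if_neg h6] at h7
      · have hTn := nonempty_iff_ne_empty.2 h5
        have h7 := ih T (ssubset_of_subset_of_ne hTS h3) hTn fun q hq => ha q (hTS hq)
        have h8 := (D.rt_eul hB (S := S) hTn).mul hB h7
        rw [← D.HS_prod hTn hTS, D.prod_a0 ha, mul_comm] at h8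
        exact h8
    have h3 := hX.sub hB h2
    rw [add_sub_cancel_right] at h3
    have h4 := (rt_neg_pow hB S.card).mul hB h3
    have e : (-1 : ℂ) ^ S.card * ((-1) ^ S.card * D.HS S S) = D.HS S S := by
      rw [← mul_assoc, ← mul_pow]
      norm_num
    rw [e] at h4
    exact ⟨_, h4⟩

theorem rt_v0 (hB : (2 : ℂ)⁻¹ ∉ B) {T S : Finset ι} (hS : S.Nonempty) (ha : ∀ q ∈ S, D.a q = 0)
    (hTS : T ⊆ S) : Rt B (D.HS T S) (D.v0 T S) := by
  unfold v0
  by_cases h5 : T = ∅
  · rw [if_pos h5, h5]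
    exact D.rt_Z0 hB hS ha
  · rw [if_neg h5]
    have hTn := nonempty_iff_ne_empty.2 h5
    have h7 := D.rt_kap hB hTn fun q hq => ha q (hTS hq)
    have h8 := (D.rt_eul hB (S := S) hTn).mul hB h7
    rw [← D.HS_prod hTn hTS, D.prod_a0 ha, mul_comm] at h8
    exact h8

theorem sum_v0 (hB : (2 : ℂ)⁻¹ ∉ B) {S : Finset ι} (hS : S.Nonempty) (ha : ∀ q ∈ S, D.a q = 0) :
    ∑ T ∈ S.powerset, D.v0 T S = 0 := by
  have hX : Rt B (D.X 0 S) 0 := by
    have h1 := rt_two_mul hB (D.half S hS ha)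
    have e : 2 * (D.X 0 S / 2) = D.X 0 S := by ring
    rwa [e] at h1
  have h2 : Rt B (D.X 0 S) (∑ T ∈ S.powerset, 1 * D.v0 T S) := by
    rw [X_zero]
    exact Rt.sum hB _ fun T hT => (rt_neg_pow hB _).mul hB (D.rt_v0 hB hS ha (mem_powerset.1 hT))
  have h3 := h2.unique hX
  rw [← h3]
  exact sum_congr rfl fun T _ => (one_mul _).symm

/-- **the recursion of the classes `kap`** -/
theorem kap_rec (hB : (2 : ℂ)⁻¹ ∉ B) {S : Finset ι} (hS : S.Nonempty) (ha : ∀ q ∈ S, D.a q = 0) :
    ∑ T ∈ S.powerset.erase ∅, D.kap T * ∏ q ∈ S \ T, D.sT T q =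
      if S.card = 1 then ∑ q ∈ S, D.r q else 0 := by
  have h1 := D.sum_v0 hB hS ha
  rw [← insert_erase (empty_mem_powerset S), sum_insert (notMem_erase _ _)] at h1
  have h2 : D.v0 ∅ S = if S.card = 1 then ∑ q ∈ S, D.r q else 0 := if_pos rfl
  have h3 : ∑ T ∈ S.powerset.erase ∅, D.v0 T S =
      ∑ T ∈ S.powerset.erase ∅, D.kap T * ∏ q ∈ S \ T, D.sT T q :=
    sum_congr rfl fun T hT => if_neg (mem_erase.1 hT).1
  rw [h2, h3] at h1
  have key : ∀ x y : ZMod 2, x + y = 0 → y = x := by decide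
  exact key _ _ h1

/-- **the right side**, no prime with `a = 1` -/
theorem rho_zero (hB : (2 : ℂ)⁻¹ ∉ B) {S : Finset ι} (hS : S.Nonempty) (ha : ∀ q ∈ S, D.a q = 0) :
    Rt B ((D.X 1 S + D.X 2 S) / 2)
      (∑ T ∈ S.powerset, D.lT T * (D.kap T * ∏ q ∈ S \ T, D.sT T q)) := by
  have h1 : Rt B ((D.X 1 S + D.X 2 S) / 2)
      (∑ T ∈ S.powerset, 1 * ((1 + D.lT T) * D.v0 T S)) := by
    rw [X_one_two]
    exact Rt.sum hB _ fun T hT => (rt_neg_pow hB _).mul hB ((rt_one_sub hB _).mul hB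
      (D.rt_v0 hB hS ha (mem_powerset.1 hT)))
  have h2 : ∑ T ∈ S.powerset, 1 * ((1 + D.lT T) * D.v0 T S) =
      ∑ T ∈ S.powerset, D.v0 T S + ∑ T ∈ S.powerset, D.lT T * D.v0 T S := by
    rw [← sum_add_distrib]
    exact sum_congr rfl fun T _ => by ring
  rw [h2, D.sum_v0 hB hS ha, zero_add] at h1
  have h3 : ∑ T ∈ S.powerset, D.lT T * D.v0 T S =
      ∑ T ∈ S.powerset, D.lT T * (D.kap T * ∏ q ∈ S \ T, D.sT T q) := by
    refine sum_congr rfl fun T _ => ?_
    unfold v0
    by_cases h0 : T = ∅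
    · have h4 : D.lT T = 0 := by
        rw [h0]
        exact sum_empty
      rw [h4, zero_mul, zero_mul]
    · rw [if_neg h0]
  rwa [h3] at h1

/-! ### One prime with `a = 1` -/

/-- the terms without the prime -/
theorem rt_two_HS (hB : (2 : ℂ)⁻¹ ∉ B) {T S : Finset ι} (hT : T.Nonempty) (hTS : T ⊆ S)
    (ha : ∀ q ∈ T, D.a q = 0) : Rt B (2 * D.HS T S) 0 := by
  refine rt_two_mul hB ?_
  rw [D.HS_prod hT hTS, map_mul]
  exact mul_le_one' (D.rt_eul hB hT).le (D.rt_kap hB hT ha).le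

theorem rho_one_aux (hB : (2 : ℂ)⁻¹ ∉ B) {S : Finset ι} {q : ι} (hq : q ∉ S) (haq : D.a q = 1)
    (ha : ∀ p ∈ S, D.a p = 0) : Rt B (D.X 1 (insert q S) + D.X 2 (insert q S)) 0 := by
  have e : D.X 1 (insert q S) + D.X 2 (insert q S) = 2 * ((D.X 1 (insert q S) +
      D.X 2 (insert q S)) / 2) := by ring
  have h1 : Rt B (D.X 1 (insert q S) + D.X 2 (insert q S))
      (∑ T ∈ (insert q S).powerset, 1 * ((1 + D.lT T) * 0)) := by
    rw [e, X_one_two, mul_sum]
    refine Rt.sum hB _ fun T hT => ?_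
    have e2 : 2 * ((-1) ^ T.card * ((1 - ((D.lT T).val : ℂ)) * D.HS T (insert q S))) =
        (-1) ^ T.card * ((1 - ((D.lT T).val : ℂ)) * (2 * D.HS T (insert q S))) := by ring
    rw [e2]
    refine (rt_neg_pow hB _).mul hB ((rt_one_sub hB _).mul hB ?_)
    have hTS := mem_powerset.1 hT
    by_cases hqT : q ∈ T
    · have h2 : D.HH T (insert q S) = 0 := by
        refine D.odd _ _ hTS ?_
        rw [← insert_erase hqT, sum_insert (notMem_erase _ _), haq, sum_eq_zero, add_zero]
        intro p hp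
        obtain ⟨h3, h4⟩ := mem_erase.1 hp
        exact ha p ((mem_insert.1 (hTS h4)).resolve_left h3)
      rw [HS, h2, zero_div, mul_zero]
      exact Rt.zero
    · have hT' : ∀ p ∈ T, D.a p = 0 := fun p hp =>
        ha p ((mem_insert.1 (hTS hp)).resolve_left fun h => hqT (h ▸ hp))
      rcases T.eq_empty_or_nonempty with h0 | hTn
      · rw [h0]
        exact D.rt_Z1 hB hq haq ha
      · exact D.rt_two_HS hB hTn hTS hT'
  simpa using h1

/-- **the right side**, one prime with `a = 1` -/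
theorem rho_one (hB : (2 : ℂ)⁻¹ ∉ B) {S : Finset ι} {q : ι} (hq : q ∉ S) (haq : D.a q = 1)
    (ha : ∀ p ∈ S, D.a p = 0) :
    Rt B (∏ p ∈ insert q S, (D.Nm p - 1) / 2 + (D.X 1 (insert q S) + D.X 2 (insert q S)))
      (if S = ∅ then 1 else 0) := by
  have h1 := Rt.prod hB (insert q S) fun p _ => D.Nmr p
  have h2 : ∏ p ∈ insert q S, D.a p = if S = ∅ then 1 else 0 := by
    rw [prod_insert hq, haq, one_mul]
    split_ifs with h0
    · rw [h0, prod_empty]
    · obtain ⟨t, ht⟩ := nonempty_iff_ne_empty.2 h0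
      exact prod_eq_zero ht (ha t ht)
  rw [h2] at h1
  have h3 := h1.add hB (D.rho_one_aux hB hq haq ha)
  rwa [add_zero] at h3

/-! ### Two primes with `a = 1` -/

/-- the classes `mu` -/
def mu (T : Finset ι) : ZMod 2 := rs B (2 * D.HS T T)

/-- the class of `2 HS T (q p S)` -/
def v2 (q p : ι) (T S : Finset ι) : ZMod 2 :=
  if T = ∅ then (if S = ∅ then 1 else 0) else
    if q ∈ T ∧ p ∈ T then D.mu T * ∏ t ∈ insert q (insert p S) \ T, D.sT T t else 0

theorem prod_a2 {q p : ι} {T S : Finset ι} (hq : q ∈ T) (hp : p ∈ T) (ha : ∀ q ∈ S, D.a q = 0) :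
    ∏ t ∈ insert q (insert p S) \ T, (D.a t + D.sT T t) =
      ∏ t ∈ insert q (insert p S) \ T, D.sT T t := by
  refine prod_congr rfl fun t ht => ?_
  obtain ⟨h1, h2⟩ := mem_sdiff.1 ht
  have h3 : t ∈ S := by
    rcases mem_insert.1 h1 with h | h
    · exact absurd (h ▸ hq) h2
    · rcases mem_insert.1 h with h | h
      · exact absurd (h ▸ hp) h2
      · exact h
  rw [ha t h3, zero_add]

/-- the terms which are not `mu` -/
theorem rt_v2_of (hB : (2 : ℂ)⁻¹ ∉ B) {S : Finset ι} {q p : ι} (hpq : q ≠ p) (hq : q ∉ S)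
    (hp : p ∉ S) (haq : D.a q = 1) (hap : D.a p = 1) (ha : ∀ p ∈ S, D.a p = 0) {T : Finset ι}
    (hTS : T ⊆ insert q (insert p S)) (h : q ∈ T ∧ p ∈ T → Rt B (2 * D.HS T T) (D.mu T)) :
    Rt B (2 * D.HS T (insert q (insert p S))) (D.v2 q p T S) := by
  unfold v2
  by_cases h0 : T = ∅
  · rw [if_pos h0, h0]
    exact D.rt_Z2 hB hpq hq hp haq hap ha
  · rw [if_neg h0]
    have hTn := nonempty_iff_ne_empty.2 h0
    by_cases h1 : q ∈ T ∧ p ∈ T
    · rw [if_pos h1]
      have h8 := (D.rt_eul hB (S := insert q (insert p S)) hTn).mul hB (h h1)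
      rw [D.prod_a2 h1.1 h1.2 ha, mul_comm (D.mu T)] at *
      have e : 2 * D.HS T (insert q (insert p S)) =
          (∏ t ∈ insert q (insert p S) \ T, D.EU T t / 2) * (2 * D.HS T T) := by
        rw [D.HS_prod hTn hTS]
        ring
      rw [e]
      exact h8
    · rw [if_neg h1]
      by_cases hqT : q ∈ T
      · have hpT : p ∉ T := fun h => h1 ⟨hqT, h⟩
        have h2 : D.HH T (insert q (insert p S)) = 0 := by
          refine D.odd _ _ hTS ?_
          rw [← insert_erase hqT, sum_insert (notMem_erase _ _), haq, sum_eq_zero, add_zero]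
          intro t ht
          obtain ⟨h3, h4⟩ := mem_erase.1 ht
          have h5 := (mem_insert.1 (hTS h4)).resolve_left h3
          exact ha t ((mem_insert.1 h5).resolve_left fun h => hpT (h ▸ h4))
        rw [HS, h2, zero_div, mul_zero]
        exact Rt.zero
      · by_cases hpT : p ∈ T
        · have h2 : D.HH T (insert q (insert p S)) = 0 := by
            refine D.odd _ _ hTS ?_
            rw [← insert_erase hpT, sum_insert (notMem_erase _ _), hap, sum_eq_zero, add_zero]
            intro t ht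
            obtain ⟨h3, h4⟩ := mem_erase.1 ht
            have h5 := (mem_insert.1 (hTS h4)).resolve_left fun h => hqT (h ▸ h4)
            exact ha t ((mem_insert.1 h5).resolve_left h3)
          rw [HS, h2, zero_div, mul_zero]
          exact Rt.zero
        · refine D.rt_two_HS hB hTn hTS fun t ht => ?_
          have h5 := (mem_insert.1 (hTS ht)).resolve_left fun h => hqT (h ▸ ht)
          exact ha t ((mem_insert.1 h5).resolve_left fun h => hpT (h ▸ ht))

theorem rt_mu (hB : (2 : ℂ)⁻¹ ∉ B) {q p : ι} (hpq : q ≠ p) (haq : D.a q = 1) (hap : D.a p = 1)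
    (S : Finset ι) (hq : q ∉ S) (hp : p ∉ S) (ha : ∀ p ∈ S, D.a p = 0) :
    Rt B (2 * D.HS (insert q (insert p S)) (insert q (insert p S)))
      (D.mu (insert q (insert p S))) := by
  induction S using Finset.strongInduction with
  | H S ih =>
    refine rs_spec ?_
    have hX := rt_two_mul hB (D.int 0 (insert q (insert p S)))
    rw [X_zero, ← insert_erase (mem_powerset_self (insert q (insert p S))),
      sum_insert (notMem_erase _ _), mul_add, mul_sum] at hX
    have h2 : Rt B (∑ T ∈ (insert q (insert p S)).powerset.erase (insert q (insert p S)),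
        2 * ((-1) ^ T.card * D.HS T (insert q (insert p S))))
        (∑ T ∈ (insert q (insert p S)).powerset.erase (insert q (insert p S)),
          1 * D.v2 q p T S) := by
      refine Rt.sum hB _ fun T hT => ?_
      obtain ⟨h3, h4⟩ := mem_erase.1 hT
      have hTS := mem_powerset.1 h4
      have e : 2 * ((-1) ^ T.card * D.HS T (insert q (insert p S))) =
          (-1) ^ T.card * (2 * D.HS T (insert q (insert p S))) := by ring
      rw [e]
      refine (rt_neg_pow hB _).mul hB (D.rt_v2_of hB hpq hq hp haq hap ha hTS fun h5 => ?_)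
      -- `T = insert q (insert p (T \ {q, p}))`
      obtain ⟨U, hU⟩ : ∃ U : Finset ι, U = (T.erase q).erase p := ⟨_, rfl⟩
      have hpe : p ∈ T.erase q := mem_erase.2 ⟨hpq.symm, h5.2⟩
      have e1 : insert q (insert p U) = T := by
        rw [hU, insert_erase hpe, insert_erase h5.1]
      have hqU : q ∉ U := fun h => by
        rw [hU] at h
        exact notMem_erase q T (mem_of_mem_erase h)
      have hpU : p ∉ U := by
        rw [hU]
        exact notMem_erase _ _
      have hUS : U ⊆ S := fun t ht => by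
        have h6 : t ≠ q := fun h => hqU (h ▸ ht)
        have h7 : t ≠ p := fun h => hpU (h ▸ ht)
        have h8 : t ∈ T := by
          rw [← e1]
          exact mem_insert_of_mem (mem_insert_of_mem ht)
        exact (mem_insert.1 ((mem_insert.1 (hTS h8)).resolve_left h6)).resolve_left h7
      have hne : U ≠ S := fun h => h3 (by rw [← e1, h])
      have h9 := ih U (ssubset_of_subset_of_ne hUS hne) hqU hpU fun t ht => ha t (hUS ht)
      rwa [e1] at h9
    have h3 := hX.sub hB h2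
    rw [add_sub_cancel_right] at h3
    have h4 := (rt_neg_pow hB (insert q (insert p S)).card).mul hB h3
    have e : (-1 : ℂ) ^ (insert q (insert p S)).card * (2 * ((-1) ^ (insert q (insert p S)).card *
        D.HS (insert q (insert p S)) (insert q (insert p S)))) =
        2 * D.HS (insert q (insert p S)) (insert q (insert p S)) := by
      have e1 : (-1 : ℂ) ^ (insert q (insert p S)).card * (-1) ^ (insert q (insert p S)).card = 1 := by
        rw [← mul_pow]
        norm_num
      linear_combination (2 * D.HS (insert q (insert p S)) (insert q (insert p S))) * e1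
    rw [e] at h4
    exact ⟨_, h4⟩

theorem rt_v2 (hB : (2 : ℂ)⁻¹ ∉ B) {S : Finset ι} {q p : ι} (hpq : q ≠ p) (hq : q ∉ S)
    (hp : p ∉ S) (haq : D.a q = 1) (hap : D.a p = 1) (ha : ∀ p ∈ S, D.a p = 0) {T : Finset ι}
    (hTS : T ⊆ insert q (insert p S)) :
    Rt B (2 * D.HS T (insert q (insert p S))) (D.v2 q p T S) := by
  refine D.rt_v2_of hB hpq hq hp haq hap ha hTS fun h5 => ?_
  obtain ⟨U, hU⟩ : ∃ U : Finset ι, U = (T.erase q).erase p := ⟨_, rfl⟩
  have hpe : p ∈ T.erase q := mem_erase.2 ⟨hpq.symm, h5.2⟩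
  have e1 : insert q (insert p U) = T := by
    rw [hU, insert_erase hpe, insert_erase h5.1]
  have hqU : q ∉ U := fun h => by
    rw [hU] at h
    exact notMem_erase q T (mem_of_mem_erase h)
  have hpU : p ∉ U := by
    rw [hU]
    exact notMem_erase _ _
  have hUS : U ⊆ S := fun t ht => by
    have h6 : t ≠ q := fun h => hqU (h ▸ ht)
    have h7 : t ≠ p := fun h => hpU (h ▸ ht)
    have h8 : t ∈ T := by
      rw [← e1]
      exact mem_insert_of_mem (mem_insert_of_mem ht)
    exact (mem_insert.1 ((mem_insert.1 (hTS h8)).resolve_left h6)).resolve_left h7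
  have h9 := D.rt_mu hB hpq haq hap U hqU hpU fun t ht => ha t (hUS ht)
  rwa [e1] at h9

theorem sum_v2 (hB : (2 : ℂ)⁻¹ ∉ B) {S : Finset ι} {q p : ι} (hpq : q ≠ p) (hq : q ∉ S)
    (hp : p ∉ S) (haq : D.a q = 1) (hap : D.a p = 1) (ha : ∀ p ∈ S, D.a p = 0) :
    ∑ T ∈ (insert q (insert p S)).powerset, D.v2 q p T S = 0 := by
  have hX := rt_two_mul hB (D.int 0 (insert q (insert p S)))
  have h2 : Rt B (2 * D.X 0 (insert q (insert p S)))
      (∑ T ∈ (insert q (insert p S)).powerset, 1 * D.v2 q p T S) := by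
    rw [X_zero, mul_sum]
    refine Rt.sum hB _ fun T hT => ?_
    have e : 2 * ((-1) ^ T.card * D.HS T (insert q (insert p S))) =
        (-1) ^ T.card * (2 * D.HS T (insert q (insert p S))) := by ring
    rw [e]
    exact (rt_neg_pow hB _).mul hB (D.rt_v2 hB hpq hq hp haq hap ha (mem_powerset.1 hT))
  have h3 := h2.unique hX
  rw [← h3]
  exact sum_congr rfl fun T _ => (one_mul _).symm

/-- the sets which contain `q` and `p` -/
theorem sum_qp {q p : ι} {S : Finset ι} (hpq : q ≠ p) (hq : q ∉ S) (hp : p ∉ S)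
    (f : Finset ι → ZMod 2) :
    ∑ T ∈ (insert q (insert p S)).powerset, (if q ∈ T ∧ p ∈ T then f T else 0) =
      ∑ U ∈ S.powerset, f (insert q (insert p U)) := by
  rw [← sum_filter]
  symm
  refine sum_bij (fun U _ => insert q (insert p U)) ?_ ?_ ?_ fun _ _ => rfl
  · intro U hU
    refine mem_filter.2 ⟨mem_powerset.2 ?_, mem_insert_self _ _,
      mem_insert_of_mem (mem_insert_self _ _)⟩
    exact insert_subset_insert _ (insert_subset_insert _ (mem_powerset.1 hU))
  · intro U hU V hV h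
    have hU' := mem_powerset.1 hU
    have hV' := mem_powerset.1 hV
    have key : ∀ U : Finset ι, U ⊆ S → ((insert q (insert p U)).erase q).erase p = U := by
      intro U hU
      have h1 : q ∉ insert p U := by
        rw [mem_insert, not_or]
        exact ⟨hpq, fun h => hq (hU h)⟩
      rw [erase_insert h1, erase_insert fun h => hp (hU h)]
    rw [← key U hU', ← key V hV', h]
  · intro T hT
    obtain ⟨h1, h5⟩ := mem_filter.1 hT
    have hTS := mem_powerset.1 h1
    have hpe : p ∈ T.erase q := mem_erase.2 ⟨hpq.symm, h5.2⟩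
    refine ⟨(T.erase q).erase p, mem_powerset.2 fun t ht => ?_, ?_⟩
    · have h6 : t ≠ p := (mem_erase.1 ht).1
      have h7 : t ≠ q := (mem_erase.1 (mem_erase.1 ht).2).1
      have h8 : t ∈ T := (mem_erase.1 (mem_erase.1 ht).2).2
      exact (mem_insert.1 ((mem_insert.1 (hTS h8)).resolve_left h7)).resolve_left h6
    · rw [insert_erase hpe, insert_erase h5.1]

theorem sdiff_qp {q p : ι} {S U : Finset ι} (hq : q ∉ S) (hp : p ∉ S) :
    insert q (insert p S) \ insert q (insert p U) = S \ U := by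
  ext t
  simp only [mem_sdiff, mem_insert, not_or]
  constructor
  · rintro ⟨h1, h2, h3, h4⟩
    exact ⟨(h1.resolve_left h2).resolve_left h3, h4⟩
  · rintro ⟨h1, h2⟩
    exact ⟨Or.inr (Or.inr h1), fun h => hq (h ▸ h1), fun h => hp (h ▸ h1), h2⟩

theorem v2_eq (q p : ι) (T S : Finset ι) : D.v2 q p T S =
    (if T = ∅ then (if S = ∅ then 1 else 0) else 0) +
      if q ∈ T ∧ p ∈ T then D.mu T * ∏ t ∈ insert q (insert p S) \ T, D.sT T t else 0 := by
  unfold v2
  by_cases h0 : T = ∅
  · have h1 : ¬ (q ∈ T ∧ p ∈ T) := by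
      rw [h0]
      exact fun h => absurd h.1 (notMem_empty q)
    rw [if_pos h0, if_pos h0, if_neg h1, add_zero]
  · rw [if_neg h0, if_neg h0, zero_add]

/-- **the recursion of the classes `mu`** -/
theorem mu_rec (hB : (2 : ℂ)⁻¹ ∉ B) {S : Finset ι} {q p : ι} (hpq : q ≠ p) (hq : q ∉ S)
    (hp : p ∉ S) (haq : D.a q = 1) (hap : D.a p = 1) (ha : ∀ p ∈ S, D.a p = 0) :
    ∑ U ∈ S.powerset, D.mu (insert q (insert p U)) *
      ∏ t ∈ S \ U, D.sT (insert q (insert p U)) t = if S = ∅ then 1 else 0 := by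
  have h1 := D.sum_v2 hB hpq hq hp haq hap ha
  rw [sum_congr rfl fun T _ => D.v2_eq q p T S, sum_add_distrib, sum_ite_eq',
    if_pos (empty_mem_powerset _), sum_qp hpq hq hp] at h1
  have key : ∀ x y : ZMod 2, x + y = 0 → y = x := by decide
  rw [← key _ _ h1]
  exact sum_congr rfl fun U _ => by rw [sdiff_qp hq hp]

/-- **the right side**, two primes with `a = 1` -/
theorem rho_two (hB : (2 : ℂ)⁻¹ ∉ B) {S : Finset ι} {q p : ι} (hpq : q ≠ p) (hq : q ∉ S)
    (hp : p ∉ S) (haq : D.a q = 1) (hap : D.a p = 1) (ha : ∀ p ∈ S, D.a p = 0) :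
    Rt B (D.X 1 (insert q (insert p S)) + D.X 2 (insert q (insert p S)))
      (∑ U ∈ S.powerset, D.lT (insert q (insert p U)) * (D.mu (insert q (insert p U)) *
        ∏ t ∈ S \ U, D.sT (insert q (insert p U)) t)) := by
  have e : D.X 1 (insert q (insert p S)) + D.X 2 (insert q (insert p S)) =
      2 * ((D.X 1 (insert q (insert p S)) + D.X 2 (insert q (insert p S))) / 2) := by ring
  have h1 : Rt B (D.X 1 (insert q (insert p S)) + D.X 2 (insert q (insert p S)))
      (∑ T ∈ (insert q (insert p S)).powerset, 1 * ((1 + D.lT T) * D.v2 q p T S)) := by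
    rw [e, X_one_two, mul_sum]
    refine Rt.sum hB _ fun T hT => ?_
    have e2 : 2 * ((-1) ^ T.card * ((1 - ((D.lT T).val : ℂ)) *
        D.HS T (insert q (insert p S)))) = (-1) ^ T.card * ((1 - ((D.lT T).val : ℂ)) *
        (2 * D.HS T (insert q (insert p S)))) := by ring
    rw [e2]
    exact (rt_neg_pow hB _).mul hB ((rt_one_sub hB _).mul hB
      (D.rt_v2 hB hpq hq hp haq hap ha (mem_powerset.1 hT)))
  have h2 : ∑ T ∈ (insert q (insert p S)).powerset, 1 * ((1 + D.lT T) * D.v2 q p T S) =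
      ∑ T ∈ (insert q (insert p S)).powerset, D.v2 q p T S +
        ∑ T ∈ (insert q (insert p S)).powerset,
          (if q ∈ T ∧ p ∈ T then D.lT T * (D.mu T *
            ∏ t ∈ insert q (insert p S) \ T, D.sT T t) else 0) := by
    rw [← sum_add_distrib]
    refine sum_congr rfl fun T _ => ?_
    have h3 : D.lT T * D.v2 q p T S = if q ∈ T ∧ p ∈ T then D.lT T * (D.mu T *
        ∏ t ∈ insert q (insert p S) \ T, D.sT T t) else 0 := by
      rw [v2_eq]
      by_cases h0 : T = ∅
      · have h4 : D.lT T = 0 := by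
          rw [h0]
          exact sum_empty
        rw [h4]
        simp
      · rw [if_neg h0, zero_add, mul_ite, mul_zero]
    rw [← h3]
    ring
  rw [h2, D.sum_v2 hB hpq hq hp haq hap ha, zero_add, sum_qp hpq hq hp] at h1
  have h4 : ∑ U ∈ S.powerset, D.lT (insert q (insert p U)) * (D.mu (insert q (insert p U)) *
      ∏ t ∈ insert q (insert p S) \ insert q (insert p U), D.sT (insert q (insert p U)) t) =
      ∑ U ∈ S.powerset, D.lT (insert q (insert p U)) * (D.mu (insert q (insert p U)) *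
        ∏ t ∈ S \ U, D.sT (insert q (insert p U)) t) :=
    sum_congr rfl fun U _ => by rw [sdiff_qp hq hp]
  rwa [h4] at h1

/-! ### More primes with `a = 1` -/

/-- **the right side**, many primes with `a = 1` -/
theorem rho_many {ℓ x : ℂ} (hl : B.valuation ℓ < 1) (hx : B.valuation x ≤ 1) {n : ℕ} (hn : n ≠ 0) :
    Rt B (ℓ ^ n * x) 0 := by
  refine Rt.of_lt ?_
  rw [map_mul, map_pow]
  exact mul_lt_one_of_lt_of_le (pow_lt_one₀ zero_le hl hn) hx

end RhD

end

end Pool.Agent.Lib.MP_1a91b9_ntW
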