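import Pool.Agent.Lib.MP_1a91b9_ntW.A.Dis8
import Pool.Agent.Lib.MP_1a91b9_ntW.A.RhoA

/-!
# Phase 6, part A, file Dist8: the sums `HH T S` and the sums over the nonresidues, page (4.2)

`D4 : RhD Pg B`, the input of `RhoA`.
-/

set_option autoImplicit false
set_option linter.unusedSectionVars false

namespace Pool.Agent.Lib.MP_1a91b9_ntW

open NumberField Finset Pool.Agent.Lib.MP_1a91b9_nuT Pool.Agent.Lib.MP_1a91b9_nuT.S3
  Pool.Agent.Lib.MP_1a91b9_nuT.Ell
open Pool.Agent.Lib.MP_1a91b9_ntQ (em em_add em_mul em_pow em_sub em_zero em_one em_ne Rt two_lt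
  em_neg em_intCast em_natCast em_inj em_prod v_int v_nat)

noncomputable section

/-! ### Divisibility -/

theorem Pg_ndvd_lam (q : Pg) : ¬ q.1 ∣ lam := fun h =>
  Pg_not_lam q (q.2.1.associated_of_dvd lam_prime h).symm.dvd

theorem Pg_ndvd_lam_pow (q : Pg) (n : ℕ) : ¬ q.1 ∣ lam ^ n := fun h =>
  Pg_ndvd_lam q (q.2.1.dvd_of_dvd_pow h)

theorem Pg_ndvd_two (q : Pg) : ¬ q.1 ∣ 2 := by
  rw [two_eq, dvd_neg]
  exact Pg_ndvd_lam_pow q 2

theorem dvd_DD {S : Finset Pg} {q : Pg} (h : q ∈ S) : q.1 ∣ DD S := Finset.dvd_prod_of_mem _ h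

theorem cop_DD {S : Finset Pg} {y : 𝓞 K8} : IsCoprime y (DD S) ↔ ∀ q ∈ S, ¬ q.1 ∣ y := by
  have hc : ∀ q : Pg, IsCoprime y q.1 ↔ ¬ q.1 ∣ y := fun q => by
    rw [isCoprime_comm]
    exact q.2.1.irreducible.coprime_iff_not_dvd
  rw [DD, IsCoprime.prod_right_iff]
  exact forall₂_congr fun q _ => hc q

/-- the points `b / DD S` -/
def zz (S : Finset Pg) (b : 𝓞 K8) : ℂ := em b / em (DD S)

theorem zz_neg (S : Finset Pg) (b : 𝓞 K8) : zz S (-b) = -zz S b := by
  rw [zz, zz, em_neg, neg_div]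

theorem zz_congr {S : Finset Pg} {x y : 𝓞 K8} (h : DD S ∣ x - y) :
    zz S x - zz S y ∈ PP.lattice := by
  rw [zz, zz, ← sub_div, ← em_sub]
  exact (div_mem_iff (DD_ne S)).2 h

theorem zz_lam (S : Finset Pg) (b : 𝓞 K8) (n : ℕ) : zz S (lam ^ n * b) = lm ^ n * zz S b := by
  rw [zz, zz, em_mul, em_pow, em_lam]
  ring

theorem od_zz {S : Finset Pg} (hS : S.Nonempty) {y : 𝓞 K8} (hq : ∀ q ∈ S, ¬ q.1 ∣ y) :
    Od (zz S y) := by
  have hD : em (DD S) ≠ 0 := em_ne (DD_ne S)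
  refine ⟨⟨DD S, DD_ne S, ?_⟩, fun m hm => ?_⟩
  · rw [zz, mul_div_cancel₀ _ hD]
    exact em_mem y
  · obtain ⟨q, hqS⟩ := hS
    rw [← zz_lam, zz, div_mem_iff (DD_ne S)] at hm
    rcases q.2.1.dvd_or_dvd ((dvd_DD hqS).trans hm) with h4 | h4
    · exact Pg_ndvd_lam_pow q m h4
    · exact hq q hqS h4

/-! ### The characters -/

/-- the quadratic symbol -/
def cqd (q : Pg) (b : 𝓞 K8) : ℂ := ((qc q b : ℤ) : ℂ)

theorem cqd_mul (q : Pg) (x y : 𝓞 K8) : cqd q (x * y) = cqd q x * cqd q y := by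
  rw [cqd, cqd, cqd, qc_mul]
  push_cast
  rfl

theorem cqd_per (q : Pg) : Pd q.1 (cqd q) := fun x y h => by rw [cqd, cqd, qc_congr q h]

theorem cqd_of_dvd {q : Pg} {x : 𝓞 K8} (h : q.1 ∣ x) : cqd q x = 0 := by
  rw [cqd, qc_of_dvd h, Int.cast_zero]

theorem cqd_or {q : Pg} {x : 𝓞 K8} (h : ¬ q.1 ∣ x) : cqd q x = 1 ∨ cqd q x = -1 := by
  rw [cqd]
  rcases qc_or h with h1 | h1
  · left
    rw [h1, Int.cast_one]
  · right
    rw [h1]
    push_cast
    rfl

theorem cqd_sq {q : Pg} {x : 𝓞 K8} (h : ¬ q.1 ∣ x) : cqd q x ^ 2 = 1 := by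
  rcases cqd_or h with h1 | h1 <;> rw [h1] <;> norm_num

/-- the factor of the prime `q` -/
def pw (T : Finset Pg) (q : Pg) (b : 𝓞 K8) : ℂ := if q ∈ T then cqd q b else cqd q b ^ 2

theorem pw_mul (T : Finset Pg) (q : Pg) (x y : 𝓞 K8) : pw T q (x * y) = pw T q x * pw T q y := by
  unfold pw
  split_ifs
  · exact cqd_mul q x y
  · rw [cqd_mul, mul_pow]

theorem pw_per (T : Finset Pg) (q : Pg) : Pd q.1 (pw T q) := fun x y h => by
  unfold pw
  rw [cqd_per q x y h]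

theorem pw_of_dvd (T : Finset Pg) {q : Pg} {x : 𝓞 K8} (h : q.1 ∣ x) : pw T q x = 0 := by
  unfold pw
  rw [cqd_of_dvd h]
  split_ifs
  · rfl
  · exact zero_pow two_ne_zero

theorem pw_sq (T : Finset Pg) {q : Pg} {x : 𝓞 K8} (h : ¬ q.1 ∣ x) : pw T q x ^ 2 = 1 := by
  unfold pw
  split_ifs
  · exact cqd_sq h
  · rw [cqd_sq h, one_pow]

/-- the character `(b / DD T)` on the units modulo `DD S` -/
def wT (T S : Finset Pg) (b : 𝓞 K8) : ℂ := ∏ q ∈ S, pw T q b

theorem wT_mul (T S : Finset Pg) (x y : 𝓞 K8) : wT T S (x * y) = wT T S x * wT T S y := by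
  rw [wT, wT, wT, ← Finset.prod_mul_distrib]
  exact Finset.prod_congr rfl fun q _ => pw_mul T q x y

theorem wT_per (T S : Finset Pg) : Pd (DD S) (wT T S) := fun x y h =>
  Finset.prod_congr rfl fun q hq => pw_per T q x y ((dvd_DD hq).trans h)

theorem wT_of_dvd (T : Finset Pg) {S : Finset Pg} {q : Pg} (hq : q ∈ S) {x : 𝓞 K8}
    (h : q.1 ∣ x) : wT T S x = 0 := Finset.prod_eq_zero hq (pw_of_dvd T h)

theorem wT_sq (T : Finset Pg) {S : Finset Pg} {x : 𝓞 K8} (h : ∀ q ∈ S, ¬ q.1 ∣ x) :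
    wT T S x ^ 2 = 1 := by
  rw [wT, ← Finset.prod_pow]
  exact Finset.prod_eq_one fun q hq => pw_sq T (h q hq)

theorem wT_insert (T : Finset Pg) {S : Finset Pg} {q : Pg} (hq : q ∉ S) (x : 𝓞 K8) :
    wT T (insert q S) x = pw T q x * wT T S x := by
  rw [wT, Finset.prod_insert hq, wT]

/-- the value at an element prime to `DD S` -/
theorem wT_val {T S : Finset Pg} (hT : T ⊆ S) {x : 𝓞 K8} (h : ∀ q ∈ S, ¬ q.1 ∣ x) :
    wT T S x = ∏ t ∈ T, cqd t x := by
  rw [wT]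
  have h1 : ∏ q ∈ S, pw T q x = ∏ q ∈ S, if q ∈ T then cqd q x else 1 := by
    refine Finset.prod_congr rfl fun q hq => ?_
    unfold pw
    rw [cqd_sq (h q hq)]
  rw [h1, Finset.prod_ite_mem, Finset.inter_eq_right.2 hT]

theorem wT_split {T S : Finset Pg} (hT : T ⊆ S) (x : 𝓞 K8) :
    wT T S x = (∏ t ∈ T, cqd t x) * ∏ q ∈ S \ T, cqd q x ^ 2 := by
  rw [wT, ← Finset.prod_sdiff hT, mul_comm]
  congr 1
  · exact Finset.prod_congr rfl fun q hq => if_pos hq
  · exact Finset.prod_congr rfl fun q hq => if_neg (Finset.mem_sdiff.1 hq).2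

/-! ### The sums of the characters -/

theorem DD_insert_cop {S : Finset Pg} {q : Pg} (hq : q ∉ S) : IsCoprime (DD S) q.1 := by
  rw [isCoprime_comm, cop_DD]
  intro p hp h
  exact hq (by rwa [← Pg_eq h])

theorem SM_cq (q : Pg) : SM q.1 (cqd q) = 0 := by
  obtain ⟨u, hu⟩ := exists_qc q
  have hnd : ¬ q.1 ∣ u := fun h => by
    rw [qc_of_dvd h] at hu
    norm_num at hu
  have hc : IsCoprime u q.1 := by
    rw [isCoprime_comm]
    exact q.2.1.irreducible.coprime_iff_not_dvd.2 hnd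
  have h1 := SM_mul q.2.1.ne_zero (cqd_per q) hc
  have h2 : SM q.1 (fun y => cqd q (u * y)) = (-1) * SM q.1 (cqd q) := by
    rw [← SM_cmul q.2.1.ne_zero]
    refine SM_congr fun y => ?_
    have h3 : cqd q u = -1 := by
      rw [cqd, hu]
      push_cast
      rfl
    rw [cqd_mul, h3]
  rw [h2] at h1
  linear_combination (-1 / 2 : ℂ) * h1

theorem SM_cq_sq (q : Pg) : SM q.1 (fun y => cqd q y ^ 2) = (Nz q.1 : ℂ) - 1 := by
  have hq0 := q.2.1.ne_zero
  have h1 := SM_sub (R := ℂ) hq0 (fun _ => 1) fun y => cqd q y ^ 2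
  have h2 : SM q.1 (fun y => 1 - cqd q y ^ 2) = 1 := by
    have h := SM_sup (R := ℂ) (ι := Unit) (a := fun _ => (0 : 𝓞 K8)) hq0
      (F := fun y => 1 - cqd q y ^ 2) (fun x y hxy => ?_) (fun x hx => ?_)
      (fun _ _ _ => rfl)
    · rw [h, Fintype.sum_unique, cqd_of_dvd (dvd_zero _)]
      norm_num
    · change 1 - cqd q x ^ 2 = 1 - cqd q y ^ 2
      rw [cqd_per q x y hxy]
    · refine ⟨(), ?_⟩
      rw [sub_zero]
      by_contra h
      apply hx
      change 1 - cqd q x ^ 2 = 0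
      rw [cqd_sq h, sub_self]
  rw [h2, SM_one hq0] at h1
  linear_combination h1

/-- the sum of the character -/
theorem SM_wT (T S : Finset Pg) :
    SM (DD S) (wT T S) = ∏ q ∈ S, if q ∈ T then 0 else ((Nz q.1 : ℂ) - 1) := by
  induction S using Finset.induction_on with
  | empty =>
    have h := SM_sup (R := ℂ) (ι := Unit) (a := fun _ => (0 : 𝓞 K8)) (DD_ne ∅)
      (F := wT T ∅) (wT_per T ∅) (fun x _ => ⟨(), by rw [DD_empty]; exact one_dvd _⟩)
      (fun _ _ _ => rfl)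
    rw [h, Fintype.sum_unique, wT, Finset.prod_empty, Finset.prod_empty]
  | insert q S hq ih =>
    have h1 : ∀ x, wT T (insert q S) x = pw T q x * wT T S x := wT_insert T hq
    rw [SM_congr h1, DD_insert hq, SM_prod (DD_ne S) q.2.1.ne_zero (DD_insert_cop hq)
      (pw_per T q) (wT_per T S), ih, Finset.prod_insert hq]
    congr 1
    split_ifs with h
    · rw [← SM_cq q]
      refine SM_congr fun y => ?_
      rw [pw, if_pos h]
    · rw [← SM_cq_sq q]
      refine SM_congr fun y => ?_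
      rw [pw, if_neg h]

/-! ### The sums `HH` -/

/-- the sums of `xi`, `S` not empty -/
def HX (T S : Finset Pg) : ℂ := SM (DD S) fun b => wT T S b * xi (zz S b)

theorem HX_per (T S : Finset Pg) : Pd (DD S) fun b => wT T S b * xi (zz S b) := fun x y h => by
  change wT T S x * xi (zz S x) = wT T S y * xi (zz S y)
  rw [wT_per T S x y h, xi_congr (zz_congr h)]

/-- **the Euler factor** -/
theorem HX_insert {T S : Finset Pg} {q : Pg} (hS : S.Nonempty) (hqT : q ∉ T) (hq : q ∉ S) :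
    HX T (insert q S) = (em q.1 ^ 2 - wT T S q.1) * HX T S +
      em q.1 * ((cp q.1).2 : ℂ) * r0 * SM (DD S) (wT T S) := by
  have hq0 := q.2.1.ne_zero
  have hD := DD_ne S
  have hqe := em_ne hq0
  have hDe := em_ne hD
  have hD2 : q.1 * DD S ≠ 0 := mul_ne_zero hq0 hD
  have hz : ∀ x, zz (insert q S) x = em x / (em q.1 * em (DD S)) := fun x => by
    rw [zz, DD_insert hq, em_mul]
  have hzc : ∀ {x y : 𝓞 K8}, q.1 * DD S ∣ x - y → xi (em x / (em q.1 * em (DD S))) =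
      xi (em y / (em q.1 * em (DD S))) := by
    intro x y h
    refine xi_congr ?_
    rw [← sub_div, ← em_sub, ← em_mul]
    exact (div_mem_iff hD2).2 h
  -- the two parts
  obtain ⟨G1, hG1⟩ : ∃ G1 : 𝓞 K8 → ℂ, G1 = fun b => wT T S b * xi (em b / (em q.1 * em (DD S))) :=
    ⟨_, rfl⟩
  obtain ⟨G2, hG2⟩ : ∃ G2 : 𝓞 K8 → ℂ, G2 = fun b => (1 - cqd q b ^ 2) * G1 b := ⟨_, rfl⟩
  have hP1 : Pd (q.1 * DD S) G1 := by
    intro x y h
    rw [hG1]
    change wT T S x * _ = wT T S y * _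
    rw [wT_per T S x y ((dvd_mul_left _ _).trans h), hzc h]
  have hP2 : Pd (q.1 * DD S) G2 := by
    intro x y h
    rw [hG2]
    change (1 - cqd q x ^ 2) * G1 x = (1 - cqd q y ^ 2) * G1 y
    rw [cqd_per q x y ((dvd_mul_right _ _).trans h), hP1 x y h]
  have h1 : ∀ b, wT T (insert q S) b * xi (zz (insert q S) b) = G1 b - G2 b := by
    intro b
    rw [wT_insert T hq, hz, hG2, hG1, pw, if_neg hqT]
    ring
  rw [HX, DD_insert hq, SM_congr h1, SM_sub hD2]
  have h2 : SM (q.1 * DD S) G1 = em q.1 ^ 2 * HX T S +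
      em q.1 * ((cp q.1).2 : ℂ) * r0 * SM (DD S) (wT T S) := by
    rw [SM_fib hD hq0 hP1, HX, ← SM_cmul hD, ← SM_cmul hD, ← SM_add hD]
    refine SM_congr fun b => ?_
    by_cases hb : ∀ p ∈ S, ¬ p.1 ∣ b
    · have h3 : ∀ u, G1 (b + DD S * u) = wT T S b * xi (zz S b / em q.1 + em u / em q.1) := by
        intro u
        rw [hG1]
        change wT T S (b + DD S * u) * xi (em (b + DD S * u) / (em q.1 * em (DD S))) = _
        rw [wT_per T S (b + DD S * u) b ⟨u, by ring⟩]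
        congr 2
        rw [em_add, em_mul, zz]
        field_simp
      have h4 : em q.1 * (zz S b / em q.1) = zz S b := mul_div_cancel₀ _ hqe
      have h5 := SM_xi hq0 (z := zz S b / em q.1) (by
        rw [h4]
        exact (od_zz hS hb).notMem)
      rw [h4] at h5
      rw [SM_congr h3, SM_cmul hq0, h5]
      ring
    · push Not at hb
      obtain ⟨p, hp, hpb⟩ := hb
      have h3 : ∀ u, G1 (b + DD S * u) = 0 * (1 : ℂ) := by
        intro u
        rw [hG1]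
        change wT T S (b + DD S * u) * _ = _
        rw [wT_of_dvd T hp (dvd_add hpb ((dvd_DD hp).mul_right u)), zero_mul, zero_mul]
      rw [SM_congr h3, SM_cmul hq0, wT_of_dvd T hp hpb]
      ring
  have h3 : SM (q.1 * DD S) G2 = wT T S q.1 * HX T S := by
    rw [SM_dvd hD hq0 hP2 (fun x hx => by
      rw [hG2]
      change (1 - cqd q x ^ 2) * G1 x = 0
      rw [cqd_sq hx, sub_self, zero_mul]), HX, ← SM_cmul hD]
    refine SM_congr fun b => ?_
    rw [hG2, hG1]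
    change (1 - cqd q (q.1 * b) ^ 2) * (wT T S (q.1 * b) * xi (em (q.1 * b) / (em q.1 * em (DD S)))) = _
    rw [cqd_of_dvd (dvd_mul_right _ _), wT_mul, em_mul, mul_div_mul_left _ _ hqe, zz]
    ring
  rw [h2, h3]
  ring

theorem HX_odd {T S : Finset Pg} (hT : T ⊆ S) (h : ∑ q ∈ T, aa q.1 = 1) : HX T S = 0 := by
  have hD := DD_ne S
  have h1 := SM_mul hD (HX_per T S) (c := -1) isCoprime_one_left.neg_left
  have h2 : wT T S (-1) = -1 := by
    rw [wT_val hT fun q _ hd => q.2.1.not_isUnit (isUnit_of_dvd_unit hd isUnit_one.neg)]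
    have key : ∀ T : Finset Pg, ∏ t ∈ T, cqd t (-1) = (((-1) ^ (∑ q ∈ T, aa q.1).val : ℤ) : ℂ) := by
      intro T
      induction T using Finset.induction_on with
      | empty => simp
      | insert t T ht ih =>
        rw [Finset.prod_insert ht, Finset.sum_insert ht, ih, cqd, qc_neg_one, ← Int.cast_mul]
        congr 1
        have : ∀ a b : ZMod 2, ((-1 : ℤ)) ^ a.val * (-1) ^ b.val = (-1) ^ (a + b).val := by decide
        exact this _ _
    rw [key, h, ZMod.val_one]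
    norm_num
  have h3 : SM (DD S) (fun x => wT T S (-1 * x) * xi (zz S (-1 * x))) = -1 * HX T S := by
    rw [HX, ← SM_cmul hD]
    refine SM_congr fun x => ?_
    rw [wT_mul, h2, neg_one_mul x, zz_neg, xi_neg]
    ring
  have h4 : -1 * HX T S = HX T S := h3.symm.trans h1
  linear_combination (-1 / 2 : ℂ) * h4

/-- the symbol of `lam` -/
theorem wT_lam (hl : ∀ q : Pg, qc q lam = (-1) ^ (ll q.1).val) {T S : Finset Pg} (hT : T ⊆ S) :
    wT T S lam = (-1) ^ (∑ q ∈ T, ll q.1).val := by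
  rw [wT_val hT fun q _ => Pg_ndvd_lam q]
  clear hT
  have key : ∏ t ∈ T, cqd t lam = (((-1) ^ (∑ q ∈ T, ll q.1).val : ℤ) : ℂ) := by
    induction T using Finset.induction_on with
    | empty => simp
    | insert t T ht ih =>
      rw [Finset.prod_insert ht, Finset.sum_insert ht, ih, cqd, hl, ← Int.cast_mul]
      congr 1
      have : ∀ a b : ZMod 2, ((-1 : ℤ)) ^ a.val * (-1) ^ b.val = (-1) ^ (a + b).val := by decide
      exact this _ _
  rw [key]
  push_cast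
  rfl

theorem wT_pow (T S : Finset Pg) {x : 𝓞 K8} (n : ℕ) : wT T S (x ^ (n + 1)) = wT T S x ^ (n + 1) := by
  induction n with
  | zero => rw [zero_add, pow_one, pow_one]
  | succ n ih => rw [pow_succ x, wT_mul, ih, ← pow_succ]

/-- the multiplication by `lam ^ n` -/
theorem HX_lam (hl : ∀ q : Pg, qc q lam = (-1) ^ (ll q.1).val) {T S : Finset Pg} (hT : T ⊆ S)
    (n : ℕ) : SM (DD S) (fun b => wT T S b * xi (lm ^ n * zz S b)) =
      (-1) ^ (n * (∑ q ∈ T, ll q.1).val) * HX T S := by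
  have hD := DD_ne S
  rcases n with _ | n
  · simp only [zero_mul, pow_zero, one_mul]
    rfl
  · have hc : IsCoprime (lam ^ (n + 1)) (DD S) := cop_DD.2 fun q _ => Pg_ndvd_lam_pow q _
    have h1 := SM_mul hD (HX_per T S) hc
    obtain ⟨e, he⟩ : ∃ e : ℂ, e = (-1) ^ ((n + 1) * (∑ q ∈ T, ll q.1).val) := ⟨_, rfl⟩
    have he2 : e * e = 1 := by
      rw [he, ← mul_pow]
      norm_num
    have h2 : wT T S (lam ^ (n + 1)) = e := by
      rw [wT_pow, wT_lam hl hT, he, ← pow_mul, mul_comm]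
    have h3 : SM (DD S) (fun x => wT T S (lam ^ (n + 1) * x) * xi (zz S (lam ^ (n + 1) * x))) =
        e * SM (DD S) (fun b => wT T S b * xi (lm ^ (n + 1) * zz S b)) := by
      rw [← SM_cmul hD]
      refine SM_congr fun x => ?_
      rw [wT_mul, h2, zz_lam]
      ring
    have h4 : e * SM (DD S) (fun b => wT T S b * xi (lm ^ (n + 1) * zz S b)) = HX T S :=
      h3.symm.trans h1
    rw [← he, ← h4, ← mul_assoc, he2, one_mul]

/-! ### The sums over the nonresidues -/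

/-- the indicator function of the classes which are nonresidues modulo all `q` in `S` -/
def nN (S : Finset Pg) (b : 𝓞 K8) : ℂ := ∏ q ∈ S, (cqd q b ^ 2 - cqd q b) / 2

theorem nN_eq (S : Finset Pg) (b : 𝓞 K8) :
    nN S b = (∑ T ∈ S.powerset, (-1) ^ T.card * wT T S b) / 2 ^ S.card := by
  rw [nN, Finset.prod_div_distrib, Finset.prod_const]
  congr 1
  have h : ∀ q ∈ S, cqd q b ^ 2 - cqd q b = -cqd q b + cqd q b ^ 2 := fun q _ => by ring
  rw [Finset.prod_congr rfl h, Finset.prod_add]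
  refine Finset.sum_congr rfl fun T hT => ?_
  rw [wT_split (Finset.mem_powerset.1 hT), Finset.prod_neg, mul_assoc]

theorem nN_or (S : Finset Pg) (b : 𝓞 K8) :
    (nN S b = 1 ∧ ∀ q ∈ S, qc q b = -1) ∨ (nN S b = 0 ∧ ∃ q ∈ S, qc q b ≠ -1) := by
  by_cases h : ∀ q ∈ S, qc q b = -1
  · left
    refine ⟨?_, h⟩
    refine Finset.prod_eq_one fun q hq => ?_
    rw [cqd, h q hq]
    push_cast
    norm_num
  · right
    push Not at h
    obtain ⟨q, hq, h1⟩ := h
    refine ⟨?_, q, hq, h1⟩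
    refine Finset.prod_eq_zero hq ?_
    rw [cqd]
    by_cases h2 : q.1 ∣ b
    · rw [qc_of_dvd h2]
      norm_num
    · rw [(qc_or h2).resolve_right h1]
      norm_num

theorem nN_of_dvd {S : Finset Pg} {q : Pg} (hq : q ∈ S) {b : 𝓞 K8} (h : q.1 ∣ b) : nN S b = 0 := by
  refine Finset.prod_eq_zero hq ?_
  rw [cqd_of_dvd h]
  norm_num

theorem nN_per (S : Finset Pg) : Pd (DD S) (nN S) := fun x y h =>
  Finset.prod_congr rfl fun q hq => by rw [cqd_per q x y ((dvd_DD hq).trans h)]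

/-- the sum over the nonresidues -/
def XN (i : ℕ) (S : Finset Pg) : ℂ := SM (DD S) fun b => nN S b * xi (lm ^ i * zz S b)

theorem XN_per (i : ℕ) (S : Finset Pg) : Pd (DD S) fun b => nN S b * xi (lm ^ i * zz S b) :=
  fun x y h => by
    change nN S x * xi (lm ^ i * zz S x) = nN S y * xi (lm ^ i * zz S y)
    rw [nN_per S x y h]
    congr 1
    refine xi_congr ?_
    rw [← mul_sub]
    exact lm_pow_mem (hq := q8) (zz_congr h) i

theorem XN_eq (hl : ∀ q : Pg, qc q lam = (-1) ^ (ll q.1).val) (i : ℕ) (S : Finset Pg) :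
    XN i S = (∑ T ∈ S.powerset, (-1) ^ T.card * (-1) ^ (i * (∑ q ∈ T, ll q.1).val) * HX T S) /
      2 ^ S.card := by
  have hD := DD_ne S
  have h1 : ∀ b, nN S b * xi (lm ^ i * zz S b) = (1 / 2 ^ S.card) *
      ∑ T ∈ S.powerset, (-1) ^ T.card * (wT T S b * xi (lm ^ i * zz S b)) := by
    intro b
    rw [nN_eq, div_mul_eq_mul_div, Finset.sum_mul, one_div, inv_mul_eq_div]
    congr 1
    exact Finset.sum_congr rfl fun T _ => by ring
  rw [XN, SM_congr h1, SM_cmul hD, SM_fsum hD, one_div, inv_mul_eq_div]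
  congr 1
  refine Finset.sum_congr rfl fun T hT => ?_
  rw [SM_cmul hD, HX_lam hl (Finset.mem_powerset.1 hT)]
  ring

variable {B : ValuationSubring ℂ}

theorem v_nN (S : Finset Pg) (b : 𝓞 K8) : B.valuation (nN S b) ≤ 1 := by
  rcases nN_or S b with ⟨h, -⟩ | ⟨h, -⟩
  · rw [h, map_one]
  · rw [h, map_zero]
    exact zero_le

theorem v_XN_term (hB : (2 : ℂ)⁻¹ ∉ B) {S : Finset Pg} (hS : S.Nonempty) (i : ℕ) (b : 𝓞 K8) :
    B.valuation (nN S b * xi (lm ^ i * zz S b)) ≤ 1 := by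
  by_cases hb : ∀ q ∈ S, ¬ q.1 ∣ b
  · rw [map_mul]
    exact mul_le_one' (v_nN S b) (v_xi_le hB ((od_zz hS hb).pow i))
  · push Not at hb
    obtain ⟨q, hq, h⟩ := hb
    rw [nN_of_dvd hq h, zero_mul, map_zero]
    exact zero_le

theorem v_XN (hB : (2 : ℂ)⁻¹ ∉ B) {S : Finset Pg} (hS : S.Nonempty) (i : ℕ) :
    B.valuation (XN i S) ≤ 1 := v_SM_le (DD_ne S) fun b => v_XN_term hB hS i b

/-! ### The half sums -/

/-- half systems of the classes modulo `M` -/
theorem exists_half {M : 𝓞 K8} (hM : M ≠ 0) : ∃ (ι : Type) (s : Finset ι) (a : ι → 𝓞 K8),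
    ∀ F : 𝓞 K8 → ℂ, Pd M F → (∀ x, F (-x) = F x) → (∀ x, M ∣ 2 * x → F x = 0) →
      SM M F = 2 * ∑ i ∈ s, F (a i) := by
  classical
  obtain ⟨ι, _, a, ha⟩ := CRS.exists_crs hM
  choose sg hsg using fun i => ha.ex (-a i)
  have hinv : ∀ i, sg (sg i) = i := by
    intro i
    refine ha.inj _ _ ?_
    have e' : a (sg (sg i)) - a i = -((-a (sg i)) - a (sg (sg i))) + (-a i - a (sg i)) := by ring
    rw [e']
    exact dvd_add ((dvd_neg).2 (hsg (sg i))) (hsg i)
  obtain ⟨r, hr⟩ : ∃ r : ι → ℕ, Function.Injective r :=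
    ⟨fun i => (Fintype.equivFin ι i).val, fun i j h => (Fintype.equivFin ι).injective (Fin.ext h)⟩
  refine ⟨ι, Finset.univ.filter (fun i => r i < r (sg i)), a, fun F hF hn h0 => ?_⟩
  have hFs : ∀ i, F (a (sg i)) = F (a i) := by
    intro i
    rw [← hn (a i)]
    refine hF _ _ ?_
    rw [← neg_sub, dvd_neg]
    exact hsg i
  have hfix : ∀ i, sg i = i → F (a i) = 0 := by
    intro i hi
    apply h0
    have h := hsg i
    rw [hi] at h
    have e : 2 * a i = -(-a i - a i) := by ring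
    rw [e, dvd_neg]
    exact h
  rw [SM_eq hM ha hF]
  have h1 : ∀ i, F (a i) = (if r i < r (sg i) then F (a i) else 0) +
      (if r (sg i) < r i then F (a i) else 0) := by
    intro i
    rcases lt_trichotomy (r i) (r (sg i)) with h | h | h
    · rw [if_pos h, if_neg (not_lt.2 h.le), add_zero]
    · rw [if_neg h.not_lt, if_neg h.symm.not_lt, add_zero]
      exact hfix i (hr h).symm
    · rw [if_neg (not_lt.2 h.le), if_pos h, zero_add]
  rw [Finset.sum_congr rfl fun i _ => h1 i, Finset.sum_add_distrib, Finset.sum_filter, two_mul]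
  congr 1
  refine Finset.sum_bij (fun i _ => sg i) (fun i _ => Finset.mem_univ _) (fun i _ j _ h => ?_)
    (fun i _ => ⟨sg i, Finset.mem_univ _, hinv i⟩) (fun i _ => ?_)
  · rw [← hinv i, ← hinv j, h]
  · rw [hinv, hFs]

theorem v_half {M : 𝓞 K8} (hM : M ≠ 0) {F : 𝓞 K8 → ℂ} (hF : Pd M F) (hn : ∀ x, F (-x) = F x)
    (hv : ∀ x, B.valuation (F x) ≤ 1) (h0 : ∀ x, M ∣ 2 * x → F x = 0) :
    B.valuation (SM M F / 2) ≤ 1 := by
  obtain ⟨ι, s, a, h⟩ := exists_half hM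
  rw [h F hF hn h0, mul_div_cancel_left₀ _ two_ne_zero]
  exact Valuation.map_sum_le _ fun i _ => hv _

theorem v_half_lt {M : 𝓞 K8} (hM : M ≠ 0) {F : 𝓞 K8 → ℂ} (hF : Pd M F) (hn : ∀ x, F (-x) = F x)
    (hv : ∀ x, B.valuation (F x) < 1) (h0 : ∀ x, M ∣ 2 * x → F x = 0) :
    B.valuation (SM M F / 2) < 1 := by
  obtain ⟨ι, s, a, h⟩ := exists_half hM
  rw [h F hF hn h0, mul_div_cancel_left₀ _ two_ne_zero]
  exact Valuation.map_sum_lt' _ zero_lt_one fun i _ => hv _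

/-- the half sum over the nonresidues of a function which is even there -/
theorem v_nN_half_lt {S : Finset Pg} (hS : S.Nonempty) {F : 𝓞 K8 → ℂ}
    (hF : ∀ x y, DD S ∣ x - y → nN S x ≠ 0 → F x = F y)
    (hn : ∀ x, nN S (-x) * F (-x) = nN S x * F x)
    (hv : ∀ x, nN S x ≠ 0 → B.valuation (F x) < 1) :
    B.valuation (SM (DD S) (fun b => nN S b * F b) / 2) < 1 := by
  refine v_half_lt (DD_ne S) (fun x y h => ?_) hn (fun x => ?_) fun x hx => ?_
  · change nN S x * F x = nN S y * F y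
    by_cases h0 : nN S x = 0
    · rw [← nN_per S x y h, h0, zero_mul, zero_mul]
    · rw [← nN_per S x y h, hF x y h h0]
  · by_cases h0 : nN S x = 0
    · rw [h0, zero_mul, map_zero]
      exact zero_lt_one
    · rw [map_mul]
      exact (mul_le_of_le_one_left' (v_nN S x)).trans_lt (hv x h0)
  · obtain ⟨q, hq⟩ := hS
    have h1 := (q.2.1.dvd_or_dvd ((dvd_DD hq).trans hx)).resolve_left (Pg_ndvd_two q)
    change nN S x * _ = 0
    rw [nN_of_dvd hq h1, zero_mul]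

theorem nN_neg {S : Finset Pg} (ha : ∀ q ∈ S, aa q.1 = 0) (x : 𝓞 K8) : nN S (-x) = nN S x := by
  refine Finset.prod_congr rfl fun q hq => ?_
  have h : cqd q (-x) = cqd q x := by
    rw [cqd, cqd, qc_neg, ha q hq]
    simp
  rw [h]

theorem v_XN_half (hB : (2 : ℂ)⁻¹ ∉ B) {S : Finset Pg} (hS : S.Nonempty)
    (ha : ∀ q ∈ S, aa q.1 = 0) (i : ℕ) : B.valuation (XN i S / 2) ≤ 1 := by
  refine v_half (DD_ne S) (XN_per i S) (fun x => ?_) (fun x => v_XN_term hB hS i x) fun x hx => ?_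
  · rw [nN_neg ha, zz_neg, mul_neg, xi_neg]
  · obtain ⟨q, hq⟩ := hS
    have h1 := (q.2.1.dvd_or_dvd ((dvd_DD hq).trans hx)).resolve_left (Pg_ndvd_two q)
    change nN S x * _ = 0
    rw [nN_of_dvd hq h1, zero_mul]

/-! ### Residues -/

theorem Rt_intCast (hB : (2 : ℂ)⁻¹ ∉ B) (m : ℤ) : Rt B (m : ℂ) (m : ZMod 2) := by
  have h : Rt B ((m.toNat : ℕ) : ℂ) ((m.toNat : ℕ) : ZMod 2) := Rt.natCast hB _
  have h' : Rt B (((-m).toNat : ℕ) : ℂ) (((-m).toNat : ℕ) : ZMod 2) := Rt.natCast hB _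
  have h2 := h.sub hB h'
  have e : (m : ℤ) = (m.toNat : ℤ) - ((-m).toNat : ℤ) := by omega
  have e1 : (m : ℂ) = ((m.toNat : ℕ) : ℂ) - (((-m).toNat : ℕ) : ℂ) := by
    have := congrArg (Int.cast (R := ℂ)) e
    push_cast at this
    exact this
  have e2 : (m : ZMod 2) = ((m.toNat : ℕ) : ZMod 2) - (((-m).toNat : ℕ) : ZMod 2) := by
    have := congrArg (Int.cast (R := ZMod 2)) e
    push_cast at this
    exact this
  rw [e1, e2]
  exact h2

theorem Rt_third (hB : (2 : ℂ)⁻¹ ∉ B) : Rt B (1 / 3 : ℂ) 1 := by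
  refine Rt.one.congr ?_
  have e : (1 / 3 : ℂ) - 1 = -(2 / 3) := by norm_num
  rw [e, Valuation.map_neg, map_div₀, v_three hB, div_one]
  exact two_lt hB

/-- the coordinates of a normalised prime -/
theorem Pg_form (q : Pg) : ∃ c b : ℤ, (cp q.1).1 = 2 * c + 1 ∧ (cp q.1).2 = b ∧
    em q.1 = 2 * (c : ℂ) + 1 + (b : ℂ) * lm ∧ (Nz q.1 : ℂ) = (2 * (c : ℂ) + 1) ^ 2 + 2 * (b : ℂ) ^ 2 ∧
    aa q.1 = (b : ZMod 2) := by
  have h2 := (Pr_iff.1 q.2.2).1
  obtain ⟨c, hc⟩ : ∃ c, (cp q.1).1 = 2 * c + 1 := ⟨(cp q.1).1 / 2, by omega⟩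
  refine ⟨c, (cp q.1).2, hc, rfl, ?_, ?_, aa_cp _⟩
  · have h3 : em q.1 = ((cp q.1).1 : ℂ) + ((cp q.1).2 : ℂ) * lm := by
      conv_lhs => rw [eq_cp q.1]
      exact em_coords _ _
    rw [h3, hc]
    push_cast
    ring
  · have h4 := congrArg (Int.cast (R := ℂ)) (Nz_cp q.1)
    rw [hc] at h4
    push_cast at h4
    exact h4

theorem zmod_even (c : ℤ) : ((c * (c + 1) : ℤ) : ZMod 2) = 0 := by
  push_cast
  have : ∀ x : ZMod 2, x * (x + 1) = 0 := by decide
  exact this _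

theorem zmod_sq (b : ℤ) : ((b ^ 2 : ℤ) : ZMod 2) = (b : ZMod 2) := by
  push_cast
  have : ∀ x : ZMod 2, x ^ 2 = x := by decide
  exact this _

theorem v_em8 (hB : (2 : ℂ)⁻¹ ∉ B) (x : 𝓞 K8) : B.valuation (em x) ≤ 1 := by
  have h : em x = ((cp x).1 : ℂ) + ((cp x).2 : ℂ) * lm := by
    conv_lhs => rw [eq_cp x]
    exact em_coords _ _
  rw [h]
  refine (Valuation.map_add _ _ _).trans (max_le (v_int _) ?_)
  rw [map_mul]
  exact mul_le_one' (v_int _) (v_lm_le hB)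

theorem Rt_em (hB : (2 : ℂ)⁻¹ ∉ B) (q : Pg) : Rt B (em q.1) 1 := by
  obtain ⟨c, b, -, -, h, -, -⟩ := Pg_form q
  rw [h]
  have h1 := (Rt_two hB).mul hB (Rt_intCast hB c)
  have h2 := (Rt_intCast hB b).mul hB (Rt_lm hB)
  have h3 := (h1.add hB Rt.one).add hB h2
  rwa [zero_mul, mul_zero, zero_add, add_zero] at h3

/-- `(q ^ 2 - 1) / 2` -/
theorem Rt_sq_sub_one (hB : (2 : ℂ)⁻¹ ∉ B) (q : Pg) : Rt B ((em q.1 ^ 2 - 1) / 2) (aa q.1) := by
  obtain ⟨c, b, -, -, h, -, ha⟩ := Pg_form q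
  have e : (em q.1 ^ 2 - 1) / 2 = 2 * ((c * (c + 1) : ℤ) : ℂ) - ((b ^ 2 : ℤ) : ℂ) +
      lm * (((2 * c + 1) * b : ℤ) : ℂ) := by
    have e1 := lm_sq (hq := q8)
    rw [h]
    push_cast
    linear_combination ((b : ℂ) ^ 2 / 2) * e1
  rw [e, ha]
  have h1 := (Rt_two hB).mul hB (Rt_intCast hB (c * (c + 1)))
  have h2 := Rt_intCast hB (b ^ 2)
  have h3 := (Rt_lm hB).mul hB (Rt_intCast hB ((2 * c + 1) * b))
  rw [zmod_sq] at h2
  have h4 := (h1.sub hB h2).add hB h3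
  have e2 : (0 : ZMod 2) * ((c * (c + 1) : ℤ) : ZMod 2) - (b : ZMod 2) +
      0 * (((2 * c + 1) * b : ℤ) : ZMod 2) = (b : ZMod 2) := by
    rw [zero_mul, zero_mul, add_zero, zero_sub, ZMod.neg_eq_self_mod_two]
  rwa [e2] at h4

/-- `(N q - 1) / 2` -/
theorem Rt_Nz (hB : (2 : ℂ)⁻¹ ∉ B) (q : Pg) : Rt B (((Nz q.1 : ℂ) - 1) / 2) (aa q.1) := by
  obtain ⟨c, b, -, -, -, h, ha⟩ := Pg_form q
  have e : ((Nz q.1 : ℂ) - 1) / 2 = 2 * ((c * (c + 1) : ℤ) : ℂ) + ((b ^ 2 : ℤ) : ℂ) := by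
    rw [h]
    push_cast
    ring
  rw [e, ha]
  have h1 := (Rt_two hB).mul hB (Rt_intCast hB (c * (c + 1)))
  have h2 := Rt_intCast hB (b ^ 2)
  rw [zmod_sq] at h2
  have h4 := h1.add hB h2
  rwa [zero_mul, zero_add] at h4

/-- the signs -/
theorem Rt_sign (s : ZMod 2) : Rt B ((1 - (((-1) ^ s.val : ℤ) : ℂ)) / 2) s := by
  have key : ∀ s : ZMod 2, s = 0 ∨ s = 1 := by decide
  rcases key s with rfl | rfl
  · rw [ZMod.val_zero, pow_zero, Int.cast_one, sub_self, zero_div]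
    exact Rt.zero
  · rw [ZMod.val_one, pow_one]
    push_cast
    norm_num
    exact Rt.one

theorem cast_prod_qc (T : Finset Pg) (x : 𝓞 K8) : ∏ t ∈ T, cqd t x = ((∏ t ∈ T, qc t x : ℤ) : ℂ) := by
  rw [Int.cast_prod]
  rfl

/-- `(q ^ 2 - (q / DD T)) / 2` -/
theorem Rt_EU (hB : (2 : ℂ)⁻¹ ∉ B) {T : Finset Pg} {q : Pg} (hq : q ∉ T) :
    Rt B ((em q.1 ^ 2 - ∏ t ∈ T, cqd t q.1) / 2) (aa q.1 + ∑ t ∈ T, sy t q) := by
  have e : (em q.1 ^ 2 - ∏ t ∈ T, cqd t q.1) / 2 = (em q.1 ^ 2 - 1) / 2 +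
      (1 - (((-1) ^ (∑ t ∈ T, sy t q).val : ℤ) : ℂ)) / 2 := by
    rw [cast_prod_qc, prod_qc hq]
    ring
  rw [e]
  exact (Rt_sq_sub_one hB q).add hB (Rt_sign _)

/-! ### One prime -/

/-- the sum of `xi` over the nonzero division points -/
theorem HX_single (q : Pg) : 3 * HX ∅ {q} * lm ^ 3 = em q.1 ^ 2 - 1 + ((Nz q.1 : ℂ) - 1) * (1 - lm) := by
  have hq0 := q.2.1.ne_zero
  have hqe := em_ne hq0
  have hD : DD {q} = q.1 := Finset.prod_singleton _ _
  have hw : ∀ b, wT ∅ {q} b = cqd q b ^ 2 := fun b => by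
    rw [wT, Finset.prod_singleton, pw, if_neg (Finset.notMem_empty q)]
  obtain ⟨F, hF⟩ : ∃ F : 𝓞 K8 → ℂ, F = fun u => cqd q u ^ 2 * xx (em u / em q.1) := ⟨_, rfl⟩
  have hFP : Pd q.1 F := by
    intro x y h
    rw [hF]
    change cqd q x ^ 2 * xx (em x / em q.1) = cqd q y ^ 2 * xx (em y / em q.1)
    rw [cqd_per q x y h]
    congr 1
    refine xx_congr ?_
    rw [← sub_div, ← em_sub]
    exact (div_mem_iff hq0).2 h
  -- the point of order two
  obtain ⟨t, ht⟩ : ∃ t : 𝓞 K8, q.1 = 1 + lam * t := by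
    have h1 : lam ∣ q.1 - 1 := by
      rw [lam_dvd_iff, cp_sub, cp_one]
      have := (Pr_iff.1 q.2.2).1
      simp only [Prod.fst_sub]
      omega
    obtain ⟨t, ht⟩ := h1
    exact ⟨t, by linear_combination ht⟩
  have hqp : em q.1 * pe - pe ∈ PP.lattice := by
    have e : em q.1 * pe - pe = em t := by
      rw [ht, em_add, em_one, em_mul, em_lam]
      linear_combination (em t) * lm_mul_pe (hq := q8)
    rw [e]
    exact em_mem t
  have hqn : em q.1 * pe ∉ PP.lattice := by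
    intro h
    apply pe_notMem (hq := q8)
    have e : (pe : ℂ) = em q.1 * pe - (em q.1 * pe - pe) := by ring
    rw [e]
    exact sub_mem h hqp
  have h1 := SM_xx hq0 hqn
  rw [xx_congr hqp, xx_pe (hq := q8)] at h1
  have h2 : ∀ u : 𝓞 K8, xx (pe + em u / em q.1) = 4 * cqd q u ^ 2 - F u - 2 * F (lam * u) := by
    intro u
    rw [hF]
    change _ = 4 * cqd q u ^ 2 - cqd q u ^ 2 * xx (em u / em q.1) -
      2 * (cqd q (lam * u) ^ 2 * xx (em (lam * u) / em q.1))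
    by_cases hu : q.1 ∣ u
    · rw [cqd_of_dvd hu, cqd_of_dvd (hu.mul_left lam)]
      have e : pe + em u / em q.1 - pe = em u / em q.1 := by ring
      have h3 : xx (pe + em u / em q.1) = xx pe := xx_congr (by
        rw [e]
        exact (div_mem_iff hq0).2 hu)
      rw [h3, xx_pe (hq := q8)]
      ring
    · have h3 : ¬ q.1 ∣ lam * u := fun h => (q.2.1.dvd_or_dvd h).elim (Pg_ndvd_lam q) hu
      have h4 : 2 * (em u / em q.1) ∉ PP.lattice := by
        have e : 2 * (em u / em q.1) = em ((2 : 𝓞 K8) * u) / em q.1 := by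
          rw [em_mul]
          have : em (2 : 𝓞 K8) = 2 := by
            have := em_natCast (2 : ℕ)
            push_cast at this
            exact this
          rw [this]
          ring
        rw [e, div_mem_iff hq0]
        exact fun h => (q.2.1.dvd_or_dvd h).elim (Pg_ndvd_two q) hu
      have h5 := xx_dist_lm (hq := q8) h4
      rw [cqd_sq hu, cqd_sq h3, add_comm, h5, em_mul, em_lam, mul_div_assoc]
      ring
  have hc : IsCoprime lam q.1 := by
    rw [isCoprime_comm]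
    exact q.2.1.irreducible.coprime_iff_not_dvd.2 (Pg_ndvd_lam q)
  have h3 := SM_mul hq0 hFP hc
  have h4 : SM q.1 (fun u => 4 * cqd q u ^ 2 - F u - 2 * F (lam * u)) =
      4 * ((Nz q.1 : ℂ) - 1) - SM q.1 F - 2 * SM q.1 F := by
    rw [SM_sub hq0 (fun u => 4 * cqd q u ^ 2 - F u) fun u => 2 * F (lam * u),
      SM_sub hq0 (fun u => 4 * cqd q u ^ 2) F, SM_cmul hq0 2 fun u => F (lam * u), h3,
      SM_cmul hq0 4 fun u => cqd q u ^ 2, SM_cq_sq]
  rw [SM_congr h2, h4] at h1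
  have h5 : HX ∅ {q} = (1 / lm ^ 3) * SM q.1 F - (lm * r0 / lm ^ 3) * ((Nz q.1 : ℂ) - 1) := by
    rw [HX, hD, ← SM_cq_sq, ← SM_cmul hq0, ← SM_cmul hq0, ← SM_sub hq0]
    refine SM_congr fun u => ?_
    rw [hw, zz, hD, hF, xi]
    ring
  have hl := lm_ne (hq := q8)
  have h6 := lm_r0
  have h7 := r0_eq
  rw [h5]
  field_simp
  linear_combination -h1 - 3 * ((Nz q.1 : ℂ) - 1) * h6 + ((Nz q.1 : ℂ) - 1) * h7

/-- **the sum over the nonzero division points**, `aa q = 0` -/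
theorem Rt_single (hB : (2 : ℂ)⁻¹ ∉ B) (q : Pg) (h : aa q.1 = 0) :
    Rt B (HX ∅ {q} / 2) (rr q.1) := by
  obtain ⟨c, b, hc, hb, h1, h2, ha⟩ := Pg_form q
  rw [h] at ha
  obtain ⟨b', hb'⟩ : ∃ b', b = 2 * b' := by
    have h3 : ((b : ℤ) : ZMod 2) = 0 := ha.symm
    rw [ZMod.intCast_zmod_eq_zero_iff_dvd] at h3
    obtain ⟨b', hb'⟩ := h3
    exact ⟨b', by push_cast at hb'; exact hb'⟩
  obtain ⟨e, he⟩ : ∃ e, c * (c + 1) = 2 * e := by
    rcases Int.even_or_odd' c with ⟨k, hk | hk⟩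
    · exact ⟨k * (c + 1), by rw [hk]; ring⟩
    · exact ⟨c * (k + 1), by rw [hk]; ring⟩
  have hr : rr q.1 = (b' : ZMod 2) := by
    rw [rr_cp, hb, hb']
    have h5 : b' % 2 = 0 ∨ b' % 2 = 1 := by omega
    rcases h5 with h5 | h5
    · rw [if_neg (by omega)]
      symm
      rw [ZMod.intCast_zmod_eq_zero_iff_dvd]
      push_cast
      omega
    · rw [if_pos (by omega)]
      have : ((b' - 1 : ℤ) : ZMod 2) = 0 := by
        rw [ZMod.intCast_zmod_eq_zero_iff_dvd]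
        push_cast
        omega
      push_cast at this
      exact (sub_eq_zero.1 this).symm
  have hl := lm_ne (hq := q8)
  have e1 := lm_sq (hq := q8)
  have he' : (c : ℂ) * (c + 1) = 2 * (e : ℂ) := by exact_mod_cast congrArg (Int.cast (R := ℂ)) he
  have hs := HX_single q
  rw [h1, h2, hb'] at hs
  push_cast at hs
  have key : HX ∅ {q} / 2 = (1 / 3) * (2 * ((e + b' ^ 2 : ℤ) : ℂ) - lm * (lm ^ 2 * (e : ℂ)) -
      (((2 * c + 1) * b' : ℤ) : ℂ)) := by
    apply mul_right_cancel₀ (pow_ne_zero 3 hl)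
    push_cast
    linear_combination (1 / 6 : ℂ) * hs + ((2 / 3 : ℂ) * (2 - lm)) * he' +
      ((e : ℂ) * (-(2 / 3) * lm + (1 / 3) * (lm ^ 4 - 2 * lm ^ 2 + 4)) +
        (1 / 3) * (2 * c + 1) * b' * lm + (2 / 3) * (1 - lm) * (b' : ℂ) ^ 2) * e1
  rw [key, hr]
  have r1 := (Rt_two hB).mul hB (Rt_intCast hB (e + b' ^ 2))
  have r2 := (Rt_lm hB).mul hB (((Rt_lm hB).pow hB 2).mul hB (Rt_intCast hB e))
  have r3 := Rt_intCast hB ((2 * c + 1) * b')
  have r4 := (Rt_third hB).mul hB ((r1.sub hB r2).sub hB r3)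
  have e2 : (1 : ZMod 2) * (0 * ((e + b' ^ 2 : ℤ) : ZMod 2) - 0 * (0 ^ 2 * (e : ZMod 2)) -
      (((2 * c + 1) * b' : ℤ) : ZMod 2)) = (b' : ZMod 2) := by
    push_cast
    generalize (c : ZMod 2) = x
    generalize (b' : ZMod 2) = y
    generalize (e : ZMod 2) = z
    revert x y z
    decide
  rwa [e2] at r4

/-! ### The instance -/

/-- **the data of (4.2)** -/
def D4 (B : ValuationSubring ℂ) (hB : (2 : ℂ)⁻¹ ∉ B)
    (hl : ∀ q : Pg, qc q lam = (-1) ^ (ll q.1).val) : RhD Pg B where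
  a q := aa q.1
  r q := rr q.1
  l q := ll q.1
  s t q := sy t q
  HH T S := if S = ∅ then 0 else HX T S
  EU T q := em q.1 ^ 2 - ∏ t ∈ T, cqd t q.1
  e0 q := em q.1 ^ 2 - 1
  b0 q := em q.1 * ((cp q.1).2 : ℂ) * r0
  Nm q := Nz q.1
  X i S := if S = ∅ then 0 else XN i S
  odd T S hT h := by
    split_ifs
    · rfl
    · exact HX_odd hT h
  step T S q hT hTS hq := by
    have hS : S.Nonempty := hT.mono hTS
    have hnd : ∀ p ∈ S, ¬ p.1 ∣ q.1 := fun p hp => Pg_not_dvd (by rintro rfl; exact hq hp)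
    rw [if_neg hS.ne_empty, if_neg (Finset.insert_ne_empty q S),
      HX_insert hS (fun h => hq (hTS h)) hq, SM_wT, wT_val hTS hnd]
    obtain ⟨t, ht⟩ := hT
    have h0 : (∏ p ∈ S, if p ∈ T then (0 : ℂ) else (Nz p.1 : ℂ) - 1) = 0 :=
      Finset.prod_eq_zero (hTS ht) (if_pos ht)
    rw [h0, mul_zero, add_zero]
  eu T q _ hq := Rt_EU hB hq
  step0 S q hS hq := by
    have hnd : ∀ p ∈ S, ¬ p.1 ∣ q.1 := fun p hp => Pg_not_dvd (by rintro rfl; exact hq hp)
    rw [if_neg hS.ne_empty, if_neg (Finset.insert_ne_empty q S),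
      HX_insert hS (Finset.notMem_empty q) hq, SM_wT, wT_val (Finset.empty_subset S) hnd,
      Finset.prod_empty]
    simp
  e0r q := Rt_sq_sub_one hB q
  b0r q h := by
    obtain ⟨c, b, -, hb, -, -, ha⟩ := Pg_form q
    have h1 := ((Rt_em hB q).mul hB (Rt_intCast hB (cp q.1).2)).mul hB (Rt_r0 hB)
    rw [hb, ← ha, h, one_mul, one_mul] at h1
    rw [hb]
    exact h1
  b0h q h := by
    obtain ⟨c, b, -, hb, -, -, ha⟩ := Pg_form q
    rw [h] at ha
    obtain ⟨b', hb'⟩ : ∃ b', b = 2 * b' := by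
      have h3 : ((b : ℤ) : ZMod 2) = 0 := ha.symm
      rw [ZMod.intCast_zmod_eq_zero_iff_dvd] at h3
      obtain ⟨b', hb'⟩ := h3
      exact ⟨b', by push_cast at hb'; exact hb'⟩
    have e : em q.1 * ((cp q.1).2 : ℂ) * r0 / 2 = em q.1 * (b' : ℂ) * r0 := by
      rw [hb, hb']
      push_cast
      ring
    rw [e, map_mul, map_mul]
    exact mul_le_one' (mul_le_one' (v_em8 hB _) (v_int _)) (v_r0 hB).le
  Nmr q := Rt_Nz hB q
  single q h := by
    rw [if_neg (Finset.singleton_ne_empty q)]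
    exact Rt_single hB q h
  sum i S := by
    by_cases hS : S = ∅
    · rw [if_pos hS, hS]
      simp
    · simp only [if_neg hS]
      exact XN_eq hl i S
  int i S := by
    split_ifs with hS
    · rw [map_zero]
      exact zero_le
    · exact v_XN hB (Finset.nonempty_iff_ne_empty.2 hS) i
  half S hS h := by
    rw [if_neg hS.ne_empty]
    exact v_XN_half hB hS h 0

end

end Pool.Agent.Lib.MP_1a91b9_ntW
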