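import Pool.Agent.Lib.MP_1a91b9_ntW.A.Q8

/-!
# Phase 6, part A, file Ell8: the points of order two and four, the addition formula of `ff`

Sections (2.1)-(2.4) of the page.
-/

set_option autoImplicit false
set_option linter.unusedSectionVars false

namespace Pool.Agent.Lib.MP_1a91b9_ntW

open NumberField Pool.Agent.Lib.MP_1a91b9_nuT Pool.Agent.Lib.MP_1a91b9_nuT.S3
  Pool.Agent.Lib.MP_1a91b9_nuT.Ell

noncomputable section

variable [CD] [hq : Q8]

/-! ### Points of order two -/

theorem half_pe_notMem : (1 / 2 + pe : ℂ) ∉ PP.lattice := by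
  intro h
  obtain ⟨m, n, e⟩ := mem_PP.1 h
  have h0 : zt = lm := rfl
  rw [h0, pe_eq] at e
  have h1 : ((2 * m - 1 : ℤ) : ℂ) + ((2 * n + 1 : ℤ) : ℂ) * lm = 0 := by
    push_cast
    linear_combination 2 * e
  have := (coord_zero h1).1
  omega

theorem two_half_pe_mem : 2 * (1 / 2 + pe : ℂ) ∈ PP.lattice := by
  rw [mul_add]
  exact add_mem two_half_mem two_pe_mem

theorem xx_half_pe : xx (1 / 2 + pe) = 2 - rt := by
  have h := sg_sq half_notMem' pe_notMem half_pe_notMem
  have h0 : sg (1 / 2) pe = 0 := by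
    rw [sg, E1_two two_half_mem, E1_two two_half_pe_mem, E1_pe]
    simp
  rw [h0, xx_half, xx_pe] at h
  linear_combination -h

/-- the slope of the line through `z` and `1/2` -/
theorem sg_half {z : ℂ} (hz : 2 * z ∉ PP.lattice) :
    sg z (1 / 2) * (xx z - (2 + rt)) = yy z := by
  rw [← xx_half]
  exact sg_two two_half_mem half_notMem' hz

theorem sub_r_ne {z : ℂ} (hz : 2 * z ∉ PP.lattice) : xx z - (2 + rt) ≠ 0 := by
  intro h
  have h1 := sg_half hz
  rw [h, mul_zero] at h1
  exact yy_ne hz h1.symm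

/-- the product `(X - r₊) (X - r₋)` -/
theorem r_mul_r (z : ℂ) : (xx z - (2 + rt)) * (xx z - (2 - rt)) = xx z ^ 2 - 4 * xx z + 2 := by
  linear_combination (-1 : ℂ) * rt_sq

theorem sub_r'_ne {z : ℂ} (hz : 2 * z ∉ PP.lattice) : xx z - (2 - rt) ≠ 0 := by
  intro h
  have h1 := r_mul_r z
  rw [h, mul_zero, ← ff_sq_mul hz] at h1
  exact mul_ne_zero (pow_ne_zero 2 (ff_ne hz)) (xx_ne hz) h1.symm

theorem quad_ne {z : ℂ} (hz : 2 * z ∉ PP.lattice) : xx z ^ 2 - 4 * xx z + 2 ≠ 0 := by
  rw [← r_mul_r]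
  exact mul_ne_zero (sub_r_ne hz) (sub_r'_ne hz)

theorem xx_lm_ne {z : ℂ} (hz : 2 * z ∉ PP.lattice) : xx (lm * z) ≠ 0 := by
  intro h
  have h1 := xx_lm hz
  rw [h, mul_zero] at h1
  exact quad_ne hz h1.symm

theorem sg_half' {z : ℂ} (hz : 2 * z ∉ PP.lattice) :
    sg z (1 / 2) = yy z / (xx z - (2 + rt)) := by
  rw [eq_div_iff (sub_r_ne hz), sg_half hz]

/-- the translation by `1/2` -/
theorem xx_add_half {z : ℂ} (hz : 2 * z ∉ PP.lattice) :
    (xx (z + 1 / 2) - (2 + rt)) * (xx z - (2 + rt)) = 4 * (1 + rt) := by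
  have h1 := sg_sq (notMem_of_two_mul hz) half_notMem'
    (notMem_of_two_mul (two_add_two two_half_mem hz))
  have h2 := sg_half hz
  have h3 := yy_sq (notMem_of_two_mul hz)
  rw [xx_half] at h1
  have h4 := sub_r_ne hz
  have h5 : sg z (1 / 2) ^ 2 * (xx z - (2 + rt)) = xx z * (xx z - (2 - rt)) := by
    apply mul_left_cancel₀ h4
    rw [← h2] at h3
    linear_combination h3 + xx z * rt_sq
  linear_combination -(xx z - (2 + rt)) * h1 + h5 + 2 * rt_sq

theorem ff_half {z : ℂ} (hz : 2 * z ∉ PP.lattice) : ff (z + 1 / 2) * ff z = -2 * rt := by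
  have a1 := sg_half hz
  have a2 := sg_two two_half_pe_mem half_pe_notMem hz
  rw [xx_half_pe] at a2
  have h1 : ff (z + 1 / 2) = sg z (1 / 2 + pe) - sg z (1 / 2) := by
    rw [ff_eq, div_eq_iff om_ne]
    have e1 : z + 1 / 2 + pe = z + (1 / 2 + pe) := by ring
    rw [e1, E1_add_two two_half_pe_mem, E1_add_two two_half_mem]
    ring
  have h2 := ff_mul hz
  have h3 := ff_sq_mul hz
  have hX1 := sub_r_ne hz
  have hX2 := sub_r'_ne hz
  have h4 : sg z (1 / 2) = yy z / (xx z - (2 + rt)) := sg_half' hz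
  have h5 : sg z (1 / 2 + pe) = yy z / (xx z - (2 - rt)) := by
    rw [eq_div_iff hX2]
    exact a2
  rw [h1, h4, h5, ← h2]
  have h6 : ff z * xx z / (xx z - (2 - rt)) - ff z * xx z / (xx z - (2 + rt)) =
      ff z * xx z * (-2 * rt) / (xx z ^ 2 - 4 * xx z + 2) := by
    rw [← r_mul_r]
    field_simp
    ring
  rw [h6, ← h3]
  have h7 := ff_ne hz
  have h8 := xx_ne hz
  field_simp

/-- `E1 (z + 1/2)` -/
theorem E1_half {z : ℂ} (hz : 2 * z ∉ PP.lattice) :
    E1 (z + 1 / 2) = E1 z + om * (yy z / (xx z - (2 + rt))) := by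
  rw [E1_add_two two_half_mem, sg_half' hz]

theorem E1_half_pe {z : ℂ} (hz : 2 * z ∉ PP.lattice) :
    E1 (z + (1 / 2 + pe)) = E1 z + om * (yy z / (xx z - (2 - rt))) := by
  have a2 := sg_two two_half_pe_mem half_pe_notMem hz
  rw [xx_half_pe] at a2
  rw [E1_add_two two_half_pe_mem, ← a2, mul_div_cancel_right₀ _ (sub_r'_ne hz)]

theorem yy_add_half {z : ℂ} (hz : 2 * z ∉ PP.lattice) :
    yy (z + 1 / 2) * (xx z - (2 + rt)) ^ 2 = -(4 * (1 + rt)) * yy z := by
  have h1 := ff_half hz
  have h2 := ff_mul hz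
  have h3 := ff_mul (two_add_two two_half_mem hz)
  have h4 := xx_add_half hz
  have h5 := ff_sq_mul hz
  have h6 := sub_r_ne hz
  have h7 : xx (z + 1 / 2) * (xx z - (2 + rt)) = (2 + rt) * (xx z - (2 - rt)) := by
    linear_combination h4 - 2 * rt_sq
  have h8 : yy (z + 1 / 2) * ff z = -2 * rt * xx (z + 1 / 2) := by
    rw [← h3]
    linear_combination xx (z + 1 / 2) * h1
  apply mul_right_cancel₀ (ff_ne hz)
  have h9 : yy z * ff z = (xx z - (2 + rt)) * (xx z - (2 - rt)) := by
    rw [r_mul_r, ← h5, ← h2]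
    ring
  have h10 : yy (z + 1 / 2) * (xx z - (2 + rt)) ^ 2 * ff z =
      -2 * rt * (xx z - (2 + rt)) * ((2 + rt) * (xx z - (2 - rt))) := by
    linear_combination (xx z - (2 + rt)) ^ 2 * h8 - 2 * rt * (xx z - (2 + rt)) * h7
  rw [h10]
  linear_combination (4 * (1 + rt)) * h9 -
    2 * (xx z - (2 + rt)) * (xx z - (2 - rt)) * rt_sq

/-! ### The multiplication by `√-2` on `E1` -/

theorem E1_lm (z : ℂ) : 2 * E1 z + om * ff z = lm * E1 (lm * z) := by
  have h := E1_dist (ι := Fin 2) (α := lm) (τ := fun i => if i = 0 then 0 else pe) lm_mem lm_ne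
    (fun i => by
      fin_cases i
      · simp
      · simp only [Fin.mk_one, Fin.isValue, one_ne_zero, if_false]
        rw [lm_mul_pe]
        exact one_mem) ?_ z
  · rw [← h, Fin.sum_univ_two]
    simp only [if_true, add_zero, Fin.isValue, one_ne_zero, if_false]
    rw [E1_add_pe]
    ring
  · intro x hx
    have hx2 : ∃ m n : ℤ, x = n + m * pe := by
      obtain ⟨m, n, e⟩ := mem_PP.1 hx
      have h0 : zt = lm := rfl
      rw [h0] at e
      refine ⟨m, n, ?_⟩
      apply mul_left_cancel₀ lm_ne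
      linear_combination -e - (m : ℂ) * lm_mul_pe
    obtain ⟨m, n, rfl⟩ := hx2
    have hn : (n : ℂ) ∈ PP.lattice := by
      rw [mem_PP]
      exact ⟨n, 0, by simp⟩
    have hmp : ∀ k : ℤ, ((2 * k : ℤ) : ℂ) * pe ∈ PP.lattice := by
      intro k
      rw [mem_PP]
      refine ⟨0, -k, ?_⟩
      have h0 : zt = lm := rfl
      rw [h0, pe_eq]
      push_cast
      ring
    rcases Int.even_or_odd' m with ⟨k, hk | hk⟩
    · refine ⟨0, ?_, ?_⟩
      · simp only [if_true, sub_zero, Fin.isValue]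
        rw [hk]
        exact add_mem hn (hmp k)
      · intro j hj
        fin_cases j
        · rfl
        · exfalso
          simp only [Fin.mk_one, Fin.isValue, one_ne_zero, if_false] at hj
          apply pe_notMem
          have h1 := sub_mem (add_mem hn (hmp k)) hj
          rw [hk] at h1
          have e : (n : ℂ) + ((2 * k : ℤ) : ℂ) * pe - ((n : ℂ) + ((2 * k : ℤ) : ℂ) * pe - pe) = pe := by
            ring
          rwa [e] at h1
    · refine ⟨1, ?_, ?_⟩
      · simp only [Fin.isValue, one_ne_zero, if_false]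
        rw [hk]
        have e : (n : ℂ) + ((2 * k + 1 : ℤ) : ℂ) * pe - pe = n + ((2 * k : ℤ) : ℂ) * pe := by
          push_cast
          ring
        rw [e]
        exact add_mem hn (hmp k)
      · intro j hj
        fin_cases j
        · exfalso
          simp only [Fin.zero_eta, if_true, sub_zero, Fin.isValue] at hj
          apply pe_notMem
          rw [hk] at hj
          have h1 := sub_mem hj (add_mem hn (hmp k))
          have e : (n : ℂ) + ((2 * k + 1 : ℤ) : ℂ) * pe - (n + ((2 * k : ℤ) : ℂ) * pe) = pe := by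
            push_cast
            ring
          rwa [e] at h1
        · rfl

/-! ### Points of order four -/

theorem two_lm4_notMem : 2 * (lm / 4) ∉ PP.lattice := by
  have e : 2 * (lm / 4) = -pe := by rw [pe_eq]; ring
  rw [e]
  exact fun h => pe_notMem (by simpa using neg_mem h)

/-- `X (√-2 / 4) = -√2` -/
theorem xx_lm4 : xx (lm / 4) = -rt := by
  have h := xx_lm two_lm4_notMem
  have e : lm * (lm / 4) = -(1 / 2) := by linear_combination (1 / 4) * lm_sq
  rw [e, xx_neg, xx_half] at h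
  have h1 : (xx (lm / 4) + rt) ^ 2 = 0 := by linear_combination -h + rt_sq
  linear_combination (pow_eq_zero_iff two_ne_zero).1 h1

theorem xx_lm4_half : xx (lm / 4 + 1 / 2) = rt := by
  have h := xx_add_half two_lm4_notMem
  rw [xx_lm4] at h
  have h1 : (xx (lm / 4 + 1 / 2) - rt) * (2 + 2 * rt) = 0 := by
    linear_combination -h
  have h2 : 2 + 2 * rt ≠ 0 := by
    intro h3
    have h4 : rt = -1 := by linear_combination h3 / 2
    have h5 := rt_sq
    rw [h4] at h5
    norm_num at h5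
  linear_combination (mul_eq_zero.1 h1).resolve_right h2

theorem four_notMem : 2 * (1 / 4 : ℂ) ∉ PP.lattice := by
  have e : 2 * (1 / 4 : ℂ) = 1 / 2 := by norm_num
  rw [e]
  exact half_notMem'

/-- `X (1/4)` -/
theorem xx_quarter : xx (1 / 4) ^ 2 - (4 + 2 * rt) * xx (1 / 4) + 2 = 0 := by
  have h := xx_lm four_notMem
  have e : lm * (1 / 4) = lm / 4 := by ring
  rw [e, xx_lm4] at h
  linear_combination -h

theorem quarter_notMem : 2 * ((1 + lm) / 4 : ℂ) ∉ PP.lattice := by
  have e : 2 * ((1 + lm) / 4 : ℂ) = 1 / 2 + pe - 2 * pe := by rw [pe_eq]; ring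
  rw [e]
  intro h
  apply half_pe_notMem
  have := add_mem h two_pe_mem
  have e : (1 / 2 + pe - 2 * pe + 2 * pe : ℂ) = 1 / 2 + pe := by ring
  rwa [e] at this

/-- `X ((1 + √-2)/4)` -/
theorem xx_quarter' : xx ((1 + lm) / 4) ^ 2 - (4 - 2 * rt) * xx ((1 + lm) / 4) + 2 = 0 := by
  have h := xx_lm quarter_notMem
  have e : lm * ((1 + lm) / 4) = lm / 4 + 1 / 2 + (-1) := by linear_combination (1 / 4) * lm_sq
  rw [e, xx_add (neg_mem one_mem), xx_lm4_half] at h
  linear_combination -h

/-! ### The addition formula -/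

/-- **The addition formula of `ff`.** -/
theorem ff_addition {P Q : ℂ} (hP : 2 * P ∉ PP.lattice) (hQ : 2 * Q ∉ PP.lattice)
    (h1 : lm * (P - Q) ∉ PP.lattice) (h2 : lm * (P + Q) ∉ PP.lattice) :
    ff (P + Q) * ((2 - xx P * xx Q) * (xx P - xx Q)) =
      (xx Q ^ 2 - 2) * yy P - (xx P ^ 2 - 2) * yy Q := by
  have hPe := two_add_two two_pe_mem hP
  have k1 : P + pe - Q ∉ PP.lattice := by
    intro h
    apply h1
    have h3 := sub_mem (lm_mem_mul h) one_mem
    have e : lm * (P + pe - Q) - 1 = lm * (P - Q) := by linear_combination lm_mul_pe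
    rwa [e] at h3
  have k2 : P + pe + Q ∉ PP.lattice := by
    intro h
    apply h2
    have h3 := sub_mem (lm_mem_mul h) one_mem
    have e : lm * (P + pe + Q) - 1 = lm * (P + Q) := by linear_combination lm_mul_pe
    rwa [e] at h3
  have c1 := sg_chord hPe hQ k1 k2
  have c2 := sg_chord hP hQ (notMem_of_lm h1) (notMem_of_lm h2)
  have e1 : ff (P + Q) = ff P + sg (P + pe) Q - sg P Q := by
    rw [ff_eq, ff_eq, sg, sg]
    have e : P + Q + pe = P + pe + Q := by ring
    rw [e]
    ring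
  have hx := xx_add_pe hP
  have hy := yy_add_pe hP
  have hf := ff_mul hP
  have hxP := xx_ne hP
  have d1 : xx P ^ 2 * yy (P + pe) = -2 * yy P := by rw [mul_comm, hy]
  have d2 : sg (P + pe) Q * ((2 - xx P * xx Q) * xx P) = -2 * yy P - xx P ^ 2 * yy Q := by
    linear_combination -(xx P ^ 2) * c1 + d1 - sg (P + pe) Q * xx P * hx
  apply mul_left_cancel₀ hxP
  rw [e1]
  have d3 := congrArg (fun t => (xx P - xx Q) * t) d2
  have d4 := congrArg (fun t => xx P * (2 - xx P * xx Q) * t) c2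
  linear_combination d3 + d4 + (2 - xx P * xx Q) * (xx P - xx Q) * hf

end

end Pool.Agent.Lib.MP_1a91b9_ntW
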