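import Pool.Agent.Lib.MP_1a91b9_ntW.A.Dist8

/-!
# Phase 6, part A, file Fac8: the factors `q - chi_T theta (q)`, page (1.4)
-/

set_option autoImplicit false
set_option linter.unusedSectionVars false

namespace Pool.Agent.Lib.MP_1a91b9_ntW

open NumberField Finset Pool.Agent.Lib.MP_1a91b9_nuT Pool.Agent.Lib.MP_1a91b9_nuT.S3
  Pool.Agent.Lib.MP_1a91b9_nuT.Ell
open Pool.Agent.Lib.MP_1a91b9_ntQ (em Rt)

noncomputable section

variable {B : ValuationSubring ℂ}

/-- the sign `(-1) ^ e` -/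
def sgn2 (e : ZMod 2) : ℂ := (((-1) ^ e.val : ℤ) : ℂ)

theorem sgn2_zero : sgn2 0 = 1 := by rw [sgn2, ZMod.val_zero, pow_zero, Int.cast_one]

theorem sgn2_one : sgn2 1 = -1 := by
  rw [sgn2, ZMod.val_one, pow_one]
  push_cast
  rfl

theorem sgn2_add (a b : ZMod 2) : sgn2 (a + b) = sgn2 a * sgn2 b := by
  have : ∀ a b : ZMod 2, ((-1 : ℤ)) ^ (a + b).val = (-1) ^ a.val * (-1) ^ b.val := by decide
  rw [sgn2, this, Int.cast_mul]
  rfl

theorem sgn2_or (a : ZMod 2) : sgn2 a = 1 ∨ sgn2 a = -1 := by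
  have key : ∀ s : ZMod 2, s = 0 ∨ s = 1 := by decide
  rcases key a with rfl | rfl
  · exact Or.inl sgn2_zero
  · exact Or.inr sgn2_one

theorem sgn2_sq (a : ZMod 2) : sgn2 a * sgn2 a = 1 := by
  rcases sgn2_or a with h | h <;> rw [h] <;> norm_num

/-- **the factor of a prime with `a = 0`** -/
theorem Rt_fac_zero (hB : (2 : ℂ)⁻¹ ∉ B) {q : Pg} (h : aa q.1 = 0) (e : ZMod 2) :
    Rt B ((em q.1 - sgn2 e) / lm ^ 2) (rr q.1 + e) := by
  obtain ⟨c, b, hc, hb, h1, -, ha⟩ := Pg_form q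
  rw [h] at ha
  obtain ⟨b', hb'⟩ : ∃ b', b = 2 * b' := by
    have h3 : ((b : ℤ) : ZMod 2) = 0 := ha.symm
    rw [ZMod.intCast_zmod_eq_zero_iff_dvd] at h3
    obtain ⟨b', hb'⟩ := h3
    exact ⟨b', by push_cast at hb'; exact hb'⟩
  have hP := Pr_iff.1 q.2.2
  rw [hc, hb, hb'] at hP
  have hr : rr q.1 = (c : ZMod 2) := by
    rw [rr_cp, hb, hb']
    have h5 : c % 2 = 0 ∨ c % 2 = 1 := by omega
    rcases h5 with h5 | h5
    · rw [if_neg (by omega)]
      symm
      rw [ZMod.intCast_zmod_eq_zero_iff_dvd]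
      push_cast
      omega
    · rw [if_pos (by omega)]
      have : ((c - 1 : ℤ) : ZMod 2) = 0 := by
        rw [ZMod.intCast_zmod_eq_zero_iff_dvd]
        push_cast
        omega
      push_cast at this
      exact (sub_eq_zero.1 this).symm
  have e1 := lm_sq (hq := q8)
  have hl := pow_ne_zero 2 (lm_ne (hq := q8))
  have key : ∀ s : ZMod 2, s = 0 ∨ s = 1 := by decide
  rcases key e with rfl | rfl
  · have e2 : (em q.1 - sgn2 0) / lm ^ 2 = -(c : ℂ) - lm * (b' : ℂ) := by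
      rw [div_eq_iff hl, h1, sgn2_zero, hb']
      push_cast
      linear_combination ((c : ℂ) + lm * b') * e1
    have r1 := ((Rt_intCast hB c).neg hB).sub hB ((Rt_lm hB).mul hB (Rt_intCast hB b'))
    rw [zero_mul, sub_zero] at r1
    rw [e2, hr, add_zero]
    exact r1
  · have e2 : (em q.1 - sgn2 1) / lm ^ 2 = -((c : ℂ) + 1) - lm * (b' : ℂ) := by
      rw [div_eq_iff hl, h1, sgn2_one, hb']
      push_cast
      linear_combination ((c : ℂ) + 1 + lm * b') * e1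
    have r1 := (((Rt_intCast hB c).add hB Rt.one).neg hB).sub hB
      ((Rt_lm hB).mul hB (Rt_intCast hB b'))
    rw [zero_mul, sub_zero] at r1
    rw [e2, hr]
    exact r1

/-- **the factor of a prime with `a = 1`** -/
theorem Rt_fac_one (hB : (2 : ℂ)⁻¹ ∉ B) {q : Pg} (h : aa q.1 = 1) (e : ZMod 2) :
    Rt B ((em q.1 - sgn2 e) / lm) 1 := by
  obtain ⟨c, b, hc, hb, h1, -, ha⟩ := Pg_form q
  rw [h] at ha
  have e1 := lm_sq (hq := q8)
  have hl := lm_ne (hq := q8)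
  have key : ∀ s : ZMod 2, s = 0 ∨ s = 1 := by decide
  rcases key e with rfl | rfl
  · have e2 : (em q.1 - sgn2 0) / lm = (b : ℂ) - lm * (c : ℂ) := by
      rw [div_eq_iff hl, h1, sgn2_zero]
      linear_combination (c : ℂ) * e1
    have r1 := (Rt_intCast hB b).sub hB ((Rt_lm hB).mul hB (Rt_intCast hB c))
    rw [zero_mul, sub_zero, ← ha] at r1
    rw [e2]
    exact r1
  · have e2 : (em q.1 - sgn2 1) / lm = (b : ℂ) - lm * ((c : ℂ) + 1) := by
      rw [div_eq_iff hl, h1, sgn2_one]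
      linear_combination ((c : ℂ) + 1) * e1
    have r1 := (Rt_intCast hB b).sub hB ((Rt_lm hB).mul hB ((Rt_intCast hB c).add hB Rt.one))
    rw [zero_mul, sub_zero, ← ha] at r1
    rw [e2]
    exact r1

/-- the factor is a unit up to the power of `lm` -/
theorem v_fac_one (hB : (2 : ℂ)⁻¹ ∉ B) {q : Pg} (h : aa q.1 = 1) (e : ZMod 2) :
    B.valuation (em q.1 - sgn2 e) = B.valuation lm := by
  have h1 := (Rt_fac_one hB h e).unit one_ne_zero
  rw [map_div₀, div_eq_one_iff_eq (v_lm_pos (hq := q8)).ne'] at h1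
  exact h1

/-! ### The characters of the page -/

/-- the exponent of `theta (c)` -/
def tht (k j : ZMod 2) (c : 𝓞 K8) : ZMod 2 := k * aa c + j * ll c

/-- the exponent of `(DD T / q) theta (q)` -/
def ext (k j : ZMod 2) (T : Finset Pg) (q : Pg) : ZMod 2 := tht k j q.1 + ∑ t ∈ T, sy q t

/-- `(DD T / q) theta (q)` -/
theorem sgn2_ext (k j : ZMod 2) {T : Finset Pg} {q : Pg} (h : q ∉ T) :
    sgn2 (ext k j T q) = sgn2 (tht k j q.1) * cqd q (DD T) := by
  rw [ext, sgn2_add, cqd, qc_DD h]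
  rfl

/-- (1.4), `a = 0` -/
theorem Rt_ext_zero (hB : (2 : ℂ)⁻¹ ∉ B) (k j : ZMod 2) (T : Finset Pg) {q : Pg}
    (h : aa q.1 = 0) : Rt B ((em q.1 - sgn2 (ext k j T q)) / lm ^ 2)
      (rr q.1 + j * ll q.1 + ∑ t ∈ T, sy q t) := by
  have h1 := Rt_fac_zero hB h (ext k j T q)
  have e : rr q.1 + ext k j T q = rr q.1 + j * ll q.1 + ∑ t ∈ T, sy q t := by
    rw [ext, tht, h]
    ring
  rwa [e] at h1

/-- (1.4), `a = 1` -/
theorem Rt_ext_one (hB : (2 : ℂ)⁻¹ ∉ B) (k j : ZMod 2) (T : Finset Pg) {q : Pg}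
    (h : aa q.1 = 1) : Rt B ((em q.1 - sgn2 (ext k j T q)) / lm) 1 := Rt_fac_one hB h _

/-- (1.4), the product over a set of primes -/
theorem Rt_ext_prod (hB : (2 : ℂ)⁻¹ ∉ B) (k j : ZMod 2) (T U : Finset Pg) :
    Rt B ((∏ q ∈ U, (em q.1 - sgn2 (ext k j T q))) / lm ^ (2 * (S0 U).card + (S1 U).card))
      (∏ q ∈ S0 U, (rr q.1 + j * ll q.1 + ∑ t ∈ T, sy q t)) := by
  have hl := lm_ne (hq := q8)
  have key : ∀ s : ZMod 2, (¬ s = 0) ↔ s = 1 := by decide
  have hS : U.filter (fun q => ¬ aa q.1 = 0) = S1 U := by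
    rw [S1]
    exact Finset.filter_congr fun q _ => key _
  have e : (∏ q ∈ U, (em q.1 - sgn2 (ext k j T q))) / lm ^ (2 * (S0 U).card + (S1 U).card) =
      (∏ q ∈ S0 U, (em q.1 - sgn2 (ext k j T q)) / lm ^ 2) *
        ∏ q ∈ S1 U, (em q.1 - sgn2 (ext k j T q)) / lm := by
    rw [← Finset.prod_filter_mul_prod_filter_not U (fun q => aa q.1 = 0), hS, S0,
      Finset.prod_div_distrib, Finset.prod_div_distrib, Finset.prod_const, Finset.prod_const,
      pow_add, pow_mul]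
    field_simp
  rw [e]
  have h0 := Rt.prod hB (S0 U) (f := fun q => (em q.1 - sgn2 (ext k j T q)) / lm ^ 2)
    (g := fun q => rr q.1 + j * ll q.1 + ∑ t ∈ T, sy q t) fun q hq =>
      Rt_ext_zero hB k j T (Finset.mem_filter.1 hq).2
  have h1 := Rt.prod hB (S1 U) (f := fun q => (em q.1 - sgn2 (ext k j T q)) / lm)
    (g := fun _ => 1) fun q hq => Rt_ext_one hB k j T (Finset.mem_filter.1 hq).2
  have h2 := h0.mul hB h1
  rwa [Finset.prod_const_one, mul_one] at h2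

end

end Pool.Agent.Lib.MP_1a91b9_ntW
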