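import Pool.Agent.Lib.MP_1a91b9_ntW.A.Uv1
import Pool.Agent.Lib.MP_1a91b9_ntW.A.RhoA
import Pool.Agent.Lib.MP_1a91b9_ntW.A.Alg

/-!
# Phase 6, part A, file Ind8: the first orders are the determinants

`NuD D j`: the data of the values `L T`, the Euler factors `F T q` and the averages `P e S`;
`w_one` and `w_zero`: the normalised value `L S` is congruent to the determinant `GA` (the induction
of the page, sections 3, 4, 5).
-/

set_option autoImplicit false
set_option linter.unusedSectionVars false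

namespace Pool.Agent.Lib.MP_1a91b9_ntW

open Finset Pool.Agent.Lib.MP_1a91b9_nuT
open Pool.Agent.Lib.MP_1a91b9_ntQ (Rt two_lt)

noncomputable section

variable {ι : Type} [DecidableEq ι] {B : ValuationSubring ℂ} [CD]

/-- the power of `lm` of one prime -/
def lq (D : RhD ι B) (q : ι) : ℂ := if D.a q = 0 then lm ^ 2 else lm

/-- the power of `lm` of a set of primes -/
def dn (D : RhD ι B) (S : Finset ι) : ℂ := ∏ q ∈ S, lq D q

/-- the values, the Euler factors, the averages -/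
structure NuD (D : RhD ι B) (j : ZMod 2) where
  L : Finset ι → ℂ
  F : Finset ι → ι → ℂ
  z : Finset ι → Finset ι → ℂ
  z' : Finset ι → ℂ
  P : ZMod 2 → Finset ι → ℂ
  hz : ∀ T S, z T S = 1 ∨ z T S = -1
  hz' : ∀ S, z' S = 1 ∨ z' S = -1
  av : ∀ e S, ∑ T ∈ S.powerset, (if ∑ q ∈ T, D.a q = e then z T S * L T * ∏ q ∈ S \ T, F T q
    else 0) = z' S * 2 ^ S.card * P e S
  F0 : ∀ T q, q ∉ T → D.a q = 0 →
    Rt B (F T q / lm ^ 2) (D.r q + j * D.l q + ∑ p ∈ T, D.s q p)
  F1 : ∀ T q, q ∉ T → D.a q = 1 → Rt B (F T q / lm) 1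

theorem zm2_cases : ∀ x : ZMod 2, x = 0 ∨ x = 1 := by decide

theorem zm2_self : ∀ x : ZMod 2, x + x = 0 := by decide

theorem Rt_pm (hB : (2 : ℂ)⁻¹ ∉ B) {z : ℂ} (h : z = 1 ∨ z = -1) : Rt B z 1 := by
  rcases h with rfl | rfl
  · exact Rt.one
  · exact Rt.neg hB Rt.one

variable [hq : Q8] {D : RhD ι B} {j : ZMod 2}

theorem lq_ne (D : RhD ι B) (q : ι) : lq D q ≠ 0 := by
  unfold lq
  split_ifs
  · exact pow_ne_zero 2 lm_ne
  · exact lm_ne

theorem dn_ne (D : RhD ι B) (S : Finset ι) : dn D S ≠ 0 := prod_ne_zero_iff.2 fun q _ => lq_ne D q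

theorem dn_sdiff (D : RhD ι B) {T S : Finset ι} (h : T ⊆ S) : dn D S = dn D T * dn D (S \ T) := by
  rw [dn, dn, dn, mul_comm, prod_sdiff h]

/-- the class of the Euler factor -/
def fq (D : RhD ι B) (j : ZMod 2) (T : Finset ι) (q : ι) : ZMod 2 :=
  if D.a q = 0 then D.r q + j * D.l q + ∑ p ∈ T, D.s q p else 1

theorem NuD.Fq (N : NuD D j) {T : Finset ι} {q : ι} (h : q ∉ T) :
    Rt B (N.F T q / lq D q) (fq D j T q) := by
  unfold lq fq
  rcases zm2_cases (D.a q) with h0 | h1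
  · rw [if_pos h0, if_pos h0]
    exact N.F0 T q h h0
  · have h0 : ¬ D.a q = 0 := by rw [h1]; exact one_ne_zero
    rw [if_neg h0, if_neg h0]
    exact N.F1 T q h h1

theorem NuD.prodF (N : NuD D j) (hB : (2 : ℂ)⁻¹ ∉ B) (T S : Finset ι) :
    Rt B ((∏ q ∈ S \ T, N.F T q) / dn D (S \ T)) (∏ q ∈ S \ T, fq D j T q) := by
  rw [dn, ← prod_div_distrib]
  exact Rt.prod hB _ fun q hq => N.Fq (mem_sdiff.1 hq).2

theorem prod_fq (D : RhD ι B) (j : ZMod 2) (T S : Finset ι) :
    ∏ q ∈ S \ T, fq D j T q = ∏ q ∈ A0 D.a S \ T, (D.r q + j * D.l q + ∑ p ∈ T, D.s q p) := by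
  have h : A0 D.a S \ T = (S \ T).filter fun q => D.a q = 0 := by
    ext q
    rw [mem_sdiff, mem_A0, mem_filter, mem_sdiff]
    tauto
  rw [h, prod_filter]
  rfl

/-- `2 ^ #S / dn S` -/
theorem two_dn (D : RhD ι B) (S : Finset ι) :
    2 ^ S.card / dn D S = (-1) ^ S.card * lm ^ (A1 D.a S).card := by
  have hl := lm_ne
  have h1 : (2 : ℂ) ^ S.card / dn D S = ∏ q ∈ S, (2 / lq D q) := by
    rw [prod_div_distrib, prod_const, dn]
  have h2 : ∀ q ∈ S, (2 : ℂ) / lq D q = -1 * (if D.a q = 1 then lm else 1) := by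
    intro q _
    unfold lq
    have e := lm_sq (hq := hq)
    rcases zm2_cases (D.a q) with h0 | h1
    · have h3 : ¬ D.a q = 1 := by rw [h0]; exact zero_ne_one
      rw [if_pos h0, if_neg h3, e]
      norm_num
    · have h3 : ¬ D.a q = 0 := by rw [h1]; exact one_ne_zero
      rw [if_neg h3, if_pos h1, div_eq_iff hl]
      linear_combination e
  rw [h1, prod_congr rfl h2, prod_mul_distrib, prod_const, ← prod_filter, prod_const]
  rfl

theorem sum_a (D : RhD ι B) (S : Finset ι) : ∑ q ∈ S, D.a q = ((A1 D.a S).card : ZMod 2) := by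
  have h : ∀ q ∈ S, D.a q = if D.a q = 1 then 1 else 0 := by
    intro q _
    rcases zm2_cases (D.a q) with h0 | h1
    · rw [h0]
      decide
    · rw [h1]
      decide
  rw [sum_congr rfl h, sum_boole]
  rfl

/-- the triangular argument -/
theorem exists_Rt (hB : (2 : ℂ)⁻¹ ∉ B) (w : Finset ι → ℂ) (c : Finset ι → Finset ι → ℂ)
    (R : Finset ι → ℂ) (h0 : ∃ y, Rt B (w ∅) y) (hc : ∀ T S, T ⊆ S → ∃ y, Rt B (c T S) y)
    (hcS : ∀ S, c S S = 1 ∨ c S S = -1)
    (hR : ∀ S, S.Nonempty → ∃ y, Rt B (R S) y)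
    (h : ∀ S, S.Nonempty → ∑ T ∈ S.powerset, c T S * w T = R S) (S : Finset ι) :
    ∃ y, Rt B (w S) y := by
  induction S using Finset.strongInduction with
  | H S ih =>
    rcases S.eq_empty_or_nonempty with rfl | hS
    · exact h0
    · have h1 := h S hS
      rw [← add_sum_erase _ _ (mem_powerset_self S)] at h1
      have h2 : w S = c S S * (R S - ∑ T ∈ S.powerset.erase S, c T S * w T) := by
        have h3 : c S S * c S S = 1 := by rcases hcS S with e | e <;> rw [e] <;> norm_num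
        linear_combination c S S * h1 - w S * h3
      have h3 : ∀ T ∈ S.powerset.erase S, ∃ y, Rt B (c T S * w T) y := by
        intro T hT
        obtain ⟨h4, h5⟩ := mem_erase.1 hT
        obtain ⟨y1, hy1⟩ := hc T S (mem_powerset.1 h5)
        obtain ⟨y2, hy2⟩ := ih T (ssubset_of_subset_of_ne (mem_powerset.1 h5) h4)
        exact ⟨_, hy1.mul hB hy2⟩
      choose! y hy using h3
      obtain ⟨y1, hy1⟩ := hR S hS
      rw [h2]
      exact ⟨_, (Rt_pm hB (hcS S)).mul hB (hy1.sub hB (Rt.sum hB _ hy))⟩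

namespace NuD

/-! ### `j = 1` -/

/-- the constant for `j = 1` -/
def cc (D : RhD ι B) (S : Finset ι) : ℂ := if ∑ q ∈ S, D.a q = 1 then lm ^ 4 else lm ^ 5

theorem cc_ne (D : RhD ι B) (S : Finset ι) : cc D S ≠ 0 := by
  unfold cc
  split_ifs
  · exact pow_ne_zero 4 lm_ne
  · exact pow_ne_zero 5 lm_ne

/-- the normalised value, `j = 1` -/
def w1 {j : ZMod 2} (N : NuD D j) (S : Finset ι) : ℂ := N.L S / (cc D S * dn D S)

/-- the coefficients -/
def c1 {j : ZMod 2} (N : NuD D j) (T S : Finset ι) : ℂ :=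
  if ∑ q ∈ T, D.a q = ∑ q ∈ S, D.a q then
    N.z T S * ((∏ q ∈ S \ T, N.F T q) / dn D (S \ T)) else 0

/-- the right side -/
def R1 {j : ZMod 2} (N : NuD D j) (S : Finset ι) : ℂ :=
  N.z' S * (-1) ^ S.card * (lm ^ (A1 D.a S).card * N.P (∑ q ∈ S, D.a q) S / cc D S)

theorem rec1 {j : ZMod 2} (N : NuD D j) (S : Finset ι) :
    ∑ T ∈ S.powerset, N.c1 T S * N.w1 T = N.R1 S := by
  have h := N.av (∑ q ∈ S, D.a q) S
  have hc := cc_ne D S
  have hd := dn_ne D S
  have e1 : N.R1 S = (N.z' S * 2 ^ S.card * N.P (∑ q ∈ S, D.a q) S) / (cc D S * dn D S) := by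
    have h2 := two_dn D S
    have h3 : (N.z' S * 2 ^ S.card * N.P (∑ q ∈ S, D.a q) S) / (cc D S * dn D S) =
        N.z' S * (2 ^ S.card / dn D S) * (N.P (∑ q ∈ S, D.a q) S / cc D S) := by
      field_simp
    rw [h3, h2, R1]
    ring
  rw [e1, ← h, sum_div]
  refine sum_congr rfl fun T hT => ?_
  have hTS := mem_powerset.1 hT
  have hdT := dn_ne D T
  have hdS := dn_ne D (S \ T)
  unfold c1 w1
  split_ifs with h4
  · have h5 : cc D T = cc D S := by
      unfold cc
      rw [h4]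
    rw [h5, dn_sdiff D hTS]
    field_simp
  · rw [zero_mul, zero_div]

/-- the hypotheses on the averages for `j = 1` -/
structure H1 (N : NuD D 1) (k : ZMod 2) : Prop where
  L0 : Rt B (N.L ∅ / lm ^ 5) k
  pe0 : ∀ S, S.Nonempty → (∀ q ∈ S, D.a q = 0) →
    Cm B (N.P 0 S / lm ^ 5) ((D.X 1 S + D.X 2 S) / 2)
  pe1 : ∀ S, (∃ q ∈ S, D.a q = 1) → Cm B (N.P 0 S / lm ^ 3) (D.X 1 S + D.X 2 S)
  po : ∀ S, S.Nonempty →
    Cm B (N.P 1 S / lm ^ 3) (∏ p ∈ S, (D.Nm p - 1) / 2 + (D.X 1 S + D.X 2 S))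

theorem v_X12 (D : RhD ι B) (S : Finset ι) : B.valuation (D.X 1 S + D.X 2 S) ≤ 1 :=
  (Valuation.map_add _ _ _).trans (max_le (D.int 1 S) (D.int 2 S))

theorem v_Nm (hB : (2 : ℂ)⁻¹ ∉ B) (D : RhD ι B) (S : Finset ι) :
    B.valuation (∏ p ∈ S, (D.Nm p - 1) / 2) ≤ 1 :=
  (Rt.prod hB S fun p _ => D.Nmr p).le

/-- three or more primes with `a = 1` -/
theorem R1_many (hB : (2 : ℂ)⁻¹ ∉ B) {N : NuD D 1} {k : ZMod 2} (H : H1 N k) {S : Finset ι}
    (h3 : 3 ≤ (A1 D.a S).card) : Rt B (N.R1 S) 0 := by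
  have hl := lm_ne
  have hs : Rt B (N.z' S * (-1) ^ S.card) 1 :=
    Rt_mul1 hB (Rt_pm hB (N.hz' S)) (Rt_pm hB (neg_one_pow_eq_or ℂ S.card))
  have hS : S.Nonempty := by
    rw [nonempty_iff_ne_empty]
    rintro rfl
    have : (A1 D.a (∅ : Finset ι)).card = 0 := by
      unfold A1
      rw [filter_empty, card_empty]
    omega
  have key : Rt B (lm ^ (A1 D.a S).card * N.P (∑ q ∈ S, D.a q) S / cc D S) 0 := by
    rcases zm2_cases (∑ q ∈ S, D.a q) with h0 | h1
    · have hcc : cc D S = lm ^ 5 := by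
        unfold cc
        rw [h0]
        exact if_neg zero_ne_one
      have hex : ∃ q ∈ S, D.a q = 1 := by
        have h5 : (A1 D.a S).Nonempty := by
          rw [← card_pos]
          omega
        obtain ⟨q, hq1⟩ := h5
        exact ⟨q, (mem_filter.1 hq1).1, (mem_filter.1 hq1).2⟩
      have h4 := (H.pe1 S hex).le (v_X12 D S)
      have e : lm ^ (A1 D.a S).card * N.P 0 S / lm ^ 5 =
          lm ^ ((A1 D.a S).card - 2) * (N.P 0 S / lm ^ 3) := by
        obtain ⟨n, hn⟩ : ∃ n, (A1 D.a S).card = n + 2 := ⟨(A1 D.a S).card - 2, by omega⟩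
        rw [hn, Nat.add_sub_cancel]
        field_simp
        ring
      rw [h0, hcc, e]
      exact RhD.rho_many (v_lm_lt hB) h4 (by omega)
    · have hcc : cc D S = lm ^ 4 := by
        unfold cc
        rw [h1]
        exact if_pos rfl
      have h4 := (H.po S hS).le ((Valuation.map_add _ _ _).trans
        (max_le (v_Nm hB D S) (v_X12 D S)))
      have e : lm ^ (A1 D.a S).card * N.P 1 S / lm ^ 4 =
          lm ^ ((A1 D.a S).card - 1) * (N.P 1 S / lm ^ 3) := by
        obtain ⟨n, hn⟩ : ∃ n, (A1 D.a S).card = n + 1 := ⟨(A1 D.a S).card - 1, by omega⟩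
        rw [hn, Nat.add_sub_cancel]
        field_simp
        ring
      rw [h1, hcc, e]
      exact RhD.rho_many (v_lm_lt hB) h4 (by omega)
  have h := hs.mul hB key
  rwa [mul_zero] at h

theorem Rt_of_Cm {x y : ℂ} {r : ZMod 2} (h : Cm B x y) (h1 : Rt B y r) : Rt B x r := h1.congr h

/-- no prime with `a = 1` -/
theorem R1_zero (hB : (2 : ℂ)⁻¹ ∉ B) {N : NuD D 1} {k : ZMod 2} (H : H1 N k) {S : Finset ι}
    (hS : S.Nonempty) (ha : ∀ q ∈ S, D.a q = 0) : Rt B (N.R1 S)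
      (∑ T ∈ S.powerset, D.lT T * (D.kap T * ∏ q ∈ S \ T, D.sT T q)) := by
  have hs : Rt B (N.z' S * (-1) ^ S.card) 1 :=
    Rt_mul1 hB (Rt_pm hB (N.hz' S)) (Rt_pm hB (neg_one_pow_eq_or ℂ S.card))
  have h1 : (A1 D.a S).card = 0 := by
    rw [card_eq_zero]
    refine filter_eq_empty_iff.2 fun q hq => ?_
    rw [ha q hq]
    exact zero_ne_one
  have h2 : ∑ q ∈ S, D.a q = 0 := sum_eq_zero ha
  have hcc : cc D S = lm ^ 5 := by
    unfold cc
    rw [h2]
    exact if_neg zero_ne_one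
  have h3 := hs.mul hB (Rt_of_Cm (H.pe0 S hS ha) (D.rho_zero hB hS ha))
  rw [one_mul] at h3
  rw [R1, h1, h2, hcc, pow_zero, one_mul]
  exact h3

/-- one prime with `a = 1` -/
theorem R1_one (hB : (2 : ℂ)⁻¹ ∉ B) {N : NuD D 1} {k : ZMod 2} (H : H1 N k) {S : Finset ι} {q : ι}
    (hq : q ∉ S) (haq : D.a q = 1) (ha : ∀ p ∈ S, D.a p = 0) :
    Rt B (N.R1 (insert q S)) (if S = ∅ then 1 else 0) := by
  have hl := lm_ne
  have hs : Rt B (N.z' (insert q S) * (-1) ^ (insert q S).card) 1 :=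
    Rt_mul1 hB (Rt_pm hB (N.hz' _)) (Rt_pm hB (neg_one_pow_eq_or ℂ _))
  have h1 : A1 D.a (insert q S) = {q} := by
    ext p
    rw [A1, mem_filter, mem_insert, mem_singleton]
    constructor
    · rintro ⟨h1 | h1, h2⟩
      · exact h1
      · rw [ha p h1] at h2
        exact absurd h2 zero_ne_one
    · rintro rfl
      exact ⟨Or.inl rfl, haq⟩
  have h2 : ∑ p ∈ insert q S, D.a p = 1 := by
    rw [sum_a, h1, card_singleton, Nat.cast_one]
  have hcc : cc D (insert q S) = lm ^ 4 := by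
    unfold cc
    rw [h2]
    exact if_pos rfl
  have h3 := hs.mul hB (Rt_of_Cm (H.po (insert q S) (insert_nonempty _ _)) (D.rho_one hB hq haq ha))
  rw [one_mul] at h3
  have e : lm ^ ({q} : Finset ι).card * N.P 1 (insert q S) / lm ^ 4 =
      N.P 1 (insert q S) / lm ^ 3 := by
    rw [card_singleton, pow_one]
    field_simp
  rw [R1, h1, h2, hcc, e]
  exact h3

/-- two primes with `a = 1` -/
theorem R1_two (hB : (2 : ℂ)⁻¹ ∉ B) {N : NuD D 1} {k : ZMod 2} (H : H1 N k) {S : Finset ι} {q p : ι}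
    (hpq : q ≠ p) (hq : q ∉ S) (hp : p ∉ S) (haq : D.a q = 1) (hap : D.a p = 1)
    (ha : ∀ p ∈ S, D.a p = 0) : Rt B (N.R1 (insert q (insert p S)))
      (∑ U ∈ S.powerset, D.lT (insert q (insert p U)) * (D.mu (insert q (insert p U)) *
        ∏ t ∈ S \ U, D.sT (insert q (insert p U)) t)) := by
  have hl := lm_ne
  have hs : Rt B (N.z' (insert q (insert p S)) * (-1) ^ (insert q (insert p S)).card) 1 :=
    Rt_mul1 hB (Rt_pm hB (N.hz' _)) (Rt_pm hB (neg_one_pow_eq_or ℂ _))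
  have h1 : A1 D.a (insert q (insert p S)) = {q, p} := by
    ext t
    rw [A1, mem_filter, mem_insert, mem_insert, mem_insert, mem_singleton]
    constructor
    · rintro ⟨h1 | h1 | h1, h2⟩
      · exact Or.inl h1
      · exact Or.inr h1
      · rw [ha t h1] at h2
        exact absurd h2 zero_ne_one
    · rintro (rfl | rfl)
      · exact ⟨Or.inl rfl, haq⟩
      · exact ⟨Or.inr (Or.inl rfl), hap⟩
  have h2 : ∑ p ∈ insert q (insert p S), D.a p = 0 := by
    rw [sum_a, h1, card_pair hpq]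
    decide
  have hcc : cc D (insert q (insert p S)) = lm ^ 5 := by
    unfold cc
    rw [h2]
    exact if_neg zero_ne_one
  have h3 := hs.mul hB (Rt_of_Cm (H.pe1 (insert q (insert p S)) ⟨q, mem_insert_self _ _, haq⟩)
    (D.rho_two hB hpq hq hp haq hap ha))
  rw [one_mul] at h3
  have e : lm ^ ({q, p} : Finset ι).card * N.P 0 (insert q (insert p S)) / lm ^ 5 =
      N.P 0 (insert q (insert p S)) / lm ^ 3 := by
    rw [card_pair hpq]
    field_simp
  rw [R1, h1, h2, hcc, e]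
  exact h3

/-- **The first orders, `j = 1`.** -/
theorem w_one (hB : (2 : ℂ)⁻¹ ∉ B) {N : NuD D 1} {k : ZMod 2} (H : H1 N k)
    (hs : ∀ q p, q ≠ p → D.a q = 0 → D.s q p = D.s p q) (S : Finset ι) :
    Rt B (N.w1 S) (GA D.a D.r D.l D.s k 1 S) := by
  have hR : ∀ S, S.Nonempty → ∃ y, Rt B (N.R1 S) y := by
    intro S hS
    have hc : (A1 D.a S).card = 0 ∨ (A1 D.a S).card = 1 ∨ (A1 D.a S).card = 2 ∨
      3 ≤ (A1 D.a S).card := by omega
    rcases hc with hc | hc | hc | hc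
    · refine ⟨_, R1_zero hB H hS fun q hq => ?_⟩
      rcases zm2_cases (D.a q) with h | h
      · exact h
      · have h1 := filter_eq_empty_iff.1 (card_eq_zero.1 hc) (x := q) hq
        exact absurd h h1
    · obtain ⟨q, hq⟩ := card_eq_one.1 hc
      have hq1 : q ∈ A1 D.a S := by
        rw [hq]
        exact mem_singleton_self q
      have hq0 : q ∉ A0 D.a S := fun h => disjoint_left.1 (A_disj D.a S) h hq1
      have hSe : S = insert q (A0 D.a S) := by
        have h5 := A_union D.a S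
        rw [hq, union_comm] at h5
        exact h5.symm
      rw [hSe]
      exact ⟨_, R1_one hB H hq0 (mem_A1.1 hq1).2 fun p hp => (mem_A0.1 hp).2⟩
    · obtain ⟨q, p, hpq, hqp⟩ := card_eq_two.1 hc
      have hq1 : q ∈ A1 D.a S := by
        rw [hqp]
        exact mem_insert_self q _
      have hp1 : p ∈ A1 D.a S := by
        rw [hqp]
        exact mem_insert_of_mem (mem_singleton_self p)
      have hq0 : q ∉ A0 D.a S := fun h => disjoint_left.1 (A_disj D.a S) h hq1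
      have hp0 : p ∉ A0 D.a S := fun h => disjoint_left.1 (A_disj D.a S) h hp1
      have hSe : S = insert q (insert p (A0 D.a S)) := by
        have h5 := A_union D.a S
        rw [hqp, union_comm, insert_union, singleton_union] at h5
        exact h5.symm
      rw [hSe]
      exact ⟨_, R1_two hB H hpq hq0 hp0 (mem_A1.1 hq1).2 (mem_A1.1 hp1).2
        fun t ht => (mem_A0.1 ht).2⟩
    · exact ⟨_, R1_many hB H hc⟩
  have hw0 : Rt B (N.w1 ∅) k := by
    have e : N.w1 ∅ = N.L ∅ / lm ^ 5 := by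
      unfold w1 cc dn
      rw [sum_empty, if_neg zero_ne_one, prod_empty, mul_one]
    rw [e]
    exact H.L0
  have hc1 : ∀ T S, T ⊆ S → Rt B (N.c1 T S)
      (if ∑ q ∈ T, D.a q = ∑ q ∈ S, D.a q then ∏ q ∈ S \ T, fq D 1 T q else 0) := by
    intro T S _
    unfold c1
    split_ifs
    · have h := (Rt_pm hB (N.hz T S)).mul hB (N.prodF hB T S)
      rwa [one_mul] at h
    · exact Rt.zero
  have hex : ∀ S, ∃ y, Rt B (N.w1 S) y := exists_Rt hB N.w1 N.c1 N.R1 ⟨k, hw0⟩
    (fun T S h => ⟨_, hc1 T S h⟩) (fun S => by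
      unfold c1
      rw [if_pos rfl, Finset.sdiff_self, prod_empty, dn, prod_empty, div_one, mul_one]
      exact N.hz S S) hR (fun S _ => N.rec1 S)
  have hnu : ∀ S, Rt B (N.w1 S) (rs B (N.w1 S)) := fun S => rs_spec (hex S)
  have hrho : ∀ S, S.Nonempty → Rt B (N.R1 S) (rs B (N.R1 S)) := fun S hS => rs_spec (hR S hS)
  have hval : ∀ S y, S.Nonempty → Rt B (N.R1 S) y → rs B (N.R1 S) = y :=
    fun S y hS hy => (hrho S hS).unique hy
  have hmain := GA_one (a := D.a) (s := D.s) hs D.r D.l k (kap := D.kap) (mu := D.mu)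
    (rho := fun S => rs B (N.R1 S)) (nu := fun S => rs B (N.w1 S)) ?_ ?_ ?_ ?_ ?_ ?_ ?_ ?_ S
  · rw [← hmain]
    exact hnu S
  · intro S hS ha
    exact D.kap_rec hB hS ha
  · intro S q p hpq hq hp haq hap ha
    exact D.mu_rec hB hpq hq hp haq hap ha
  · intro S hS ha
    exact hval S _ hS (R1_zero hB H hS ha)
  · intro S q hq haq ha
    exact hval _ _ (insert_nonempty _ _) (R1_one hB H hq haq ha)
  · intro S q p hpq hq hp haq hap ha
    exact hval _ _ (insert_nonempty _ _) (R1_two hB H hpq hq hp haq hap ha)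
  · intro S h3
    have hS : S.Nonempty := by
      rw [nonempty_iff_ne_empty]
      rintro rfl
      have : (A1 D.a (∅ : Finset ι)).card = 0 := by
        unfold A1
        rw [filter_empty, card_empty]
      omega
    exact hval S _ hS (R1_many hB H h3)
  · exact (hnu ∅).unique hw0
  · intro S hS
    have h1 := Rt.sum hB S.powerset fun T hT => (hc1 T S (mem_powerset.1 hT)).mul hB (hnu T)
    rw [N.rec1 S] at h1
    rw [← h1.unique (hrho S hS)]
    refine sum_congr rfl fun T hT => ?_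
    split_ifs
    · rw [prod_fq, mul_comm]
      simp only [one_mul]
    · rw [zero_mul]

/-! ### `j = 0` -/

/-- the normalised value, `j = 0` -/
def w0 {j : ZMod 2} (N : NuD D j) (S : Finset ι) : ℂ := N.L S / (N.L ∅ * dn D S)

/-- the coefficients -/
def c0' {j : ZMod 2} (N : NuD D j) (T S : Finset ι) : ℂ :=
  N.z T S * ((∏ q ∈ S \ T, N.F T q) / dn D (S \ T))

/-- the right side -/
def R0 {j : ZMod 2} (N : NuD D j) (S : Finset ι) : ℂ :=
  N.z' S * (-1) ^ S.card * (lm ^ (A1 D.a S).card * (N.P 0 S + N.P 1 S) / N.L ∅)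

theorem rec0 {j : ZMod 2} (N : NuD D j) (h0 : N.L ∅ ≠ 0) (S : Finset ι) :
    ∑ T ∈ S.powerset, N.c0' T S * N.w0 T = N.R0 S := by
  have h := congrArg₂ (· + ·) (N.av 0 S) (N.av 1 S)
  simp only [← sum_add_distrib] at h
  have h1 : ∀ T ∈ S.powerset, ((if ∑ q ∈ T, D.a q = 0 then N.z T S * N.L T * ∏ q ∈ S \ T, N.F T q
      else 0) + if ∑ q ∈ T, D.a q = 1 then N.z T S * N.L T * ∏ q ∈ S \ T, N.F T q else 0) =
      N.z T S * N.L T * ∏ q ∈ S \ T, N.F T q := by
    intro T _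
    rcases zm2_cases (∑ q ∈ T, D.a q) with h2 | h2
    · rw [h2, if_pos rfl, if_neg zero_ne_one, add_zero]
    · rw [h2, if_neg one_ne_zero, if_pos rfl, zero_add]
  rw [sum_congr rfl h1] at h
  have hd := dn_ne D S
  have e1 : N.R0 S = (N.z' S * 2 ^ S.card * N.P 0 S + N.z' S * 2 ^ S.card * N.P 1 S) /
      (N.L ∅ * dn D S) := by
    have h2 := two_dn D S
    have h3 : (N.z' S * 2 ^ S.card * N.P 0 S + N.z' S * 2 ^ S.card * N.P 1 S) /
        (N.L ∅ * dn D S) = N.z' S * (2 ^ S.card / dn D S) * ((N.P 0 S + N.P 1 S) / N.L ∅) := by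
      field_simp
    rw [h3, h2, R0]
    ring
  rw [e1, ← h, sum_div]
  refine sum_congr rfl fun T hT => ?_
  have hTS := mem_powerset.1 hT
  have hdT := dn_ne D T
  have hdS := dn_ne D (S \ T)
  unfold c0' w0
  rw [dn_sdiff D hTS]
  field_simp

/-- **The first orders, `j = 0`.** -/
theorem w_zero (hB : (2 : ℂ)⁻¹ ∉ B) {N : NuD D 0} (h0 : N.L ∅ ≠ 0)
    (hR : ∀ S, S.Nonempty → B.valuation (N.R0 S) < 1) (k : ZMod 2) (S : Finset ι) :
    Rt B (N.w0 S) (GA D.a D.r D.l D.s k 0 S) := by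
  have hw0 : Rt B (N.w0 ∅) 1 := by
    have e : N.w0 ∅ = 1 := by
      unfold w0 dn
      rw [prod_empty, mul_one, div_self h0]
    rw [e]
    exact Rt.one
  have hc1 : ∀ T S, T ⊆ S → Rt B (N.c0' T S) (∏ q ∈ S \ T, fq D 0 T q) := by
    intro T S _
    unfold c0'
    have h := (Rt_pm hB (N.hz T S)).mul hB (N.prodF hB T S)
    rwa [one_mul] at h
  have hex : ∀ S, ∃ y, Rt B (N.w0 S) y := exists_Rt hB N.w0 N.c0' N.R0 ⟨1, hw0⟩
    (fun T S h => ⟨_, hc1 T S h⟩) (fun S => by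
      unfold c0'
      rw [Finset.sdiff_self, prod_empty, dn, prod_empty, div_one, mul_one]
      exact N.hz S S) (fun S hS => ⟨0, Rt.of_lt (hR S hS)⟩) (fun S _ => N.rec0 h0 S)
  have hnu : ∀ S, Rt B (N.w0 S) (rs B (N.w0 S)) := fun S => rs_spec (hex S)
  have hmain := GA_zero D.a D.r D.l D.s k (nu := fun S => rs B (N.w0 S)) ?_ S
  · rw [← hmain]
    exact hnu S
  · intro S
    have h1 := Rt.sum hB S.powerset fun T hT => (hc1 T S (mem_powerset.1 hT)).mul hB (hnu T)
    rw [N.rec0 h0 S] at h1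
    have h2 : ∑ T ∈ S.powerset, rs B (N.w0 T) * ∏ q ∈ A0 D.a S \ T, (D.r q + ∑ p ∈ T, D.s q p) =
        ∑ T ∈ S.powerset, (∏ q ∈ S \ T, fq D 0 T q) * rs B (N.w0 T) := by
      refine sum_congr rfl fun T hT => ?_
      rw [prod_fq, mul_comm]
      simp only [zero_mul, add_zero]
    rw [h2]
    rcases S.eq_empty_or_nonempty with rfl | hS
    · rw [if_pos rfl, powerset_empty, sum_singleton]
      have h3 : (∅ : Finset ι) \ ∅ = ∅ := rfl
      rw [h3, prod_empty, one_mul]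
      exact (hnu ∅).unique hw0
    · rw [if_neg hS.ne_empty]
      exact h1.unique (Rt.of_lt (hR S hS))

end NuD

end

end Pool.Agent.Lib.MP_1a91b9_ntW
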