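import Pool.Agent.Lib.MP_1a91b9_ntW.A.Nu0
import Pool.Agent.Lib.MP_1a91b9_ntW.A.Avg8

/-!
# Phase 6, part A, file Lam8: the values `La8 k j T` satisfy the averaging formulas

Main results: `av8`, `La8_ne`: `GW k j S ≠ 0` implies `La8 k j S ≠ 0`; `nu8_zero`, `nu8_one`.
-/

set_option autoImplicit false

namespace Pool.Agent.Lib.MP_1a91b9_ntW

open NumberField Finset Pool.Agent.Lib.MP_1a91b9_nuT Pool.Agent.Lib.MP_1a91b9_nuT.S3
open Pool.Agent.Lib.MP_1a91b9_ntQ (em Rt)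

noncomputable section

theorem sgn2_eq (x : ZMod 2) : sgn2 x = sn x := by
  rw [sgn2, sn]
  push_cast
  rfl

theorem cqd_eq (q : Pg) (x : 𝓞 K8) : cqd q x = cq q x := rfl

theorem wT_eq {T S : Finset Pg} (hT : T ⊆ S) (b : 𝓞 K8) : wT T S b = t8 T S b := by
  have h1 : ∏ q ∈ S, pw T q b = (∏ q ∈ S \ T, pw T q b) * ∏ q ∈ T, pw T q b :=
    (prod_sdiff hT).symm
  rw [wT, h1, t8, mul_comm]
  congr 1
  · exact prod_congr rfl fun q hq => by rw [pw, if_pos hq, cqd_eq]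
  · exact prod_congr rfl fun q hq => by rw [pw, if_neg (mem_sdiff.1 hq).2, cqd_eq]

theorem UU_eq (k j : ZMod 2) (Q : ℂ) : UU k j Q = U8 j (sn k) Q := by
  rw [UU, U8, sgn2_eq]

/-- **The averaging formulas.** -/
theorem av8 (k j : ZMod 2) : Av8 k j (La8 k j) := by
  intro T S hT
  have h := LT8_SM k j hT
  rw [LT8_prime] at h
  have e1 : ∏ q ∈ S \ T, (em q.1 - sgn2 (ext k j T q)) =
      ∏ q ∈ S \ T, (em q.1 - sn (k * aa q.1 + j * ll q.1 + ∑ t ∈ T, sy q t)) :=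
    prod_congr rfl fun q _ => by rw [sgn2_eq, ext, tht]
  have e2 : SM (DD S) (fun b => wT T S b * UU k j (zz S b)) =
      SM (DD S) (fun b => t8 T S b * U8 j (sn k) (em b / em (DD S))) :=
    SM_congr fun b => by rw [wT_eq hT, UU_eq, zz]
  rw [e1, e2, h, sgn2_eq, sn_add]
  have h1 := sn_mul_self (AS T * AS S + j * lS T)
  have h2 := sn_mul_self (tht k j (DD S))
  have e3 : sg8 j T S = sn (AS T * AS S + j * lS T) := rfl
  have e4 : th8 k j (DD S) = sn (tht k j (DD S)) := rfl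
  rw [e3, e4]
  obtain ⟨X, hX⟩ : ∃ X, X = SM (DD S) (fun b => t8 T S b * U8 j (sn k) (em b / em (DD S))) :=
    ⟨_, rfl⟩
  rw [← hX]
  linear_combination (X * sn (tht k j (DD S)) ^ 2) * h1 + X * h2

theorem qc_lam8 (q : Pg) : qc q lam = (-1) ^ (ll q.1).val := by
  have h := cq_lam q
  rw [cq, sn] at h
  exact_mod_cast h

theorem sy_symm0 (q p : Pg) (h : q ≠ p) (ha : aa q.1 = 0) : sy q p = sy p q := by
  rw [sy_recip q p h, ha, zero_mul, add_zero]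

/-- **The criterion for the value to be nonzero.** -/
theorem La8_ne {k j : ZMod 2} {S : Finset Pg} (hG : GW k j S ≠ 0) : La8 k j S ≠ 0 :=
  LL_ne qc_lam8 sy_symm0 k j (La8 k j) (av8 k j) hG

theorem LG8_ne {k j : ZMod 2} {S : Finset Pg} (hG : GW k j S ≠ 0) :
    LG Pr (X8 k j S) 1 ≠ 0 := by
  intro h
  apply La8_ne hG
  rw [La8, h, mul_zero]

theorem nu8_zero {B : ValuationSubring ℂ} (hB : (2 : ℂ)⁻¹ ∉ B) (k : ZMod 2) (S : Finset Pg) :
    Rt B (La8 k 0 S / (La8 k 0 ∅ * eu8 S)) (GW k 0 S) :=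
  nu_zero hB qc_lam8 k (La8 k 0) (av8 k 0) S

theorem nu8_one {B : ValuationSubring ℂ} (hB : (2 : ℂ)⁻¹ ∉ B) (k : ZMod 2) (S : Finset Pg) :
    Rt B (La8 k 1 S / (om * ct8 S * eu8 S)) (GW k 1 S) :=
  nu_one hB qc_lam8 sy_symm0 k (La8 k 1) (av8 k 1) S

end

end Pool.Agent.Lib.MP_1a91b9_ntW
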