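import Pool.Agent.Lib.MP_1a91b9_ntW.A.Nu8

/-!
# Phase 6, part A, file Nu0: the bounds for `j = 0` and the main results on the values

`LL_ne`: `GW k j S ≠ 0` implies `LL S ≠ 0`; `nu_zero`, `nu_one`: the residue of the normalised value
is the determinant.
-/

set_option autoImplicit false
set_option linter.unusedSectionVars false

namespace Pool.Agent.Lib.MP_1a91b9_ntW

open NumberField Finset Pool.Agent.Lib.MP_1a91b9_nuT Pool.Agent.Lib.MP_1a91b9_nuT.S3
  Pool.Agent.Lib.MP_1a91b9_nuT.Ell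
open Pool.Agent.Lib.MP_1a91b9_ntQ (em em_add em_mul em_pow em_sub em_zero em_one em_ne Rt two_lt
  em_neg)

noncomputable section

variable {B : ValuationSubring ℂ}

theorem oo_zz {S : Finset Pg} (hS : S.Nonempty) {y : 𝓞 K8} (h : ∀ q ∈ S, ¬ q.1 ∣ y) :
    Oo (zz S y) := by
  have hD : em (DD S) ≠ 0 := em_ne (DD_ne S)
  obtain ⟨c, hc⟩ : lam ∣ DD S - 1 := by
    rw [lam_dvd_iff, cp_sub, cp_one]
    have := (Pr_iff.1 (Pr_DD S)).1
    simp only [Prod.fst_sub]
    omega
  refine ⟨(od_zz hS h).notMem, DD S, c, ?_, DD_ne S, ?_⟩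
  · change DD S = 1 + lam * c
    linear_combination hc
  · rw [zz, mul_div_cancel₀ _ hD]
    exact em_mem y

/-- the value for the empty set -/
theorem LL_empty {k j : ZMod 2} {LL : Finset Pg → ℂ} (hav : Av8 k j LL) : LL ∅ = UU k j 0 := by
  have h := hav ∅ ∅ (Finset.Subset.refl _)
  have hSM : SM (DD ∅) (fun b => wT ∅ ∅ b * UU k j (zz ∅ b)) = UU k j 0 := by
    have h1 := SM_sup (R := ℂ) (ι := Unit) (a := fun _ => (0 : 𝓞 K8)) (DD_ne ∅)
      (F := fun b => wT ∅ ∅ b * UU k j (zz ∅ b)) (wUU_per ∅ ∅ k j)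
      (fun x _ => ⟨(), by rw [DD_empty]; exact one_dvd _⟩) (fun _ _ _ => rfl)
    rw [h1, Fintype.sum_unique, wT, prod_empty, one_mul, zz, em_zero, zero_div]
  rw [hSM, Finset.sdiff_self, prod_empty, mul_one] at h
  have h0 : AS ∅ * AS ∅ + j * lS ∅ + tht k j (DD ∅) = 0 := by
    rw [AS, lS, sum_empty, sum_empty, DD_empty, tht, aa_one, ll_one]
    ring
  rwa [h0, sgn2_zero, one_mul] at h

theorem L0_pow {k : ZMod 2} {LL : Finset Pg → ℂ} (hav : Av8 k 0 LL) :
    (LL ∅ / om) ^ 4 = lm ^ 10 := by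
  rw [LL_empty hav, UU, if_pos rfl]
  exact U0_zero_pow (sgn2_or k)

theorem L0_ne {k : ZMod 2} {LL : Finset Pg → ℂ} (hav : Av8 k 0 LL) : LL ∅ / om ≠ 0 := by
  intro h
  have h1 := L0_pow hav
  rw [h, zero_pow (by norm_num)] at h1
  exact pow_ne_zero 10 lm_ne h1.symm

/-- small relative to the value for the empty set -/
theorem lt_L0 (hB : (2 : ℂ)⁻¹ ∉ B) {k : ZMod 2} {LL : Finset Pg → ℂ} (hav : Av8 k 0 LL) {x : ℂ}
    (h : B.valuation x ≤ B.valuation lm ^ 3) : B.valuation (x / (LL ∅ / om)) < 1 := by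
  have h1 : B.valuation (LL ∅ / om) ^ 4 = B.valuation lm ^ 10 := by
    rw [← map_pow, ← map_pow, L0_pow hav]
  have h0 : 0 < B.valuation (LL ∅ / om) := by
    rw [zero_lt_iff]
    exact (Valuation.ne_zero_iff _).2 (L0_ne hav)
  have hl := v_lm_pos (hq := q8) (B := B)
  rw [map_div₀, div_lt_one₀ h0]
  refine h.trans_lt ?_
  by_contra hcon
  rw [not_lt] at hcon
  have h2 := pow_le_pow_left₀ zero_le hcon 4
  rw [h1, ← pow_mul] at h2
  have h3 : B.valuation lm ^ (3 * 4) < B.valuation lm ^ 10 :=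
    pow_lt_pow_right_of_lt_one₀ hl (v_lm_lt hB) (by norm_num)
  exact absurd h3 (not_lt.2 h2)

theorem nN_term_le {S : Finset Pg} (hS : S.Nonempty) {F : ℂ → ℂ} {g : B.ValueGroup}
    (h : ∀ Q, Oo Q → B.valuation (F Q) ≤ g) (b : 𝓞 K8) :
    B.valuation (nN S b * F (zz S b)) ≤ g := by
  rcases nN_cases S b with h1 | ⟨h1, h2⟩
  · rw [h1, zero_mul, map_zero]
    exact zero_le
  · rw [h1, one_mul]
    exact h _ (oo_zz hS h2)

/-- the right side for `j = 0` -/
theorem R0_lt (hB : (2 : ℂ)⁻¹ ∉ B) (hl : ∀ q : Pg, qc q lam = (-1) ^ (ll q.1).val) (k : ZMod 2)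
    (LL : Finset Pg → ℂ) (hav : Av8 k 0 LL) {S : Finset Pg} (hS : S.Nonempty) :
    B.valuation ((N8 hB hl k 0 LL hav).R0 S) < 1 := by
  have hlm := lm_ne
  have ho := om_ne
  have hD := DD_ne S
  have e2 := lm_sq (hq := q8)
  obtain ⟨N, hN⟩ : ∃ N, N = N8 hB hl k 0 LL hav := ⟨_, rfl⟩
  have hP : N.P 0 S + N.P 1 S = SM (DD S) (fun b => nN S b * UU k 0 (zz S b)) / om := by
    have h1 : SM (DD S) (fun b => nN S b * UE k 0 0 (zz S b)) +
        SM (DD S) (fun b => nN S b * UE k 0 1 (zz S b)) =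
        2 * SM (DD S) (fun b => nN S b * UU k 0 (zz S b)) := by
      rw [← SM_add hD, ← SM_cmul hD]
      refine SM_congr fun b => ?_
      unfold UE
      rw [sgn2_zero, sgn2_one]
      ring
    rw [hN]
    change PN k 0 0 S + PN k 0 1 S = _
    unfold PN
    rw [← add_div, h1]
    field_simp
  have hbase : B.valuation (N.z' S * (-1) ^ S.card) = 1 := by
    have h1 : N.z' S * (-1) ^ S.card = 1 ∨ N.z' S * (-1) ^ S.card = -1 := by
      rcases N.hz' S with h | h <;> rcases neg_one_pow_eq_or ℂ S.card with h1 | h1 <;>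
        rw [h, h1] <;> norm_num
    rcases h1 with h1 | h1
    · rw [h1, map_one]
    · rw [h1, Valuation.map_neg, map_one]
  rw [← hN]
  have hL : N.L ∅ = LL ∅ / om := by rw [hN]; rfl
  unfold NuD.R0
  rw [map_mul, hbase, one_mul, hL]
  refine lt_L0 hB hav ?_
  rw [hP]
  by_cases hA : ∀ q ∈ S, aa q.1 = 0
  · -- all `a = 0`
    have hc : B.valuation (lm ^ (A1 (D4 B hB hl).a S).card) ≤ 1 := by
      rw [map_pow]
      exact pow_le_one' (v_lm_le hB) _
    rw [map_mul]
    refine (mul_le_of_le_one_left' hc).trans ?_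
    obtain ⟨F, hF⟩ : ∃ F : 𝓞 K8 → ℂ, F = fun b => nN S b *
        ((U0 (sgn2 k) (zz S b) + U0 (sgn2 k) (-zz S b)) / om) := ⟨_, rfl⟩
    have e : SM (DD S) (fun b => nN S b * UU k 0 (zz S b)) / om = SM (DD S) F / 2 := by
      have hp : Pd (DD S) fun b => nN S b * UU k 0 (zz S b) := fun x y h => by
        change nN S x * _ = nN S y * _
        rw [nN_per S x y h, UU_congr (zz_congr h)]
      have h1 := SM_neg hD hp
      have h2 : SM (DD S) F = (SM (DD S) (fun b => nN S b * UU k 0 (zz S b)) +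
          SM (DD S) (fun b => nN S (-b) * UU k 0 (zz S (-b)))) / om := by
        rw [← SM_add hD, div_eq_inv_mul, ← SM_cmul hD, hF]
        refine SM_congr fun b => ?_
        rw [nN_neg hA, zz_neg, UU, UU, if_pos rfl, if_pos rfl]
        ring
      rw [h2, h1]
      ring
    rw [e]
    refine v_half_ge hD ?_ ?_ ?_ ?_
    · intro x y h
      have h3 : -zz S x - -zz S y ∈ PP.lattice := by
        have e1 : -zz S x - -zz S y = -(zz S x - zz S y) := by ring
        rw [e1]
        exact neg_mem (zz_congr h)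
      have h4 := UU_congr (k := k) (j := 0) (zz_congr h)
      have h5 := UU_congr (k := k) (j := 0) h3
      rw [UU, UU, if_pos rfl, if_pos rfl] at h4 h5
      rw [hF]
      change nN S x * _ = nN S y * _
      rw [nN_per S x y h, h4, h5]
    · intro x
      rw [hF]
      change nN S (-x) * _ = nN S x * _
      rw [nN_neg hA, zz_neg, neg_neg, add_comm]
    · intro x
      rw [hF]
      refine nN_term_le hS (F := fun Q => (U0 (sgn2 k) Q + U0 (sgn2 k) (-Q)) / om)
        (fun Q hQ => ?_) x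
      have h1 := v_om_lm 3 (v_U0_add hB (sgn2_or k) hQ.od)
      rwa [mul_one] at h1
    · intro x hx
      rw [hF]
      obtain ⟨q, hq⟩ := hS
      have h1 := (q.2.1.dvd_or_dvd ((dvd_DD hq).trans hx)).resolve_left (Pg_ndvd_two q)
      change nN S x * _ = 0
      rw [nN_of_dvd hq h1, zero_mul]
  · -- some `a = 1`
    push Not at hA
    obtain ⟨q, hq, hq1⟩ := hA
    have hcard : 1 ≤ (A1 (D4 B hB hl).a S).card := by
      refine card_pos.2 ⟨q, mem_filter.2 ⟨hq, ?_⟩⟩
      exact (zm2_cases _).resolve_left hq1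
    have h1 : B.valuation (lm ^ (A1 (D4 B hB hl).a S).card) ≤ B.valuation lm := by
      rw [map_pow]
      have h3 := pow_le_pow_right_of_le_one' (v_lm_le (B := B) hB) hcard
      rwa [pow_one] at h3
    have h2 : B.valuation (SM (DD S) (fun b => nN S b * UU k 0 (zz S b)) / om) ≤
        B.valuation lm ^ 2 := by
      have e : SM (DD S) (fun b => nN S b * UU k 0 (zz S b)) / om =
          SM (DD S) (fun b => nN S b * (U0 (sgn2 k) (zz S b) / om)) := by
        rw [div_eq_inv_mul, ← SM_cmul hD]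
        refine SM_congr fun b => ?_
        rw [UU, if_pos rfl]
        ring
      rw [e]
      refine v_SM_le hD fun b => ?_
      refine nN_term_le hS (F := fun Q => U0 (sgn2 k) Q / om) (fun Q hQ => ?_) b
      have h1 := v_om_lm 2 (v_U0 hB (sgn2_or k) hQ)
      rwa [mul_one] at h1
    rw [map_mul]
    have e : B.valuation lm ^ 3 = B.valuation lm * B.valuation lm ^ 2 := by
      rw [← pow_succ']
    rw [e]
    exact mul_le_mul' h1 h2

/-! ### The main results -/

/-- the order of the Euler factors -/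
def eu8 (S : Finset Pg) : ℂ := ∏ q ∈ S, (if aa q.1 = 0 then lm ^ 2 else lm)

/-- the constant for `j = 1` -/
def ct8 (S : Finset Pg) : ℂ := if AS S = 1 then lm ^ 4 else lm ^ 5

theorem eu8_ne (S : Finset Pg) : eu8 S ≠ 0 := by
  have hl := lm_ne
  refine prod_ne_zero_iff.2 fun q _ => ?_
  split_ifs
  · exact pow_ne_zero 2 hl
  · exact hl

theorem ct8_ne (S : Finset Pg) : ct8 S ≠ 0 := by
  have hl := lm_ne
  unfold ct8
  split_ifs
  · exact pow_ne_zero 4 hl
  · exact pow_ne_zero 5 hl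

/-- **the first order of the value, `j = 0`** -/
theorem nu_zero (hB : (2 : ℂ)⁻¹ ∉ B) (hl : ∀ q : Pg, qc q lam = (-1) ^ (ll q.1).val) (k : ZMod 2)
    (LL : Finset Pg → ℂ) (hav : Av8 k 0 LL) (S : Finset Pg) :
    Rt B (LL S / (LL ∅ * eu8 S)) (GW k 0 S) := by
  have h := NuD.w_zero hB (N := N8 hB hl k 0 LL hav) (L0_ne hav)
    (fun S hS => R0_lt hB hl k LL hav hS) k S
  have e : (N8 hB hl k 0 LL hav).w0 S = LL S / (LL ∅ * eu8 S) := by
    change (LL S / om) / ((LL ∅ / om) * eu8 S) = _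
    have ho := om_ne
    have h0 : LL ∅ ≠ 0 := by
      intro h0
      apply L0_ne hav
      rw [h0, zero_div]
    have h1 := eu8_ne S
    field_simp
  rw [e] at h
  exact h

/-- **the first order of the value, `j = 1`** -/
theorem nu_one (hB : (2 : ℂ)⁻¹ ∉ B) (hl : ∀ q : Pg, qc q lam = (-1) ^ (ll q.1).val)
    (hs : ∀ q p : Pg, q ≠ p → aa q.1 = 0 → sy q p = sy p q) (k : ZMod 2)
    (LL : Finset Pg → ℂ) (hav : Av8 k 1 LL) (S : Finset Pg) :
    Rt B (LL S / (om * ct8 S * eu8 S)) (GW k 1 S) := by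
  have h := NuD.w_one hB (N := N8 hB hl k 1 LL hav) (H1_8 hB hl k LL hav) hs S
  have e : (N8 hB hl k 1 LL hav).w1 S = LL S / (om * ct8 S * eu8 S) := by
    change (LL S / om) / (ct8 S * eu8 S) = _
    rw [div_div, mul_assoc]
  rw [e] at h
  exact h

/-- **The criterion for the value to be nonzero.** -/
theorem LL_ne (hl : ∀ q : Pg, qc q lam = (-1) ^ (ll q.1).val)
    (hs : ∀ q p : Pg, q ≠ p → aa q.1 = 0 → sy q p = sy p q) (k j : ZMod 2)
    (LL : Finset Pg → ℂ) (hav : Av8 k j LL) {S : Finset Pg} (hG : GW k j S ≠ 0) : LL S ≠ 0 := by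
  intro h
  obtain ⟨B, hB⟩ := Pool.Agent.Lib.MP_1a91b9_ntQ.exists_B2
  rcases zm2_cases j with hj | hj
  · rw [hj] at hG hav
    have h1 := nu_zero hB hl k LL hav S
    rw [h, zero_div] at h1
    exact hG (h1.unique Rt.zero)
  · rw [hj] at hG hav
    have h1 := nu_one hB hl hs k LL hav S
    rw [h, zero_div] at h1
    exact hG (h1.unique Rt.zero)

end

end Pool.Agent.Lib.MP_1a91b9_ntW
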