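import Pool.Agent.Lib.MP_1a91b9_ntW.A.Uv0
import Pool.Agent.Lib.MP_1a91b9_ntW.A.Ind8
import Pool.Agent.Lib.MP_1a91b9_ntW.A.Fac8

/-!
# Phase 6, part A, file Nu8: the first orders of the values `LL T`

`Av8 k j LL`: the averaging formulas of the values `LL T = Λ(T)`, page (1.1), (1.2). Main result
`LL_ne`: `GW k j S ≠ 0` implies `LL S ≠ 0`; `Rt_one8`, `Rt_zero8`: the residue of the normalised value
is the determinant.
-/

set_option autoImplicit false
set_option linter.unusedSectionVars false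

namespace Pool.Agent.Lib.MP_1a91b9_ntW

open NumberField Finset Pool.Agent.Lib.MP_1a91b9_nuT Pool.Agent.Lib.MP_1a91b9_nuT.S3
  Pool.Agent.Lib.MP_1a91b9_nuT.Ell
open Pool.Agent.Lib.MP_1a91b9_ntQ (em em_add em_mul em_pow em_sub em_zero em_one em_ne Rt two_lt
  em_neg)

noncomputable section

/-- the function `U_k`, `ep = (-1) ^ k` -/
def UU (k j : ZMod 2) (Q : ℂ) : ℂ := if j = 0 then U0 (sgn2 k) Q else U1 (sgn2 k) Q

/-- **the averaging formulas** -/
def Av8 (k j : ZMod 2) (LL : Finset Pg → ℂ) : Prop := ∀ T S, T ⊆ S →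
  sgn2 (AS T * AS S + j * lS T + tht k j (DD S)) *
    (LL T * ∏ q ∈ S \ T, (em q.1 - sgn2 (ext k j T q))) =
    SM (DD S) fun b => wT T S b * UU k j (zz S b)

/-! ### Periods -/

theorem U0_add_lat {ep l : ℂ} (hl : l ∈ PP.lattice) (Q : ℂ) : U0 ep (Q + l) = U0 ep Q := by
  unfold U0
  have h : ∀ x : ℂ, E1 (x + (Q + l)) = E1 (x + Q) := fun x => by
    rw [← add_assoc, S3.E1_add hl]
  rw [h, h, h, h]

theorem U1_add_lat {ep l : ℂ} (hl : l ∈ PP.lattice) (Q : ℂ) : U1 ep (Q + l) = U1 ep Q := by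
  unfold U1
  have h : ∀ x : ℂ, E1 (x + (Q + l)) = E1 (x + Q) := fun x => by
    rw [← add_assoc, S3.E1_add hl]
  rw [h, h, h, h, h, h, h, h]

theorem UU_congr {k j : ZMod 2} {x y : ℂ} (h : x - y ∈ PP.lattice) : UU k j x = UU k j y := by
  have e : x = y + (x - y) := by ring
  unfold UU
  rw [e]
  split_ifs
  · exact U0_add_lat h y
  · exact U1_add_lat h y

/-! ### The even and the odd part -/

/-- twice the even part (`e = 0`) or the odd part (`e = 1`) -/
def UE (k j e : ZMod 2) (Q : ℂ) : ℂ := UU k j Q + sgn2 e * UU k j (-Q)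

theorem UE_congr {k j e : ZMod 2} {x y : ℂ} (h : x - y ∈ PP.lattice) :
    UE k j e x = UE k j e y := by
  have h1 : -x - -y ∈ PP.lattice := by
    have e1 : -x - -y = -(x - y) := by ring
    rw [e1]
    exact neg_mem h
  unfold UE
  rw [UU_congr h, UU_congr h1]

theorem UE_neg (k j e : ZMod 2) (Q : ℂ) : UE k j e (-Q) = sgn2 e * UE k j e Q := by
  unfold UE
  rw [neg_neg]
  linear_combination (-UU k j (-Q)) * sgn2_sq e

/-- the averages -/
def PN (k j e : ZMod 2) (S : Finset Pg) : ℂ :=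
  SM (DD S) (fun b => nN S b * UE k j e (zz S b)) / (2 * om)

theorem wT_neg {T S : Finset Pg} (hT : T ⊆ S) (x : 𝓞 K8) :
    wT T S (-x) = sgn2 (AS T) * wT T S x := by
  have h1 : wT T S (-1) = sgn2 (AS T) := by
    rw [wT_val hT fun q _ hd => q.2.1.not_isUnit (isUnit_of_dvd_unit hd isUnit_one.neg), AS]
    clear hT
    induction T using Finset.induction_on with
    | empty => rw [prod_empty, sum_empty, sgn2_zero]
    | insert t T ht ih =>
      rw [prod_insert ht, sum_insert ht, ih, cqd, qc_neg_one, sgn2_add]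
      rfl
  have e : -x = -1 * x := by ring
  rw [e, wT_mul, h1]

theorem wUE_per (T S : Finset Pg) (k j e : ZMod 2) :
    Pd (DD S) fun b => wT T S b * UE k j e (zz S b) := fun x y h => by
  change wT T S x * UE k j e (zz S x) = wT T S y * UE k j e (zz S y)
  rw [wT_per T S x y h, UE_congr (zz_congr h)]

theorem wUU_per (T S : Finset Pg) (k j : ZMod 2) :
    Pd (DD S) fun b => wT T S b * UU k j (zz S b) := fun x y h => by
  change wT T S x * UU k j (zz S x) = wT T S y * UU k j (zz S y)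
  rw [wT_per T S x y h, UU_congr (zz_congr h)]

theorem SM_neg {M : 𝓞 K8} (hM : M ≠ 0) {F : 𝓞 K8 → ℂ} (hF : Pd M F) :
    SM M (fun x => F (-x)) = SM M F := by
  have h := SM_mul (R := ℂ) hM hF (c := -1) isCoprime_one_left.neg_left
  rw [← h]
  refine SM_congr fun x => ?_
  rw [neg_one_mul]

/-- only the part with the parity of `T` contributes -/
theorem SM_par {T S : Finset Pg} (hT : T ⊆ S) (k j e : ZMod 2) :
    SM (DD S) (fun b => wT T S b * UE k j e (zz S b)) =
      if AS T = e then 2 * SM (DD S) (fun b => wT T S b * UU k j (zz S b)) else 0 := by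
  have hD := DD_ne S
  have h1 : SM (DD S) (fun b => wT T S b * UU k j (-zz S b)) =
      sgn2 (AS T) * SM (DD S) (fun b => wT T S b * UU k j (zz S b)) := by
    rw [← SM_neg hD (wUU_per T S k j), ← SM_cmul hD]
    refine SM_congr fun b => ?_
    rw [wT_neg hT, zz_neg]
    linear_combination (-(wT T S b * UU k j (-zz S b))) * sgn2_sq (AS T)
  have h2 : SM (DD S) (fun b => wT T S b * UE k j e (zz S b)) =
      SM (DD S) (fun b => wT T S b * UU k j (zz S b)) +
        sgn2 e * (sgn2 (AS T) * SM (DD S) (fun b => wT T S b * UU k j (zz S b))) := by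
    rw [← h1, ← SM_cmul hD, ← SM_add hD]
    refine SM_congr fun b => ?_
    unfold UE
    ring
  rw [h2, ← mul_assoc, ← sgn2_add]
  split_ifs with h
  · rw [h, zm2_self, sgn2_zero]
    ring
  · have h3 : ∀ x y : ZMod 2, y ≠ x → x + y = 1 := by decide
    rw [h3 _ _ h, sgn2_one]
    ring

/-- the sum over `T` -/
theorem sum_par (k j e : ZMod 2) (S : Finset Pg) :
    ∑ T ∈ S.powerset, (if AS T = e then (-1) ^ T.card *
      SM (DD S) (fun b => wT T S b * UU k j (zz S b)) else 0) = 2 ^ S.card * (PN k j e S * om) := by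
  have hD := DD_ne S
  have ho := om_ne
  have h1 : ∀ T ∈ S.powerset, (if AS T = e then (-1 : ℂ) ^ T.card *
      SM (DD S) (fun b => wT T S b * UU k j (zz S b)) else 0) =
      SM (DD S) (fun b => (-1) ^ T.card * (wT T S b * UE k j e (zz S b))) / 2 := by
    intro T hT
    rw [SM_cmul hD, SM_par (mem_powerset.1 hT)]
    split_ifs
    · ring
    · ring
  rw [sum_congr rfl h1, ← sum_div, ← SM_fsum hD]
  have h2 : ∀ b, ∑ T ∈ S.powerset, (-1 : ℂ) ^ T.card * (wT T S b * UE k j e (zz S b)) =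
      2 ^ S.card * (nN S b * UE k j e (zz S b)) := by
    intro b
    rw [nN_eq, ← mul_assoc, mul_div_cancel₀ _ (pow_ne_zero _ two_ne_zero), sum_mul]
    exact sum_congr rfl fun T _ => by ring
  rw [SM_congr h2, SM_cmul hD, PN]
  field_simp

/-! ### The instance -/

variable {B : ValuationSubring ℂ}

/-- the data of the induction -/
def N8 (hB : (2 : ℂ)⁻¹ ∉ B) (hl : ∀ q : Pg, qc q lam = (-1) ^ (ll q.1).val) (k j : ZMod 2)
    (LL : Finset Pg → ℂ) (hav : Av8 k j LL) : NuD (D4 B hB hl) j where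
  L T := LL T / om
  F T q := em q.1 - sgn2 (ext k j T q)
  z T S := (-1) ^ T.card * sgn2 (AS T * AS S + j * lS T)
  z' S := sgn2 (tht k j (DD S))
  P e S := PN k j e S
  hz T S := by
    rcases neg_one_pow_eq_or ℂ T.card with h | h <;>
      rcases sgn2_or (AS T * AS S + j * lS T) with h1 | h1 <;> rw [h, h1] <;> norm_num
  hz' S := sgn2_or _
  av e S := by
    have ho := om_ne
    have h := sum_par k j e S
    have h1 : ∀ T ∈ S.powerset, (if AS T = e then (-1 : ℂ) ^ T.card *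
        SM (DD S) (fun b => wT T S b * UU k j (zz S b)) else 0) =
        sgn2 (tht k j (DD S)) * om * (if AS T = e then (-1) ^ T.card *
          sgn2 (AS T * AS S + j * lS T) * (LL T / om) *
            ∏ q ∈ S \ T, (em q.1 - sgn2 (ext k j T q)) else 0) := by
      intro T hT
      split_ifs
      · rw [← hav T S (mem_powerset.1 hT), sgn2_add]
        field_simp
      · rw [mul_zero]
    rw [sum_congr rfl h1, ← mul_sum] at h
    have hs := sgn2_sq (tht k j (DD S))
    apply mul_left_cancel₀ ho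
    change om * ∑ T ∈ S.powerset, (if AS T = e then (-1) ^ T.card *
          sgn2 (AS T * AS S + j * lS T) * (LL T / om) *
            ∏ q ∈ S \ T, (em q.1 - sgn2 (ext k j T q)) else 0) = _
    obtain ⟨X, hX⟩ : ∃ X, X = ∑ T ∈ S.powerset, (if AS T = e then (-1) ^ T.card *
          sgn2 (AS T * AS S + j * lS T) * (LL T / om) *
            ∏ q ∈ S \ T, (em q.1 - sgn2 (ext k j T q)) else 0) := ⟨_, rfl⟩
    rw [← hX] at h ⊢
    linear_combination sgn2 (tht k j (DD S)) * h - om * X * hs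
  F0 T q _ h := Rt_ext_zero hB k j T h
  F1 T q _ h := Rt_ext_one hB k j T h

/-! ### The hypotheses for `j = 1` -/

/-- the half sum, with any bound -/
theorem v_half_g {M : 𝓞 K8} (hM : M ≠ 0) {F : 𝓞 K8 → ℂ} (hF : Pd M F) (hn : ∀ x, F (-x) = F x)
    {g : B.ValueGroup} (hg : 0 < g) (hv : ∀ x, B.valuation (F x) < g)
    (h0 : ∀ x, M ∣ 2 * x → F x = 0) : B.valuation (SM M F / 2) < g := by
  obtain ⟨ι, s, a, h⟩ := exists_half hM
  rw [h F hF hn h0, mul_div_cancel_left₀ _ two_ne_zero]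
  exact Valuation.map_sum_lt' _ hg fun i _ => hv _

theorem v_half_ge {M : 𝓞 K8} (hM : M ≠ 0) {F : 𝓞 K8 → ℂ} (hF : Pd M F) (hn : ∀ x, F (-x) = F x)
    {g : B.ValueGroup} (hv : ∀ x, B.valuation (F x) ≤ g)
    (h0 : ∀ x, M ∣ 2 * x → F x = 0) : B.valuation (SM M F / 2) ≤ g := by
  obtain ⟨ι, s, a, h⟩ := exists_half hM
  rw [h F hF hn h0, mul_div_cancel_left₀ _ two_ne_zero]
  exact Valuation.map_sum_le _ fun i _ => hv _

theorem nN_cases (S : Finset Pg) (b : 𝓞 K8) : nN S b = 0 ∨ (nN S b = 1 ∧ ∀ q ∈ S, ¬ q.1 ∣ b) := by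
  rcases nN_or S b with ⟨h, h1⟩ | ⟨h, -⟩
  · refine Or.inr ⟨h, fun q hq hd => ?_⟩
    have h2 := h1 q hq
    rw [qc_of_dvd hd] at h2
    norm_num at h2
  · exact Or.inl h

/-- the even part for `j = 1` -/
theorem UE_one_zero (hB : (2 : ℂ)⁻¹ ∉ B) (k : ZMod 2) {Q : ℂ} (hQ : Od Q) :
    Cm B (UE k 1 0 Q / (om * lm ^ 5)) (xi (lm * Q) + xi (lm * (lm * Q))) := by
  have hl := lm_ne
  have ho := om_ne
  have h1 := uu_ev hB (ep := sgn2 k) (sgn2_or k) hQ
  have h2 : UE k 1 0 Q = -om * (uu (sgn2 k) Q + uu (sgn2 k) (-Q)) := by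
    unfold UE UU
    rw [if_neg one_ne_zero, if_neg one_ne_zero, sgn2_zero, U1_eq hQ, U1_eq hQ.neg]
    ring
  have hint := h1.le (v_xi_sum hB hQ)
  rcases c0_cases with h3 | h3
  · have e : UE k 1 0 Q / (om * lm ^ 5) =
        -((uu (sgn2 k) Q + uu (sgn2 k) (-Q)) / (c0 * lm ^ 2)) := by
      rw [h2, h3]
      field_simp
    rw [e]
    exact (Cm.neg hB hint).trans h1
  · have e : UE k 1 0 Q / (om * lm ^ 5) =
        (uu (sgn2 k) Q + uu (sgn2 k) (-Q)) / (c0 * lm ^ 2) := by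
      rw [h2, h3]
      field_simp
    rw [e]
    exact h1

/-- the odd part for `j = 1` -/
theorem UE_one_one (hB : (2 : ℂ)⁻¹ ∉ B) (k : ZMod 2) {Q : ℂ} (hQ : Od Q) :
    Cm B (UE k 1 1 Q / (om * lm ^ 5)) (1 + xi (lm * Q) + xi (lm * (lm * Q))) := by
  have hl := lm_ne
  have ho := om_ne
  have h1 := uu_od hB (ep := sgn2 k) (sgn2_or k) hQ
  have h2 : UE k 1 1 Q = -om * (uu (sgn2 k) Q - uu (sgn2 k) (-Q)) := by
    unfold UE UU
    rw [if_neg one_ne_zero, if_neg one_ne_zero, sgn2_one, U1_eq hQ, U1_eq hQ.neg]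
    ring
  have hint := h1.le (by
    rw [add_assoc]
    exact (Valuation.map_add _ _ _).trans (max_le (map_one _).le (v_xi_sum hB hQ)))
  rcases c0_cases with h3 | h3
  · have e : UE k 1 1 Q / (om * lm ^ 5) =
        -((uu (sgn2 k) Q - uu (sgn2 k) (-Q)) / (c0 * lm ^ 2)) := by
      rw [h2, h3]
      field_simp
    rw [e]
    exact (Cm.neg hB hint).trans h1
  · have e : UE k 1 1 Q / (om * lm ^ 5) =
        (uu (sgn2 k) Q - uu (sgn2 k) (-Q)) / (c0 * lm ^ 2) := by
      rw [h2, h3]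
      field_simp
    rw [e]
    exact h1

theorem cm_two {x y : ℂ} (hB : (2 : ℂ)⁻¹ ∉ B) (h : B.valuation (x + y) < 1)
    (hy : B.valuation y ≤ 1) : Cm B x y := by
  unfold Cm
  have e : x - y = (x + y) - 2 * y := by ring
  rw [e]
  refine Valuation.map_sub_lt _ h ?_
  rw [map_mul]
  exact mul_lt_one_of_lt_of_le (two_lt hB) hy

/-- the number of the nonresidues -/
theorem SM_nN (S : Finset Pg) : SM (DD S) (nN S) = ∏ q ∈ S, ((Nz q.1 : ℂ) - 1) / 2 := by
  have hD := DD_ne S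
  have h1 : ∀ b, nN S b = (1 / 2 ^ S.card) *
      ∑ T ∈ S.powerset, (-1) ^ T.card * wT T S b := by
    intro b
    rw [nN_eq]
    ring
  rw [SM_congr h1, SM_cmul hD, SM_fsum hD, sum_eq_single ∅]
  · rw [SM_cmul hD, SM_wT, card_empty, pow_zero, one_mul, prod_div_distrib, prod_const]
    rw [prod_congr rfl fun q _ => if_neg (notMem_empty q)]
    ring
  · intro T hT hT0
    obtain ⟨t, ht⟩ := nonempty_iff_ne_empty.2 hT0
    have h0 : (∏ q ∈ S, if q ∈ T then (0 : ℂ) else (Nz q.1 : ℂ) - 1) = 0 :=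
      prod_eq_zero (mem_powerset.1 hT ht) (if_pos ht)
    rw [SM_cmul hD, SM_wT, h0, mul_zero]
  · intro h
    exact absurd (empty_mem_powerset S) h

theorem v_om_lm {x : ℂ} (n : ℕ) {g : B.ValueGroup} (h : B.valuation (x / (om * lm ^ n)) ≤ g) :
    B.valuation (x / om) ≤ B.valuation lm ^ n * g := by
  have hl := lm_ne
  have ho := om_ne
  have e : x / om = lm ^ n * (x / (om * lm ^ n)) := by field_simp
  rw [e, map_mul, map_pow]
  exact mul_le_mul_right h _

/-- the term of the difference -/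
theorem term_lt {S : Finset Pg} (hS : S.Nonempty) {F G : ℂ → ℂ}
    (h : ∀ Q, Od Q → B.valuation (F Q - G Q) < 1) (b : 𝓞 K8) :
    B.valuation (nN S b * (F (zz S b) - G (zz S b))) < 1 := by
  rcases nN_cases S b with h1 | ⟨h1, h2⟩
  · rw [h1, zero_mul, map_zero]
    exact zero_lt_one
  · rw [h1, one_mul]
    exact h _ (od_zz hS h2)

theorem H1_8 (hB : (2 : ℂ)⁻¹ ∉ B) (hl : ∀ q : Pg, qc q lam = (-1) ^ (ll q.1).val) (k : ZMod 2)
    (LL : Finset Pg → ℂ) (hav : Av8 k 1 LL) : (N8 hB hl k 1 LL hav).H1 k := by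
  have hlm := lm_ne
  have ho := om_ne
  have e2 := lm_sq (hq := q8)
  refine ⟨?_, ?_, ?_, ?_⟩
  · -- the empty set
    change Rt B (LL ∅ / om / lm ^ 5) k
    have h := hav ∅ ∅ (Finset.Subset.refl _)
    have hSM : SM (DD ∅) (fun b => wT ∅ ∅ b * UU k 1 (zz ∅ b)) = UU k 1 0 := by
      have h1 := SM_sup (R := ℂ) (ι := Unit) (a := fun _ => (0 : 𝓞 K8)) (DD_ne ∅)
        (F := fun b => wT ∅ ∅ b * UU k 1 (zz ∅ b)) (wUU_per ∅ ∅ k 1)
        (fun x _ => ⟨(), by rw [DD_empty]; exact one_dvd _⟩) (fun _ _ _ => rfl)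
      rw [h1, Fintype.sum_unique, wT, prod_empty, one_mul, zz, em_zero, zero_div]
    rw [hSM, Finset.sdiff_self, prod_empty, mul_one] at h
    have h0 : AS ∅ * AS ∅ + 1 * lS ∅ + tht k 1 (DD ∅) = 0 := by
      rw [AS, lS, sum_empty, sum_empty, DD_empty, tht, aa_one, ll_one]
      ring
    rw [h0, sgn2_zero, one_mul, UU, if_neg one_ne_zero, U1_zero] at h
    rw [h]
    rcases zm2_cases k with hk | hk
    · rw [hk, sgn2_zero]
      have e : -om * ((1 - 1) * c0) / om / lm ^ 5 = 0 := by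
        simp
      rw [e]
      exact Rt.zero
    · rw [hk, sgn2_one]
      have e : -om * ((1 - -1) * c0) / om / lm ^ 5 = c0 / lm ^ 3 := by
        field_simp
        linear_combination (-c0 : ℂ) * e2
      rw [e]
      rcases c0_cases with h3 | h3
      · rw [h3, div_self (pow_ne_zero 3 hlm)]
        exact Rt.one
      · rw [h3, neg_div, div_self (pow_ne_zero 3 hlm)]
        exact Rt.neg hB Rt.one
  · -- all `a = 0`
    intro S hS ha
    have hD := DD_ne S
    change Cm B (PN k 1 0 S / lm ^ 5)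
      (((if S = ∅ then 0 else XN 1 S) + (if S = ∅ then 0 else XN 2 S)) / 2)
    rw [if_neg hS.ne_empty, if_neg hS.ne_empty]
    obtain ⟨F, hF⟩ : ∃ F : 𝓞 K8 → ℂ, F = fun b => nN S b * (UE k 1 0 (zz S b) / (om * lm ^ 5) -
        (xi (lm * zz S b) + xi (lm * (lm * zz S b)))) := ⟨_, rfl⟩
    have e : PN k 1 0 S / lm ^ 5 - (XN 1 S + XN 2 S) / 2 = SM (DD S) F / 2 := by
      have h1 : SM (DD S) F = SM (DD S) (fun b => nN S b * UE k 1 0 (zz S b)) / (om * lm ^ 5) -
          (XN 1 S + XN 2 S) := by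
        rw [XN, XN, ← SM_add hD, div_eq_inv_mul, ← SM_cmul hD, ← SM_sub hD, hF]
        refine SM_congr fun b => ?_
        have e3 : lm * (lm * zz S b) = lm ^ 2 * zz S b := by ring
        rw [e3, pow_one]
        ring
      rw [h1, PN]
      field_simp
    unfold Cm
    rw [e]
    refine v_half_g hD ?_ ?_ zero_lt_one ?_ ?_
    · intro x y h
      rw [hF]
      change nN S x * _ = nN S y * _
      have h3 : ∀ z w : ℂ, z - w ∈ PP.lattice → lm * z - lm * w ∈ PP.lattice := by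
        intro z w h
        rw [← mul_sub]
        exact lm_mem_mul h
      rw [nN_per S x y h, UE_congr (zz_congr h), xi_congr (h3 _ _ (zz_congr h)),
        xi_congr (h3 _ _ (h3 _ _ (zz_congr h)))]
    · intro x
      rw [hF]
      change nN S (-x) * _ = nN S x * _
      rw [nN_neg ha, zz_neg, UE_neg, sgn2_zero, one_mul, mul_neg, mul_neg, xi_neg, xi_neg]
    · intro x
      rw [hF]
      exact term_lt hS (F := fun Q => UE k 1 0 Q / (om * lm ^ 5))
        (G := fun Q => xi (lm * Q) + xi (lm * (lm * Q))) (fun Q hQ => UE_one_zero hB k hQ) x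
    · intro x hx
      rw [hF]
      obtain ⟨q, hq⟩ := hS
      have h1 := (q.2.1.dvd_or_dvd ((dvd_DD hq).trans hx)).resolve_left (Pg_ndvd_two q)
      change nN S x * _ = 0
      rw [nN_of_dvd hq h1, zero_mul]
  · -- some `a = 1`, even part
    rintro S ⟨q, hq, -⟩
    have hS : S.Nonempty := ⟨q, hq⟩
    have hD := DD_ne S
    change Cm B (PN k 1 0 S / lm ^ 3)
      ((if S = ∅ then 0 else XN 1 S) + (if S = ∅ then 0 else XN 2 S))
    rw [if_neg hS.ne_empty, if_neg hS.ne_empty]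
    have hX : B.valuation (XN 1 S + XN 2 S) ≤ 1 :=
      (Valuation.map_add _ _ _).trans (max_le (v_XN hB hS 1) (v_XN hB hS 2))
    refine cm_two hB ?_ hX
    obtain ⟨F, hF⟩ : ∃ F : 𝓞 K8 → ℂ, F = fun b => nN S b * (UE k 1 0 (zz S b) / (om * lm ^ 5) -
        (xi (lm * zz S b) + xi (lm * (lm * zz S b)))) := ⟨_, rfl⟩
    have e : PN k 1 0 S / lm ^ 3 + (XN 1 S + XN 2 S) = -SM (DD S) F := by
      have h1 : SM (DD S) F = SM (DD S) (fun b => nN S b * UE k 1 0 (zz S b)) / (om * lm ^ 5) -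
          (XN 1 S + XN 2 S) := by
        rw [XN, XN, ← SM_add hD, div_eq_inv_mul, ← SM_cmul hD, ← SM_sub hD, hF]
        refine SM_congr fun b => ?_
        have e3 : lm * (lm * zz S b) = lm ^ 2 * zz S b := by ring
        rw [e3, pow_one]
        ring
      rw [h1, PN]
      field_simp
      linear_combination (SM (DD S) (fun b => nN S b * UE k 1 0 (zz S b))) * e2
    rw [e, Valuation.map_neg]
    refine v_SM_lt hD zero_lt_one fun x => ?_
    rw [hF]
    exact term_lt hS (F := fun Q => UE k 1 0 Q / (om * lm ^ 5))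
      (G := fun Q => xi (lm * Q) + xi (lm * (lm * Q))) (fun Q hQ => UE_one_zero hB k hQ) x
  · -- odd part
    intro S hS
    have hD := DD_ne S
    change Cm B (PN k 1 1 S / lm ^ 3) (∏ p ∈ S, ((Nz p.1 : ℂ) - 1) / 2 +
      ((if S = ∅ then 0 else XN 1 S) + (if S = ∅ then 0 else XN 2 S)))
    rw [if_neg hS.ne_empty, if_neg hS.ne_empty, ← SM_nN]
    have hX : B.valuation (SM (DD S) (nN S) + (XN 1 S + XN 2 S)) ≤ 1 :=
      (Valuation.map_add _ _ _).trans (max_le (v_SM_le hD fun b => v_nN S b)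
        ((Valuation.map_add _ _ _).trans (max_le (v_XN hB hS 1) (v_XN hB hS 2))))
    refine cm_two hB ?_ hX
    obtain ⟨F, hF⟩ : ∃ F : 𝓞 K8 → ℂ, F = fun b => nN S b * (UE k 1 1 (zz S b) / (om * lm ^ 5) -
        (1 + xi (lm * zz S b) + xi (lm * (lm * zz S b)))) := ⟨_, rfl⟩
    have e : PN k 1 1 S / lm ^ 3 + (SM (DD S) (nN S) + (XN 1 S + XN 2 S)) = -SM (DD S) F := by
      have h1 : SM (DD S) F = SM (DD S) (fun b => nN S b * UE k 1 1 (zz S b)) / (om * lm ^ 5) -
          (SM (DD S) (nN S) + (XN 1 S + XN 2 S)) := by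
        rw [XN, XN, ← SM_add hD, ← SM_add hD, div_eq_inv_mul, ← SM_cmul hD, ← SM_sub hD, hF]
        refine SM_congr fun b => ?_
        have e3 : lm * (lm * zz S b) = lm ^ 2 * zz S b := by ring
        rw [e3, pow_one]
        ring
      rw [h1, PN]
      field_simp
      linear_combination (SM (DD S) (fun b => nN S b * UE k 1 1 (zz S b))) * e2
    rw [e, Valuation.map_neg]
    refine v_SM_lt hD zero_lt_one fun x => ?_
    rw [hF]
    exact term_lt hS (F := fun Q => UE k 1 1 Q / (om * lm ^ 5))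
      (G := fun Q => 1 + xi (lm * Q) + xi (lm * (lm * Q))) (fun Q hQ => UE_one_one hB k hQ) x

end

end Pool.Agent.Lib.MP_1a91b9_ntW
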