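import Pool.Agent.Lib.MP_1a91b9_ntW.A.ClJ1
import Pool.Agent.Lib.MP_1a91b9_ntQ.A.Res4

/-!
# Phase 6, part A, file Od8: the points with a nonzero odd part, the function `xi`, Lemma G

`Od z`: `z` is a torsion point and no `lm ^ n * z` is a lattice point. `xi z = (xx z - lm r0) / lm ^ 3`,
`r0 = (1 - lm) / 3`. Section (2.7) of the page.
-/

set_option autoImplicit false
set_option linter.unusedSectionVars false

namespace Pool.Agent.Lib.MP_1a91b9_ntW

open NumberField Pool.Agent.Lib.MP_1a91b9_nuT Pool.Agent.Lib.MP_1a91b9_nuT.S3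
  Pool.Agent.Lib.MP_1a91b9_nuT.Ell
open Pool.Agent.Lib.MP_1a91b9_ntQ (em em_add em_mul em_pow em_sub em_zero em_one em_ne Rt two_lt)

noncomputable section

variable [CD]

/-- The torsion points with a nonzero odd part. -/
def Od (z : ℂ) : Prop :=
  (∃ N : 𝓞 K, N ≠ 0 ∧ em N * z ∈ PP.lattice) ∧ ∀ n : ℕ, lm ^ n * z ∉ PP.lattice

section
variable [hq : Q8]

theorem Od.notMem {z : ℂ} (h : Od z) : z ∉ PP.lattice := by
  have := h.2 0
  rwa [pow_zero, one_mul] at this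

theorem lm_pow_mem {x : ℂ} (h : x ∈ PP.lattice) (n : ℕ) : lm ^ n * x ∈ PP.lattice := by
  induction n with
  | zero => rwa [pow_zero, one_mul]
  | succ n ih =>
    have e : lm ^ (n + 1) * x = lm * (lm ^ n * x) := by ring
    rw [e]
    exact lm_mem_mul ih

theorem Od.two {z : ℂ} (h : Od z) : 2 * z ∉ PP.lattice := by
  intro h1
  apply h.2 2
  have e : lm ^ 2 * z = -(2 * z) := by
    rw [lm_sq]
    ring
  rw [e]
  exact neg_mem h1

theorem Od.mul_lm {z : ℂ} (h : Od z) : Od (lm * z) := by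
  obtain ⟨⟨N, hN, h1⟩, h2⟩ := h
  refine ⟨⟨N, hN, ?_⟩, fun n => ?_⟩
  · have e : em N * (lm * z) = lm * (em N * z) := by ring
    rw [e]
    exact lm_mem_mul h1
  · have := h2 (n + 1)
    have e : lm ^ n * (lm * z) = lm ^ (n + 1) * z := by
      ring
    rwa [e]

theorem Od.pow {z : ℂ} (h : Od z) (n : ℕ) : Od (lm ^ n * z) := by
  induction n with
  | zero => rwa [pow_zero, one_mul]
  | succ n ih =>
    have e : lm ^ (n + 1) * z = lm * (lm ^ n * z) := by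
      ring
    rw [e]
    exact ih.mul_lm

theorem Od.neg {z : ℂ} (h : Od z) : Od (-z) := by
  obtain ⟨⟨N, hN, h1⟩, h2⟩ := h
  refine ⟨⟨N, hN, ?_⟩, fun n h3 => h2 n ?_⟩
  · rw [mul_neg]
    exact neg_mem h1
  · rw [mul_neg] at h3
    simpa using neg_mem h3

theorem Od.congr {z w : ℂ} (h : Od z) (hw : w - z ∈ PP.lattice) : Od w := by
  obtain ⟨⟨N, hN, h1⟩, h2⟩ := h
  refine ⟨⟨N, hN, ?_⟩, fun n h3 => h2 n ?_⟩
  · have e : em N * w = em N * z + em N * (w - z) := by ring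
    rw [e]
    exact add_mem h1 (mul_mem' (em_mem N) hw)
  · have e : lm ^ n * z = lm ^ n * w - lm ^ n * (w - z) := by ring
    rw [e]
    exact sub_mem h3 (lm_pow_mem hw n)

/-- adding a torsion point of order a power of `lm` -/
theorem Od.add {z t : ℂ} (h : Od z) {n : ℕ} (ht : lm ^ n * t ∈ PP.lattice) :
    Od (z + t) := by
  obtain ⟨⟨N, hN, h1⟩, h2⟩ := h
  refine ⟨⟨(ta : 𝓞 K) ^ n * N, ?_, ?_⟩, fun m h3 => h2 (n + m) ?_⟩
  · refine mul_ne_zero (pow_ne_zero _ fun h0 => ?_) hN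
    have := em_ta
    rw [h0, em_zero] at this
    exact lm_ne this.symm
  · rw [em_mul, em_pow, em_ta]
    have e : lm ^ n * em N * (z + t) =
        lm ^ n * (em N * z) + em N * (lm ^ n * t) := by ring
    rw [e]
    exact add_mem (lm_pow_mem h1 n) (mul_mem' (em_mem N) ht)
  · have e : lm ^ (n + m) * z = lm ^ n * (lm ^ m * (z + t)) -
        lm ^ m * (lm ^ n * t) := by
      rw [pow_add]
      ring
    rw [e]
    exact sub_mem (lm_pow_mem h3 n) (lm_pow_mem ht m)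

/-- the orbit of a torsion point under `lm` is eventually periodic -/
theorem Od.periodic {z : ℂ} (h : Od z) : ∃ j p : ℕ, 0 < p ∧
    ∀ n, j ≤ n → lm ^ (n + p) * z - lm ^ n * z ∈ PP.lattice := by
  obtain ⟨⟨N, hN, h1⟩, -⟩ := h
  obtain ⟨a, ha⟩ := S3.mem_PP_iff.1 h1
  have hne : Ideal.span {N} ≠ ⊥ := by rwa [Ne, Ideal.span_singleton_eq_bot]
  have hfin : Finite (𝓞 K ⧸ Ideal.span {N}) := Ideal.finiteQuotientOfFreeOfNeBot _ hne
  obtain ⟨j, k, hjk, he⟩ := Finite.exists_ne_map_eq_of_infinite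
    (fun n : ℕ => Ideal.Quotient.mk (Ideal.span {N}) ((ta : 𝓞 K) ^ n * a))
  have key : ∀ j k : ℕ, j < k → Ideal.Quotient.mk (Ideal.span {N}) ((ta : 𝓞 K) ^ j * a) =
      Ideal.Quotient.mk (Ideal.span {N}) ((ta : 𝓞 K) ^ k * a) →
      ∃ j p : ℕ, 0 < p ∧ ∀ n, j ≤ n → lm ^ (n + p) * z - lm ^ n * z ∈ PP.lattice := by
    intro j k hjk he
    rw [Ideal.Quotient.eq, Ideal.mem_span_singleton] at he
    obtain ⟨b, hb⟩ := he
    refine ⟨j, k - j, by omega, fun n hn => ?_⟩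
    have hN0 := em_ne hN
    have e1 : em N * (lm ^ j * z - lm ^ k * z) = em N * em b := by
      have h2 := congrArg em hb
      rw [em_sub, em_mul, em_mul, em_mul, em_pow, em_pow, em_ta] at h2
      have h3 : em a = em N * z := ha
      rw [h3] at h2
      linear_combination h2
    have e2 : lm ^ j * z - lm ^ k * z = em b := mul_left_cancel₀ hN0 e1
    have e3 : lm ^ (n + (k - j)) * z - lm ^ n * z = -(lm ^ (n - j) * (lm ^ j * z - lm ^ k * z)) := by
      have e4 : lm ^ (n + (k - j)) = lm ^ (n - j) * lm ^ k := by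
        rw [← pow_add]
        congr 1
        omega
      have e5 : lm ^ n = lm ^ (n - j) * lm ^ j := by
        rw [← pow_add]
        congr 1
        omega
      rw [e4, e5]
      ring
    rw [e3, e2]
    exact neg_mem (lm_pow_mem (em_mem b) _)
  rcases lt_or_gt_of_ne hjk with h2 | h2
  · exact key j k h2 he
  · exact key k j h2 he.symm

/-! ### the place -/

variable {B : ValuationSubring ℂ}

theorem v_lm_sq : B.valuation lm ^ 2 = B.valuation 2 := by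
  rw [← map_pow, lm_sq, Valuation.map_neg]

theorem v_lm_pos : 0 < B.valuation lm := by
  rw [zero_lt_iff, Valuation.ne_zero_iff]
  exact lm_ne

theorem v_lm_lt (hB : (2 : ℂ)⁻¹ ∉ B) : B.valuation lm < 1 := by
  have h := two_lt hB
  rw [← v_lm_sq] at h
  by_contra h1
  push Not at h1
  exact absurd h (not_lt.2 (one_le_pow₀ h1))

theorem v_lm_le (hB : (2 : ℂ)⁻¹ ∉ B) : B.valuation lm ≤ 1 := (v_lm_lt hB).le

theorem v_three (hB : (2 : ℂ)⁻¹ ∉ B) : B.valuation (3 : ℂ) = 1 := by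
  have e : (3 : ℂ) = 1 + 2 := by norm_num
  rw [e, Valuation.map_add_eq_of_lt_left _ (by rw [map_one]; exact two_lt hB), map_one]

/-- the unit `(1 - lm) / 3` -/
def r0 : ℂ := (1 - lm) / 3

/-- the integral coordinate -/
def xi (z : ℂ) : ℂ := (xx z - lm * r0) / lm ^ 3

theorem xx_xi (z : ℂ) : xx z = lm * (r0 + lm ^ 2 * xi z) := by
  have h := lm_ne
  rw [xi]
  field_simp
  ring

theorem xi_neg (z : ℂ) : xi (-z) = xi z := by rw [xi, xi, xx_neg]

theorem xi_congr {x y : ℂ} (h : x - y ∈ PP.lattice) : xi x = xi y := by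
  rw [xi, xi, xx_congr h]

theorem v_r0 (hB : (2 : ℂ)⁻¹ ∉ B) : B.valuation r0 = 1 := by
  rw [r0, map_div₀, v_three hB, div_one]
  rw [Valuation.map_sub_eq_of_lt_left _ (by rw [map_one]; exact v_lm_lt hB), map_one]

/-- the multiplication by `lm` on `xi` -/
theorem xi_lm {z : ℂ} (hz : 2 * z ∉ PP.lattice) :
    xi (lm * z) * (r0 + lm ^ 2 * xi z) = xi z ^ 2 - (2 * r0 + lm) * xi z := by
  have h := xx_lm hz
  rw [xx_xi, xx_xi (lm * z)] at h
  have hl := lm_ne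
  have e := lm_sq (hq := hq)
  obtain ⟨a, ha⟩ : ∃ a, a = xi z := ⟨_, rfl⟩
  obtain ⟨b, hb⟩ : ∃ b, b = xi (lm * z) := ⟨_, rfl⟩
  rw [← ha, ← hb] at h ⊢
  have hr : 3 * r0 = 1 - lm := by
    rw [r0]
    ring
  have h9 : lm ^ 6 * (b * (r0 + lm ^ 2 * a) - (a ^ 2 - (2 * r0 + lm) * a)) = 0 := by
    linear_combination h + (b * (r0 + lm ^ 2 * a) * lm ^ 4 +
      a * (2 * lm ^ 4 * r0 + lm ^ 3 * (lm ^ 2 - 2)) + r0 - lm * r0 + 2 / 3) * e +
      (lm ^ 2 * r0 - 2 * (1 + lm) / 3) * hr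
  have h10 := (mul_eq_zero.1 h9).resolve_left (pow_ne_zero 6 hl)
  exact sub_eq_zero.1 h10

/-- the values of `xi` are integral -/
theorem v_xi_le (hB : (2 : ℂ)⁻¹ ∉ B) {z : ℂ} (hz : Od z) : B.valuation (xi z) ≤ 1 := by
  by_contra hc
  push Not at hc
  obtain ⟨l, hl⟩ : ∃ l, l = B.valuation lm := ⟨_, rfl⟩
  have hl0 : 0 < l := hl ▸ v_lm_pos
  have hl1 : l < 1 := hl ▸ v_lm_lt hB
  -- the values increase
  have step : ∀ w : ℂ, Od w → 1 < B.valuation (xi w) →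
      B.valuation (xi w) < B.valuation (xi (lm * w)) := by
    intro w hw h1
    obtain ⟨a, ha⟩ : ∃ a, a = B.valuation (xi w) := ⟨_, rfl⟩
    have ha0 : 0 < a := by rw [ha]; exact zero_lt_one.trans h1
    have h2 := congrArg B.valuation (xi_lm hw.two)
    have h3 : B.valuation (xi w ^ 2 - (2 * r0 + lm) * xi w) = a ^ 2 := by
      rw [Valuation.map_sub_eq_of_lt_left, map_pow, ha]
      rw [map_mul, map_pow, pow_two]
      refine mul_lt_mul_of_pos_right ?_ (ha ▸ ha0)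
      refine lt_of_le_of_lt ?_ h1
      refine (Valuation.map_add _ _ _).trans (max_le ?_ (v_lm_le hB))
      rw [map_mul, v_r0 hB, mul_one]
      exact (two_lt hB).le
    have h4 : B.valuation (r0 + lm ^ 2 * xi w) ≤ max 1 (l ^ 2 * a) := by
      refine (Valuation.map_add _ _ _).trans ?_
      rw [v_r0 hB, map_mul, map_pow, ← hl, ← ha]
    rw [h3, map_mul] at h2
    rw [← ha] at h1 ⊢
    -- `a ^ 2 <= v (xi (lm w)) * max 1 (l ^ 2 a) < v (xi (lm w)) a`
    have h5 : 0 < B.valuation (xi (lm * w)) := by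
      rw [zero_lt_iff]
      intro h6
      rw [h6, zero_mul] at h2
      exact (pow_pos ha0 2).ne h2
    have h6 : max 1 (l ^ 2 * a) < a := by
      refine max_lt h1 ?_
      calc l ^ 2 * a < 1 * a := mul_lt_mul_of_pos_right (pow_lt_one₀ zero_le hl1 two_ne_zero) ha0
        _ = a := one_mul a
    have h7 : a * a < B.valuation (xi (lm * w)) * a := by
      rw [← pow_two, ← h2]
      exact mul_lt_mul_of_pos_left (h4.trans_lt h6) h5
    exact lt_of_mul_lt_mul_right h7 ha0.le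
  have h1 : ∀ n : ℕ, 1 < B.valuation (xi (lm ^ n * z)) := by
    intro n
    induction n with
    | zero => rwa [pow_zero, one_mul]
    | succ n ih =>
      have e : lm ^ (n + 1) * z = lm * (lm ^ n * z) := by ring
      rw [e]
      exact ih.trans (step _ (hz.pow n) ih)
  have h2 : StrictMono fun n : ℕ => B.valuation (xi (lm ^ n * z)) := by
    refine strictMono_nat_of_lt_succ fun n => ?_
    have e : lm ^ (n + 1) * z = lm * (lm ^ n * z) := by ring
    rw [e]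
    exact step _ (hz.pow n) (h1 n)
  obtain ⟨j, p, hp, h3⟩ := hz.periodic
  have h4 := h2 (show j < j + p by omega)
  simp only [xi_congr (h3 j le_rfl)] at h4
  exact lt_irrefl _ h4

/-! ### Lemma G -/

/-- the unit `X / lm` -/
def al (z : ℂ) : ℂ := r0 + lm ^ 2 * xi z

/-- `(X / lm - 1) / lm` -/
def be (z : ℂ) : ℂ := -r0 + lm * xi z

theorem xx_al (z : ℂ) : xx z = lm * al z := xx_xi z

theorem r0_eq : 3 * r0 = 1 - lm := by
  rw [r0]
  ring

theorem al_be (z : ℂ) : al z = 1 + lm * be z := by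
  have e := lm_sq (hq := hq)
  have h := r0_eq
  rw [al, be]
  linear_combination ((1 + lm) / 3) * h + (-(1 : ℂ) / 3) * e

theorem Rt_lm (hB : (2 : ℂ)⁻¹ ∉ B) : Rt B lm 0 := Rt.of_lt (v_lm_lt hB)

theorem Rt_two (hB : (2 : ℂ)⁻¹ ∉ B) : Rt B (2 : ℂ) 0 := Rt.of_lt (two_lt hB)

theorem Rt_r0 (hB : (2 : ℂ)⁻¹ ∉ B) : Rt B r0 1 := by
  have h : Rt B (-lm - 2 * r0) 0 := by
    refine Rt.of_lt (Valuation.map_sub_lt _ ?_ ?_)
    · rw [Valuation.map_neg]
      exact v_lm_lt hB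
    · rw [map_mul, v_r0 hB, mul_one]
      exact two_lt hB
  have e : r0 = 1 + (-lm - 2 * r0) := by linear_combination r0_eq
  rw [e]
  have := Rt.add hB (Rt.one (B := B)) h
  rwa [add_zero] at this

/-- an integral number times a small one is small -/
theorem Rt.small {x y : ℂ} (hx : B.valuation x < 1) (hy : B.valuation y ≤ 1) : Rt B (x * y) 0 := by
  refine Rt.of_lt ?_
  rw [map_mul]
  exact mul_lt_one_of_lt_of_le hx hy

theorem Rt_al (hB : (2 : ℂ)⁻¹ ∉ B) {z : ℂ} (hz : Od z) : Rt B (al z) 1 := by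
  have h := Rt.add hB (Rt_r0 hB) (Rt.small (x := lm) (y := lm * xi z) (v_lm_lt hB) (by
    rw [map_mul]
    exact mul_le_one' (v_lm_le hB) (v_xi_le hB hz)))
  rw [add_zero] at h
  have e : al z = r0 + lm * (lm * xi z) := by rw [al]; ring
  rwa [e]

theorem Rt_be (hB : (2 : ℂ)⁻¹ ∉ B) {z : ℂ} (hz : Od z) : Rt B (be z) 1 := by
  have h := Rt.add hB (Rt.neg hB (Rt_r0 hB)) (Rt.small (v_lm_lt hB) (v_xi_le hB hz))
  rwa [add_zero] at h

/-- `(al ^ 2 + 1) / lm ^ 3` -/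
theorem Rt_al_sq (hB : (2 : ℂ)⁻¹ ∉ B) {z : ℂ} (hz : Od z) : Rt B ((al z ^ 2 + 1) / lm ^ 3) 1 := by
  have hl := lm_ne
  have e : (al z ^ 2 + 1) / lm ^ 3 = -(be z) + lm * ((r0 + xi z) * (r0 + xi z + lm)) := by
    have e2 := lm_sq (hq := hq)
    have h := r0_eq
    rw [div_eq_iff (pow_ne_zero 3 hl), al_be, be]
    linear_combination (1 + lm * (-r0 + lm * xi z) + lm ^ 2 * (-(r0 ^ 2 + lm * r0 + 1 / 3) +
      xi z * (2 / 3 - 2 * r0 - lm))) * e2 + lm ^ 2 * (r0 + (1 + lm) / 3 +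
      xi z * (2 * (2 - lm) / 3)) * h
  rw [e]
  have h := Rt.add hB (Rt.neg hB (Rt_be hB hz)) (Rt.small (x := lm)
    (y := (r0 + xi z) * (r0 + xi z + lm)) (v_lm_lt hB) (by
      have h1 : B.valuation (r0 + xi z) ≤ 1 :=
        (Valuation.map_add _ _ _).trans (max_le (v_r0 hB).le (v_xi_le hB hz))
      rw [map_mul]
      exact mul_le_one' h1 ((Valuation.map_add _ _ _).trans (max_le h1 (v_lm_le hB)))))
  rwa [add_zero] at h

/-- `(X ^ 2 - 2) / lm ^ 5` -/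
theorem Rt_sq_sub (hB : (2 : ℂ)⁻¹ ∉ B) {z : ℂ} (hz : Od z) : Rt B ((xx z ^ 2 - 2) / lm ^ 5) 1 := by
  have hl := lm_ne
  have e : (xx z ^ 2 - 2) / lm ^ 5 = (al z ^ 2 + 1) / lm ^ 3 := by
    rw [xx_al]
    field_simp
    linear_combination (-1 : ℂ) * lm_sq
  rw [e]
  exact Rt_al_sq hB hz

theorem xx_lm_al {z : ℂ} (hz : Od z) : xx z ^ 2 - 4 * xx z + 2 = lm ^ 4 * (al z * al (lm * z)) := by
  rw [← xx_lm hz.two, xx_al z, xx_al (lm * z)]
  linear_combination (-lm ^ 2 * al z * al (lm * z)) * lm_sq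

/-- `(X ^ 2 - 4 X + 2) / lm ^ 4` -/
theorem Rt_quad (hB : (2 : ℂ)⁻¹ ∉ B) {z : ℂ} (hz : Od z) :
    Rt B ((xx z ^ 2 - 4 * xx z + 2) / lm ^ 4) 1 := by
  rw [xx_lm_al hz, mul_div_cancel_left₀ _ (pow_ne_zero 4 lm_ne)]
  have h := Rt.mul hB (Rt_al hB hz) (Rt_al hB hz.mul_lm)
  rwa [mul_one] at h

/-- `Y ^ 2 / lm ^ 5` -/
theorem Rt_yy_sq (hB : (2 : ℂ)⁻¹ ∉ B) {z : ℂ} (hz : Od z) : Rt B (yy z ^ 2 / lm ^ 5) 1 := by
  have hl := lm_ne
  have e : yy z ^ 2 / lm ^ 5 = al z * ((xx z ^ 2 - 4 * xx z + 2) / lm ^ 4) := by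
    rw [yy_sq hz.notMem, xx_al]
    field_simp
  rw [e]
  have h := Rt.mul hB (Rt_al hB hz) (Rt_quad hB hz)
  rwa [mul_one] at h

/-- `ff ^ 2 / lm ^ 3` -/
theorem Rt_ff_sq (hB : (2 : ℂ)⁻¹ ∉ B) {z : ℂ} (hz : Od z) : Rt B (ff z ^ 2 / lm ^ 3) 1 := by
  have hl := lm_ne
  have e : ff z ^ 2 / lm ^ 3 = al (lm * z) := by
    rw [ff_sq hz.two, xx_al, div_eq_iff (pow_ne_zero 3 hl)]
    linear_combination (-lm * al (lm * z)) * lm_sq
  rw [e]
  exact Rt_al hB hz.mul_lm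

/-- The residue of a square root. -/
theorem Rt_of_sq (hB : (2 : ℂ)⁻¹ ∉ B) {x : ℂ} (h : Rt B (x ^ 2) 1) : Rt B x 1 := by
  have h1 : B.valuation x ≤ 1 := by
    have h2 := h.le
    rw [map_pow] at h2
    exact (pow_le_one_iff_of_nonneg zero_le two_ne_zero).1 h2
  unfold Rt at h ⊢
  rw [ZMod.val_one, Nat.cast_one] at h ⊢
  have h3 : B.valuation ((x - 1) ^ 2) < 1 := by
    have e : (x - 1) ^ 2 = (x ^ 2 - 1) - 2 * (x - 1) := by ring
    rw [e]
    refine Valuation.map_sub_lt _ h ?_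
    rw [map_mul]
    refine mul_lt_one_of_lt_of_le (two_lt hB) ?_
    exact (Valuation.map_sub _ _ _).trans (max_le h1 (map_one B.valuation).le)
  rw [map_pow] at h3
  exact (pow_lt_one_iff_of_nonneg zero_le two_ne_zero).1 h3

/-- The residue of a root of `y ^ 2 - c y = u`, `c` small. -/
theorem Rt_of_quad (hB : (2 : ℂ)⁻¹ ∉ B) {y c u : ℂ} (hc : B.valuation c < 1) (h : Rt B u 1)
    (e : y ^ 2 - c * y = u) : Rt B y 1 := by
  have h1 : B.valuation y ≤ 1 := by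
    by_contra h2
    push Not at h2
    have h3 : B.valuation (y ^ 2 - c * y) = B.valuation y ^ 2 := by
      rw [Valuation.map_sub_eq_of_lt_left, map_pow]
      rw [map_mul, map_pow, pow_two]
      exact mul_lt_mul_of_pos_right (hc.trans h2) (zero_lt_one.trans h2)
    have h4 := h.le
    rw [← e, h3] at h4
    exact absurd h4 (not_le.2 (one_lt_pow₀ h2 two_ne_zero))
  refine Rt_of_sq hB ?_
  have e1 : y ^ 2 = u + c * y := by linear_combination e
  rw [e1]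
  have h5 := Rt.add hB h (Rt.small hc h1)
  rwa [add_zero] at h5

theorem Rt_rt (hB : (2 : ℂ)⁻¹ ∉ B) : Rt B (rt / lm) 1 := by
  refine Rt_of_sq hB ?_
  have hl := lm_ne
  have e : (rt / lm) ^ 2 = -1 := by
    rw [div_pow, rt_sq, lm_sq]
    norm_num
  rw [e]
  exact Rt.neg hB Rt.one

theorem v_rt (hB : (2 : ℂ)⁻¹ ∉ B) : B.valuation rt = B.valuation lm := by
  have h := (Rt_rt hB).unit one_ne_zero
  rw [map_div₀, div_eq_one_iff_eq (v_lm_pos (hq := hq)).ne'] at h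
  exact h

/-- the possible values of `c` -/
def Cc (c : ℂ) : Prop := c = rt ∨ c = -rt

theorem Cc.sq {c : ℂ} (h : Cc c) : c ^ 2 = 2 := by
  rcases h with rfl | rfl
  · exact rt_sq
  · rw [neg_sq, rt_sq]

theorem Cc.rt_ (hB : (2 : ℂ)⁻¹ ∉ B) {c : ℂ} (h : Cc c) : Rt B (c / lm) 1 := by
  rcases h with rfl | rfl
  · exact Rt_rt hB
  · rw [neg_div]
    exact Rt.neg hB (Rt_rt hB)

theorem Cc.v (hB : (2 : ℂ)⁻¹ ∉ B) {c : ℂ} (h : Cc c) : B.valuation c = B.valuation lm := by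
  rcases h with rfl | rfl
  · exact v_rt hB
  · rw [Valuation.map_neg]
    exact v_rt hB

theorem Cc.neg {c : ℂ} (h : Cc c) : Cc (-c) := by
  rcases h with rfl | rfl
  · exact Or.inr rfl
  · exact Or.inl (neg_neg rt)

/-- a square root of `lm` -/
theorem exists_sl : ∃ s : ℂ, s ^ 2 = lm := IsAlgClosed.exists_pow_nat_eq lm (by norm_num)

/-- the square root of `lm` -/
def sl8 : ℂ := exists_sl.choose

theorem sl8_sq : sl8 ^ 2 = lm := exists_sl.choose_spec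

theorem sl8_ne : sl8 ≠ 0 := by
  intro h
  have h1 := sl8_sq
  rw [h, zero_pow two_ne_zero] at h1
  exact lm_ne h1.symm

theorem v_sl8 (hB : (2 : ℂ)⁻¹ ∉ B) : B.valuation sl8 < 1 := by
  have h := v_lm_lt hB
  rw [← sl8_sq, map_pow] at h
  exact (pow_lt_one_iff_of_nonneg zero_le two_ne_zero).1 h

/-- `(X + c) / sl8 ^ 5` -/
theorem Rt_add_c (hB : (2 : ℂ)⁻¹ ∉ B) {z c : ℂ} (hz : Od z) (hc : Cc c) :
    Rt B ((xx z + c) / sl8 ^ 5) 1 := by
  have hs := sl8_ne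
  have hl := lm_ne
  have e1 : lm = sl8 ^ 2 := sl8_sq.symm
  refine Rt_of_quad hB (c := 2 * c / sl8 ^ 5) (u := (xx z ^ 2 - 2) / lm ^ 5) ?_
    (Rt_sq_sub hB hz) ?_
  · have h2 : 2 * c / sl8 ^ 5 = -(sl8 * (c / lm)) := by
      rw [div_eq_iff (pow_ne_zero 5 hs)]
      have h3 := lm_sq (hq := hq)
      rw [e1] at h3 ⊢
      have h4 : -(sl8 * (c / sl8 ^ 2)) * sl8 ^ 5 = -c * (sl8 ^ 2) ^ 2 := by
        field_simp
      rw [h4, h3]
      ring
    rw [h2, Valuation.map_neg, map_mul]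
    exact mul_lt_one_of_lt_of_le (v_sl8 hB) (hc.rt_ hB).le
  · rw [e1]
    have h := hc.sq
    field_simp
    linear_combination (-1 : ℂ) * h

/-- `X + c` is not zero -/
theorem add_c_ne (hB : (2 : ℂ)⁻¹ ∉ B) {z c : ℂ} (hz : Od z) (hc : Cc c) : xx z + c ≠ 0 := by
  have h := (Rt_add_c hB hz hc).ne_zero one_ne_zero
  intro h0
  rw [h0, zero_div] at h
  exact h rfl

/-- `(X - (2 + c)) / lm ^ 2` -/
theorem Rt_sub_r (hB : (2 : ℂ)⁻¹ ∉ B) {z c : ℂ} (hz : Od z) (hc : Cc c) :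
    Rt B ((xx z - (2 + c)) / lm ^ 2) 1 := by
  have hl := lm_ne
  refine Rt_of_quad hB (c := -(2 * c) / lm ^ 2) (u := (xx z ^ 2 - 4 * xx z + 2) / lm ^ 4) ?_
    (Rt_quad hB hz) ?_
  · have h2 : -(2 * c) / lm ^ 2 = c := by
      rw [lm_sq]
      ring
    rw [h2, hc.v hB]
    exact v_lm_lt hB
  · have h := hc.sq
    field_simp
    linear_combination (-1 : ℂ) * h

end

end

end Pool.Agent.Lib.MP_1a91b9_ntW
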