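import Pool.Agent.Lib.MP_1a91b9_ntW.A.Od8

/-!
# Phase 6, part A, file Uj1: the function `uu` (`j = 1`), its even and its odd part

`z0 = 1 / (4 √-2)`, `z1 = z0 + 1/4`, `ep = ± 1`. Sections (2.4), (2.5) and 3 (`j = 1`) of the page:
`(uu Q + uu (-Q)) / (c0 lm ^ 2)` is congruent to `xi (lm Q) + xi (lm (lm Q))`,
`(uu Q - uu (-Q)) / (c0 lm ^ 2)` is congruent to `1 + xi (lm Q) + xi (lm (lm Q))`, `c0 ^ 2 = lm ^ 6`.
-/

set_option autoImplicit false
set_option linter.unusedSectionVars false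

namespace Pool.Agent.Lib.MP_1a91b9_ntW

open NumberField Pool.Agent.Lib.MP_1a91b9_nuT Pool.Agent.Lib.MP_1a91b9_nuT.S3
  Pool.Agent.Lib.MP_1a91b9_nuT.Ell
open Pool.Agent.Lib.MP_1a91b9_ntQ (em em_add em_mul em_pow em_sub em_zero em_one em_ne Rt two_lt)

noncomputable section

variable [CD]

/-- the point `1 / (4 √-2)` -/
def z0 : ℂ := pe / 4

/-- the point `1 / (4 √-2) + 1 / 4` -/
def z1 : ℂ := z0 + 1 / 4

/-- half of `c0` -/
def c0 : ℂ := hh rt z0

/-- the function `u_k`, `ep = (-1) ^ k` -/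
def uu (ep Q : ℂ) : ℂ :=
  ff (z0 + Q) + 2 * rt / ff (z0 - Q) - ep * (ff (z1 - Q) - 2 * rt / ff (z1 + Q))

variable [hq : Q8]

theorem lm_z0 : lm * z0 = 1 / 4 := by
  rw [z0]
  linear_combination (1 / 4) * lm_mul_pe

theorem lm_z1 : lm * z1 = (1 + lm) / 4 := by
  rw [z1]
  linear_combination lm_z0

theorem four_mem : (4 : ℂ) * (1 / 4) ∈ PP.lattice := by
  have e : (4 : ℂ) * (1 / 4) = 1 := by norm_num
  rw [e]
  exact one_mem

theorem z0_mem : lm ^ 5 * z0 ∈ PP.lattice := by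
  have e : lm ^ 5 * z0 = 1 := by
    have h := lm_z0
    have h4 := lm_four
    linear_combination lm ^ 4 * h + (1 / 4) * h4
  rw [e]
  exact one_mem

theorem quarter_mem : lm ^ 4 * (1 / 4) ∈ PP.lattice := by
  rw [lm_four]
  exact four_mem

theorem z1_mem : lm ^ 5 * z1 ∈ PP.lattice := by
  rw [z1, mul_add]
  refine add_mem z0_mem ?_
  have e : lm ^ 5 * (1 / 4) = lm * (lm ^ 4 * (1 / 4)) := by ring
  rw [e]
  exact lm_mem_mul quarter_mem

theorem z0_two : 2 * z0 ∉ PP.lattice := by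
  intro h
  apply pe_notMem
  have e : pe = 2 * z0 + 2 * z0 := by rw [z0]; ring
  rw [e]
  exact add_mem h h

theorem z1_two : 2 * z1 ∉ PP.lattice := by
  intro h
  apply quarter_notMem
  have h1 := lm_mem_mul h
  have e : lm * (2 * z1) = 2 * ((1 + lm) / 4) := by
    linear_combination 2 * lm_z1
  rwa [e] at h1

/-- the conditions for a base point of order a power of `lm` and a point with a nonzero odd part -/
theorem Gp.of_od {P Q : ℂ} (hP : 2 * P ∉ PP.lattice) {n : ℕ} (hn : lm ^ n * P ∈ PP.lattice)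
    (hQ : Od Q) : Gp P Q where
  P2 := hP
  Q2 := hQ.two
  sub := by
    have h1 : Od (Q + -P) := hQ.add (n := n) (by
      rw [mul_neg]
      exact neg_mem hn)
    have h2 := h1.neg.mul_lm.two
    have e : -(Q + -P) = P - Q := by ring
    rwa [e] at h2
  add := by
    have h1 : Od (Q + P) := hQ.add hn
    have h2 := h1.mul_lm.two
    rwa [add_comm Q P] at h2

theorem bp0 : Bp rt z0 where
  c2 := rt_sq
  eq := by
    rw [lm_z0]
    exact xx_quarter

theorem bp1 : Bp (-rt) z1 where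
  c2 := by rw [neg_sq, rt_sq]
  eq := by
    rw [lm_z1]
    linear_combination xx_quarter'

/-- `xx (1/4)` -/
theorem tau0_ne : xx (1 / 4) ≠ 0 := xx_ne four_notMem

/-- `(tau - c) ^ 2 = 4 tau` -/
theorem Bp.sq {c P : ℂ} (h : Bp c P) : (xx (lm * P) - c) ^ 2 = 4 * xx (lm * P) := by
  linear_combination h.eq + h.c2

/-- `hh c P ^ 2 = -8` -/
theorem Bp.hh_sq {c P : ℂ} (h : Bp c P) (hP : 2 * P ∉ PP.lattice) (h0 : xx (lm * P) ≠ 0) :
    hh c P ^ 2 = lm ^ 6 := by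
  have h1 := Pool.Agent.Lib.MP_1a91b9_ntW.hh_sq c hP
  rw [h.sq] at h1
  have e : lm ^ 6 = -8 := by
    have : lm ^ 6 = lm ^ 4 * lm ^ 2 := by ring
    rw [this, lm_four, lm_sq]
    norm_num
  rw [e]
  apply mul_right_cancel₀ h0
  linear_combination h1

theorem c0_sq : c0 ^ 2 = lm ^ 6 := bp0.hh_sq z0_two (by rw [lm_z0]; exact tau0_ne)

theorem c0_ne : c0 ≠ 0 := by
  intro h
  have h1 := c0_sq
  rw [h, zero_pow two_ne_zero] at h1
  exact pow_ne_zero 6 lm_ne h1.symm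

/-- `c0 = ± lm ^ 3` -/
theorem c0_cases : c0 = lm ^ 3 ∨ c0 = -lm ^ 3 := by
  have h := c0_sq
  have e : (lm ^ 3) ^ 2 = lm ^ 6 := by ring
  rw [← e] at h
  exact sq_eq_sq_iff_eq_or_eq_neg.1 h

theorem gp_quarter : Gp z0 (1 / 4) where
  P2 := z0_two
  Q2 := four_notMem
  sub := by
    intro h
    apply quarter_notMem
    have e : 2 * ((1 + lm) / 4) = 2 * (lm * (z0 - 1 / 4)) + lm := by
      linear_combination (-2 : ℂ) * lm_z0
    rw [e]
    exact add_mem h lm_mem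
  add := by
    have e : 2 * (lm * (z0 + 1 / 4)) = 2 * ((1 + lm) / 4) := by
      linear_combination 2 * lm_z0
    rw [e]
    exact quarter_notMem

theorem tau0_add_ne : xx (1 / 4) + rt ≠ 0 := by
  intro h
  have h1 := xx_quarter
  have h2 : xx (1 / 4) = -rt := by linear_combination h
  rw [h2] at h1
  have h3 := rt_sq
  have h4 : rt = -2 := by linear_combination (1 / 4) * h1 - (3 / 4) * h3
  rw [h4] at h3
  norm_num at h3

/-- (2.4): the two constants are equal. -/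
theorem hh_z1 : hh (-rt) z1 = c0 := by
  have hz := z1_two
  have h1 := gp_quarter.sum
  rw [lm_z0] at h1
  have e1 : lm * (1 / 4) = lm / 4 := by ring
  rw [e1, xx_lm4] at h1
  have h2 : ff (z0 - 1 / 4) = ff (z1 + 1 / 2) := ff_congr (by
    have e : z0 - 1 / 4 - (z1 + 1 / 2) = -1 := by rw [z1]; ring
    rw [e]
    exact neg_mem one_mem)
  rw [h2, ff_half_eq hz] at h1
  have h3 : hh (-rt) z1 = ff z1 + -(2 * rt / ff z1) := by
    rw [hh]
    ring
  have h4 : ff (z0 + 1 / 4) = ff z1 := rfl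
  rw [h4, ← h3] at h1
  have h5 := tau0_ne
  have h6 := tau0_add_ne
  have h7 : hh (-rt) z1 * xx (1 / 4) = (xx (1 / 4) - rt) * ff z0 := by
    apply mul_right_cancel₀ h6
    linear_combination h1 + ff z0 * rt_sq
  have h8 : c0 * ff z0 = -2 * (xx (1 / 4) - rt) := by
    have := hh_mul rt z0_two
    rwa [lm_z0] at this
  have h9 := ff_sq z0_two
  rw [lm_z0] at h9
  apply mul_right_cancel₀ (mul_ne_zero h5 (ff_ne z0_two))
  linear_combination ff z0 * h7 - xx (1 / 4) * h8 + (xx (1 / 4) - rt) * h9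

/-! ### The closed forms -/

variable {B : ValuationSubring ℂ}

theorem uu_add {ep Q : ℂ} (hQ : Od Q) (hB : (2 : ℂ)⁻¹ ∉ B) : uu ep Q + uu ep (-Q) =
    c0 * (xx Q ^ 2 - 2) / (2 * (xx Q * xx (lm * Q))) *
      ((xx (lm * Q) + rt) / (xx (lm * (lm * Q)) + rt) -
        ep * ((xx (lm * Q) - rt) / (xx (lm * (lm * Q)) - rt))) := by
  have h1 := (Gp.of_od z0_two z0_mem hQ).hh_add bp0 (by rw [lm_z0]; exact tau0_ne) hQ.mul_lm.two
    (add_c_ne hB hQ.mul_lm.mul_lm (Or.inl rfl))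
  have h2 := (Gp.of_od z1_two z1_mem hQ).hh_add bp1 (by
    rw [lm_z1]
    exact xx_ne quarter_notMem) hQ.mul_lm.two
    (add_c_ne hB hQ.mul_lm.mul_lm (Or.inr rfl))
  rw [hh_z1] at h2
  have h3 : uu ep Q + uu ep (-Q) = (hh rt (z0 + Q) + hh rt (z0 - Q)) -
      ep * (hh (-rt) (z1 + Q) + hh (-rt) (z1 - Q)) := by
    rw [uu, uu, hh, hh, hh, hh, sub_neg_eq_add, sub_neg_eq_add, ← sub_eq_add_neg, ← sub_eq_add_neg]
    ring
  have n1 := xx_ne hQ.two
  have n2 := xx_ne hQ.mul_lm.two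
  have n3 : xx (lm * (lm * Q)) + rt ≠ 0 := add_c_ne hB hQ.mul_lm.mul_lm (Or.inl rfl)
  have n4 : xx (lm * (lm * Q)) - rt ≠ 0 := by
    have := add_c_ne hB hQ.mul_lm.mul_lm (Or.inr rfl)
    rwa [← sub_eq_add_neg] at this
  rw [h3, h1, h2, ← sub_eq_add_neg, ← sub_eq_add_neg]
  change c0 * (xx Q ^ 2 - 2) * _ / _ - _ = _
  field_simp

theorem uu_sub {ep Q : ℂ} (hQ : Od Q) (hB : (2 : ℂ)⁻¹ ∉ B) : uu ep Q - uu ep (-Q) =
    c0 * (xx Q / yy Q) * ((xx z0 ^ 2 - 2) / yy z0 *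
      ((xx (lm * Q) + rt) / (xx (lm * (lm * Q)) + rt)) +
      ep * ((xx z1 ^ 2 - 2) / yy z1 * ((xx (lm * Q) - rt) / (xx (lm * (lm * Q)) - rt)))) := by
  have h1 := (Gp.of_od z0_two z0_mem hQ).hh_sub bp0 (by rw [lm_z0]; exact tau0_ne) hQ.mul_lm.two
    (add_c_ne hB hQ.mul_lm.mul_lm (Or.inl rfl))
  have h2 := (Gp.of_od z1_two z1_mem hQ).hh_sub bp1 (by
    rw [lm_z1]
    exact xx_ne quarter_notMem) hQ.mul_lm.two
    (add_c_ne hB hQ.mul_lm.mul_lm (Or.inr rfl))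
  rw [hh_z1, neg_neg, ← sub_eq_add_neg, ← sub_eq_add_neg] at h2
  have h3 : uu ep Q - uu ep (-Q) = (hh (-rt) (z0 + Q) - hh (-rt) (z0 - Q)) +
      ep * (hh rt (z1 + Q) - hh rt (z1 - Q)) := by
    rw [uu, uu, hh, hh, hh, hh, sub_neg_eq_add, sub_neg_eq_add, ← sub_eq_add_neg, ← sub_eq_add_neg]
    ring
  rw [h3, h1, h2]
  change _ * c0 * _ * _ + _ = _
  ring

end

end Pool.Agent.Lib.MP_1a91b9_ntW
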