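import Pool.Agent.Lib.MP_1a91b9_ntW.A.Uj0

/-!
# Phase 6, part A, file Uv0: the function `U0` (`j = 0`) modulo the place

Sections (2.6) and 3 (`j = 0`) of the page: for `Q` of odd order and `ep = ± 1`,
`U0 ep Q / (om lm ^ 2)` and `(U0 ep Q + U0 ep (-Q)) / (om lm ^ 3)` are integral,
`(U0 ep 0 / om) ^ 4 = lm ^ 10`.
-/

set_option autoImplicit false
set_option linter.unusedSectionVars false

namespace Pool.Agent.Lib.MP_1a91b9_ntW

open NumberField Pool.Agent.Lib.MP_1a91b9_nuT Pool.Agent.Lib.MP_1a91b9_nuT.S3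
  Pool.Agent.Lib.MP_1a91b9_nuT.Ell
open Pool.Agent.Lib.MP_1a91b9_ntQ (em em_add em_mul em_pow em_sub em_zero em_one em_ne Rt two_lt)

noncomputable section

theorem s_alg {X Y Yp r X' : ℂ} (hr : r ^ 2 = 2) (hx : -2 * X * X' = X ^ 2 - 4 * X + 2)
    (nD : X - (2 - r) ≠ 0) (n1 : X + r ≠ 0) (n2 : X - r ≠ 0) :
    (Y / (X - (2 - r)) + Yp * r / 2 - Yp * (r - 1) / 2 - (Y + Yp) / (X + r) -
      (Y - (r - 1) * Yp) / (X - r)) * ((X - (2 - r)) * ((X + r) * (X - r))) =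
      X * (X' - r) * (2 * Y - Yp * (X - (2 - r))) := by
  have e : (Y / (X - (2 - r)) + Yp * r / 2 - Yp * (r - 1) / 2 - (Y + Yp) / (X + r) -
      (Y - (r - 1) * Yp) / (X - r)) * ((X - (2 - r)) * ((X + r) * (X - r))) =
      Y * ((X + r) * (X - r)) + Yp / 2 * (X - (2 - r)) * ((X + r) * (X - r)) -
      (Y + Yp) * (X - (2 - r)) * (X - r) - (Y - (r - 1) * Yp) * (X - (2 - r)) * (X + r) := by
    obtain ⟨D, hD⟩ : ∃ D, D = X - (2 - r) := ⟨_, rfl⟩
    rw [← hD] at nD ⊢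
    field_simp
    ring
  rw [e]
  linear_combination (-Y + Yp * (X - (2 - r)) / 2) * hr + (Y - Yp * (X - (2 - r)) / 2) * hx

variable [CD] [hq : Q8]

/-- the ordinate of `lm / 4` -/
def Yp : ℂ := yy (lm / 4)

theorem lm4_mem : lm / 4 ∉ PP.lattice := notMem_of_two_mul two_lm4_notMem

theorem Yp_sq : Yp ^ 2 = -4 * (2 + rt) := by
  rw [Yp, yy_sq lm4_mem, xx_lm4]
  linear_combination (-rt - 4) * rt_sq

theorem one_add_rt : (1 + rt) * (rt - 1) = 1 := by linear_combination rt_sq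

theorem one_add_rt_ne : 1 + rt ≠ 0 := left_ne_zero_of_mul_eq_one one_add_rt

theorem E1_lm4 : E1 (lm / 4) = om * (Yp * rt / 4) := by
  have h := E1_lm (lm / 4)
  have e : lm * (lm / 4) = -(1 / 2) := by linear_combination (1 / 4) * lm_sq
  rw [e, S3.E1_neg, E1_two two_half_mem] at h
  have h1 := ff_mul two_lm4_notMem
  rw [xx_lm4] at h1
  have hr := rt_ne
  have h2 : ff (lm / 4) = -(Yp * rt / 2) := by
    apply mul_right_cancel₀ hr
    have h3 : ff (lm / 4) * -rt = Yp := h1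
    linear_combination -h3 + (Yp / 2) * rt_sq
  rw [h2] at h
  linear_combination (1 / 2) * h

theorem yy_lm4_half : yy (lm / 4 + 1 / 2) = -((rt - 1) * Yp) := by
  have h := yy_add_half two_lm4_notMem
  rw [xx_lm4] at h
  have h1 := one_add_rt_ne
  have h2 : yy (lm / 4 + 1 / 2) * (1 + rt) = -Yp := by
    apply mul_right_cancel₀ (mul_ne_zero (show (4 : ℂ) ≠ 0 by norm_num) h1)
    have h3 : yy (lm / 4 + 1 / 2) * (-rt - (2 + rt)) ^ 2 = -(4 * (1 + rt)) * Yp := h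
    linear_combination h3
  linear_combination (rt - 1) * h2 - yy (lm / 4 + 1 / 2) * one_add_rt

theorem E1_lm4_half : E1 (lm / 4 + 1 / 2) = om * (Yp * rt / 4 - Yp * (rt - 1) / 2) := by
  rw [E1_half two_lm4_notMem, xx_lm4, E1_lm4]
  have h1 := one_add_rt_ne
  have e : yy (lm / 4) / (-rt - (2 + rt)) = -(Yp * (rt - 1) / 2) := by
    have e1 : -rt - (2 + rt) = -2 * (1 + rt) := by ring
    rw [e1, div_eq_iff (mul_ne_zero (by norm_num) h1)]
    have e2 : yy (lm / 4) = Yp := rfl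
    rw [e2]
    linear_combination -Yp * one_add_rt
  rw [e]
  ring

/-- the slope of a difference -/
theorem E1_sub {z w : ℂ} (hz : 2 * z ∉ PP.lattice) (hw : 2 * w ∉ PP.lattice)
    (h1 : z - w ∉ PP.lattice) (h2 : z + w ∉ PP.lattice) (hx : xx z - xx w ≠ 0) :
    E1 (z - w) = E1 z - E1 w + om * ((yy z + yy w) / (xx z - xx w)) := by
  have hw' : 2 * (-w) ∉ PP.lattice := by
    rw [mul_neg]
    exact fun h => hw (by simpa using neg_mem h)
  have h := sg_chord hz hw' (by rwa [sub_neg_eq_add]) (by rwa [← sub_eq_add_neg])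
  rw [xx_neg, yy_neg, sub_neg_eq_add] at h
  rw [sub_eq_add_neg z w, E1_add_sg, S3.E1_neg, h, mul_div_cancel_right₀ _ hx]
  ring

theorem U0_eq (ep Q : ℂ) : U0 ep Q = E1 (1 / 4 + Q) + E1 (1 / 4 + Q + (1 / 2 + pe)) -
    ep * (E1 (1 / 4 + Q - (lm / 4 + 1 / 2)) + E1 (1 / 4 + Q - lm / 4)) := by
  rw [U0]
  have e1 : E1 ((-1 + 2 * lm) / 4 + Q) = E1 (1 / 4 + Q + (1 / 2 + pe)) := by
    refine E1_congr' ?_
    have e : (-1 + 2 * lm) / 4 + Q - (1 / 4 + Q + (1 / 2 + pe)) = lm - 1 := by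
      rw [pe_eq]
      ring
    rw [e]
    exact sub_mem lm_mem one_mem
  have e2 : -(1 + lm) / 4 + Q = 1 / 4 + Q - (lm / 4 + 1 / 2) := by ring
  have e3 : -(-1 + lm) / 4 + Q = 1 / 4 + Q - lm / 4 := by ring
  rw [e1, e2, e3]

variable {B : ValuationSubring ℂ}

/-- **The closed form of `U0 1`.** -/
theorem U0_one (hB : (2 : ℂ)⁻¹ ∉ B) {Q : ℂ} (hQ : Od Q) :
    U0 1 Q * (Yp * (xx (1 / 4 + Q) - (2 - rt)) + 2 * yy (1 / 4 + Q)) =
      om * (4 * xx (1 / 4 + Q) * (xx (lm * (1 / 4 + Q)) - rt)) := by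
  obtain ⟨z, hz⟩ : ∃ z, z = 1 / 4 + Q := ⟨_, rfl⟩
  have oz : Od z := by
    have h := hQ.add quarter_mem
    rwa [add_comm, ← hz] at h
  have q4 : lm ^ 5 * (lm / 4) ∈ PP.lattice := by
    have e : lm ^ 5 * (lm / 4) = lm ^ 2 * (lm ^ 4 * (1 / 4)) := by ring
    rw [e]
    exact lm_pow_mem quarter_mem 2
  have q5 : lm ^ 5 * (lm / 4 + 1 / 2) ∈ PP.lattice := by
    have e : lm ^ 5 * (lm / 4 + 1 / 2) = lm ^ 5 * (lm / 4) + 2 * (lm * (lm ^ 4 * (1 / 4))) := by ring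
    have h3 := lm_mem_mul quarter_mem
    rw [e, two_mul]
    exact add_mem q4 (add_mem h3 h3)
  have q4' : lm ^ 5 * -(lm / 4) ∈ PP.lattice := by
    rw [mul_neg]
    exact neg_mem q4
  have q5' : lm ^ 5 * -(lm / 4 + 1 / 2) ∈ PP.lattice := by
    rw [mul_neg]
    exact neg_mem q5
  have two_q5 : 2 * (lm / 4 + 1 / 2) ∉ PP.lattice := two_add_two two_half_mem two_lm4_notMem
  have n1 : xx z + rt ≠ 0 := add_c_ne hB oz (Or.inl rfl)
  have n2 : xx z - rt ≠ 0 := by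
    have := add_c_ne hB oz (Or.inr rfl)
    rwa [← sub_eq_add_neg] at this
  have nD := sub_r'_ne oz.two
  have a1 := E1_sub (z := z) (w := lm / 4) oz.two two_lm4_notMem (oz.add q4').notMem
    (oz.add q4).notMem (by rwa [xx_lm4, sub_neg_eq_add])
  have a2 := E1_sub (z := z) (w := lm / 4 + 1 / 2) oz.two two_q5 (oz.add q5').notMem
    (oz.add q5).notMem (by rwa [xx_lm4_half])
  rw [xx_lm4, sub_neg_eq_add, E1_lm4] at a1
  rw [xx_lm4_half, E1_lm4_half, yy_lm4_half] at a2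
  have a3 := E1_half_pe oz.two
  have hx := xx_lm oz.two
  have key := s_alg (Y := yy z) (Yp := Yp) rt_sq hx nD n1 n2
  have hU : U0 1 Q = om * (yy z / (xx z - (2 - rt)) + Yp * rt / 2 - Yp * (rt - 1) / 2 -
      (yy z + Yp) / (xx z + rt) - (yy z - (rt - 1) * Yp) / (xx z - rt)) := by
    rw [U0_eq, ← hz, a1, a2, a3, Yp]
    ring
  rw [← hz, hU]
  have hy := yy_sq oz.notMem
  have hp := Yp_sq
  have hr := rt_sq
  apply mul_right_cancel₀ (mul_ne_zero nD (mul_ne_zero n1 n2))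
  have hW : (2 * yy z - Yp * (xx z - (2 - rt))) * (Yp * (xx z - (2 - rt)) + 2 * yy z) =
      4 * ((xx z - (2 - rt)) * ((xx z + rt) * (xx z - rt))) := by
    linear_combination 4 * hy - (xx z - (2 - rt)) ^ 2 * hp +
      (12 * xx z + 8 * rt - 16) * hr
  linear_combination (om * (Yp * (xx z - (2 - rt)) + 2 * yy z)) * key +
    (om * xx z * (xx (lm * z) - rt)) * hW

/-- the residue of `U0 1` -/
theorem Rt_U0_one (hB : (2 : ℂ)⁻¹ ∉ B) {Q : ℂ} (hQ : Od Q) :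
    Rt B (U0 1 Q / (om * lm ^ 2)) 1 := by
  have h := U0_one hB hQ
  obtain ⟨z, hz⟩ : ∃ z, z = 1 / 4 + Q := ⟨_, rfl⟩
  have oz : Od z := by
    have h := hQ.add quarter_mem
    rwa [add_comm, ← hz] at h
  rw [← hz] at h
  have hl := lm_ne
  have hs := sl8_ne
  have ho := om_ne
  have es : lm = sl8 ^ 2 := sl8_sq.symm
  obtain ⟨W, hW⟩ : ∃ W, W = Yp * (xx z - (2 - rt)) + 2 * yy z := ⟨_, rfl⟩
  rw [← hW] at h
  have nD := sub_r'_ne oz.two
  -- the residue of `W / sl8 ^ 11`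
  have r1 : Rt B (W / sl8 ^ 11) 1 := by
    refine Rt_of_quad hB (c := 4 * yy z / sl8 ^ 11)
      (u := -((xx z - (2 - rt)) / lm ^ 2 * ((xx z ^ 2 - 2) / lm ^ 5))) ?_ ?_ ?_
    · have h1 : B.valuation (yy z / sl8 ^ 5) ≤ 1 := by
        refine (Rt_of_sq hB (x := yy z / sl8 ^ 5) ?_).le
        have e : (yy z / sl8 ^ 5) ^ 2 = yy z ^ 2 / lm ^ 5 := by
          rw [es]
          field_simp
        rw [e]
        exact Rt_yy_sq hB oz
      have e : 4 * yy z / sl8 ^ 11 = lm * (yy z / sl8 ^ 5) := by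
        rw [← lm_four, es]
        field_simp
      rw [e, map_mul]
      exact mul_lt_one_of_lt_of_le (v_lm_lt hB) h1
    · refine Rt.neg hB (Rt_mul1 hB ?_ (Rt_sq_sub hB oz))
      have h1 := Rt_sub_r hB oz (c := -rt) (Or.inr rfl)
      rwa [← sub_eq_add_neg] at h1
    · have hy := yy_sq oz.notMem
      have hp := Yp_sq
      have hr := rt_sq
      have e1 : W ^ 2 - 4 * yy z * W = -(lm ^ 4 * ((xx z - (2 - rt)) * (xx z ^ 2 - 2))) := by
        rw [hW, lm_four]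
        linear_combination (-4 : ℂ) * hy + (xx z - (2 - rt)) ^ 2 * hp -
          (8 * xx z + 4 * rt - 8) * hr
      have e2 : (W / sl8 ^ 11) ^ 2 - 4 * yy z / sl8 ^ 11 * (W / sl8 ^ 11) =
          (W ^ 2 - 4 * yy z * W) / lm ^ 11 := by
        rw [es]
        field_simp
      rw [e2, e1]
      field_simp
  have r2 : Rt B ((xx (lm * z) - rt) / sl8 ^ 5) 1 := by
    have h1 := Rt_add_c hB oz.mul_lm (c := -rt) (Or.inr rfl)
    rwa [← sub_eq_add_neg] at h1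
  have hW0 : W ≠ 0 := by
    intro h0
    have h1 := r1.ne_zero one_ne_zero
    rw [h0, zero_div] at h1
    exact h1 rfl
  have e : U0 1 Q / (om * lm ^ 2) = al z * ((xx (lm * z) - rt) / sl8 ^ 5) * (W / sl8 ^ 11)⁻¹ := by
    have e1 : U0 1 Q = om * (4 * xx z * (xx (lm * z) - rt)) / W := by
      rw [eq_div_iff hW0, h]
    rw [e1, xx_al z, ← lm_four, es]
    field_simp
  rw [e]
  exact Rt_mul1 hB (Rt_mul1 hB (Rt_al hB oz) r2) (Rt_inv1 r1)

theorem Oo.two_mul {z : ℂ} (h : Oo z) : Oo (2 * z) := by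
  have h1 := h.mul_lm.mul_lm.neg
  have e : -(lm * (lm * z)) = 2 * z := by linear_combination (-z) * lm_sq
  rwa [e] at h1

/-- `2 E1 (1/4 + Q) / om` is integral -/
theorem v_two_E1 (hB : (2 : ℂ)⁻¹ ∉ B) {Q : ℂ} (hQ : Oo Q) :
    B.valuation (2 * E1 (1 / 4 + Q) / om) ≤ 1 := by
  have hl := lm_ne
  have ho := om_ne
  obtain ⟨z, hz⟩ : ∃ z, z = 1 / 4 + Q := ⟨_, rfl⟩
  have oz : Od z := by
    have h := hQ.od.add quarter_mem
    rwa [add_comm, ← hz] at h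
  have h2 := hQ.two_mul
  have e1 := E1_lm z
  have e2 := E1_lm (lm * z)
  have e3 : E1 (lm * (lm * z)) = -E1 (2 * Q + 1 / 2) := by
    rw [← S3.E1_neg]
    congr 1
    rw [hz]
    linear_combination (1 / 4 + Q) * lm_sq
  have e4 := E1_half h2.od.two
  rw [e3, e4] at e2
  have nr := sub_r_ne h2.od.two
  have e5 : 2 * E1 z / om = ff (lm * z) / lm + (E1 (2 * Q) / om +
      yy (2 * Q) / (xx (2 * Q) - (2 + rt))) - ff z := by
    obtain ⟨w, hw⟩ : ∃ w, w = yy (2 * Q) / (xx (2 * Q) - (2 + rt)) := ⟨_, rfl⟩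
    rw [← hw] at e2 ⊢
    field_simp
    linear_combination lm * e1 - e2 + E1 (lm * z) * lm_sq
  have v1 := (v_ff hB oz.mul_lm).le
  have v2 := v_E1 hB h2
  have v3 : B.valuation (yy (2 * Q) / (xx (2 * Q) - (2 + rt))) ≤ 1 := by
    have h3 := (Rt_yy_sq hB h2.od).unit one_ne_zero
    have h4 := (Rt_sub_r hB h2.od (c := rt) (Or.inl rfl)).unit one_ne_zero
    have e6 : (yy (2 * Q) / (xx (2 * Q) - (2 + rt))) ^ 2 =
        lm * (yy (2 * Q) ^ 2 / lm ^ 5) / ((xx (2 * Q) - (2 + rt)) / lm ^ 2) ^ 2 := by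
      field_simp
    have h5 : B.valuation (yy (2 * Q) / (xx (2 * Q) - (2 + rt))) ^ 2 ≤ 1 := by
      rw [← map_pow, e6, map_div₀, map_mul, map_pow, h3, h4, one_pow, div_one, mul_one]
      exact v_lm_le hB
    exact (pow_le_one_iff_of_nonneg zero_le two_ne_zero).1 h5
  have v4 : B.valuation (ff z) ≤ 1 := by
    have e6 : ff z = lm * (ff z / lm) := by field_simp
    rw [e6, map_mul]
    exact mul_le_one' (v_lm_le hB) (v_ff hB oz).le
  rw [← hz, e5]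
  exact (Valuation.map_sub _ _ _).trans (max_le ((Valuation.map_add _ _ _).trans (max_le v1
    ((Valuation.map_add _ _ _).trans (max_le v2 v3)))) v4)

/-- **The bound of `U0`.** -/
theorem v_U0 (hB : (2 : ℂ)⁻¹ ∉ B) {ep Q : ℂ} (hep : ep = 1 ∨ ep = -1) (hQ : Oo Q) :
    B.valuation (U0 ep Q / (om * lm ^ 2)) ≤ 1 := by
  rcases hep with rfl | rfl
  · exact (Rt_U0_one hB hQ.od).le
  · have hl := lm_ne
    have ho := om_ne
    have oz : Od (1 / 4 + Q) := by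
      have h := hQ.od.add quarter_mem
      rwa [add_comm] at h
    have nr := sub_r'_ne oz.two
    have e : U0 (-1) Q / (om * lm ^ 2) = -(2 * E1 (1 / 4 + Q) / om +
        yy (1 / 4 + Q) / (xx (1 / 4 + Q) - (2 - rt))) - U0 1 Q / (om * lm ^ 2) := by
      rw [U0_eq, U0_eq, E1_half_pe oz.two]
      obtain ⟨w, hw⟩ : ∃ w, w = yy (1 / 4 + Q) / (xx (1 / 4 + Q) - (2 - rt)) := ⟨_, rfl⟩
      obtain ⟨t, ht⟩ : ∃ t, t = E1 (1 / 4 + Q) := ⟨_, rfl⟩
      rw [← hw, ← ht]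
      field_simp
      linear_combination (2 * t + w * om) * lm_sq
    have v3 : B.valuation (yy (1 / 4 + Q) / (xx (1 / 4 + Q) - (2 - rt))) ≤ 1 := by
      have h3 := (Rt_yy_sq hB oz).unit one_ne_zero
      have h4 := (Rt_sub_r hB oz (c := -rt) (Or.inr rfl)).unit one_ne_zero
      rw [← sub_eq_add_neg] at h4
      have e6 : (yy (1 / 4 + Q) / (xx (1 / 4 + Q) - (2 - rt))) ^ 2 =
          lm * (yy (1 / 4 + Q) ^ 2 / lm ^ 5) / ((xx (1 / 4 + Q) - (2 - rt)) / lm ^ 2) ^ 2 := by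
        field_simp
      have h5 : B.valuation (yy (1 / 4 + Q) / (xx (1 / 4 + Q) - (2 - rt))) ^ 2 ≤ 1 := by
        rw [← map_pow, e6, map_div₀, map_mul, map_pow, h3, h4, one_pow, div_one, mul_one]
        exact v_lm_le hB
      exact (pow_le_one_iff_of_nonneg zero_le two_ne_zero).1 h5
    rw [e]
    refine (Valuation.map_sub _ _ _).trans (max_le ?_ (Rt_U0_one hB hQ.od).le)
    rw [Valuation.map_neg]
    exact (Valuation.map_add _ _ _).trans (max_le (v_two_E1 hB hQ) v3)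

/-! ### The even part -/

theorem U0_add {ep Q : ℂ} (hQ : Od Q) : U0 ep Q + U0 ep (-Q) =
    -om * (hh rt (1 / 4 + Q) + ep * hh (-rt) ((1 + lm) / 4 + Q)) := by
  have oz : Od (1 / 4 + Q) := by
    have h := hQ.add quarter_mem
    rwa [add_comm] at h
  have q6 : lm ^ 5 * ((1 + lm) / 4) ∈ PP.lattice := by
    have e : lm ^ 5 * ((1 + lm) / 4) = lm * (lm ^ 4 * (1 / 4)) + lm ^ 2 * (lm ^ 4 * (1 / 4)) := by
      ring
    rw [e]
    exact add_mem (lm_mem_mul quarter_mem) (lm_pow_mem quarter_mem 2)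
  have oz' : Od ((1 + lm) / 4 + Q) := by
    have h := hQ.add q6
    rwa [add_comm] at h
  -- the four pairs
  have a1 : E1 (1 / 4 + Q) + E1 (1 / 4 + -Q + (1 / 2 + pe)) = -(om * ff (1 / 4 + Q)) := by
    have e : E1 (1 / 4 + -Q + (1 / 2 + pe)) = -E1 (1 / 4 + Q + pe) := by
      rw [← S3.E1_neg]
      refine E1_congr' ?_
      have e1 : 1 / 4 + -Q + (1 / 2 + pe) - -(1 / 4 + Q + pe) = 1 + 2 * pe := by ring
      rw [e1]
      exact add_mem one_mem two_pe_mem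
    rw [e, ← sub_eq_add_neg, E1_sub_pe]
  have a2 : E1 (1 / 4 + -Q) + E1 (1 / 4 + Q + (1 / 2 + pe)) =
      -(om * (2 * rt / ff (1 / 4 + Q))) := by
    have e : E1 (1 / 4 + -Q) = -E1 (1 / 4 + Q + 1 / 2) := by
      rw [← S3.E1_neg]
      refine E1_congr' ?_
      have e1 : 1 / 4 + -Q - -(1 / 4 + Q + 1 / 2) = 1 := by ring
      rw [e1]
      exact one_mem
    have e2 : 1 / 4 + Q + (1 / 2 + pe) = 1 / 4 + Q + 1 / 2 + pe := by ring
    rw [e, e2, E1_add_pe, ff_half_eq oz.two]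
    ring
  have a3 : E1 (1 / 4 + Q - (lm / 4 + 1 / 2)) + E1 (1 / 4 + -Q - lm / 4) =
      -(om * (2 * rt / ff ((1 + lm) / 4 + Q))) := by
    have e : E1 (1 / 4 + -Q - lm / 4) = -E1 ((1 + lm) / 4 + Q + 1 / 2) := by
      rw [← S3.E1_neg]
      refine E1_congr' ?_
      have e1 : 1 / 4 + -Q - lm / 4 - -((1 + lm) / 4 + Q + 1 / 2) = 1 := by ring
      rw [e1]
      exact one_mem
    have e2 : E1 (1 / 4 + Q - (lm / 4 + 1 / 2)) = E1 ((1 + lm) / 4 + Q + 1 / 2 + pe) := by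
      refine E1_congr' ?_
      have e1 : 1 / 4 + Q - (lm / 4 + 1 / 2) - ((1 + lm) / 4 + Q + 1 / 2 + pe) = -1 := by
        rw [pe_eq]
        ring
      rw [e1]
      exact neg_mem one_mem
    rw [e, e2, E1_add_pe, ff_half_eq oz'.two]
    ring
  have a4 : E1 (1 / 4 + Q - lm / 4) + E1 (1 / 4 + -Q - (lm / 4 + 1 / 2)) =
      om * ff ((1 + lm) / 4 + Q) := by
    have e : E1 (1 / 4 + -Q - (lm / 4 + 1 / 2)) = -E1 ((1 + lm) / 4 + Q) := by
      rw [← S3.E1_neg]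
      congr 1
      ring
    have e2 : E1 (1 / 4 + Q - lm / 4) = E1 ((1 + lm) / 4 + Q + pe) := by
      congr 1
      rw [pe_eq]
      ring
    rw [e, e2, E1_add_pe]
    ring
  rw [U0_eq, U0_eq, hh, hh]
  linear_combination a1 + a2 - ep * (a3 + a4)

theorem v_hh (hB : (2 : ℂ)⁻¹ ∉ B) {z c : ℂ} (hz : Od z) (hc : Cc c) :
    B.valuation (hh c z / lm ^ 3) ≤ 1 := by
  have hl := lm_ne
  have hs := sl8_ne
  have h1 := hh_sq c hz.two
  have ha : al (lm * z) ≠ 0 := (Rt_al hB hz.mul_lm).ne_zero one_ne_zero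
  have r1 : Rt B ((xx (lm * z) - c) / sl8 ^ 5) 1 := by
    have h2 := Rt_add_c hB hz.mul_lm hc.neg
    rwa [← sub_eq_add_neg] at h2
  have es : lm = sl8 ^ 2 := sl8_sq.symm
  have e : (hh c z / lm ^ 3) ^ 2 = ((xx (lm * z) - c) / sl8 ^ 5) ^ 2 * (al (lm * z))⁻¹ := by
    have h3 : hh c z ^ 2 * (lm * al (lm * z)) = lm ^ 2 * (xx (lm * z) - c) ^ 2 := by
      rw [← xx_al, h1, lm_sq]
    have h4 : (sl8 ^ 5) ^ 2 = lm ^ 5 := by
      rw [es]
      ring
    rw [div_pow, div_pow, h4]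
    field_simp
    apply mul_left_cancel₀ hl
    linear_combination h3
  refine (Rt_of_sq hB (x := hh c z / lm ^ 3) ?_).le
  rw [e]
  refine Rt_mul1 hB ?_ (Rt_inv1 (Rt_al hB hz.mul_lm))
  rw [pow_two]
  exact Rt_mul1 hB r1 r1

theorem v_U0_add (hB : (2 : ℂ)⁻¹ ∉ B) {ep Q : ℂ} (hep : ep = 1 ∨ ep = -1) (hQ : Od Q) :
    B.valuation ((U0 ep Q + U0 ep (-Q)) / (om * lm ^ 3)) ≤ 1 := by
  have hl := lm_ne
  have ho := om_ne
  have oz : Od (1 / 4 + Q) := by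
    have h := hQ.add quarter_mem
    rwa [add_comm] at h
  have q6 : lm ^ 5 * ((1 + lm) / 4) ∈ PP.lattice := by
    have e : lm ^ 5 * ((1 + lm) / 4) = lm * (lm ^ 4 * (1 / 4)) + lm ^ 2 * (lm ^ 4 * (1 / 4)) := by
      ring
    rw [e]
    exact add_mem (lm_mem_mul quarter_mem) (lm_pow_mem quarter_mem 2)
  have oz' : Od ((1 + lm) / 4 + Q) := by
    have h := hQ.add q6
    rwa [add_comm] at h
  have e : (U0 ep Q + U0 ep (-Q)) / (om * lm ^ 3) =
      -(hh rt (1 / 4 + Q) / lm ^ 3 + ep * (hh (-rt) ((1 + lm) / 4 + Q) / lm ^ 3)) := by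
    rw [U0_add hQ]
    field_simp
  rw [e, Valuation.map_neg]
  refine (Valuation.map_add _ _ _).trans (max_le (v_hh hB oz (Or.inl rfl)) ?_)
  have h1 : B.valuation ep = 1 := by
    rcases hep with rfl | rfl
    · exact map_one _
    · rw [Valuation.map_neg, map_one]
  rw [map_mul, h1, one_mul]
  exact v_hh hB oz' (Or.inr rfl)

/-! ### The value at zero -/

theorem U0_zero (ep : ℂ) : 2 * U0 ep 0 =
    -om * (hh rt (1 / 4) + ep * hh (-rt) ((1 + lm) / 4)) := by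
  have a1 : E1 (1 / 4) + E1 (1 / 4 + (1 / 2 + pe)) = -(om * ff (1 / 4)) := by
    have e : E1 (1 / 4 + (1 / 2 + pe)) = -E1 (1 / 4 + pe) := by
      rw [← S3.E1_neg]
      refine E1_congr' ?_
      have e1 : 1 / 4 + (1 / 2 + pe) - -(1 / 4 + pe) = 1 + 2 * pe := by ring
      rw [e1]
      exact add_mem one_mem two_pe_mem
    rw [e, ← sub_eq_add_neg, E1_sub_pe]
  have a2 : E1 (1 / 4) + E1 (1 / 4 + (1 / 2 + pe)) = -(om * (2 * rt / ff (1 / 4))) := by
    have e : E1 (1 / 4) = -E1 (1 / 4 + 1 / 2) := by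
      rw [← S3.E1_neg]
      refine E1_congr' ?_
      have e1 : 1 / 4 - -(1 / 4 + 1 / 2) = (1 : ℂ) := by ring
      rw [e1]
      exact one_mem
    have e2 : (1 : ℂ) / 4 + (1 / 2 + pe) = 1 / 4 + 1 / 2 + pe := by ring
    rw [e2, E1_add_pe, ff_half_eq four_notMem]
    have e3 : E1 (1 / 4 + 1 / 2) = -E1 (1 / 4) := by rw [e]; ring
    rw [e3]
    ring
  have a3 : E1 (1 / 4 - (lm / 4 + 1 / 2)) + E1 (1 / 4 - lm / 4) =
      -(om * (2 * rt / ff ((1 + lm) / 4))) := by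
    have e : E1 (1 / 4 - lm / 4) = -E1 ((1 + lm) / 4 + 1 / 2) := by
      rw [← S3.E1_neg]
      refine E1_congr' ?_
      have e1 : 1 / 4 - lm / 4 - -((1 + lm) / 4 + 1 / 2) = 1 := by ring
      rw [e1]
      exact one_mem
    have e2 : E1 (1 / 4 - (lm / 4 + 1 / 2)) = E1 ((1 + lm) / 4 + 1 / 2 + pe) := by
      refine E1_congr' ?_
      have e1 : 1 / 4 - (lm / 4 + 1 / 2) - ((1 + lm) / 4 + 1 / 2 + pe) = -1 := by
        rw [pe_eq]
        ring
      rw [e1]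
      exact neg_mem one_mem
    rw [e, e2, E1_add_pe, ff_half_eq quarter_notMem]
    ring
  have a4 : E1 (1 / 4 - lm / 4) + E1 (1 / 4 - (lm / 4 + 1 / 2)) =
      om * ff ((1 + lm) / 4) := by
    have e : E1 (1 / 4 - (lm / 4 + 1 / 2)) = -E1 ((1 + lm) / 4) := by
      rw [← S3.E1_neg]
      congr 1
      ring
    have e2 : E1 (1 / 4 - lm / 4) = E1 ((1 + lm) / 4 + pe) := by
      congr 1
      rw [pe_eq]
      ring
    rw [e, e2, E1_add_pe]
    ring
  rw [U0_eq, hh, hh, add_zero]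
  linear_combination a1 + a2 - ep * (a3 + a4)

theorem hh_quarter_sq : hh rt (1 / 4) ^ 2 = 8 * rt := by
  have h := hh_sq rt four_notMem
  have e : lm * (1 / 4) = lm / 4 := by ring
  rw [e, xx_lm4] at h
  apply mul_right_cancel₀ rt_ne
  linear_combination -h

theorem hh_quarter_sq' : hh (-rt) ((1 + lm) / 4) ^ 2 = -8 * rt := by
  have h := hh_sq (-rt) quarter_notMem
  have e : lm * ((1 + lm) / 4) = lm / 4 + 1 / 2 + (-1) := by linear_combination (1 / 4) * lm_sq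
  rw [e, xx_add (neg_mem one_mem), xx_lm4_half] at h
  apply mul_right_cancel₀ rt_ne
  linear_combination h

/-- **The value at zero.** -/
theorem U0_zero_pow {ep : ℂ} (hep : ep = 1 ∨ ep = -1) : (U0 ep 0 / om) ^ 4 = lm ^ 10 := by
  have ho := om_ne
  have h := U0_zero ep
  have h1 := hh_quarter_sq
  have h2 := hh_quarter_sq'
  obtain ⟨a, ha⟩ : ∃ a, a = hh rt (1 / 4) := ⟨_, rfl⟩
  obtain ⟨b, hb⟩ : ∃ b, b = hh (-rt) ((1 + lm) / 4) := ⟨_, rfl⟩
  rw [← ha, ← hb] at h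
  rw [← ha] at h1
  rw [← hb] at h2
  have e : U0 ep 0 / om = -(a + ep * b) / 2 := by
    rw [div_eq_div_iff ho two_ne_zero]
    linear_combination h
  have e10 : lm ^ 10 = -32 := by
    have e1 : lm ^ 10 = lm ^ 4 * lm ^ 4 * lm ^ 2 := by ring
    rw [e1, lm_four, lm_sq]
    norm_num
  have hep2 : ep ^ 2 = 1 := by rcases hep with rfl | rfl <;> norm_num
  have e2 : (a + ep * b) ^ 2 = 2 * ep * a * b := by
    linear_combination h1 + ep ^ 2 * h2 - 8 * rt * hep2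
  have e3 : (-(a + ep * b) / 2) ^ 4 = ((a + ep * b) ^ 2) ^ 2 / 16 := by ring
  rw [e, e3, e2, e10]
  linear_combination (ep ^ 2 * b ^ 2 / 4) * h1 + (ep ^ 2 * 2 * rt) * h2 - (16 * ep ^ 2) * rt_sq -
    32 * hep2

end

end Pool.Agent.Lib.MP_1a91b9_ntW
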