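import Pool.Agent.Lib.MP_1a91b9_ntW.A.Uj1

/-!
# Phase 6, part A, file Uv1: the function `uu` modulo the place (`j = 1`)

`Cm B x y`: `x` and `y` are congruent modulo the maximal ideal of `B`. Section 3 (`j = 1`) of the page.
-/

set_option autoImplicit false
set_option linter.unusedSectionVars false

namespace Pool.Agent.Lib.MP_1a91b9_ntW

open NumberField Pool.Agent.Lib.MP_1a91b9_nuT Pool.Agent.Lib.MP_1a91b9_nuT.S3
  Pool.Agent.Lib.MP_1a91b9_nuT.Ell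
open Pool.Agent.Lib.MP_1a91b9_ntQ (em em_add em_mul em_pow em_sub em_zero em_one em_ne Rt two_lt)

noncomputable section

/-- congruence modulo the maximal ideal -/
def Cm (B : ValuationSubring ℂ) (x y : ℂ) : Prop := B.valuation (x - y) < 1

section
variable {B : ValuationSubring ℂ} {x y z w : ℂ}

theorem Cm.refl (x : ℂ) : Cm B x x := by
  unfold Cm
  simp

theorem Cm.symm (h : Cm B x y) : Cm B y x := by
  unfold Cm at h ⊢
  rwa [Valuation.map_sub_swap]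

theorem Cm.trans (h : Cm B x y) (h1 : Cm B y z) : Cm B x z := by
  unfold Cm at h h1 ⊢
  have e : x - z = (x - y) + (y - z) := by ring
  rw [e]
  exact Valuation.map_add_lt _ h h1

theorem Cm.add (h : Cm B x y) (h1 : Cm B z w) : Cm B (x + z) (y + w) := by
  unfold Cm at h h1 ⊢
  have e : x + z - (y + w) = (x - y) + (z - w) := by ring
  rw [e]
  exact Valuation.map_add_lt _ h h1

theorem Cm.sub (h : Cm B x y) (h1 : Cm B z w) : Cm B (x - z) (y - w) := by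
  unfold Cm at h h1 ⊢
  have e : x - z - (y - w) = (x - y) - (z - w) := by ring
  rw [e]
  exact Valuation.map_sub_lt _ h h1

theorem Cm.mul (h : Cm B x y) (h1 : Cm B z w) (hx : B.valuation x ≤ 1) (hw : B.valuation w ≤ 1) :
    Cm B (x * z) (y * w) := by
  unfold Cm at h h1 ⊢
  have e : x * z - y * w = x * (z - w) + (x - y) * w := by ring
  rw [e]
  refine Valuation.map_add_lt _ ?_ ?_
  · rw [map_mul, mul_comm]
    exact mul_lt_one_of_lt_of_le h1 hx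
  · rw [map_mul]
    exact mul_lt_one_of_lt_of_le h hw

theorem Cm.neg (hB : (2 : ℂ)⁻¹ ∉ B) (hx : B.valuation x ≤ 1) : Cm B (-x) x := by
  unfold Cm
  have e : -x - x = -(2 * x) := by ring
  rw [e, Valuation.map_neg, map_mul]
  exact mul_lt_one_of_lt_of_le (two_lt hB) hx

theorem Cm.of_Rt (h : Rt B x 1) : Cm B x 1 := by
  unfold Rt at h
  unfold Cm
  rwa [ZMod.val_one, Nat.cast_one] at h

theorem Cm.le (h : Cm B x y) (hy : B.valuation y ≤ 1) : B.valuation x ≤ 1 := by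
  have e : x = (x - y) + y := by ring
  rw [e]
  unfold Cm at h
  exact (Valuation.map_add _ _ _).trans (max_le h.le hy)

/-- multiplication by a number congruent to one -/
theorem Cm.mul_unit (h : Cm B x y) (hx : B.valuation x ≤ 1) (hz : Rt B z 1) :
    Cm B (x * z) y := by
  have h1 := h.mul (Cm.of_Rt hz) hx (map_one B.valuation).le
  rwa [mul_one] at h1

theorem Rt_inv1 (h : Rt B x 1) : Rt B x⁻¹ 1 := by
  have h0 := h.ne_zero one_ne_zero
  have hu := h.unit one_ne_zero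
  unfold Rt at h ⊢
  rw [ZMod.val_one, Nat.cast_one] at h ⊢
  have e : x⁻¹ - 1 = -((x - 1) * x⁻¹) := by
    field_simp
    ring
  rw [e, Valuation.map_neg, map_mul, map_inv₀, hu, inv_one, mul_one]
  exact h

theorem Rt_mul1 (hB : (2 : ℂ)⁻¹ ∉ B) (h : Rt B x 1) (h1 : Rt B y 1) : Rt B (x * y) 1 := by
  have h2 := h.mul hB h1
  rwa [mul_one] at h2

theorem Rt_cm {r : ZMod 2} (h : Rt B x r) (h1 : Cm B y x) : Rt B y r :=
  h.congr h1

end

variable [CD] [hq : Q8] {B : ValuationSubring ℂ}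

theorem al_add_sign (hB : (2 : ℂ)⁻¹ ∉ B) {z s : ℂ} (hz : Od z) (hs : s = 1 ∨ s = -1) :
    Rt B ((al z + s) / lm) 1 := by
  have hl := lm_ne
  have h2 := lm_sq
  rcases hs with rfl | rfl
  · have e : (al z + 1) / lm = be z + -lm := by
      rw [al_be, div_eq_iff hl]
      linear_combination h2
    rw [e]
    have h := (Rt_be hB hz).add hB ((Rt_lm hB).neg hB)
    rwa [add_zero] at h
  · have e : (al z + -1) / lm = be z := by
      rw [al_be, div_eq_iff hl]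
      ring
    rw [e]
    exact Rt_be hB hz

/-- `al * al' + 1` -/
theorem al_mul (Q : ℂ) : (al (lm * Q) * al (lm * (lm * Q)) + 1) / lm ^ 2 =
    lm * ((1 - lm ^ 3) / 9) + r0 * (xi (lm * Q) + xi (lm * (lm * Q))) +
      lm ^ 2 * (xi (lm * Q) * xi (lm * (lm * Q))) := by
  have hl := lm_ne
  have h2 := lm_sq (hq := hq)
  have hr := r0_eq
  rw [al, al, div_eq_iff (pow_ne_zero 2 hl)]
  linear_combination ((1 / 3) * r0 + (1 - lm) / 9) * hr +
    ((4 : ℂ) / 9 - 2 * lm ^ 2 / 9 + (lm ^ 2) ^ 2 / 9 + 1 / 9 - lm / 9) * h2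

theorem v_xi_sum (hB : (2 : ℂ)⁻¹ ∉ B) {Q : ℂ} (hQ : Od Q) :
    B.valuation (xi (lm * Q) + xi (lm * (lm * Q))) ≤ 1 :=
  (Valuation.map_add _ _ _).trans (max_le (v_xi_le hB hQ.mul_lm) (v_xi_le hB hQ.mul_lm.mul_lm))

theorem X2_ne (hB : (2 : ℂ)⁻¹ ∉ B) {z : ℂ} (hz : Od z) : xx z ^ 2 - 2 ≠ 0 := by
  have h := (Rt_sq_sub hB hz).ne_zero one_ne_zero
  intro h0
  rw [h0, zero_div] at h
  exact h rfl

/-- **The even part.** -/
theorem uu_ev (hB : (2 : ℂ)⁻¹ ∉ B) {ep Q : ℂ} (hep : ep = 1 ∨ ep = -1) (hQ : Od Q) :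
    Cm B ((uu ep Q + uu ep (-Q)) / (c0 * lm ^ 2)) (xi (lm * Q) + xi (lm * (lm * Q))) := by
  have hl := lm_ne
  have hc := c0_ne
  have h2 := lm_sq (hq := hq)
  have ha : al Q ≠ 0 := (Rt_al hB hQ).ne_zero one_ne_zero
  have ha1 : al (lm * Q) ≠ 0 := (Rt_al hB hQ.mul_lm).ne_zero one_ne_zero
  have n3 : xx (lm * (lm * Q)) + rt ≠ 0 := add_c_ne hB hQ.mul_lm.mul_lm (Or.inl rfl)
  have n4 : xx (lm * (lm * Q)) - rt ≠ 0 := by
    have := add_c_ne hB hQ.mul_lm.mul_lm (Or.inr rfl)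
    rwa [← sub_eq_add_neg] at this
  have hr2 := rt_sq
  have n5 := X2_ne hB hQ.mul_lm.mul_lm
  -- the unit
  have u1 : Rt B ((xx Q ^ 2 - 2) / lm ^ 5 * (al Q * al (lm * Q) *
      ((xx (lm * (lm * Q)) ^ 2 - 2) / lm ^ 5))⁻¹) 1 := by
    exact Rt_mul1 hB (Rt_sq_sub hB hQ) (Rt_inv1 (Rt_mul1 hB (Rt_mul1 hB (Rt_al hB hQ)
      (Rt_al hB hQ.mul_lm)) (Rt_sq_sub hB hQ.mul_lm.mul_lm)))
  have hs := v_xi_sum hB hQ
  have v1 := v_xi_le hB hQ.mul_lm
  have v2 := v_xi_le hB hQ.mul_lm.mul_lm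
  have a0 := xx_al Q
  have a1 := xx_al (lm * Q)
  rcases hep with rfl | rfl
  · have e : (uu 1 Q + uu 1 (-Q)) / (c0 * lm ^ 2) =
        (xi (lm * (lm * Q)) - xi (lm * Q)) * (rt / lm * ((xx Q ^ 2 - 2) / lm ^ 5 *
          (al Q * al (lm * Q) * ((xx (lm * (lm * Q)) ^ 2 - 2) / lm ^ 5))⁻¹)) := by
      have e1 : (xx (lm * Q) + rt) / (xx (lm * (lm * Q)) + rt) -
          1 * ((xx (lm * Q) - rt) / (xx (lm * (lm * Q)) - rt)) =
          2 * rt * (xx (lm * (lm * Q)) - xx (lm * Q)) / (xx (lm * (lm * Q)) ^ 2 - 2) := by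
        rw [one_mul, div_sub_div _ _ n3 n4, div_eq_div_iff (mul_ne_zero n3 n4) n5]
        linear_combination (2 * rt * (xx (lm * (lm * Q)) - xx (lm * Q))) * hr2
      have e2 : xx (lm * (lm * Q)) - xx (lm * Q) = lm ^ 3 * (xi (lm * (lm * Q)) - xi (lm * Q)) := by
        rw [xx_xi (lm * Q), xx_xi (lm * (lm * Q))]
        ring
      rw [uu_add hQ hB, e1, e2]
      have e3 : c0 * (xx Q ^ 2 - 2) / (2 * (xx Q * xx (lm * Q))) *
          (2 * rt * (lm ^ 3 * (xi (lm * (lm * Q)) - xi (lm * Q))) /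
            (xx (lm * (lm * Q)) ^ 2 - 2)) / (c0 * lm ^ 2) =
          c0 * (xx Q ^ 2 - 2) / (2 * ((lm * al Q) * (lm * al (lm * Q)))) *
          (2 * rt * (lm ^ 3 * (xi (lm * (lm * Q)) - xi (lm * Q))) /
            (xx (lm * (lm * Q)) ^ 2 - 2)) / (c0 * lm ^ 2) := by
        rw [← a0, ← a1]
      rw [e3]
      field_simp
    rw [e]
    refine Cm.mul_unit ?_ ?_ ?_
    · have h := (Cm.refl (B := B) (xi (lm * (lm * Q)))).add (Cm.neg hB v1)
      rw [← sub_eq_add_neg, add_comm (xi (lm * (lm * Q))) (xi (lm * Q))] at h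
      exact h
    · exact (Valuation.map_sub _ _ _).trans (max_le v2 v1)
    · exact Rt_mul1 hB (Rt_rt hB) u1
  · have e : (uu (-1) Q + uu (-1) (-Q)) / (c0 * lm ^ 2) =
        (al (lm * Q) * al (lm * (lm * Q)) + 1) / lm ^ 2 * ((xx Q ^ 2 - 2) / lm ^ 5 *
          (al Q * al (lm * Q) * ((xx (lm * (lm * Q)) ^ 2 - 2) / lm ^ 5))⁻¹) := by
      have e1 : (xx (lm * Q) + rt) / (xx (lm * (lm * Q)) + rt) -
          -1 * ((xx (lm * Q) - rt) / (xx (lm * (lm * Q)) - rt)) =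
          2 * (xx (lm * Q) * xx (lm * (lm * Q)) - 2) / (xx (lm * (lm * Q)) ^ 2 - 2) := by
        rw [neg_one_mul, sub_neg_eq_add, div_add_div _ _ n3 n4, div_eq_div_iff (mul_ne_zero n3 n4) n5]
        linear_combination (2 * (xx (lm * Q) * xx (lm * (lm * Q)) -
          xx (lm * (lm * Q)) ^ 2)) * hr2
      have e2 : xx (lm * Q) * xx (lm * (lm * Q)) - 2 =
          lm ^ 2 * (al (lm * Q) * al (lm * (lm * Q)) + 1) := by
        rw [xx_al (lm * Q), xx_al (lm * (lm * Q))]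
        linear_combination -h2
      rw [uu_add hQ hB, e1, e2]
      have e3 : c0 * (xx Q ^ 2 - 2) / (2 * (xx Q * xx (lm * Q))) *
          (2 * (lm ^ 2 * (al (lm * Q) * al (lm * (lm * Q)) + 1)) /
            (xx (lm * (lm * Q)) ^ 2 - 2)) / (c0 * lm ^ 2) =
          c0 * (xx Q ^ 2 - 2) / (2 * ((lm * al Q) * (lm * al (lm * Q)))) *
          (2 * (lm ^ 2 * (al (lm * Q) * al (lm * (lm * Q)) + 1)) /
            (xx (lm * (lm * Q)) ^ 2 - 2)) / (c0 * lm ^ 2) := by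
        rw [← a0, ← a1]
      rw [e3]
      field_simp
    have h4 : Cm B ((al (lm * Q) * al (lm * (lm * Q)) + 1) / lm ^ 2)
        (xi (lm * Q) + xi (lm * (lm * Q))) := by
      rw [al_mul]
      have k1 : Cm B (lm * ((1 - lm ^ 3) / 9)) 0 := by
        unfold Cm
        rw [sub_zero, map_mul]
        refine mul_lt_one_of_lt_of_le (v_lm_lt hB) ?_
        have e9 : (9 : ℂ) = 3 * 3 := by norm_num
        rw [map_div₀, e9, map_mul, v_three hB, mul_one, div_one]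
        refine (Valuation.map_sub _ _ _).trans (max_le (map_one _).le ?_)
        rw [map_pow]
        exact pow_le_one₀ zero_le (v_lm_le hB)
      have k2 : Cm B (lm ^ 2 * (xi (lm * Q) * xi (lm * (lm * Q)))) 0 := by
        unfold Cm
        rw [sub_zero, map_mul, map_pow, map_mul]
        exact mul_lt_one_of_lt_of_le (pow_lt_one₀ zero_le (v_lm_lt hB) two_ne_zero)
          (mul_le_one' v1 v2)
      have k3 : Cm B (r0 * (xi (lm * Q) + xi (lm * (lm * Q))))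
          (xi (lm * Q) + xi (lm * (lm * Q))) := by
        rw [mul_comm]
        exact Cm.mul_unit (Cm.refl _) hs (Rt_r0 hB)
      have k4 := (k1.add k3).add k2
      rwa [zero_add, add_zero] at k4
    rw [e]
    exact Cm.mul_unit h4 (h4.le hs) u1

/-! ### The odd part -/

/-- the constant `(p ^ 2 - 2) / Y (P)` -/
def gg (P : ℂ) : ℂ := (xx P ^ 2 - 2) / yy P

theorem gg_sq {c P : ℂ} (h : Bp c P) (hP : 2 * P ∉ PP.lattice) :
    gg P ^ 2 = -4 * c := by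
  have h1 := sq_form hP
  have h2 := yy_sq_lm hP
  have h3 := h.eq
  have hx := xx_ne hP
  have hy := yy_ne hP
  rw [gg, div_pow, h1, div_eq_iff (pow_ne_zero 2 hy), h2]
  linear_combination (4 * xx P ^ 2) * h3

theorem gg0_sq : gg z0 ^ 2 = -4 * rt := gg_sq bp0 z0_two

theorem gg1_sq : gg z1 ^ 2 = 4 * rt := by
  rw [gg_sq bp1 z1_two]
  ring

theorem gg0_ne : gg z0 ≠ 0 := by
  intro h
  have h1 := gg0_sq
  rw [h] at h1
  apply rt_ne
  linear_combination (1 / 4) * h1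

/-- the square root of `-1` -/
theorem ii_sq {ep : ℂ} (hep : ep = 1 ∨ ep = -1) : (ep * (gg z1 / gg z0)) ^ 2 = -1 := by
  have h0 := gg0_ne
  have h1 := gg0_sq
  have h2 := gg1_sq
  have e : ep ^ 2 = 1 := by rcases hep with rfl | rfl <;> norm_num
  rw [mul_pow, e, one_mul, div_pow, h1, h2]
  have := rt_ne
  field_simp

theorem Rt_one_add (hB : (2 : ℂ)⁻¹ ∉ B) {i : ℂ} (hi : i ^ 2 = -1) : Rt B ((1 + i) / lm) 1 := by
  have h1 : Rt B i 1 := Rt_of_sq hB (by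
    rw [hi]
    exact Rt.neg hB Rt.one)
  refine Rt_of_sq hB ?_
  have e : ((1 + i) / lm) ^ 2 = -i := by
    rw [div_pow, lm_sq]
    linear_combination (-1 / 2) * hi
  rw [e]
  exact h1.neg hB

theorem sign_of_sq {x y : ℂ} (h : x ^ 2 = y ^ 2) : ∃ s : ℂ, (s = 1 ∨ s = -1) ∧ x = y * s := by
  rcases sq_eq_sq_iff_eq_or_eq_neg.1 h with h1 | h1
  · exact ⟨1, Or.inl rfl, by rw [h1, mul_one]⟩
  · exact ⟨-1, Or.inr rfl, by rw [h1]; ring⟩

theorem br_eq {X1 X2 r i : ℂ} (hr : r ^ 2 = 2) (hi : i ^ 2 = -1) (n3 : X2 + r ≠ 0)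
    (n4 : X2 - r ≠ 0) : (X1 + r) / (X2 + r) + i * ((X1 - r) / (X2 - r)) =
      (1 + i) * (1 + (X1 - X2) * (X2 + i * r) / (X2 ^ 2 - 2)) := by
  have e : X2 ^ 2 - 2 = (X2 + r) * (X2 - r) := by linear_combination hr
  rw [e]
  field_simp
  linear_combination (-r * (X1 - X2)) * hi

/-- **The odd part.** -/
theorem uu_od (hB : (2 : ℂ)⁻¹ ∉ B) {ep Q : ℂ} (hep : ep = 1 ∨ ep = -1) (hQ : Od Q) :
    Cm B ((uu ep Q - uu ep (-Q)) / (c0 * lm ^ 2)) (1 + xi (lm * Q) + xi (lm * (lm * Q))) := by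
  have hl := lm_ne
  have hc := c0_ne
  have h2 := lm_sq (hq := hq)
  have ha1 : al (lm * Q) ≠ 0 := (Rt_al hB hQ.mul_lm).ne_zero one_ne_zero
  have n3 : xx (lm * (lm * Q)) + rt ≠ 0 := add_c_ne hB hQ.mul_lm.mul_lm (Or.inl rfl)
  have n4 : xx (lm * (lm * Q)) - rt ≠ 0 := by
    have := add_c_ne hB hQ.mul_lm.mul_lm (Or.inr rfl)
    rwa [← sub_eq_add_neg] at this
  have hr2 := rt_sq
  have n5 := X2_ne hB hQ.mul_lm.mul_lm
  have v1 := v_xi_le hB hQ.mul_lm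
  have v2 := v_xi_le hB hQ.mul_lm.mul_lm
  have hg := gg0_ne
  obtain ⟨i, hi⟩ : ∃ i, i = ep * (gg z1 / gg z0) := ⟨_, rfl⟩
  have hi2 : i ^ 2 = -1 := by rw [hi]; exact ii_sq hep
  have hg1 : ep * gg z1 = gg z0 * i := by
    rw [hi]
    field_simp
  obtain ⟨s, hs, hs1⟩ : ∃ s : ℂ, (s = 1 ∨ s = -1) ∧ i * rt = lm * s := by
    refine sign_of_sq ?_
    rw [mul_pow, hi2, hr2, h2]
    norm_num
  have hy := yy_ne hQ.two
  -- the units
  have u1 : Rt B (gg z0 * (xx Q / yy Q) / lm) 1 := by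
    refine Rt_of_sq hB ?_
    have e : (gg z0 * (xx Q / yy Q) / lm) ^ 2 = -(rt / lm * (al (lm * Q))⁻¹) := by
      have h3 := yy_sq_lm hQ.two
      have hx := xx_ne hQ.two
      have e1 : (gg z0 * (xx Q / yy Q) / lm) ^ 2 = gg z0 ^ 2 * xx Q ^ 2 / (yy Q ^ 2 * lm ^ 2) := by
        field_simp
      rw [e1, h3, gg0_sq, xx_al (lm * Q), h2]
      field_simp
      ring
    rw [e]
    exact (Rt_mul1 hB (Rt_rt hB) (Rt_inv1 (Rt_al hB hQ.mul_lm))).neg hB
  have u2 := Rt_one_add hB hi2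
  have u3 : Rt B ((al (lm * (lm * Q)) + s) / lm *
      ((xx (lm * (lm * Q)) ^ 2 - 2) / lm ^ 5)⁻¹) 1 :=
    Rt_mul1 hB (al_add_sign hB hQ.mul_lm.mul_lm hs) (Rt_inv1 (Rt_sq_sub hB hQ.mul_lm.mul_lm))
  have e : (uu ep Q - uu ep (-Q)) / (c0 * lm ^ 2) = (1 + (xi (lm * Q) - xi (lm * (lm * Q))) *
      ((al (lm * (lm * Q)) + s) / lm * ((xx (lm * (lm * Q)) ^ 2 - 2) / lm ^ 5)⁻¹)) *
      (gg z0 * (xx Q / yy Q) / lm * ((1 + i) / lm)) := by
    have e0 := uu_sub (ep := ep) hQ hB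
    have e1 : (xx z0 ^ 2 - 2) / yy z0 * ((xx (lm * Q) + rt) / (xx (lm * (lm * Q)) + rt)) +
        ep * ((xx z1 ^ 2 - 2) / yy z1 * ((xx (lm * Q) - rt) / (xx (lm * (lm * Q)) - rt))) =
        gg z0 * ((1 + i) * (1 + (xx (lm * Q) - xx (lm * (lm * Q))) *
          (xx (lm * (lm * Q)) + i * rt) / (xx (lm * (lm * Q)) ^ 2 - 2))) := by
      have e2 : ep * ((xx z1 ^ 2 - 2) / yy z1 * ((xx (lm * Q) - rt) /
          (xx (lm * (lm * Q)) - rt))) = gg z0 * i * ((xx (lm * Q) - rt) /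
          (xx (lm * (lm * Q)) - rt)) := by
        rw [← hg1, gg]
        ring
      rw [e2]
      change gg z0 * _ + _ = _
      rw [mul_assoc, ← mul_add]
      congr 1
      exact br_eq hr2 hi2 n3 n4
    have e2 : xx (lm * Q) - xx (lm * (lm * Q)) = lm ^ 3 * (xi (lm * Q) - xi (lm * (lm * Q))) := by
      rw [xx_xi (lm * Q), xx_xi (lm * (lm * Q))]
      ring
    have e3 : xx (lm * (lm * Q)) + i * rt = lm * (al (lm * (lm * Q)) + s) := by
      rw [hs1, xx_al (lm * (lm * Q))]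
      ring
    rw [e0, e1, e2, e3]
    field_simp
  rw [e]
  have k1 : Cm B ((xi (lm * Q) - xi (lm * (lm * Q))) * ((al (lm * (lm * Q)) + s) / lm *
      ((xx (lm * (lm * Q)) ^ 2 - 2) / lm ^ 5)⁻¹)) (xi (lm * Q) + xi (lm * (lm * Q))) := by
    refine Cm.mul_unit ?_ ((Valuation.map_sub _ _ _).trans (max_le v1 v2)) u3
    have h := (Cm.refl (B := B) (xi (lm * Q))).add (Cm.neg hB v2)
    rwa [← sub_eq_add_neg] at h
  have k2 := (Cm.refl (B := B) 1).add k1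
  rw [← add_assoc] at k2
  refine Cm.mul_unit k2 (k2.le ?_) (Rt_mul1 hB u1 u2)
  rw [add_assoc]
  exact (Valuation.map_add _ _ _).trans (max_le (map_one _).le (v_xi_sum hB hQ))

/-- the value at zero -/
theorem uu_zero (ep : ℂ) : uu ep 0 = (1 - ep) * c0 := by
  have h1 := hh_z1
  rw [uu, add_zero, sub_zero, sub_zero, add_zero, ← show hh rt z0 = ff z0 + 2 * rt / ff z0 from rfl]
  have e : ff z1 - 2 * rt / ff z1 = hh (-rt) z1 := by
    rw [hh]
    ring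
  rw [e, h1, ← show c0 = hh rt z0 from rfl]
  ring

end

end Pool.Agent.Lib.MP_1a91b9_ntW
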